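import Pool.Agent.Helper37.WMH.Left

/-! Abel means. -/

set_option autoImplicit false

open MeasureTheory Filter Topology Set
open scoped ENNReal

namespace Pool.Agent.Helper37.WMH

open Pool.Agent.H295R2

noncomputable section

/-- an Abel bound from linear growth of the primitive -/
theorem abel_le {f : ℝ → ℝ≥0∞} (hf : Measurable f) {B D c : ℝ} (hB : 0 ≤ B) (hD : 0 ≤ D) (hc : 0 < c)
    (h : ∀ V : ℝ, 0 < V → ∫⁻ u in Ioc 0 V, f u ≤ ENNReal.ofReal (B * V + D)) :
    ∫⁻ u in Ioi (0:ℝ), f u * ENNReal.ofReal (Real.exp (-(2 * c * u))) ≤ ENNReal.ofReal (B / (2 * c) + D) := by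
  set k : ℝ → ℝ := fun V => 2 * c * Real.exp (-(2 * c * V)) with hk
  have hkc : Continuous k := by rw [hk]; fun_prop
  have hk0 : ∀ V, 0 ≤ k V := fun V => by rw [hk]; positivity
  have hexp : ∀ u : ℝ, ENNReal.ofReal (Real.exp (-(2 * c * u))) = ∫⁻ V in Ioi u, ENNReal.ofReal (k V) := by
    intro u
    have h1 := integrableOn_exp_mul_Ioi (a := -(2 * c)) (by linarith) u
    have h2 := integral_exp_mul_Ioi (a := -(2 * c)) (by linarith) u
    have hi : IntegrableOn k (Ioi u) := by
      refine (h1.const_mul (2 * c)).congr (Eventually.of_forall fun V => ?_)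
      simp only [hk, neg_mul]
    rw [← ofReal_integral_eq_lintegral_ofReal hi (Eventually.of_forall hk0)]
    congr 1
    have h3 : ∫ V in Ioi u, k V = 2 * c * ∫ V in Ioi u, Real.exp (-(2 * c) * V) := by
      rw [← integral_const_mul]
      refine integral_congr_ae (Eventually.of_forall fun V => ?_)
      simp only [hk, neg_mul]
    rw [h3, h2, neg_mul]
    field_simp
  have hmk : Measurable (fun p : ℝ × ℝ => ENNReal.ofReal (k p.2)) := (hkc.comp continuous_snd).measurable.ennreal_ofReal
  have hset : MeasurableSet {p : ℝ × ℝ | p.1 < p.2} := measurableSet_lt measurable_fst measurable_snd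
  have hm2 : Measurable (fun p : ℝ × ℝ => f p.1 * ({p : ℝ × ℝ | p.1 < p.2}.indicator (fun p => ENNReal.ofReal (k p.2)) p)) :=
    (hf.comp measurable_fst).mul (hmk.indicator hset)
  have e1 : ∫⁻ u in Ioi (0:ℝ), f u * ENNReal.ofReal (Real.exp (-(2 * c * u))) =
      ∫⁻ u in Ioi (0:ℝ), ∫⁻ V in Ioi (0:ℝ), f u *
        ({p : ℝ × ℝ | p.1 < p.2}.indicator (fun p => ENNReal.ofReal (k p.2)) (u, V)) := by
    refine setLIntegral_congr_fun measurableSet_Ioi fun u hu => ?_
    have hu0 : 0 < u := hu
    have hmu : Measurable (fun V : ℝ => {p : ℝ × ℝ | p.1 < p.2}.indicator (fun p => ENNReal.ofReal (k p.2)) (u, V)) :=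
      (hmk.indicator hset).comp measurable_prodMk_left
    rw [lintegral_const_mul _ hmu, hexp u]
    congr 1
    rw [← lintegral_indicator measurableSet_Ioi, ← lintegral_indicator measurableSet_Ioi]
    refine lintegral_congr fun V => ?_
    by_cases hV : u < V
    · rw [indicator_of_mem (show V ∈ Ioi u from hV), indicator_of_mem (show V ∈ Ioi (0:ℝ) from hu0.trans hV),
        indicator_of_mem (show (u, V) ∈ {p : ℝ × ℝ | p.1 < p.2} from hV)]
    · rw [indicator_of_notMem (show V ∉ Ioi u from hV)]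
      by_cases hV0 : V ∈ Ioi (0:ℝ)
      · rw [indicator_of_mem hV0, indicator_of_notMem (show (u, V) ∉ {p : ℝ × ℝ | p.1 < p.2} from hV)]
      · rw [indicator_of_notMem hV0]
  rw [e1, lintegral_lintegral_swap hm2.aemeasurable]
  -- the primitive
  set F : ℝ → ℝ := fun V => -((B * V + D + B / (2 * c)) * Real.exp (-(2 * c * V))) with hF
  have hder : ∀ V : ℝ, HasDerivAt F (k V * (B * V + D)) V := by
    intro V
    have h1 : HasDerivAt (fun V : ℝ => B * V + D + B / (2 * c)) B V := by
      have := (((hasDerivAt_id V).const_mul B).add_const D).add_const (B / (2 * c))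
      simpa using this
    have h2 : HasDerivAt (fun V : ℝ => Real.exp (-(2 * c * V))) (Real.exp (-(2 * c * V)) * (-(2 * c))) V := by
      have h3 : HasDerivAt (fun V : ℝ => -(2 * c * V)) (-(2 * c)) V := by
        have := ((hasDerivAt_id V).const_mul (2 * c)).fun_neg
        simpa using this
      exact h3.exp
    have h3 := (h1.mul h2).fun_neg
    refine h3.congr_deriv ?_
    rw [hk]
    field_simp
    ring
  have hlim : Tendsto F atTop (𝓝 0) := by
    have h1 : Tendsto (fun V : ℝ => V * Real.exp (-(2 * c * V))) atTop (𝓝 0) := by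
      have h2 := (Real.tendsto_pow_mul_exp_neg_atTop_nhds_zero 1).comp
        (tendsto_id.const_mul_atTop (show 0 < 2 * c by positivity))
      have h3 := h2.const_mul (1 / (2 * c))
      rw [mul_zero] at h3
      refine h3.congr fun V => ?_
      simp only [Function.comp, id, pow_one]
      field_simp
    have h2 : Tendsto (fun V : ℝ => Real.exp (-(2 * c * V))) atTop (𝓝 0) :=
      Real.tendsto_exp_neg_atTop_nhds_zero.comp (tendsto_id.const_mul_atTop (show 0 < 2 * c by positivity))
    have h3 := ((h1.const_mul B).add (h2.const_mul (D + B / (2 * c)))).neg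
    simp only [mul_zero, add_zero, neg_zero] at h3
    refine h3.congr fun V => ?_
    rw [hF]
    ring
  have hnn : ∀ V ∈ Ioi (0:ℝ), 0 ≤ k V * (B * V + D) := by
    intro V hV
    have hV0 : (0:ℝ) < V := hV
    have := hk0 V
    positivity
  have hint : IntegrableOn (fun V => k V * (B * V + D)) (Ioi 0) :=
    integrableOn_Ioi_deriv_of_nonneg' (fun V _ => hder V) hnn hlim
  calc ∫⁻ V in Ioi (0:ℝ), ∫⁻ u in Ioi (0:ℝ), f u *
        ({p : ℝ × ℝ | p.1 < p.2}.indicator (fun p => ENNReal.ofReal (k p.2)) (u, V))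
      ≤ ∫⁻ V in Ioi (0:ℝ), ENNReal.ofReal (k V * (B * V + D)) := by
        refine setLIntegral_mono' measurableSet_Ioi fun V hV => ?_
        have hV0 : (0:ℝ) < V := hV
        calc ∫⁻ u in Ioi (0:ℝ), f u * ({p : ℝ × ℝ | p.1 < p.2}.indicator (fun p => ENNReal.ofReal (k p.2)) (u, V))
            ≤ ∫⁻ u in Ioc 0 V, f u * ENNReal.ofReal (k V) := by
              rw [← lintegral_indicator measurableSet_Ioi, ← lintegral_indicator measurableSet_Ioc]
              refine lintegral_mono fun u => ?_
              by_cases hu : u ∈ Ioi (0:ℝ)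
              · rw [indicator_of_mem hu]
                by_cases huV : u < V
                · rw [indicator_of_mem (show (u, V) ∈ {p : ℝ × ℝ | p.1 < p.2} from huV),
                    indicator_of_mem (show u ∈ Ioc 0 V from ⟨hu, huV.le⟩)]
                · rw [indicator_of_notMem (show (u, V) ∉ {p : ℝ × ℝ | p.1 < p.2} from huV), mul_zero]
                  exact zero_le
              · rw [indicator_of_notMem hu]
                exact zero_le
          _ = (∫⁻ u in Ioc 0 V, f u) * ENNReal.ofReal (k V) := lintegral_mul_const _ hf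
          _ ≤ ENNReal.ofReal (B * V + D) * ENNReal.ofReal (k V) := by
              gcongr
              exact h V hV0
          _ = ENNReal.ofReal (k V * (B * V + D)) := by
              rw [← ENNReal.ofReal_mul (by positivity), mul_comm]
    _ = ENNReal.ofReal (∫ V in Ioi (0:ℝ), k V * (B * V + D)) := by
        rw [ofReal_integral_eq_lintegral_ofReal hint]
        filter_upwards [ae_restrict_mem measurableSet_Ioi] with V hV
        exact hnn V hV
    _ = _ := by
        rw [integral_Ioi_of_hasDerivAt_of_tendsto' (fun V _ => hder V) hint hlim]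
        congr 1
        rw [hF]
        simp
        ring

/-- the Abel mean square -/
def AM (g : ℝ → ℂ) (c : ℝ) : ℝ := ∫ u in Ioi (0:ℝ), ‖g u‖ ^ 2 * Real.exp (-(2 * c * u))

lemma kZ_AM (Z : Finset ℂ) (c : ℝ) : ∫ u : ℝ, ‖kZ Z u‖ ^ 2 * Real.exp (-(2 * c * u)) = AM (fun u => m0 u - PZ Z u) c := by
  unfold AM
  rw [← integral_Ici_eq_integral_Ioi, ← integral_indicator measurableSet_Ici]
  refine integral_congr_ae (Eventually.of_forall fun u => ?_)
  simp only
  unfold kZ
  by_cases hu : u ∈ Ici (0:ℝ)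
  · rw [indicator_of_mem hu, indicator_of_mem hu]
  · rw [indicator_of_notMem hu, indicator_of_notMem hu]
    simp

/-- the mean square of `hh` on a line as an Abel mean -/
theorem hh_line (hR : RHS) {Z : Finset ℂ} (hZ : ∀ ρ ∈ Z, ρ ∈ NT) {c : ℝ} (hc : 0 < c) :
    ∫⁻ t : ℝ, ‖hh Z ⟨1 / 2 + c, t⟩‖ₑ ^ 2 = ENNReal.ofReal (2 * Real.pi * AM (fun u => m0 u - PZ Z u) c) := by
  obtain ⟨h1, h2⟩ := line_planch hR hZ hc
  rw [← kZ_AM, ← h2, ofReal_integral_eq_lintegral_ofReal h1 (Eventually.of_forall fun t => by positivity)]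
  refine lintegral_congr fun t => ?_
  rw [← ofReal_norm, ← ENNReal.ofReal_pow (norm_nonneg _)]

/-- integrability in Abel means -/
lemma kZ_int (hR : RHS) (Z : Finset ℂ) {c : ℝ} (hc : 0 < c) :
    IntegrableOn (fun u => ‖m0 u - PZ Z u‖ ^ 2 * Real.exp (-(2 * c * u))) (Ioi 0) := by
  obtain ⟨C, hC⟩ := kZ_nice hR Z (ε := min (c / 2) 1) (by positivity) (min_le_right _ _)
  have hε : min (c / 2) 1 < c := by
    have := min_le_left (c / 2) 1
    linarith
  have h1 := integrableOn_exp_mul_Ioi (a := 2 * (min (c / 2) 1 - c)) (by linarith) 0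
  refine (h1.const_mul (C ^ 2)).mono' ?_ ?_
  · have hm : Measurable (fun u => ‖m0 u - PZ Z u‖ ^ 2 * Real.exp (-(2 * c * u))) :=
      ((m0_meas.sub (tame_PZ Z).meas).norm.pow_const 2).mul (Continuous.measurable (by fun_prop))
    exact hm.aestronglyMeasurable
  · filter_upwards [ae_restrict_mem measurableSet_Ioi] with u hu
    have h2 := hC.bound u
    unfold kZ at h2
    rw [indicator_of_mem (Ioi_subset_Ici_self hu)] at h2
    rw [Real.norm_of_nonneg (by positivity)]
    have hC0 := hC.C_nonneg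
    calc ‖m0 u - PZ Z u‖ ^ 2 * Real.exp (-(2 * c * u)) ≤ (C * Real.exp (min (c / 2) 1 * u)) ^ 2 * Real.exp (-(2 * c * u)) := by
          gcongr
      _ = C ^ 2 * Real.exp (2 * (min (c / 2) 1 - c) * u) := by
          rw [mul_pow, ← Real.exp_nat_mul, mul_assoc, ← Real.exp_add]
          congr 2
          push_cast
          ring

/-- from linear growth of the mean square to Abel means -/
theorem AM_le {g : ℝ → ℂ} (hg : Measurable g) {B D c : ℝ} (hB : 0 ≤ B) (hD : 0 ≤ D) (hc : 0 < c)
    (hgi : ∀ V, IntegrableOn (fun u => ‖g u‖ ^ 2) (Ioc 0 V))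
    (h : ∀ V : ℝ, 0 < V → ∫ u in Ioc 0 V, ‖g u‖ ^ 2 ≤ B * V + D) :
    AM g c ≤ B / (2 * c) + D := by
  have h1 := abel_le (f := fun u => ENNReal.ofReal (‖g u‖ ^ 2)) ((hg.norm.pow_const 2).ennreal_ofReal) hB hD hc (by
    intro V hV
    rw [← ofReal_integral_eq_lintegral_ofReal (hgi V) (Eventually.of_forall fun t => by positivity)]
    exact ENNReal.ofReal_le_ofReal (h V hV))
  unfold AM
  rw [integral_eq_lintegral_of_nonneg_ae (Eventually.of_forall fun t => by positivity)]
  · apply ENNReal.toReal_le_of_le_ofReal (by positivity)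
    refine le_trans (le_of_eq (lintegral_congr fun u => ?_)) h1
    rw [ENNReal.ofReal_mul (by positivity)]
  · exact ((hg.norm.pow_const 2).mul (Continuous.measurable (by fun_prop))).aestronglyMeasurable

/-- an upper bound for the mean square from Abel means -/
theorem mean_le_AM (hR : RHS) (Z : Finset ℂ) {V : ℝ} (hV : 0 < V) :
    ∫ u in Ioc 0 V, ‖m0 u - PZ Z u‖ ^ 2 ≤ Real.exp 2 * AM (fun u => m0 u - PZ Z u) (1 / V) := by
  unfold AM
  rw [← integral_const_mul]
  have h1 : IntegrableOn (fun u => Real.exp 2 * (‖m0 u - PZ Z u‖ ^ 2 * Real.exp (-(2 * (1 / V) * u)))) (Ioi 0) :=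
    (kZ_int hR Z (c := 1 / V) (by positivity)).const_mul (Real.exp 2)
  calc ∫ u in Ioc 0 V, ‖m0 u - PZ Z u‖ ^ 2
      ≤ ∫ u in Ioc 0 V, Real.exp 2 * (‖m0 u - PZ Z u‖ ^ 2 * Real.exp (-(2 * (1 / V) * u))) := by
        refine setIntegral_mono_on (tame_sq_iOn (tame_sub tame_m0 (tame_PZ Z)) V) (h1.mono_set Ioc_subset_Ioi_self)
          measurableSet_Ioc fun u hu => ?_
        have h2 : 1 ≤ Real.exp 2 * Real.exp (-(2 * (1 / V) * u)) := by
          rw [← Real.exp_add]
          apply Real.one_le_exp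
          have : 2 * (1 / V) * u ≤ 2 * (1 / V) * V := by
            have := hu.2
            gcongr
          have h3 : 2 * (1 / V) * V = 2 := by field_simp
          linarith
        calc ‖m0 u - PZ Z u‖ ^ 2 ≤ ‖m0 u - PZ Z u‖ ^ 2 * (Real.exp 2 * Real.exp (-(2 * (1 / V) * u))) :=
              le_mul_of_one_le_right (by positivity) h2
          _ = _ := by ring
    _ ≤ _ := by
        refine setIntegral_mono_set h1 ?_ (Eventually.of_forall fun u hu => Ioc_subset_Ioi_self hu)
        exact Eventually.of_forall fun u => by positivity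

end

end Pool.Agent.Helper37.WMH
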