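import Pool.Agent.Helper37.WMH.DiffP

/-! Small increments in mean square imply the asymptotic formula. -/

set_option autoImplicit false

open MeasureTheory Filter Topology Set
open scoped ENNReal

namespace Pool.Agent.Helper37.WMH

open Pool.Agent.H295R2

noncomputable section

/-- small increments in mean square -/
def IncP : Prop := ∀ ε : ℝ, 0 < ε → ∃ H₀ : ℝ, 0 < H₀ ∧ ∀ H : ℝ, 0 < H → H ≤ H₀ → ∃ V₀ : ℝ, ∀ V : ℝ, V₀ ≤ V →
  YD H V ≤ ε * V

lemma exp_sub_one_sq (a t x : ℝ) : ‖Complex.exp ((⟨a, t⟩ : ℂ) * x) - 1‖ ^ 2 =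
    (Real.exp (a * x) - 1) ^ 2 + 2 * Real.exp (a * x) * (1 - Real.cos (t * x)) := by
  rw [← Complex.normSq_eq_norm_sq, Complex.normSq_apply]
  have h1 : ((⟨a, t⟩ : ℂ) * x).re = a * x := by simp
  have h2 : ((⟨a, t⟩ : ℂ) * x).im = t * x := by simp
  rw [Complex.sub_re, Complex.sub_im, Complex.exp_re, Complex.exp_im, h1, h2, Complex.one_re, Complex.one_im]
  have h3 := Real.sin_sq_add_cos_sq (t * x)
  linear_combination (Real.exp (a * x)) ^ 2 * h3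

lemma exp_sub_one_ge {a t x : ℝ} (ha : 0 ≤ a) (hx : 0 ≤ x) :
    2 * (1 - Real.cos (t * x)) ≤ ‖Complex.exp ((⟨a, t⟩ : ℂ) * x) - 1‖ ^ 2 := by
  rw [exp_sub_one_sq]
  have h1 : 1 ≤ Real.exp (a * x) := Real.one_le_exp (by positivity)
  have h2 : 0 ≤ 1 - Real.cos (t * x) := by have := Real.cos_le_one (t * x); linarith
  nlinarith [sq_nonneg (Real.exp (a * x) - 1)]

lemma rcont_iOn {f : ℝ → ℝ} (hf : Continuous f) (V : ℝ) : IntegrableOn f (Ioc 0 V) :=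
  (hf.integrableOn_Icc).mono_set Ioc_subset_Icc_self

lemma avg_lower {H t : ℝ} (hH : 0 < H) (ht : 2 / H ≤ |t|) : H ≤ ∫ x in Ioc 0 H, 2 * (1 - Real.cos (t * x)) := by
  have ht0 : t ≠ 0 := by
    rintro rfl
    rw [abs_zero] at ht
    have : 0 < 2 / H := by positivity
    linarith
  rw [← intervalIntegral.integral_of_le hH.le, intervalIntegral.integral_const_mul,
    intervalIntegral.integral_sub (by simp) (Continuous.intervalIntegrable (by fun_prop) _ _),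
    intervalIntegral.integral_comp_mul_left (fun x => Real.cos x) ht0, integral_cos]
  simp only [intervalIntegral.integral_const, smul_eq_mul, mul_one, mul_zero, Real.sin_zero, sub_zero]
  have h1 : |t⁻¹ * Real.sin (t * H)| ≤ H / 2 := by
    rw [abs_mul, abs_inv]
    have h2 := Real.abs_sin_le_one (t * H)
    have h3 : |t|⁻¹ ≤ H / 2 := by
      rw [inv_le_comm₀ (abs_pos.2 ht0) (by positivity)]
      rw [inv_div]; exact ht
    calc |t|⁻¹ * |Real.sin (t * H)| ≤ H / 2 * 1 := by gcongr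
      _ = _ := mul_one _
  have h2 := (abs_le.1 h1).2
  linarith

lemma KH_cont (hR : RHS) {c : ℝ} (hc : 0 < c) : Continuous (fun p : ℝ × ℝ => KH p.1 c p.2) := by
  unfold KH
  have h1 : Continuous (fun p : ℝ × ℝ => HH ⟨1 / 2 + c, p.2⟩) :=
    (HH_cont' hR (a := 1 / 2 + c) (by linarith) (by linarith)).comp continuous_snd
  have h2 : Continuous (fun p : ℝ × ℝ => (⟨1 / 2 + c, p.2⟩ : ℂ)) := (mk_cont _).comp continuous_snd
  have h3 : Continuous (fun p : ℝ × ℝ => (p.1 : ℂ)) := Complex.continuous_ofReal.comp continuous_fst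
  exact ((Complex.continuous_exp.comp (h2.mul h3)).sub continuous_const).mul h1

lemma KH_meas (hR : RHS) {c : ℝ} (hc : 0 < c) : Measurable (fun p : ℝ × ℝ => ‖KH p.1 c p.2‖ₑ ^ 2) :=
  (KH_cont hR hc).measurable.enorm.pow_const 2

/-- for `|t| ≥ 2/H` the transform is controlled by the averages of the transforms of the increments -/
lemma HH_le_avg (hR : RHS) {H c t : ℝ} (hH : 0 < H) (hc : 0 < c) (ht : 2 / H ≤ |t|) :
    ‖HH ⟨1 / 2 + c, t⟩‖ₑ ^ 2 ≤ ENNReal.ofReal (1 / H) * ∫⁻ x in Ioc 0 H, ‖KH x c t‖ₑ ^ 2 := by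
  have h1 : ∀ x : ℝ, ‖KH x c t‖ₑ ^ 2 = ENNReal.ofReal (‖Complex.exp ((⟨1 / 2 + c, t⟩ : ℂ) * x) - 1‖ ^ 2) *
      ‖HH ⟨1 / 2 + c, t⟩‖ₑ ^ 2 := by
    intro x
    unfold KH
    rw [enorm_mul, mul_pow, ENNReal.ofReal_pow (norm_nonneg _), ofReal_norm]
  have hcont : Continuous (fun x : ℝ => ‖Complex.exp ((⟨1 / 2 + c, t⟩ : ℂ) * x) - 1‖ ^ 2) := by fun_prop
  simp_rw [h1]
  rw [lintegral_mul_const _ hcont.measurable.ennreal_ofReal]
  have h2 : ENNReal.ofReal H ≤ ∫⁻ x in Ioc 0 H, ENNReal.ofReal (‖Complex.exp ((⟨1 / 2 + c, t⟩ : ℂ) * x) - 1‖ ^ 2) := by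
    rw [← ofReal_integral_eq_lintegral_ofReal (rcont_iOn hcont H) (Eventually.of_forall fun x => by positivity)]
    apply ENNReal.ofReal_le_ofReal
    refine (avg_lower hH ht).trans ?_
    refine setIntegral_mono_on (rcont_iOn (by fun_prop) H) (rcont_iOn hcont H) measurableSet_Ioc fun x hx => ?_
    exact exp_sub_one_ge (by linarith) hx.1.le
  calc ‖HH ⟨1 / 2 + c, t⟩‖ₑ ^ 2 = ENNReal.ofReal (1 / H) * (ENNReal.ofReal H * ‖HH ⟨1 / 2 + c, t⟩‖ₑ ^ 2) := by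
        rw [← mul_assoc, ← ENNReal.ofReal_mul (by positivity), one_div_mul_cancel hH.ne', ENNReal.ofReal_one, one_mul]
    _ ≤ _ := by gcongr

/-- the scaled mean square of the transform -/
def PhiK (c x : ℝ) : ℝ≥0∞ := ENNReal.ofReal (2 * c) * ∫⁻ t : ℝ, ‖KH x c t‖ₑ ^ 2

lemma PhiK_meas (hR : RHS) {c : ℝ} (hc : 0 < c) : Measurable (PhiK c) := by
  unfold PhiK
  exact ((KH_meas hR hc).lintegral_prod_right').const_mul _

lemma AM_m0 (c : ℝ) : AM (fun u => m0 u - PZ ∅ u) c = AM m0 c := by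
  unfold PZ; simp

lemma HH_line_AM (hR : RHS) {c : ℝ} (hc : 0 < c) :
    ∫⁻ t : ℝ, ‖HH ⟨1 / 2 + c, t⟩‖ₑ ^ 2 = ENNReal.ofReal (2 * Real.pi * AM m0 c) := by
  have := hh_line hR (Z := ∅) (by simp) hc
  rw [AM_m0] at this
  rw [← this]
  unfold hh QZ
  simp

lemma PhiK_dom (hR : RHS) {B c x : ℝ} (hc : 0 < c) (hc1 : c ≤ 1) (hx1 : x ≤ 1)
    (h : 2 * c * AM m0 c ≤ B) : PhiK c x ≤ ENNReal.ofReal (100 * (2 * Real.pi * B)) := by
  have h1 : ∀ t : ℝ, ‖KH x c t‖ₑ ^ 2 ≤ ENNReal.ofReal 100 * ‖HH ⟨1 / 2 + c, t⟩‖ₑ ^ 2 := by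
    intro t
    unfold KH
    rw [enorm_mul, mul_pow]
    gcongr
    rw [← ofReal_norm, ← ENNReal.ofReal_pow (norm_nonneg _)]
    apply ENNReal.ofReal_le_ofReal
    have h2 : ‖Complex.exp ((⟨1 / 2 + c, t⟩ : ℂ) * x) - 1‖ ≤ 10 := by
      refine (norm_sub_le _ _).trans ?_
      rw [Complex.norm_exp, norm_one]
      have h3 : ((⟨1 / 2 + c, t⟩ : ℂ) * x).re = (1 / 2 + c) * x := by simp
      rw [h3]
      have h4 : Real.exp ((1 / 2 + c) * x) ≤ Real.exp 2 := Real.exp_le_exp.2 (by nlinarith)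
      have h5 : Real.exp 2 = Real.exp 1 * Real.exp 1 := by rw [← Real.exp_add]; norm_num
      have h6 := Real.exp_one_lt_d9
      have h7 := Real.exp_pos 1
      nlinarith
    calc ‖Complex.exp ((⟨1 / 2 + c, t⟩ : ℂ) * x) - 1‖ ^ 2 ≤ 10 ^ 2 := by gcongr
      _ = 100 := by norm_num
  unfold PhiK
  calc ENNReal.ofReal (2 * c) * ∫⁻ t : ℝ, ‖KH x c t‖ₑ ^ 2
      ≤ ENNReal.ofReal (2 * c) * ∫⁻ t : ℝ, ENNReal.ofReal 100 * ‖HH ⟨1 / 2 + c, t⟩‖ₑ ^ 2 := by
        gcongr with t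
        exact h1 t
    _ = ENNReal.ofReal (2 * c) * (ENNReal.ofReal 100 * ENNReal.ofReal (2 * Real.pi * AM m0 c)) := by
        rw [lintegral_const_mul' _ _ ENNReal.ofReal_ne_top, HH_line_AM hR hc]
    _ = ENNReal.ofReal (100 * (2 * Real.pi * (2 * c * AM m0 c))) := by
        rw [← ENNReal.ofReal_mul (by norm_num), ← ENNReal.ofReal_mul (by positivity)]
        congr 1; ring
    _ ≤ _ := by
        have := Real.pi_pos
        apply ENNReal.ofReal_le_ofReal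
        gcongr

lemma PhiK_ev (hR : RHS) {x ε : ℝ} (hx : 0 < x) (hε : 0 < ε) {V₀ : ℝ} (h : ∀ V, V₀ ≤ V → YD x V ≤ ε * V) :
    ∀ᶠ c in 𝓝[>] (0:ℝ), PhiK c x ≤ ENNReal.ofReal (2 * Real.pi * (2 * ε)) := by
  obtain ⟨K, hK, h1⟩ := KH_le hR hx.le
  have h2 := AM_ev (tame_DH x) (B := ε) hε.le (V₀ := V₀) h (η := ε / 2) (by positivity)
  have h3 : ∀ᶠ c in 𝓝[>] (0:ℝ), c ≤ min 1 (ε / (4 * (K + 1))) := by
    have : Iic (min 1 (ε / (4 * (K + 1)))) ∈ 𝓝 (0:ℝ) := Iic_mem_nhds (by positivity)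
    exact nhdsWithin_le_nhds this
  filter_upwards [h2, h3, self_mem_nhdsWithin] with c hc1 hc2 hc0
  have hc : (0:ℝ) < c := hc0
  have h4 := h1 c hc (hc2.trans (min_le_left _ _))
  have h5 := hc2.trans (min_le_right _ _)
  rw [le_div_iff₀ (by positivity)] at h5
  have hp := Real.pi_pos
  unfold PhiK
  calc ENNReal.ofReal (2 * c) * ∫⁻ t : ℝ, ‖KH x c t‖ₑ ^ 2
      ≤ ENNReal.ofReal (2 * c) * ENNReal.ofReal (2 * Real.pi * (AM (DH x) c + K)) := by gcongr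
    _ = ENNReal.ofReal (2 * Real.pi * (2 * c * AM (DH x) c + 2 * c * K)) := by
        rw [← ENNReal.ofReal_mul (by positivity)]; congr 1; ring
    _ ≤ _ := by
        apply ENNReal.ofReal_le_ofReal
        gcongr
        nlinarith

theorem Ab_of_Inc (h : IncP) : RHS ∧ (∃ A, ∀ ρ ∈ NT, ‖aa ρ‖ ≤ A) ∧ AbP := by
  -- the weak Mertens bound
  obtain ⟨K, hK0, hJ⟩ : ∃ K : ℝ, 0 < K ∧ ∃ V₁ : ℝ, ∀ V, V₁ ≤ V → JJ V ≤ K * V := by
    obtain ⟨H₀, hH₀, h1⟩ := h 1 one_pos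
    obtain ⟨V₀, h2⟩ := h1 H₀ hH₀ le_rfl
    obtain ⟨K, hK, h3⟩ := JJ_le_YD hH₀
    refine ⟨2 * K, by positivity, max V₀ 1, fun V hV => ?_⟩
    have hV0 : V₀ ≤ V := (le_max_left _ _).trans hV
    have hV1 : 1 ≤ V := (le_max_right _ _).trans hV
    have h4 := h3 V (by linarith)
    have h5 := h2 V hV0
    nlinarith
  obtain ⟨V₁, hJ⟩ := hJ
  obtain ⟨hR, hb⟩ := basic (freq_of_JJ hJ).frequently
  refine ⟨hR, ⟨_, aa_le_of_sum hb⟩, fun ε hε => ?_⟩
  have hp := Real.pi_pos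
  have hB := AM_ev tame_m0 (B := K) hK0.le (V₀ := V₁) (fun V hV => by rw [← JJ_eq]; exact hJ V hV) (η := 1) one_pos
  set ε₁ : ℝ := ε / 12 with hε₁
  have hε₁0 : 0 < ε₁ := by positivity
  obtain ⟨H₀, hH₀, h1⟩ := h ε₁ hε₁0
  set H : ℝ := min H₀ 1 with hH
  have hH0 : 0 < H := by positivity
  have hH1 : H ≤ 1 := min_le_right _ _
  set T : ℝ := 2 / H with hT
  have hT0 : 0 ≤ T := by positivity
  refine ⟨T, hT0, ?_⟩
  obtain ⟨T', hTT, hg⟩ := gap hT0
  obtain ⟨C, hC0, hC⟩ := near_bound hR hg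
  obtain ⟨D, hD0, hD⟩ := QZ_far hT0 hTT
  set G : ℝ → ℝ := fun t => (Icc (-T') T').indicator (fun _ => C ^ 2) t + 2 * D * (1 + t ^ 2)⁻¹ with hG
  have hG0 : ∀ t, 0 ≤ G t := by
    intro t
    have : 0 ≤ (Icc (-T') T').indicator (fun _ => C ^ 2) t := indicator_nonneg (fun _ _ => by positivity) _
    rw [hG]; positivity
  have hGi : Integrable G := by
    refine Integrable.add ?_ (integrable_inv_one_add_sq.const_mul _)
    rw [integrable_indicator_iff measurableSet_Icc]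
    exact integrableOn_const (by simp)
  set CG : ℝ := ∫ t, G t with hCG
  have hCG0 : 0 ≤ CG := integral_nonneg hG0
  -- the pointwise bound
  have hpt : ∀ c : ℝ, 0 < c → c ≤ 1 / 4 → ∀ t : ℝ, ‖hh (ZT T) ⟨1 / 2 + c, t⟩‖ₑ ^ 2 ≤
      ENNReal.ofReal (G t) + 2 * (ENNReal.ofReal (1 / H) * ∫⁻ x in Ioc 0 H, ‖KH x c t‖ₑ ^ 2) := by
    intro c hc hc4 t
    have n1 : (1:ℝ) / 2 + c ≠ 1 / 2 := by linarith
    by_cases ht : |t| ≤ T'
    · have h2 := hC ⟨1 / 2 + c, t⟩ (by simp only; linarith) (by simp only; linarith) ht (off_line hR n1 t)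
      have h3 : C ^ 2 ≤ G t := by
        rw [hG]
        simp only
        rw [indicator_of_mem (show t ∈ Icc (-T') T' from abs_le.1 ht)]
        have : 0 ≤ 2 * D * (1 + t ^ 2)⁻¹ := by positivity
        linarith
      refine le_trans ?_ le_self_add
      rw [← ofReal_norm, ← ENNReal.ofReal_pow (norm_nonneg _)]
      apply ENNReal.ofReal_le_ofReal
      have h4 : ‖hh (ZT T) ⟨1 / 2 + c, t⟩‖ ^ 2 ≤ C ^ 2 := by gcongr
      linarith
    · push Not at ht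
      have q1 := hD (1 / 2 + c) t ht.le
      have h4 : 2 * D * (1 + t ^ 2)⁻¹ ≤ G t := by
        rw [hG]
        simp only
        have : 0 ≤ (Icc (-T') T').indicator (fun _ => C ^ 2) t := indicator_nonneg (fun _ _ => by positivity) _
        linarith
      have q2 : D / (1 + t ^ 2) = D * (1 + t ^ 2)⁻¹ := div_eq_mul_inv _ _
      rw [q2] at q1
      have h5 : ‖hh (ZT T) ⟨1 / 2 + c, t⟩‖ ≤ ‖HH ⟨1 / 2 + c, t⟩‖ + ‖QZ (ZT T) ⟨1 / 2 + c, t⟩‖ := by
        unfold hh; exact norm_sub_le _ _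
      have h6 : ‖hh (ZT T) ⟨1 / 2 + c, t⟩‖ ^ 2 ≤ G t + 2 * ‖HH ⟨1 / 2 + c, t⟩‖ ^ 2 := by
        have h7 : ‖hh (ZT T) ⟨1 / 2 + c, t⟩‖ ^ 2 ≤ (‖HH ⟨1 / 2 + c, t⟩‖ + ‖QZ (ZT T) ⟨1 / 2 + c, t⟩‖) ^ 2 := by gcongr
        nlinarith [sq_nonneg (‖HH ⟨1 / 2 + c, t⟩‖ - ‖QZ (ZT T) ⟨1 / 2 + c, t⟩‖)]
      have h7 := HH_le_avg hR hH0 hc (t := t) (by rw [← hT]; linarith)
      calc ‖hh (ZT T) ⟨1 / 2 + c, t⟩‖ₑ ^ 2 = ENNReal.ofReal (‖hh (ZT T) ⟨1 / 2 + c, t⟩‖ ^ 2) := by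
            rw [← ofReal_norm, ← ENNReal.ofReal_pow (norm_nonneg _)]
        _ ≤ ENNReal.ofReal (G t + 2 * ‖HH ⟨1 / 2 + c, t⟩‖ ^ 2) := ENNReal.ofReal_le_ofReal h6
        _ = ENNReal.ofReal (G t) + 2 * ‖HH ⟨1 / 2 + c, t⟩‖ₑ ^ 2 := by
            rw [ENNReal.ofReal_add (hG0 t) (by positivity), ENNReal.ofReal_mul (by norm_num), ← ofReal_norm,
              ENNReal.ofReal_pow (norm_nonneg _)]
            norm_num
        _ ≤ _ := by gcongr
  -- the integrated bound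
  have hint : ∀ c : ℝ, 0 < c → c ≤ 1 / 4 → ENNReal.ofReal (2 * c) * ENNReal.ofReal (2 * Real.pi * AM (fun u => m0 u - PZ (ZT T) u) c) ≤
      ENNReal.ofReal (2 * c * CG) + 2 * (ENNReal.ofReal (1 / H) * ∫⁻ x in Ioc 0 H, PhiK c x) := by
    intro c hc hc4
    rw [← hh_line hR ZT_NT hc]
    have hKm := KH_meas hR hc
    have hm1 : Measurable (fun t : ℝ => ∫⁻ x in Ioc 0 H, ‖KH x c t‖ₑ ^ 2) := hKm.lintegral_prod_left'
    calc ENNReal.ofReal (2 * c) * ∫⁻ t : ℝ, ‖hh (ZT T) ⟨1 / 2 + c, t⟩‖ₑ ^ 2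
        ≤ ENNReal.ofReal (2 * c) * ∫⁻ t : ℝ, (ENNReal.ofReal (G t) +
            2 * (ENNReal.ofReal (1 / H) * ∫⁻ x in Ioc 0 H, ‖KH x c t‖ₑ ^ 2)) := by
          gcongr with t
          exact hpt c hc hc4 t
      _ = ENNReal.ofReal (2 * c) * (ENNReal.ofReal CG + 2 * (ENNReal.ofReal (1 / H) *
            ∫⁻ x in Ioc 0 H, ∫⁻ t : ℝ, ‖KH x c t‖ₑ ^ 2)) := by
          rw [lintegral_add_left' hGi.aestronglyMeasurable.aemeasurable.ennreal_ofReal,
            ← ofReal_integral_eq_lintegral_ofReal hGi (Eventually.of_forall hG0), lintegral_const_mul _ (hm1.const_mul _),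
            lintegral_const_mul _ hm1, lintegral_lintegral_swap]
          exact (hKm.comp measurable_swap).aemeasurable
      _ = _ := by
          unfold PhiK
          rw [lintegral_const_mul' _ _ ENNReal.ofReal_ne_top, mul_add, ← ENNReal.ofReal_mul (by positivity)]
          ring
  -- dominated convergence
  have hlim : Tendsto (fun c => ∫⁻ x in Ioc 0 H, (PhiK c x - ENNReal.ofReal (2 * Real.pi * (2 * ε₁)))) (𝓝[>] (0:ℝ))
      (𝓝 (∫⁻ _ in Ioc 0 H, 0)) := by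
    refine tendsto_lintegral_filter_of_dominated_convergence
      (fun _ => ENNReal.ofReal (100 * (2 * Real.pi * (K + 1)))) ?_ ?_ ?_ ?_
    · filter_upwards [self_mem_nhdsWithin] with c hc
      exact (PhiK_meas hR hc).sub_const _
    · have h3 : ∀ᶠ c in 𝓝[>] (0:ℝ), c ≤ 1 := nhdsWithin_le_nhds (Iic_mem_nhds one_pos)
      filter_upwards [hB, h3, self_mem_nhdsWithin] with c hc1 hc2 hc0
      filter_upwards [ae_restrict_mem measurableSet_Ioc] with x hx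
      exact tsub_le_self.trans (PhiK_dom hR hc0 hc2 (hx.2.trans hH1) hc1)
    · rw [setLIntegral_const]
      exact ENNReal.mul_ne_top ENNReal.ofReal_ne_top (by simp)
    · filter_upwards [ae_restrict_mem measurableSet_Ioc] with x hx
      obtain ⟨V₀, hV₀⟩ := h1 x hx.1 (hx.2.trans (min_le_left _ _))
      refine tendsto_const_nhds.congr' ?_
      filter_upwards [PhiK_ev hR hx.1 hε₁0 hV₀] with c hc
      exact (tsub_eq_zero_of_le hc).symm
  rw [lintegral_zero] at hlim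
  have hlim2 := hlim.eventually_lt_const (show 0 < ENNReal.ofReal (H * (2 * Real.pi * ε₁)) from
    ENNReal.ofReal_pos.2 (by positivity))
  apply ev_to
  have h3 : ∀ᶠ c in 𝓝[>] (0:ℝ), c ≤ min (1 / 4) (Real.pi * ε / (2 * (CG + 1))) := by
    have : Iic (min (1 / 4) (Real.pi * ε / (2 * (CG + 1)))) ∈ 𝓝 (0:ℝ) := Iic_mem_nhds (by positivity)
    exact nhdsWithin_le_nhds this
  filter_upwards [hlim2, h3, self_mem_nhdsWithin] with c hc1 hc2 hc0
  have hc : (0:ℝ) < c := hc0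
  have h4 := hint c hc (hc2.trans (min_le_left _ _))
  have h5 := hc2.trans (min_le_right _ _)
  rw [le_div_iff₀ (by positivity)] at h5
  have h6 : ∫⁻ x in Ioc 0 H, PhiK c x ≤ ENNReal.ofReal (H * (6 * Real.pi * ε₁)) := by
    calc ∫⁻ x in Ioc 0 H, PhiK c x
        ≤ ∫⁻ x in Ioc 0 H, ((PhiK c x - ENNReal.ofReal (2 * Real.pi * (2 * ε₁))) + ENNReal.ofReal (2 * Real.pi * (2 * ε₁))) :=
          lintegral_mono fun x => le_tsub_add
      _ = (∫⁻ x in Ioc 0 H, (PhiK c x - ENNReal.ofReal (2 * Real.pi * (2 * ε₁)))) +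
            ENNReal.ofReal (2 * Real.pi * (2 * ε₁)) * ENNReal.ofReal H := by
          rw [lintegral_add_right _ measurable_const, setLIntegral_const, Real.volume_Ioc, sub_zero]
      _ ≤ ENNReal.ofReal (H * (2 * Real.pi * ε₁)) + ENNReal.ofReal (2 * Real.pi * (2 * ε₁)) * ENNReal.ofReal H := by
          gcongr
      _ = _ := by
          rw [← ENNReal.ofReal_mul (by positivity), ← ENNReal.ofReal_add (by positivity) (by positivity)]
          congr 1; ring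
  have h7 : ENNReal.ofReal (2 * c) * ENNReal.ofReal (2 * Real.pi * AM (fun u => m0 u - PZ (ZT T) u) c) ≤
      ENNReal.ofReal (2 * c * CG + 2 * (6 * Real.pi * ε₁)) := by
    refine h4.trans ?_
    calc ENNReal.ofReal (2 * c * CG) + 2 * (ENNReal.ofReal (1 / H) * ∫⁻ x in Ioc 0 H, PhiK c x)
        ≤ ENNReal.ofReal (2 * c * CG) + 2 * (ENNReal.ofReal (1 / H) * ENNReal.ofReal (H * (6 * Real.pi * ε₁))) := by gcongr
      _ = _ := by
        have e2 : (2:ℝ≥0∞) = ENNReal.ofReal 2 := by norm_num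
        rw [e2, ← ENNReal.ofReal_mul (by positivity), ← ENNReal.ofReal_mul (by norm_num),
          ← ENNReal.ofReal_add (by positivity) (by positivity)]
        congr 1
        field_simp
  rw [← ENNReal.ofReal_mul (by positivity), ENNReal.ofReal_le_ofReal_iff (by positivity)] at h7
  set X := AM (fun u => m0 u - PZ (ZT T) u) c with hX
  have h8 : Real.pi * (2 * (2 * c * X)) ≤ Real.pi * (2 * ε) := by
    have e1 : 2 * (6 * Real.pi * ε₁) = Real.pi * ε := by rw [hε₁]; ring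
    rw [e1] at h7
    have h9 : 2 * c * CG ≤ Real.pi * ε := by nlinarith
    nlinarith
  have h9 := le_of_mul_le_mul_left h8 hp
  linarith

theorem Asymp_of_Inc (h : IncP) : AsympP := by
  obtain ⟨hR, ⟨A, hA⟩, hAb⟩ := Ab_of_Inc h
  exact Asymp_of_Win hR (Win_of_Ab hR hA hAb)

end

end Pool.Agent.Helper37.WMH
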