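import Pool.Agent.Helper37.WMH.SmallInc

/-! The mean square of the increments under the asymptotic formula. -/

set_option autoImplicit false

open MeasureTheory Filter Topology Set
open scoped ENNReal

namespace Pool.Agent.Helper37.WMH

open Pool.Agent.H295R2

noncomputable section

theorem TP_mean2 (Λ : Finset ℝ) (c : ℝ → ℂ) : ∃ K : ℝ, 0 ≤ K ∧ ∀ V : ℝ, 0 ≤ V →
    |(∫ u in Ioc 0 V, ‖TP Λ c u‖ ^ 2) - (∑ l ∈ Λ, ‖c l‖ ^ 2) * V| ≤ K := by
  classical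
  refine ⟨∑ l ∈ Λ, ∑ m ∈ Λ, ‖c l‖ * ‖c m‖ * (2 / ‖((l : ℂ) - m) * Complex.I‖),
    Finset.sum_nonneg fun _ _ => Finset.sum_nonneg fun _ _ => by positivity, fun V hV => ?_⟩
  simp_rw [TP_sq]
  have i2 : IntegrableOn (fun u : ℝ => ∑ l ∈ Λ, ∑ m ∈ Λ, c l * (starRingEnd ℂ) (c m) *
      Complex.exp (((l : ℂ) - m) * Complex.I * u)) (Ioc 0 V) := cont_iOn (by fun_prop) V
  have h1 := integral_re i2
  simp only [RCLike.re_eq_complex_re] at h1
  rw [h1, integral_finsetSum]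
  · have e1 : (∑ l ∈ Λ, ∫ u in Ioc 0 V, ∑ m ∈ Λ, c l * (starRingEnd ℂ) (c m) *
          Complex.exp (((l : ℂ) - m) * Complex.I * u)).re - (∑ l ∈ Λ, ‖c l‖ ^ 2) * V =
        (∑ l ∈ Λ, ∑ m ∈ Λ, (c l * (starRingEnd ℂ) (c m) * GR (((l : ℂ) - m) * Complex.I) V -
          (if m = l then ((‖c l‖ ^ 2 * V : ℝ) : ℂ) else 0))).re := by
      have : (∑ l ∈ Λ, ∑ m ∈ Λ, (c l * (starRingEnd ℂ) (c m) * GR (((l : ℂ) - m) * Complex.I) V -
          (if m = l then ((‖c l‖ ^ 2 * V : ℝ) : ℂ) else 0))) =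
          (∑ l ∈ Λ, ∫ u in Ioc 0 V, ∑ m ∈ Λ, c l * (starRingEnd ℂ) (c m) *
          Complex.exp (((l : ℂ) - m) * Complex.I * u)) - (((∑ l ∈ Λ, ‖c l‖ ^ 2) * V : ℝ) : ℂ) := by
        rw [Finset.sum_mul, Complex.ofReal_sum, ← Finset.sum_sub_distrib]
        refine Finset.sum_congr rfl fun l hl => ?_
        rw [Finset.sum_sub_distrib, Finset.sum_ite_eq' Λ l, if_pos hl, integral_finsetSum]
        · congr 1
          refine Finset.sum_congr rfl fun m _ => ?_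
          rw [integral_const_mul]
          rfl
        · exact fun m _ => cont_iOn (by fun_prop) V
      rw [this, Complex.sub_re, Complex.ofReal_re]
    rw [e1]
    refine (Complex.abs_re_le_norm _).trans ?_
    refine (norm_sum_le _ _).trans (Finset.sum_le_sum fun l _ => ?_)
    refine (norm_sum_le _ _).trans (Finset.sum_le_sum fun m _ => ?_)
    by_cases he : m = l
    · subst he
      rw [if_pos rfl, sub_self, zero_mul, GR_zero hV, diag, ← Complex.ofReal_mul, sub_self, norm_zero]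
      positivity
    · rw [if_neg he, sub_zero, norm_mul, norm_mul, RCLike.norm_conj]
      gcongr
      apply GR_bound _ _ hV
      · refine mul_ne_zero (sub_ne_zero.2 ?_) Complex.I_ne_zero
        exact_mod_cast Ne.symm he
      · simp
  · exact fun l _ => cont_iOn (by fun_prop) V

/-- the weight `|e^{ρH} - 1|²` -/
def wH (H : ℝ) (ρ : ℂ) : ℝ := ‖Complex.exp (ρ * H) - 1‖ ^ 2

lemma wH_nonneg (H : ℝ) (ρ : ℂ) : 0 ≤ wH H ρ := by unfold wH; positivity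

lemma wH_le (hR : RHS) {H : ℝ} {ρ : ℂ} (hρ : ρ ∈ NT) : wH H ρ ≤ (Real.exp (H / 2) + 1) ^ 2 := by
  unfold wH
  have : ‖Complex.exp (ρ * H) - 1‖ ≤ Real.exp (H / 2) + 1 := by
    refine (norm_sub_le _ _).trans ?_
    rw [Complex.norm_exp, norm_one]
    have h3 : (ρ * H).re = H / 2 := by
      rw [Complex.mul_re, (hR ρ hρ).1]; simp; ring
    rw [h3]
  gcongr

/-- the increments of the partial sum -/
def DP (Z : Finset ℂ) (H v : ℝ) : ℂ := Complex.exp (H / 2) * PZ Z (v + H) - PZ Z v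

lemma DP_eq (hR : RHS) {Z : Finset ℂ} (hZ : ∀ ρ ∈ Z, ρ ∈ NT) (H : ℝ) : DP Z H =
    TP (Z.image fun ρ => ρ.im) (fun l => bb l * (Complex.exp ((⟨1 / 2, l⟩ : ℂ) * H) - 1)) := by
  funext v
  unfold DP PZ TP
  rw [Finset.sum_image (inj_im hR hZ), Finset.mul_sum, ← Finset.sum_sub_distrib]
  refine Finset.sum_congr rfl fun ρ hρ => ?_
  simp only
  rw [bb_im hR (hZ ρ hρ), mk_im hR (hZ ρ hρ)]
  have h1 : Complex.exp (H / 2) * (aa ρ * Complex.exp (ρ.im * ((v + H : ℝ) : ℂ) * Complex.I)) =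
      aa ρ * (Complex.exp (H / 2) * Complex.exp (ρ.im * ((v + H : ℝ) : ℂ) * Complex.I)) := by ring
  have h2 : Complex.exp (H / 2) * Complex.exp (ρ.im * ((v + H : ℝ) : ℂ) * Complex.I) =
      Complex.exp (ρ * H) * Complex.exp (ρ.im * v * Complex.I) := by
    rw [← Complex.exp_add, ← Complex.exp_add]
    congr 1
    have h3 : ρ = 1 / 2 + ρ.im * Complex.I := by
      apply Complex.ext
      · simp [(hR ρ (hZ ρ hρ)).1]
      · simp
    have h4 : ρ * H = (1 / 2 + ρ.im * Complex.I) * H := by rw [← h3]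
    rw [h4]
    push_cast
    ring
  rw [h1, h2]
  ring

lemma sum_DP (hR : RHS) {Z : Finset ℂ} (hZ : ∀ ρ ∈ Z, ρ ∈ NT) (H : ℝ) :
    ∑ l ∈ Z.image (fun ρ => ρ.im), ‖bb l * (Complex.exp ((⟨1 / 2, l⟩ : ℂ) * H) - 1)‖ ^ 2 =
      ∑ ρ ∈ Z, ‖aa ρ‖ ^ 2 * wH H ρ := by
  rw [Finset.sum_image (inj_im hR hZ)]
  refine Finset.sum_congr rfl fun ρ hρ => ?_
  rw [bb_im hR (hZ ρ hρ), mk_im hR (hZ ρ hρ), norm_mul, mul_pow]
  rfl

/-- an abstract squeezing lemma -/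
lemma squeeze_quad {y : ℝ → ℝ} {S : ℝ} (hS : 0 ≤ S)
    (h : ∀ η : ℝ, 0 < η → ∃ p : ℝ → ℝ, ∀ᶠ V in atTop, |p V - S| ≤ η ∧ y V ≤ (1 + η) * p V + η ∧
      p V ≤ (1 + η) * y V + η) : Tendsto y atTop (𝓝 S) := by
  rw [Metric.tendsto_nhds]
  intro ε hε
  set η : ℝ := min 1 (ε / (2 * (2 * S + 5))) with hη
  have hη0 : 0 < η := by positivity
  have hη1 : η ≤ 1 := min_le_left _ _
  have hη2 : η * (2 * (2 * S + 5)) ≤ ε := by
    have := min_le_right 1 (ε / (2 * (2 * S + 5)))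
    rwa [le_div_iff₀ (by positivity)] at this
  obtain ⟨p, hp⟩ := h η hη0
  filter_upwards [hp] with V hV
  obtain ⟨h1, h2, h3⟩ := hV
  obtain ⟨h4, h5⟩ := abs_le.1 h1
  rw [Real.dist_eq, abs_lt]
  have h6 : y V ≤ (1 + η) * (S + η) + η := by
    refine h2.trans ?_
    have : (1 + η) * p V ≤ (1 + η) * (S + η) := by
      apply mul_le_mul_of_nonneg_left _ (by positivity); linarith
    linarith
  have h7 : (1 + η) * (S + η) + η ≤ S + η * (S + 3) := by nlinarith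
  have h8 : S - 2 * η ≤ (1 + η) * y V := by linarith
  have h9 : η * (S + 3) ≤ S + 3 := by nlinarith
  constructor
  · nlinarith
  · nlinarith

/-- approximation by finitely many zeros under the asymptotic formula -/
theorem Asymp_approx (h : AsympP) (hR : RHS) {ε : ℝ} (hε : 0 < ε) : ∃ Z : Finset ℂ, (∀ ρ ∈ Z, ρ ∈ NT) ∧
    (∑' ρ : NT, ‖aa ρ‖ ^ 2) - ε < ∑ ρ ∈ Z, ‖aa ρ‖ ^ 2 ∧
    ∃ V₀ : ℝ, ∀ V, V₀ ≤ V → ∫ u in Ioc 0 V, ‖m0 u - PZ Z u‖ ^ 2 ≤ ε * V := by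
  classical
  obtain ⟨hs, ht⟩ := h
  set S := ∑' ρ : NT, ‖aa ρ‖ ^ 2 with hS
  have hS0 : 0 ≤ S := tsum_nonneg fun _ => by positivity
  have hup : ∀ ε : ℝ, 0 < ε → ∃ V₀, ∀ V, V₀ ≤ V → JJ V ≤ (S + ε) * V := by
    intro ε hε
    have h1 := ht.eventually_lt_const (show S < S + ε by linarith)
    have h2 := (Real.tendsto_exp_atTop.eventually h1).and (eventually_gt_atTop (0:ℝ))
    rw [eventually_atTop] at h2
    obtain ⟨V₀, h3⟩ := h2
    refine ⟨V₀, fun V hV => ?_⟩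
    obtain ⟨h4, h5⟩ := h3 V hV
    rw [Real.log_exp, II_exp h5.le, div_lt_iff₀ h5] at h4
    exact h4.le
  set ε₁ : ℝ := min (ε / 8) ε with hε₁
  have hε₁0 : 0 < ε₁ := by positivity
  obtain ⟨s, hs2⟩ : ∃ s : Finset NT, S - ε₁ / 4 < ∑ ρ ∈ s, ‖aa ρ‖ ^ 2 := by
    have := (hs.hasSum).eventually_const_lt (show S - ε₁ / 4 < S by linarith)
    exact this.exists
  set Z : Finset ℂ := s.map (Function.Embedding.subtype _) with hZdef
  have hZ : ∀ ρ ∈ Z, ρ ∈ NT := by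
    intro ρ hρ
    rw [hZdef, Finset.mem_map] at hρ
    obtain ⟨ρ', _, rfl⟩ := hρ
    exact ρ'.2
  have hsZ : S - ε₁ / 4 < ∑ ρ ∈ Z, ‖aa ρ‖ ^ 2 := by
    refine hs2.trans_le (le_of_eq ?_)
    rw [hZdef, Finset.sum_map]
    rfl
  refine ⟨Z, hZ, ?_, ?_⟩
  · have := min_le_right (ε / 8) ε
    linarith
  obtain ⟨V₀, hV₀⟩ := hup (ε₁ / 4) (by positivity)
  have h1 := AM_ev tame_m0 (B := S + ε₁ / 4) (V₀ := V₀) (by positivity) (fun V hV => by
    rw [← JJ_eq]; exact hV₀ V hV) (η := ε₁ / 4) (by positivity)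
  have h2 := AM_lim hR (Z.image fun ρ => ρ.im) bb
  have e1 : ∑ l ∈ Z.image (fun ρ => ρ.im), (‖bb l - bb l‖ ^ 2 - ‖bb l‖ ^ 2) = -∑ ρ ∈ Z, ‖aa ρ‖ ^ 2 := by
    rw [← sum_bb hR hZ, ← Finset.sum_neg_distrib]
    exact Finset.sum_congr rfl fun l _ => by simp
  rw [e1, ← PZ_TP hR hZ] at h2
  have h3 := h2.eventually_lt_const (show -∑ ρ ∈ Z, ‖aa ρ‖ ^ 2 < -∑ ρ ∈ Z, ‖aa ρ‖ ^ 2 + ε₁ / 4 by linarith)
  have h4 : ∀ᶠ c in 𝓝[>] (0:ℝ), 2 * c * AM (fun u => m0 u - PZ Z u) c ≤ ε₁ := by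
    filter_upwards [h1, h3] with c hc1 hc2
    linarith
  obtain ⟨c₀, hc₀, h5⟩ := ev_to _ h4
  refine ⟨1 / c₀, fun V hV => ?_⟩
  have hV0 : 0 < V := lt_of_lt_of_le (by positivity) hV
  have h6 := h5 (1 / V) (by positivity) (by rw [div_le_iff₀ hV0]; rwa [div_le_iff₀ hc₀, mul_comm] at hV)
  have h7 := mean_le_AM hR Z hV0
  have h8 : AM (fun u => m0 u - PZ Z u) (1 / V) ≤ ε₁ * V / 2 := by
    have : 2 * (1 / V) * AM (fun u => m0 u - PZ Z u) (1 / V) = 2 * AM (fun u => m0 u - PZ Z u) (1 / V) / V := by ring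
    rw [this, div_le_iff₀ hV0] at h6
    linarith
  have h9 : Real.exp 2 ≤ 8 := by
    have h5 : Real.exp 2 = Real.exp 1 * Real.exp 1 := by rw [← Real.exp_add]; norm_num
    have h6 := Real.exp_one_lt_d9
    have h7 := Real.exp_pos 1
    nlinarith
  have h10 : ε₁ ≤ ε / 8 := min_le_left _ _
  calc ∫ u in Ioc 0 V, ‖m0 u - PZ Z u‖ ^ 2 ≤ Real.exp 2 * AM (fun u => m0 u - PZ Z u) (1 / V) := h7
    _ ≤ 8 * (ε₁ * V / 2) := mul_le_mul h9 h8 (AM_nonneg _ _) (by norm_num)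
    _ ≤ 8 * (ε / 8 * V / 2) := by gcongr
    _ ≤ ε * V := by nlinarith

lemma summable_wH (hR : RHS) (hs : Summable (fun ρ : NT => ‖aa ρ‖ ^ 2)) (H : ℝ) :
    Summable (fun ρ : NT => ‖aa ρ‖ ^ 2 * wH H ρ) := by
  refine Summable.of_nonneg_of_le (fun ρ => mul_nonneg (by positivity) (wH_nonneg _ _)) (fun ρ => ?_)
    (hs.mul_right ((Real.exp (H / 2) + 1) ^ 2))
  exact mul_le_mul_of_nonneg_left (wH_le hR ρ.2) (by positivity)

/-- the limit of the mean squares of the increments -/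
theorem YD_lim (h : AsympP) (hR : RHS) {H : ℝ} (hH : 0 ≤ H) :
    Tendsto (fun V : ℝ => YD H V / V) atTop (𝓝 (∑' ρ : NT, ‖aa ρ‖ ^ 2 * wH H ρ)) := by
  classical
  have hs := h.1
  have hsw := summable_wH hR hs H
  refine squeeze_quad (tsum_nonneg fun ρ => mul_nonneg (by positivity) (wH_nonneg _ _)) fun η hη => ?_
  set M : ℝ := (Real.exp (H / 2) + 1) ^ 2 with hM
  have hM0 : 0 < M := by positivity
  set B : ℝ := (1 + 1 / η) * (8 * Real.exp H) with hB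
  have hB0 : 0 < B := by positivity
  set ε : ℝ := min (η / (2 * M)) (η / B) with hε
  have hε0 : 0 < ε := by positivity
  obtain ⟨Z, hZ, hZ1, V₀, hV₀⟩ := Asymp_approx h hR hε0
  obtain ⟨K, hK, hTP⟩ := TP_mean2 (Z.image fun ρ => ρ.im) (fun l => bb l * (Complex.exp ((⟨1 / 2, l⟩ : ℂ) * H) - 1))
  rw [← DP_eq hR hZ, sum_DP hR hZ] at hTP
  set SZ := ∑ ρ ∈ Z, ‖aa ρ‖ ^ 2 * wH H ρ with hSZ
  set S := ∑' ρ : NT, ‖aa ρ‖ ^ 2 * wH H ρ with hS
  have tDP : Tame (DP Z H) := tame_sub ((tame_shift (tame_PZ Z) H).const_mul _) (tame_PZ Z)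
  -- the tail over the zeros outside `Z`
  have htail : |SZ - S| ≤ M * ε := by
    set s : Finset NT := Z.subtype (· ∈ NT) with hsdef
    have e1 : ∀ f : ℂ → ℝ, ∑ ρ ∈ s, f ρ = ∑ ρ ∈ Z, f ρ := by
      intro f
      rw [hsdef, Finset.sum_subtype_of_mem f hZ]
    have h1 := hsw.sum_add_tsum_compl (s := s)
    have h2 := hs.sum_add_tsum_compl (s := s)
    rw [e1 (fun ρ => ‖aa ρ‖ ^ 2 * wH H ρ)] at h1
    rw [e1 (fun ρ => ‖aa ρ‖ ^ 2)] at h2
    have h3 : ∑' ρ : ((s : Set NT)ᶜ : Set NT), ‖aa ρ‖ ^ 2 * wH H ρ ≤ ∑' ρ : ((s : Set NT)ᶜ : Set NT), ‖aa ρ‖ ^ 2 * M := by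
      refine Summable.tsum_le_tsum (fun ρ => mul_le_mul_of_nonneg_left (wH_le hR ρ.1.2) (by positivity)) ?_ ?_
      · exact hsw.subtype _
      · exact (hs.subtype _).mul_right M
    rw [tsum_mul_right] at h3
    have h4 : ∑' ρ : ((s : Set NT)ᶜ : Set NT), ‖aa ρ‖ ^ 2 ≤ ε := by linarith
    have h5 : 0 ≤ ∑' ρ : ((s : Set NT)ᶜ : Set NT), ‖aa ρ‖ ^ 2 * wH H ρ :=
      tsum_nonneg fun ρ => mul_nonneg (by positivity) (wH_nonneg _ _)
    rw [abs_sub_comm, abs_le]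
    constructor
    · have : 0 ≤ M * ε := by positivity
      linarith
    · nlinarith
  have hMε : M * ε ≤ η / 2 := by
    have h1 : ε ≤ η / (2 * M) := min_le_left _ _
    calc M * ε ≤ M * (η / (2 * M)) := by gcongr
      _ = η / 2 := by field_simp
  have hBε : B * ε ≤ η := by
    have h1 : ε ≤ η / B := min_le_right _ _
    calc B * ε ≤ B * (η / B) := by gcongr
      _ = η := by field_simp
  refine ⟨fun V => (∫ u in Ioc 0 V, ‖DP Z H u‖ ^ 2) / V, ?_⟩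
  filter_upwards [eventually_ge_atTop V₀, eventually_ge_atTop (max (H + 1) (2 * K / η))] with V hV hV2
  have hVH : H + 1 ≤ V := (le_max_left _ _).trans hV2
  have hVK : 2 * K / η ≤ V := (le_max_right _ _).trans hV2
  have hV0 : 0 < V := by linarith
  -- the difference
  have hd : ∫ u in Ioc 0 V, ‖DH H u - DP Z H u‖ ^ 2 ≤ 8 * Real.exp H * (ε * V) := by
    have tm : Tame (fun u => m0 u - PZ Z u) := tame_sub tame_m0 (tame_PZ Z)
    have h1 : ∫ u in Ioc 0 V, ‖DH H u - DP Z H u‖ ^ 2 ≤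
        2 * Real.exp H * (∫ u in Ioc 0 V, ‖m0 (u + H) - PZ Z (u + H)‖ ^ 2) + 2 * ∫ u in Ioc 0 V, ‖m0 u - PZ Z u‖ ^ 2 := by
      rw [← integral_const_mul, ← integral_const_mul, ← integral_add ((tame_sq_iOn (tame_shift tm H) V).const_mul _)
        ((tame_sq_iOn tm V).const_mul _)]
      refine setIntegral_mono_on (tame_sq_iOn (tame_sub (tame_DH H) tDP) V)
        (((tame_sq_iOn (tame_shift tm H) V).const_mul _).add ((tame_sq_iOn tm V).const_mul _)) measurableSet_Ioc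
        fun v _ => ?_
      have h2 : DH H v - DP Z H v = Complex.exp (H / 2) * (m0 (v + H) - PZ Z (v + H)) - (m0 v - PZ Z v) := by
        unfold DH DP; ring
      have h3 : ‖DH H v - DP Z H v‖ ≤ Real.exp (H / 2) * ‖m0 (v + H) - PZ Z (v + H)‖ + ‖m0 v - PZ Z v‖ := by
        rw [h2]
        refine (norm_sub_le _ _).trans ?_
        rw [norm_mul, norm_cexp_half]
      have h4 : ‖DH H v - DP Z H v‖ ^ 2 ≤
        (Real.exp (H / 2) * ‖m0 (v + H) - PZ Z (v + H)‖ + ‖m0 v - PZ Z v‖) ^ 2 := by gcongr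
      have h8 : Real.exp (H / 2) ^ 2 = Real.exp H := by
        rw [← Real.exp_nat_mul]; congr 1; push_cast; ring
      have h9 : 2 * Real.exp H * ‖m0 (v + H) - PZ Z (v + H)‖ ^ 2 =
          2 * (Real.exp (H / 2) * ‖m0 (v + H) - PZ Z (v + H)‖) ^ 2 := by
        rw [mul_pow, h8]; ring
      rw [h9]
      nlinarith [sq_nonneg (Real.exp (H / 2) * ‖m0 (v + H) - PZ Z (v + H)‖ - ‖m0 v - PZ Z v‖)]
    have h2 : ∫ u in Ioc 0 V, ‖m0 (u + H) - PZ Z (u + H)‖ ^ 2 ≤ ε * (V + H) := by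
      rw [shift_int H V (fun u => m0 u - PZ Z u)]
      refine le_trans ?_ (hV₀ (V + H) (by linarith))
      exact setIntegral_mono_set (tame_sq_iOn tm (V + H)) (Eventually.of_forall fun u => by positivity)
        (Eventually.of_forall fun u hu => Ioc_subset_Ioc_left hH hu)
    have h3 := hV₀ V hV
    have h4 : 1 ≤ Real.exp H := Real.one_le_exp hH
    have h5 : V + H ≤ 2 * V := by linarith
    have h6 : 0 < ε * V := by positivity
    calc ∫ u in Ioc 0 V, ‖DH H u - DP Z H u‖ ^ 2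
        ≤ 2 * Real.exp H * (ε * (V + H)) + 2 * (ε * V) := by
          refine h1.trans ?_
          gcongr
      _ ≤ 2 * Real.exp H * (ε * (2 * V)) + 2 * (Real.exp H * (ε * V)) := by
          have h7 := le_mul_of_one_le_left h6.le h4
          have h8 : 2 * Real.exp H * (ε * (V + H)) ≤ 2 * Real.exp H * (ε * (2 * V)) := by gcongr
          linarith
      _ ≤ _ := by nlinarith [Real.exp_pos H]
  have hdη : (1 + 1 / η) * (∫ u in Ioc 0 V, ‖DH H u - DP Z H u‖ ^ 2) ≤ η * V := by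
    calc (1 + 1 / η) * (∫ u in Ioc 0 V, ‖DH H u - DP Z H u‖ ^ 2) ≤ (1 + 1 / η) * (8 * Real.exp H * (ε * V)) := by gcongr
      _ = (B * ε) * V := by rw [hB]; ring
      _ ≤ η * V := by gcongr
  -- the quadratic inequality
  have hq : ∀ f g : ℝ → ℂ, Tame f → Tame g → ∫ u in Ioc 0 V, ‖f u‖ ^ 2 ≤
      (1 + η) * (∫ u in Ioc 0 V, ‖g u‖ ^ 2) + (1 + 1 / η) * ∫ u in Ioc 0 V, ‖f u - g u‖ ^ 2 := by
    intro f g hf hg
    rw [← integral_const_mul, ← integral_const_mul, ← integral_add ((tame_sq_iOn hg V).const_mul _)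
        ((tame_sq_iOn (tame_sub hf hg) V).const_mul _)]
    refine setIntegral_mono_on (tame_sq_iOn hf V) (((tame_sq_iOn hg V).const_mul _).add
      ((tame_sq_iOn (tame_sub hf hg) V).const_mul _)) measurableSet_Ioc fun v _ => ?_
    have h5 : ‖f v‖ ≤ ‖g v‖ + ‖f v - g v‖ := by
      calc ‖f v‖ = ‖g v + (f v - g v)‖ := by congr 1; ring
        _ ≤ _ := norm_add_le _ _
    have h6 : ‖f v‖ ^ 2 ≤ (‖g v‖ + ‖f v - g v‖) ^ 2 := by gcongr
    have h10 : 0 ≤ (η * ‖g v‖ - ‖f v - g v‖) ^ 2 / η := by positivity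
    have h11 : (η * ‖g v‖ - ‖f v - g v‖) ^ 2 / η = η * ‖g v‖ ^ 2 - 2 * ‖g v‖ * ‖f v - g v‖ + 1 / η * ‖f v - g v‖ ^ 2 := by
      field_simp
      ring
    rw [h11] at h10
    nlinarith
  refine ⟨?_, ?_, ?_⟩
  · have h1 := hTP V hV0.le
    rw [div_le_iff₀ hη] at hVK
    have h2 : |(∫ u in Ioc 0 V, ‖DP Z H u‖ ^ 2) / V - SZ| ≤ η / 2 := by
      have h3 : (∫ u in Ioc 0 V, ‖DP Z H u‖ ^ 2) / V - SZ = ((∫ u in Ioc 0 V, ‖DP Z H u‖ ^ 2) - SZ * V) / V := by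
        field_simp
      rw [h3, abs_div, abs_of_pos hV0, div_le_iff₀ hV0]
      linarith
    have h3 := abs_sub_le ((∫ u in Ioc 0 V, ‖DP Z H u‖ ^ 2) / V) SZ S
    linarith
  · have h1 := hq (DH H) (DP Z H) (tame_DH H) tDP
    rw [div_le_iff₀ hV0]
    have h2 : ((1 + η) * ((∫ u in Ioc 0 V, ‖DP Z H u‖ ^ 2) / V) + η) * V =
        (1 + η) * (∫ u in Ioc 0 V, ‖DP Z H u‖ ^ 2) + η * V := by field_simp
    rw [h2]
    unfold YD
    linarith
  · have h1 := hq (DP Z H) (DH H) tDP (tame_DH H)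
    have h3 : ∫ u in Ioc 0 V, ‖DP Z H u - DH H u‖ ^ 2 = ∫ u in Ioc 0 V, ‖DH H u - DP Z H u‖ ^ 2 := by
      refine integral_congr_ae (Eventually.of_forall fun u => ?_)
      simp only
      rw [norm_sub_rev]
    rw [h3] at h1
    rw [div_le_iff₀ hV0]
    have h2 : ((1 + η) * (YD H V / V) + η) * V = (1 + η) * YD H V + η * V := by field_simp
    rw [h2]
    unfold YD
    linarith

/-- the asymptotic formula gives small increments -/
theorem Inc_of_Asymp (h : AsympP) (hR : RHS) : IncP := by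
  intro ε hε
  have hs := h.1
  have h1 : Tendsto (fun H : ℝ => ∑' ρ : NT, ‖aa ρ‖ ^ 2 * wH H ρ) (𝓝[>] 0) (𝓝 (∑' _ : NT, (0:ℝ))) := by
    refine tendsto_tsum_of_dominated_convergence (bound := fun ρ : NT => ‖aa ρ‖ ^ 2 * (Real.exp (1 / 2) + 1) ^ 2)
      (hs.mul_right _) (fun ρ => ?_) ?_
    · have h2 : Continuous (fun H : ℝ => ‖aa ρ‖ ^ 2 * wH H ρ) := by unfold wH; fun_prop
      have h3 := h2.tendsto 0
      have h4 : ‖aa ρ‖ ^ 2 * wH 0 ρ = 0 := by unfold wH; simp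
      rw [h4] at h3
      exact h3.mono_left nhdsWithin_le_nhds
    · have h3 : ∀ᶠ H in 𝓝[>] (0:ℝ), H ≤ 1 := nhdsWithin_le_nhds (Iic_mem_nhds one_pos)
      filter_upwards [h3] with H hH ρ
      rw [Real.norm_of_nonneg (mul_nonneg (by positivity) (wH_nonneg _ _))]
      refine mul_le_mul_of_nonneg_left ((wH_le hR ρ.2).trans ?_) (by positivity)
      have : Real.exp (H / 2) ≤ Real.exp (1 / 2) := Real.exp_le_exp.2 (by linarith)
      gcongr
  rw [tsum_zero] at h1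
  obtain ⟨H₀, hH₀, h2⟩ := ev_to _ (h1.eventually_lt_const hε)
  refine ⟨H₀, hH₀, fun H hH hH1 => ?_⟩
  have h3 := (YD_lim h hR hH.le).eventually_lt_const (h2 H hH hH1)
  obtain ⟨V₀, hV₀⟩ := eventually_atTop.1 (h3.and (eventually_gt_atTop 0))
  refine ⟨V₀, fun V hV => ?_⟩
  obtain ⟨h4, h5⟩ := hV₀ V hV
  rw [div_lt_iff₀ h5] at h4
  exact h4.le

end

end Pool.Agent.Helper37.WMH
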