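import Pool.Agent.Helper37.WMH.Means

/-! The criterion for the asymptotic formula. -/

set_option autoImplicit false

open MeasureTheory Filter Topology Set
open scoped ENNReal

namespace Pool.Agent.Helper37.WMH

open Pool.Agent.H295R2

noncomputable section

/-- the asymptotic formula -/
def AsympP : Prop := Summable (fun ρ : NT => ‖aa ρ‖ ^ 2) ∧
  Tendsto (fun x : ℝ => II x / Real.log x) atTop (𝓝 (∑' ρ : NT, ‖aa ρ‖ ^ 2))

/-- almost periodicity in mean square -/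
def APP : Prop := ∀ ε : ℝ, 0 < ε → ∃ (Λ : Finset ℝ) (c : ℝ → ℂ), ∃ V₀ : ℝ, ∀ V : ℝ, V₀ ≤ V →
  ∫ u in Ioc 0 V, ‖m0 u - TP Λ c u‖ ^ 2 ≤ ε * V

/-- the window condition -/
def WinP : Prop := ∀ ε : ℝ, 0 < ε → ∃ T : ℝ, 0 ≤ T ∧ ∃ δ₀ : ℝ, 0 < δ₀ ∧ ∀ δ : ℝ, 0 < δ → δ ≤ δ₀ →
  WE (ZT T) δ ≤ ENNReal.ofReal (ε * δ)

/-- the Abel condition -/
def AbP : Prop := ∀ ε : ℝ, 0 < ε → ∃ T : ℝ, 0 ≤ T ∧ ∃ c₀ : ℝ, 0 < c₀ ∧ ∀ c : ℝ, 0 < c → c ≤ c₀ →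
  2 * c * AM (fun u => m0 u - PZ (ZT T) u) c ≤ ε

lemma tame_TP (Λ : Finset ℝ) (c : ℝ → ℂ) : Tame (TP Λ c) := by
  refine ⟨(TP_cont Λ c).measurable, (∑ l ∈ Λ, ‖c l‖) + 1, by
    have : 0 ≤ ∑ l ∈ Λ, ‖c l‖ := Finset.sum_nonneg fun _ _ => norm_nonneg _
    linarith, fun u => ?_⟩
  have h1 := TP_norm_le Λ c u
  have h2 : 1 ≤ Real.exp |u| := Real.one_le_exp (abs_nonneg u)
  have h3 : 0 ≤ ∑ l ∈ Λ, ‖c l‖ := Finset.sum_nonneg fun _ _ => norm_nonneg _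
  nlinarith

lemma inj_im (hR : RHS) {Z : Finset ℂ} (hZ : ∀ ρ ∈ Z, ρ ∈ NT) : Set.InjOn (fun ρ : ℂ => ρ.im) Z := by
  intro ρ hρ ρ' hρ' h
  apply Complex.ext
  · rw [(hR ρ (hZ ρ hρ)).1, (hR ρ' (hZ ρ' hρ')).1]
  · exact h

lemma mk_im (hR : RHS) {ρ : ℂ} (h : ρ ∈ NT) : (⟨1 / 2, ρ.im⟩ : ℂ) = ρ := by
  apply Complex.ext
  · exact (hR ρ h).1.symm
  · rfl

lemma bb_im (hR : RHS) {ρ : ℂ} (h : ρ ∈ NT) : bb ρ.im = aa ρ := by
  rw [bb_pos (by rw [mk_im hR h]; exact h), mk_im hR h]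

lemma PZ_TP (hR : RHS) {Z : Finset ℂ} (hZ : ∀ ρ ∈ Z, ρ ∈ NT) : PZ Z = TP (Z.image fun ρ => ρ.im) bb := by
  funext u
  unfold PZ TP
  rw [Finset.sum_image (inj_im hR hZ)]
  exact Finset.sum_congr rfl fun ρ hρ => by rw [bb_im hR (hZ ρ hρ)]

lemma sum_bb (hR : RHS) {Z : Finset ℂ} (hZ : ∀ ρ ∈ Z, ρ ∈ NT) :
    ∑ l ∈ Z.image (fun ρ => ρ.im), ‖bb l‖ ^ 2 = ∑ ρ ∈ Z, ‖aa ρ‖ ^ 2 := by
  rw [Finset.sum_image (inj_im hR hZ)]
  exact Finset.sum_congr rfl fun ρ hρ => by rw [bb_im hR (hZ ρ hρ)]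

lemma ZT_NT {T : ℝ} : ∀ ρ ∈ ZT T, ρ ∈ NT := fun _ hρ => (mem_ZT.1 hρ).1

/-- eventual growth of `JJ` gives growth for all arguments -/
lemma JJ_all {g : ℝ → ℂ} (hg : Tame g) {B V₀ : ℝ} (hB : 0 ≤ B) (h : ∀ V, V₀ ≤ V → ∫ u in Ioc 0 V, ‖g u‖ ^ 2 ≤ B * V) :
    ∃ D : ℝ, 0 ≤ D ∧ ∀ V, 0 < V → ∫ u in Ioc 0 V, ‖g u‖ ^ 2 ≤ B * V + D := by
  refine ⟨∫ u in Ioc 0 V₀, ‖g u‖ ^ 2, integral_nonneg fun u => by positivity, fun V hV => ?_⟩
  rcases le_or_gt V₀ V with h1 | h1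
  · have := h V h1
    have h2 : 0 ≤ ∫ u in Ioc 0 V₀, ‖g u‖ ^ 2 := integral_nonneg fun u => by positivity
    linarith
  · have h2 : ∫ u in Ioc 0 V, ‖g u‖ ^ 2 ≤ ∫ u in Ioc 0 V₀, ‖g u‖ ^ 2 :=
      setIntegral_mono_set (tame_sq_iOn hg V₀) (Eventually.of_forall fun u => by positivity)
        (Eventually.of_forall fun u hu => ⟨hu.1, hu.2.trans h1.le⟩)
    have := mul_nonneg hB hV.le
    linarith

/-- Abel means from eventual growth -/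
lemma AM_ev {g : ℝ → ℂ} (hg : Tame g) {B V₀ : ℝ} (hB : 0 ≤ B) (h : ∀ V, V₀ ≤ V → ∫ u in Ioc 0 V, ‖g u‖ ^ 2 ≤ B * V)
    {η : ℝ} (hη : 0 < η) : ∀ᶠ c in 𝓝[>] (0:ℝ), 2 * c * AM g c ≤ B + η := by
  obtain ⟨D, hD, h1⟩ := JJ_all hg hB h
  have h2 : Tendsto (fun c : ℝ => B + 2 * c * D) (𝓝[>] 0) (𝓝 B) := by
    have h3 : Continuous (fun c : ℝ => B + 2 * c * D) := by fun_prop
    have h4 := h3.tendsto 0
    simp only [mul_zero, zero_mul, add_zero] at h4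
    exact h4.mono_left nhdsWithin_le_nhds
  have h3 := h2.eventually_lt_const (show B < B + η by linarith)
  filter_upwards [h3, self_mem_nhdsWithin] with c hc hc0
  have hc0' : (0:ℝ) < c := hc0
  have h4 := AM_le hg.meas hB hD hc0' (fun V => tame_sq_iOn hg V) h1
  calc 2 * c * AM g c ≤ 2 * c * (B / (2 * c) + D) := by gcongr
    _ = B + 2 * c * D := by field_simp
    _ ≤ B + η := hc.le

lemma ev_to (P : ℝ → Prop) (h : ∀ᶠ c in 𝓝[>] (0:ℝ), P c) : ∃ c₀ : ℝ, 0 < c₀ ∧ ∀ c, 0 < c → c ≤ c₀ → P c := by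
  rw [eventually_nhdsWithin_iff, Metric.eventually_nhds_iff] at h
  obtain ⟨ε, hε, h⟩ := h
  refine ⟨ε / 2, by positivity, fun c hc hc1 => h ?_ hc⟩
  rw [dist_zero_right, Real.norm_of_nonneg hc.le]
  linarith

lemma freq_of_JJ {C V₀ : ℝ} (h : ∀ V, V₀ ≤ V → JJ V ≤ C * V) : ∀ᶠ x in atTop, II x ≤ C * Real.log x := by
  filter_upwards [eventually_ge_atTop 1, Real.tendsto_log_atTop.eventually (eventually_ge_atTop V₀)] with x hx h2
  rw [II_eq hx]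
  exact h _ h2

lemma aa_le_of_sum {C : ℝ} (h : ∀ Z : Finset ℂ, (∀ ρ ∈ Z, ρ ∈ NT) → ∑ ρ ∈ Z, ‖aa ρ‖ ^ 2 ≤ C) :
    ∀ ρ ∈ NT, ‖aa ρ‖ ≤ Real.sqrt C := by
  intro ρ hρ
  apply Real.le_sqrt_of_sq_le
  have := h {ρ} (by simpa using hρ)
  simpa using this

theorem Ab_of_Asymp (h : AsympP) : RHS ∧ (∃ A, ∀ ρ ∈ NT, ‖aa ρ‖ ≤ A) ∧ AbP := by
  classical
  obtain ⟨hs, ht⟩ := h
  set S := ∑' ρ : NT, ‖aa ρ‖ ^ 2 with hS
  have hS0 : 0 ≤ S := tsum_nonneg fun _ => by positivity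
  have hup : ∀ ε : ℝ, 0 < ε → ∃ V₀, ∀ V, V₀ ≤ V → JJ V ≤ (S + ε) * V := by
    intro ε hε
    have h1 := ht.eventually_lt_const (show S < S + ε by linarith)
    have h2 := (Real.tendsto_exp_atTop.eventually h1).and (eventually_gt_atTop (0:ℝ))
    rw [eventually_atTop] at h2
    obtain ⟨V₀, h3⟩ := h2
    refine ⟨V₀, fun V hV => ?_⟩
    obtain ⟨h4, h5⟩ := h3 V hV
    rw [Real.log_exp, II_exp h5.le, div_lt_iff₀ h5] at h4
    exact h4.le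
  obtain ⟨V₁, hV₁⟩ := hup 1 one_pos
  obtain ⟨hR, hb⟩ := basic (freq_of_JJ hV₁).frequently
  refine ⟨hR, ⟨_, aa_le_of_sum hb⟩, fun ε hε => ?_⟩
  -- choose T
  obtain ⟨s, hs2⟩ : ∃ s : Finset NT, S - ε / 4 < ∑ ρ ∈ s, ‖aa ρ‖ ^ 2 := by
    have := (hs.hasSum).eventually_const_lt (show S - ε / 4 < S by linarith)
    exact this.exists
  set T : ℝ := ∑ ρ ∈ s, |(ρ : ℂ).im| with hT
  have hT0 : 0 ≤ T := Finset.sum_nonneg fun _ _ => abs_nonneg _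
  have hsT : S - ε / 4 < ∑ ρ ∈ ZT T, ‖aa ρ‖ ^ 2 := by
    refine hs2.trans_le ?_
    have h1 : ∑ ρ ∈ s, ‖aa ρ‖ ^ 2 = ∑ ρ ∈ s.map (Function.Embedding.subtype _), ‖aa ρ‖ ^ 2 := by
      rw [Finset.sum_map]
      rfl
    rw [h1]
    refine Finset.sum_le_sum_of_subset_of_nonneg ?_ fun _ _ _ => by positivity
    intro ρ hρ
    rw [Finset.mem_map] at hρ
    obtain ⟨ρ', h2, rfl⟩ := hρ
    rw [mem_ZT]
    exact ⟨ρ'.2, Finset.single_le_sum (f := fun ρ : NT => |(ρ : ℂ).im|) (fun _ _ => abs_nonneg _) h2⟩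
  refine ⟨T, hT0, ?_⟩
  obtain ⟨V₀, hV₀⟩ := hup (ε / 4) (by positivity)
  have h1 := AM_ev tame_m0 (B := S + ε / 4) (V₀ := V₀) (by positivity) (fun V hV => by
    rw [← JJ_eq]; exact hV₀ V hV) (η := ε / 4) (by positivity)
  have h2 := AM_lim hR ((ZT T).image fun ρ => ρ.im) bb
  have e1 : ∑ l ∈ (ZT T).image (fun ρ => ρ.im), (‖bb l - bb l‖ ^ 2 - ‖bb l‖ ^ 2) = -∑ ρ ∈ ZT T, ‖aa ρ‖ ^ 2 := by
    rw [← sum_bb hR ZT_NT, ← Finset.sum_neg_distrib]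
    exact Finset.sum_congr rfl fun l _ => by simp
  rw [e1, ← PZ_TP hR ZT_NT] at h2
  have h3 := h2.eventually_lt_const (show -∑ ρ ∈ ZT T, ‖aa ρ‖ ^ 2 < -∑ ρ ∈ ZT T, ‖aa ρ‖ ^ 2 + ε / 4 by linarith)
  apply ev_to
  filter_upwards [h1, h3] with c hc1 hc2
  linarith

theorem Ab_of_AP (h : APP) : RHS ∧ (∃ A, ∀ ρ ∈ NT, ‖aa ρ‖ ≤ A) ∧ AbP := by
  classical
  obtain ⟨hR, hA⟩ : RHS ∧ ∃ A, ∀ ρ ∈ NT, ‖aa ρ‖ ≤ A := by
    obtain ⟨Λ, c, V₀, hV₀⟩ := h 1 one_pos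
    set D := ∑ l ∈ Λ, ‖c l‖ with hD
    have h1 : ∀ V, max V₀ 0 ≤ V → JJ V ≤ (2 + 2 * D ^ 2) * V := by
      intro V hV
      have h2 := hV₀ V ((le_max_left _ _).trans hV)
      have hV0 : 0 ≤ V := (le_max_right _ _).trans hV
      rw [JJ_eq]
      have h3 : ∫ u in Ioc 0 V, ‖m0 u‖ ^ 2 ≤ ∫ u in Ioc 0 V, (2 * ‖m0 u - TP Λ c u‖ ^ 2 + 2 * D ^ 2) := by
        refine setIntegral_mono_on (tame_sq_iOn tame_m0 V)
          (((tame_sq_iOn (tame_sub tame_m0 (tame_TP Λ c)) V).const_mul 2).add (integrableOn_const (by simp)))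
          measurableSet_Ioc fun u _ => ?_
        have h4 := TP_norm_le Λ c u
        have h5 : ‖m0 u‖ ≤ ‖m0 u - TP Λ c u‖ + D := by
          calc ‖m0 u‖ = ‖(m0 u - TP Λ c u) + TP Λ c u‖ := by rw [sub_add_cancel]
            _ ≤ _ := (norm_add_le _ _).trans (by linarith)
        have h6 : ‖m0 u‖ ^ 2 ≤ (‖m0 u - TP Λ c u‖ + D) ^ 2 := by gcongr
        nlinarith [sq_nonneg (‖m0 u - TP Λ c u‖ - D)]
      have h4 : ∫ u in Ioc 0 V, (2 * ‖m0 u - TP Λ c u‖ ^ 2 + 2 * D ^ 2) =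
          2 * (∫ u in Ioc 0 V, ‖m0 u - TP Λ c u‖ ^ 2) + 2 * D ^ 2 * V := by
        have i1 : IntegrableOn (fun u => 2 * ‖m0 u - TP Λ c u‖ ^ 2) (Ioc 0 V) :=
          (tame_sq_iOn (tame_sub tame_m0 (tame_TP Λ c)) V).const_mul 2
        have i2 : IntegrableOn (fun _ : ℝ => 2 * D ^ 2) (Ioc 0 V) := integrableOn_const (by simp)
        have t := integral_add i1 i2
        rw [t, integral_const_mul, setIntegral_const]
        simp [hV0, mul_comm]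
      rw [h4] at h3
      linarith
    obtain ⟨hR, hb⟩ := basic (freq_of_JJ h1).frequently
    exact ⟨hR, _, aa_le_of_sum hb⟩
  refine ⟨hR, hA, fun ε hε => ?_⟩
  obtain ⟨Λ, cf, V₀, hV₀⟩ := h (ε / 3) (by positivity)
  set T : ℝ := ∑ l ∈ Λ, |l| with hT
  have hT0 : 0 ≤ T := Finset.sum_nonneg fun _ _ => abs_nonneg _
  refine ⟨T, hT0, ?_⟩
  set Λ' : Finset ℝ := (ZT T).image (fun ρ => ρ.im) ∪ Λ with hΛ'
  set cf' : ℝ → ℂ := fun l => if l ∈ Λ then cf l else 0 with hcf'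
  have e1 : TP Λ' cf' = TP Λ cf := by
    funext u
    unfold TP
    rw [← Finset.sum_subset (Finset.subset_union_right : Λ ⊆ Λ')]
    · exact Finset.sum_congr rfl fun l hl => by rw [hcf']; simp only [if_pos hl]
    · intro l _ hl
      rw [hcf']; simp only [if_neg hl, zero_mul]
  have e2 : TP Λ' bb = PZ (ZT T) := by
    rw [PZ_TP hR ZT_NT]
    funext u
    unfold TP
    rw [← Finset.sum_subset (Finset.subset_union_left : (ZT T).image (fun ρ => ρ.im) ⊆ Λ')]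
    intro l hl hl2
    have hlΛ : l ∈ Λ := by
      rw [Finset.mem_union] at hl
      exact hl.resolve_left hl2
    rw [bb_neg, zero_mul]
    intro hN
    apply hl2
    rw [Finset.mem_image]
    refine ⟨⟨1 / 2, l⟩, mem_ZT.2 ⟨hN, ?_⟩, rfl⟩
    exact Finset.single_le_sum (f := fun l : ℝ => |l|) (fun _ _ => abs_nonneg _) hlΛ
  have h1 := AM_ev (tame_sub tame_m0 (tame_TP Λ cf)) (B := ε / 3) (by positivity) hV₀ (η := ε / 3) (by positivity)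
  have h2 := (AM_lim hR Λ' bb).sub (AM_lim hR Λ' cf')
  rw [e1, e2] at h2
  have h3 : (∑ l ∈ Λ', (‖bb l - bb l‖ ^ 2 - ‖bb l‖ ^ 2)) - (∑ l ∈ Λ', (‖cf' l - bb l‖ ^ 2 - ‖bb l‖ ^ 2)) < ε / 3 := by
    rw [← Finset.sum_sub_distrib]
    have : ∑ l ∈ Λ', ((‖bb l - bb l‖ ^ 2 - ‖bb l‖ ^ 2) - (‖cf' l - bb l‖ ^ 2 - ‖bb l‖ ^ 2)) ≤ 0 := by
      apply Finset.sum_nonpos
      intro l _
      rw [sub_self, norm_zero]
      nlinarith [sq_nonneg ‖cf' l - bb l‖]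
    linarith
  have h4 := h2.eventually_lt_const h3
  apply ev_to
  filter_upwards [h1, h4] with c hc1 hc2
  linarith

theorem Win_of_Ab (hR : RHS) {A : ℝ} (hA : ∀ ρ ∈ NT, ‖aa ρ‖ ≤ A) (h : AbP) : WinP := by
  intro ε hε
  have hp := Real.pi_pos
  set K : ℝ := (1 + 3 * 48 ^ 2) * Real.pi + 1 with hK
  have hK0 : 0 < K := by rw [hK]; positivity
  set ε₁ : ℝ := ε / (4 * K) with hε₁
  have hε₁0 : 0 < ε₁ := by rw [hε₁]; positivity
  obtain ⟨T, hT, c₀, hc₀, h1⟩ := h ε₁ hε₁0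
  obtain ⟨C, hC, h2⟩ := GE_of_AM_ZT hR hA hT
  refine ⟨T, hT, min (min 1 (4 * c₀)) (4 * ε₁ / (C + 1)), by positivity, fun δ hδ hδ1 => ?_⟩
  have hG : ∀ δ' : ℝ, 0 < δ' → δ' ≤ δ → GE (ZT T) δ' ≤ ENNReal.ofReal (K * ε₁ * δ') := by
    intro δ' hδ' hle
    have hm := hle.trans hδ1
    have m1 : δ' ≤ 1 := hm.trans ((min_le_left _ _).trans (min_le_left _ _))
    have m2 : δ' ≤ 4 * c₀ := hm.trans ((min_le_left _ _).trans (min_le_right _ _))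
    have m3 : δ' ≤ 4 * ε₁ / (C + 1) := hm.trans (min_le_right _ _)
    refine (h2 δ' hδ' m1).trans (ENNReal.ofReal_le_ofReal ?_)
    have h3 := h1 (δ' / 4) (by positivity) (by linarith)
    have h4 : AM (fun u => m0 u - PZ (ZT T) u) (δ' / 4) ≤ 2 * ε₁ / δ' := by
      rw [le_div_iff₀ hδ']
      linarith
    have h5 : δ' * C ≤ 4 * ε₁ := by
      rw [le_div_iff₀ (by positivity)] at m3
      nlinarith
    calc δ' ^ 2 / 4 * ((1 + 3 * 48 ^ 2) * (2 * Real.pi * AM (fun u => m0 u - PZ (ZT T) u) (δ' / 4)) + C)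
        ≤ δ' ^ 2 / 4 * ((1 + 3 * 48 ^ 2) * (2 * Real.pi * (2 * ε₁ / δ')) + C) := by gcongr
      _ = (1 + 3 * 48 ^ 2) * Real.pi * ε₁ * δ' + (δ' * C) * δ' / 4 := by field_simp; ring
      _ ≤ (1 + 3 * 48 ^ 2) * Real.pi * ε₁ * δ' + (4 * ε₁) * δ' / 4 := by gcongr
      _ = K * ε₁ * δ' := by rw [hK]; ring
  have h3 := WE_le hR hA (Z := ZT T) ZT_NT (B := K * ε₁) (by positivity) hδ hG
  refine h3.trans (ENNReal.ofReal_le_ofReal (le_of_eq ?_))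
  rw [hε₁]
  field_simp

/-- mean-square approximation from the window condition -/
theorem mean_of_Win (hR : RHS) (h : WinP) : ∀ ε : ℝ, 0 < ε → ∃ T V₀ : ℝ, 0 < V₀ ∧ ∀ V, V₀ ≤ V →
    ∫ u in Ioc 0 V, ‖m0 u - PZ (ZT T) u‖ ^ 2 ≤ ε * V := by
  obtain ⟨A, hA⟩ : ∃ A, ∀ ρ ∈ NT, ‖aa ρ‖ ≤ A := by
    obtain ⟨T, hT, δ₀, hδ₀, h1⟩ := h 1 one_pos
    refine ⟨1 + ∑ ρ ∈ ZT T, ‖aa ρ‖, fun ρ hρ => ?_⟩
    have h0 : 0 ≤ ∑ ρ ∈ ZT T, ‖aa ρ‖ := Finset.sum_nonneg fun _ _ => norm_nonneg _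
    by_cases hz : ρ ∈ ZT T
    · have : ‖aa ρ‖ ≤ ∑ ρ ∈ ZT T, ‖aa ρ‖ :=
        Finset.single_le_sum (f := fun ρ : ℂ => ‖aa ρ‖) (fun _ _ => norm_nonneg _) hz
      linarith
    · have h2 := aa_bound hR (B := 1) zero_le_one hδ₀ h1 hρ
      unfold aZ at h2
      rw [if_neg hz] at h2
      have : ‖aa ρ‖ ≤ 1 := by
        by_contra hc
        push Not at hc
        nlinarith
      linarith
  obtain ⟨C₀, hC₀, hM⟩ := mean_le hR hA
  intro ε hε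
  obtain ⟨T, hT, δ₀, hδ₀, h1⟩ := h (ε / 48) (by positivity)
  refine ⟨T, max (4 / δ₀) (2 * C₀ / ε), by positivity, fun V hV => ?_⟩
  have hV1 : 4 / δ₀ ≤ V := (le_max_left _ _).trans hV
  have hV2 : 2 * C₀ / ε ≤ V := (le_max_right _ _).trans hV
  have hV0 : 0 < V := lt_of_lt_of_le (by positivity) hV1
  have h2 := GE_le hA (Z := ZT T) (B := ε / 48) (by positivity) hδ₀ h1 (δ := 1 / V) (by positivity)
  have h3 : ε / 48 * (2 * (1 / V) + 4 / δ₀ * (1 / V) ^ 2) ≤ (3 * (ε / 48)) * (1 / V) := by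
    have h4 : 4 / δ₀ * (1 / V) ≤ 1 := by
      rw [mul_one_div, div_le_one hV0]; exact hV1
    have h5 : 4 / δ₀ * (1 / V) ^ 2 ≤ 1 / V := by
      have : 0 < 1 / V := by positivity
      calc 4 / δ₀ * (1 / V) ^ 2 = (4 / δ₀ * (1 / V)) * (1 / V) := by ring
        _ ≤ 1 * (1 / V) := by gcongr
        _ = 1 / V := one_mul _
    have h6 : 2 * (1 / V) + 4 / δ₀ * (1 / V) ^ 2 ≤ 3 * (1 / V) := by linarith
    calc ε / 48 * (2 * (1 / V) + 4 / δ₀ * (1 / V) ^ 2) ≤ ε / 48 * (3 * (1 / V)) := by gcongr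
      _ = _ := by ring
  have h4 := hM (ZT T) ZT_NT (3 * (ε / 48)) V (by positivity) hV0 (h2.trans (ENNReal.ofReal_le_ofReal h3))
  rw [div_le_iff₀ hε] at hV2
  have e1 : 8 * (3 * (ε / 48)) * V = ε * V / 2 := by ring
  rw [e1] at h4
  linarith

theorem AP_of_Win (hR : RHS) (h : WinP) : APP := by
  intro ε hε
  obtain ⟨T, V₀, _, h1⟩ := mean_of_Win hR h ε hε
  refine ⟨(ZT T).image fun ρ => ρ.im, bb, V₀, fun V hV => ?_⟩
  rw [← PZ_TP hR ZT_NT]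
  exact h1 V hV

theorem Asymp_of_Win (hR : RHS) (h : WinP) : AsympP := by
  classical
  have hm := mean_of_Win hR h
  -- upper bound with parameters
  have hup : ∀ η ε : ℝ, 0 < η → 0 < ε → ∃ T V₀ K : ℝ, 0 < V₀ ∧ 0 ≤ K ∧ ∀ V, V₀ ≤ V →
      JJ V ≤ (1 + η) * ((∑ ρ ∈ ZT T, ‖aa ρ‖ ^ 2) * V + K) + (1 + 1 / η) * (ε * V) := by
    intro η ε hη hε
    obtain ⟨T, V₀, hV₀, h1⟩ := hm ε hε
    obtain ⟨K, hK, h2⟩ := TP_mean ((ZT T).image fun ρ => ρ.im) bb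
    rw [← PZ_TP hR ZT_NT, sum_bb hR ZT_NT] at h2
    refine ⟨T, V₀, K, hV₀, hK, fun V hV => ?_⟩
    have hV0 : 0 < V := hV₀.trans_le hV
    have h3 := h1 V hV
    have h4 := h2 V hV0.le
    have i1 : IntegrableOn (fun u => (1 + η) * ‖PZ (ZT T) u‖ ^ 2) (Ioc 0 V) := (tame_sq_iOn (tame_PZ _) V).const_mul _
    have i2 : IntegrableOn (fun u => (1 + 1 / η) * ‖m0 u - PZ (ZT T) u‖ ^ 2) (Ioc 0 V) :=
      (tame_sq_iOn (tame_sub tame_m0 (tame_PZ _)) V).const_mul _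
    rw [JJ_eq]
    calc ∫ u in Ioc 0 V, ‖m0 u‖ ^ 2
        ≤ ∫ u in Ioc 0 V, ((1 + η) * ‖PZ (ZT T) u‖ ^ 2 + (1 + 1 / η) * ‖m0 u - PZ (ZT T) u‖ ^ 2) := by
          refine setIntegral_mono_on (tame_sq_iOn tame_m0 V) (i1.add i2) measurableSet_Ioc fun u _ => ?_
          have h5 : ‖m0 u‖ ≤ ‖PZ (ZT T) u‖ + ‖m0 u - PZ (ZT T) u‖ := by
            calc ‖m0 u‖ = ‖PZ (ZT T) u + (m0 u - PZ (ZT T) u)‖ := by rw [add_sub_cancel]
              _ ≤ _ := norm_add_le _ _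
          have h6 : ‖m0 u‖ ^ 2 ≤ (‖PZ (ZT T) u‖ + ‖m0 u - PZ (ZT T) u‖) ^ 2 := by gcongr
          set a := ‖PZ (ZT T) u‖
          set b := ‖m0 u - PZ (ZT T) u‖
          have h7 : 2 * a * b ≤ η * a ^ 2 + 1 / η * b ^ 2 := by
            have h8 : 0 ≤ (η * a - b) ^ 2 / η := by positivity
            have h9 : (η * a - b) ^ 2 / η = η * a ^ 2 - 2 * a * b + 1 / η * b ^ 2 := by
              field_simp
              ring
            linarith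
          nlinarith
      _ = (1 + η) * (∫ u in Ioc 0 V, ‖PZ (ZT T) u‖ ^ 2) + (1 + 1 / η) * ∫ u in Ioc 0 V, ‖m0 u - PZ (ZT T) u‖ ^ 2 := by
          have t := integral_add i1 i2
          rw [t, integral_const_mul, integral_const_mul]
      _ ≤ _ := by gcongr
  -- summability
  have hsum : Summable (fun ρ : NT => ‖aa ρ‖ ^ 2) := by
    obtain ⟨T, V₀, K, hV₀, hK, h1⟩ := hup 1 1 one_pos one_pos
    set S₁ := ∑ ρ ∈ ZT T, ‖aa ρ‖ ^ 2 with hS₁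
    have h2 : ∀ V, max V₀ 1 ≤ V → JJ V ≤ (2 * S₁ + 2 * K + 2) * V := by
      intro V hV
      have h3 := h1 V ((le_max_left _ _).trans hV)
      have h4 : 1 ≤ V := (le_max_right _ _).trans hV
      have h5 : K ≤ K * V := le_mul_of_one_le_right hK h4
      norm_num at h3
      nlinarith
    obtain ⟨_, hb⟩ := basic (freq_of_JJ h2).frequently
    apply summable_of_sum_le (c := 2 * S₁ + 2 * K + 2) (fun _ => by positivity)
    intro u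
    have h3 := hb (u.map (Function.Embedding.subtype _)) (by
      intro ρ hρ
      rw [Finset.mem_map] at hρ
      obtain ⟨ρ', _, rfl⟩ := hρ
      exact ρ'.2)
    rw [Finset.sum_map] at h3
    exact h3
  refine ⟨hsum, ?_⟩
  set S := ∑' ρ : NT, ‖aa ρ‖ ^ 2 with hS
  have hS0 : 0 ≤ S := tsum_nonneg fun _ => by positivity
  have hfin : ∀ T, ∑ ρ ∈ ZT T, ‖aa ρ‖ ^ 2 ≤ S := by
    intro T
    have h1 : ∑ ρ ∈ ZT T, ‖aa ρ‖ ^ 2 = ∑ ρ ∈ (ZT T).subtype (fun s => s ∈ NT), ‖aa (ρ : ℂ)‖ ^ 2 := by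
      rw [Finset.sum_subtype_eq_sum_filter (s := ZT T) (p := fun s => s ∈ NT) (f := fun s : ℂ => ‖aa s‖ ^ 2)]
      rw [Finset.filter_true_of_mem ZT_NT]
    rw [h1]
    exact hsum.sum_le_tsum _ fun _ _ => by positivity
  rw [tendsto_order]
  constructor
  · intro C hC
    by_contra hcon
    rw [not_eventually] at hcon
    have h1 : ∃ᶠ x in atTop, II x ≤ C * Real.log x := by
      refine (hcon.and_eventually (eventually_gt_atTop 1)).mono ?_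
      rintro x ⟨h2, h3⟩
      push Not at h2
      have h4 := Real.log_pos h3
      rwa [div_le_iff₀ h4] at h2
    obtain ⟨_, hb⟩ := basic h1
    have h2 : S ≤ C := by
      apply hsum.tsum_le_of_sum_le
      intro u
      have h3 := hb (u.map (Function.Embedding.subtype _)) (by
        intro ρ hρ
        rw [Finset.mem_map] at hρ
        obtain ⟨ρ', _, rfl⟩ := hρ
        exact ρ'.2)
      rw [Finset.sum_map] at h3
      exact h3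
    linarith
  · intro C hC
    set d := C - S with hd
    have hd0 : 0 < d := by rw [hd]; linarith
    set η : ℝ := min 1 (d / (4 * (S + 1))) with hη
    have hη0 : 0 < η := by rw [hη]; positivity
    have hη1 : η ≤ 1 := min_le_left _ _
    have hη2 : η * S ≤ d / 4 := by
      have h1 : η ≤ d / (4 * (S + 1)) := min_le_right _ _
      rw [le_div_iff₀ (by positivity)] at h1
      nlinarith
    obtain ⟨T, V₀, K, hV₀, hK, h1⟩ := hup η (η * d / 8) hη0 (by positivity)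
    have h2 : ∀ V, max V₀ (8 * (K + 1) / d) ≤ V → JJ V < C * V := by
      intro V hV
      have h3 := h1 V ((le_max_left _ _).trans hV)
      have h4 : 8 * (K + 1) / d ≤ V := (le_max_right _ _).trans hV
      have hV0 : 0 < V := hV₀.trans_le ((le_max_left _ _).trans hV)
      rw [div_le_iff₀ hd0] at h4
      have h5 : (1 + 1 / η) * (η * d / 8 * V) ≤ d / 4 * V := by
        have e1 : (1 + 1 / η) * (η * d / 8 * V) = (η + 1) * (d / 8 * V) := by field_simp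
        rw [e1]
        have : 0 ≤ d / 8 * V := by positivity
        nlinarith
      have h6 : (1 + η) * ((∑ ρ ∈ ZT T, ‖aa ρ‖ ^ 2) * V + K) ≤ (1 + η) * (S * V + K) := by
        gcongr
        exact hfin T
      have h7 : (1 + η) * (S * V + K) ≤ S * V + d / 4 * V + 2 * K := by
        have : η * S * V ≤ d / 4 * V := by gcongr
        nlinarith
      have h8 : C = S + d := by rw [hd]; ring
      rw [h8]
      nlinarith
    filter_upwards [eventually_gt_atTop 1, Real.tendsto_log_atTop.eventually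
      (eventually_ge_atTop (max V₀ (8 * (K + 1) / d)))] with x hx h3
    have h4 := Real.log_pos hx
    rw [II_eq hx.le, div_lt_iff₀ h4]
    exact h2 _ h3

theorem part2 : (AsympP ↔ RHS ∧ WinP) ∧ (APP ↔ RHS ∧ WinP) := by
  refine ⟨⟨fun h => ?_, fun h => Asymp_of_Win h.1 h.2⟩, ⟨fun h => ?_, fun h => AP_of_Win h.1 h.2⟩⟩
  · obtain ⟨hR, ⟨A, hA⟩, hAb⟩ := Ab_of_Asymp h
    exact ⟨hR, Win_of_Ab hR hA hAb⟩
  · obtain ⟨hR, ⟨A, hA⟩, hAb⟩ := Ab_of_AP h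
    exact ⟨hR, Win_of_Ab hR hA hAb⟩

end

end Pool.Agent.Helper37.WMH
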