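import Pool.Agent.Helper37.WMH.Diff

/-! Plancherel for the increments. -/

set_option autoImplicit false

open MeasureTheory Filter Topology Set
open scoped ENNReal

namespace Pool.Agent.Helper37.WMH

open Pool.Agent.H295R2

noncomputable section

lemma norm_cexp_half (H : ℝ) : ‖Complex.exp (H / 2)‖ = Real.exp (H / 2) := by
  rw [Complex.norm_exp]; congr 1
  have : (((H : ℂ) / 2)) = ((H / 2 : ℝ) : ℂ) := by push_cast; ring
  rw [this, Complex.ofReal_re]

lemma DH_nice (hR : RHS) {H : ℝ} (hH : 0 ≤ H) {ε : ℝ} (hε : 0 < ε) (hε1 : ε ≤ 1) : ∃ C, Nice (DH H) C ε (-H) := by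
  obtain ⟨C, hC⟩ := m0_nice hR hε hε1
  have hC0 := hC.C_nonneg
  refine ⟨Real.exp (H / 2) * C * Real.exp (ε * H) + C, (tame_DH H).meas, fun u => ?_, fun u hu => ?_⟩
  · unfold DH
    refine (norm_sub_le _ _).trans ?_
    rw [norm_mul, norm_cexp_half, add_mul]
    refine add_le_add ?_ (hC.bound u)
    calc Real.exp (H / 2) * ‖m0 (u + H)‖ ≤ Real.exp (H / 2) * (C * Real.exp (ε * (u + H))) := by
          gcongr
          exact hC.bound _
      _ = _ := by rw [mul_add, Real.exp_add]; ring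
  · unfold DH
    rw [m0_zero (by linarith), m0_zero (by linarith)]
    simp

theorem Lap_DH (hR : RHS) (H : ℝ) {s : ℂ} (hs : 0 < s.re) :
    Lap (DH H) s = (Complex.exp ((s + 1 / 2) * H) - 1) * HH (s + 1 / 2) := by
  obtain ⟨C, hC⟩ := m0_nice hR (ε := min (s.re / 2) 1) (by positivity) (min_le_right _ _)
  have h2 := hC.integrable (s := s) (by
      have := min_le_left (s.re / 2) 1
      linarith)
  set f : ℝ → ℂ := fun u => Complex.exp ((s + 1 / 2) * H) * (m0 u * Complex.exp (-(s * u))) with hf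
  have hfi : Integrable f := h2.const_mul _
  have e : ∀ v : ℝ, DH H v * Complex.exp (-(s * v)) = f (v + H) - m0 v * Complex.exp (-(s * v)) := by
    intro v
    rw [hf]
    simp only
    unfold DH
    have h3 : Complex.exp ((s + 1 / 2) * H) * (m0 (v + H) * Complex.exp (-(s * ((v + H : ℝ) : ℂ)))) =
        m0 (v + H) * (Complex.exp ((s + 1 / 2) * H) * Complex.exp (-(s * ((v + H : ℝ) : ℂ)))) := by ring
    have h4 : Complex.exp ((s + 1 / 2) * H) * Complex.exp (-(s * ((v + H : ℝ) : ℂ))) =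
        Complex.exp (H / 2) * Complex.exp (-(s * v)) := by
      rw [← Complex.exp_add, ← Complex.exp_add]; congr 1; push_cast; ring
    rw [h3, h4]
    ring
  have h5 : Lap (DH H) s = (∫ v : ℝ, f (v + H)) - ∫ v : ℝ, m0 v * Complex.exp (-(s * v)) := by
    unfold Lap
    rw [← integral_sub (hfi.comp_add_right H) h2]
    exact integral_congr_ae (Eventually.of_forall fun v => e v)
  rw [h5, integral_add_right_eq_self f H]
  have h6 : ∫ v : ℝ, f v = Complex.exp ((s + 1 / 2) * H) * Lap m0 s := by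
    rw [hf]
    unfold Lap
    rw [integral_const_mul]
  rw [h6]
  change Complex.exp ((s + 1 / 2) * H) * Lap m0 s - Lap m0 s = _
  rw [Lap_m0 hR hs]
  ring

/-- the transform of the increments on a vertical line -/
def KH (H : ℝ) (c t : ℝ) : ℂ := (Complex.exp ((⟨1 / 2 + c, t⟩ : ℂ) * H) - 1) * HH ⟨1 / 2 + c, t⟩

theorem line_DH (hR : RHS) {H : ℝ} (hH : 0 ≤ H) {c : ℝ} (hc : 0 < c) :
    Integrable (fun t : ℝ => ‖KH H c t‖ ^ 2) ∧
    ∫ t : ℝ, ‖KH H c t‖ ^ 2 = 2 * Real.pi * ∫ u : ℝ, ‖DH H u‖ ^ 2 * Real.exp (-(2 * c * u)) := by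
  obtain ⟨C, hC⟩ := DH_nice hR hH (ε := min (c / 2) 1) (by positivity) (min_le_right _ _)
  obtain ⟨h1, h2⟩ := plancherel_Lap hC (c := c) (by
      have := min_le_left (c / 2) 1
      linarith)
  have e : ∀ ξ : ℝ, Lap (DH H) (c + 2 * Real.pi * ξ * Complex.I) = KH H c (ξ * (2 * Real.pi)) := by
    intro ξ
    rw [Lap_DH hR H (by simpa using hc)]
    unfold KH
    have : (c : ℂ) + 2 * Real.pi * ξ * Complex.I + 1 / 2 = ⟨1 / 2 + c, ξ * (2 * Real.pi)⟩ := by
      apply Complex.ext
      · simp; ring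
      · simp; ring
    rw [this]
  simp_rw [e] at h1 h2
  have hpi : (0:ℝ) < 2 * Real.pi := by have := Real.pi_pos; positivity
  constructor
  · exact (integrable_comp_mul_right_iff (fun t : ℝ => ‖KH H c t‖ ^ 2) hpi.ne').1 h1
  · rw [← h2, Measure.integral_comp_mul_right (fun t : ℝ => ‖KH H c t‖ ^ 2) (2 * Real.pi),
      abs_of_pos (inv_pos.2 hpi), smul_eq_mul, ← mul_assoc, mul_inv_cancel₀ hpi.ne', one_mul]

lemma Nice_sq_int {k : ℝ → ℂ} {C a u₀ c : ℝ} (h : Nice k C a u₀) (hc : a < c) :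
    Integrable (fun u : ℝ => ‖k u‖ ^ 2 * Real.exp (-(2 * c * u))) := by
  have h1 := integrable_ind_exp (by linarith : 2 * (a - c) < 0) (C ^ 2) u₀
  refine h1.mono' ?_ (Eventually.of_forall fun u => ?_)
  · exact ((h.meas.norm.pow_const 2).mul (Continuous.measurable (by fun_prop))).aestronglyMeasurable
  · rw [Real.norm_of_nonneg (by positivity)]
    by_cases hu : u ∈ Ici u₀
    · rw [indicator_of_mem hu]
      calc ‖k u‖ ^ 2 * Real.exp (-(2 * c * u)) ≤ (C * Real.exp (a * u)) ^ 2 * Real.exp (-(2 * c * u)) := by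
            gcongr
            exact h.bound u
        _ = C ^ 2 * Real.exp (2 * (a - c) * u) := by
            rw [mul_pow, ← Real.exp_nat_mul, mul_assoc, ← Real.exp_add]
            congr 2
            push_cast
            ring
    · rw [indicator_of_notMem hu, h.zero u (by simpa using hu)]
      simp

/-- the mean square of the transform and the Abel mean of the increments -/
theorem KH_le (hR : RHS) {H : ℝ} (hH : 0 ≤ H) : ∃ K : ℝ, 0 ≤ K ∧ ∀ c : ℝ, 0 < c → c ≤ 1 →
    ∫⁻ t : ℝ, ‖KH H c t‖ₑ ^ 2 ≤ ENNReal.ofReal (2 * Real.pi * (AM (DH H) c + K)) := by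
  refine ⟨(2 * Real.exp (2 * H)) ^ 2 * Real.exp (2 * H) * H, by positivity, fun c hc hc1 => ?_⟩
  obtain ⟨h1, h2⟩ := line_DH hR hH hc
  have h3 : ∫⁻ t : ℝ, ‖KH H c t‖ₑ ^ 2 = ENNReal.ofReal (∫ t : ℝ, ‖KH H c t‖ ^ 2) := by
    rw [ofReal_integral_eq_lintegral_ofReal h1 (Eventually.of_forall fun t => by positivity)]
    refine lintegral_congr fun t => ?_
    rw [← ofReal_norm, ← ENNReal.ofReal_pow (norm_nonneg _)]
  rw [h3, h2]
  apply ENNReal.ofReal_le_ofReal
  have hp := Real.pi_pos
  have h4 : ∫ u : ℝ, ‖DH H u‖ ^ 2 * Real.exp (-(2 * c * u)) ≤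
      AM (DH H) c + (2 * Real.exp (2 * H)) ^ 2 * Real.exp (2 * H) * H := by
    obtain ⟨C, hC⟩ := DH_nice hR hH (ε := min (c / 2) 1) (by positivity) (min_le_right _ _)
    have hi := Nice_sq_int hC (c := c) (by
      have := min_le_left (c / 2) 1
      linarith)
    rw [← integral_add_compl measurableSet_Ioi hi (s := Ioi (0:ℝ))]
    unfold AM
    refine add_le_add le_rfl ?_
    rw [compl_Ioi]
    have h5 : ∫ u in Iic (0:ℝ), ‖DH H u‖ ^ 2 * Real.exp (-(2 * c * u)) ≤
        ∫ u in Iic (0:ℝ), (Icc (-H) 0).indicator (fun _ => (2 * Real.exp (2 * H)) ^ 2 * Real.exp (2 * H)) u := by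
      refine setIntegral_mono_on hi.integrableOn ?_ measurableSet_Iic fun u hu => ?_
      · apply Integrable.integrableOn
        rw [integrable_indicator_iff measurableSet_Icc]
        exact integrableOn_const (by simp)
      · have hu0 : u ≤ 0 := hu
        by_cases hu1 : -H ≤ u
        · rw [indicator_of_mem (show u ∈ Icc (-H) 0 from ⟨hu1, hu0⟩)]
          have h6 : ‖DH H u‖ ≤ 2 * Real.exp (2 * H) := by
            unfold DH
            refine (norm_sub_le _ _).trans ?_
            rw [norm_mul, norm_cexp_half]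
            have h7 : ‖m0 (u + H)‖ ≤ Real.exp H := (m0_norm _).trans (Real.exp_le_exp.2 (by
              rw [abs_le]; constructor <;> linarith))
            have h8 : ‖m0 u‖ ≤ Real.exp H := (m0_norm _).trans (Real.exp_le_exp.2 (by
              rw [abs_le]; constructor <;> linarith))
            have h9 : Real.exp (H / 2) * Real.exp H ≤ Real.exp (2 * H) := by
              rw [← Real.exp_add]; exact Real.exp_le_exp.2 (by linarith)
            have h10 : Real.exp H ≤ Real.exp (2 * H) := Real.exp_le_exp.2 (by linarith)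
            have h11 : Real.exp (H / 2) * ‖m0 (u + H)‖ ≤ Real.exp (H / 2) * Real.exp H := by gcongr
            linarith
          have h7 : Real.exp (-(2 * c * u)) ≤ Real.exp (2 * H) := Real.exp_le_exp.2 (by nlinarith)
          gcongr
        · push Not at hu1
          rw [indicator_of_notMem (fun h => absurd h.1 (not_le.2 hu1)), hC.zero u hu1]
          simp
    refine h5.trans (le_of_eq ?_)
    rw [setIntegral_indicator measurableSet_Icc]
    have h6 : Iic (0:ℝ) ∩ Icc (-H) 0 = Icc (-H) 0 := by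
      ext u; simp only [mem_inter_iff, mem_Iic, mem_Icc]; tauto
    rw [h6, setIntegral_const]
    simp [hH]
    ring
  gcongr

end

end Pool.Agent.Helper37.WMH
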