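import Pool.Agent.Helper37.WMH.Base

/-! Bounds for `1/(s ζ(s))` on vertical lines and at good heights. -/

set_option autoImplicit false

open MeasureTheory Filter Topology Set

namespace Pool.Agent.Helper37.WMH

open Pool.Agent.H295R2

noncomputable section

lemma gamma_ratio {z : ℂ} {σ : ℝ} (hz : 0 < z.re) (hσ : 0 < σ) :
    ‖Complex.Gamma z‖ * Real.Gamma (z.re + σ) ≤ ‖Complex.Gamma (z + σ)‖ * Real.Gamma z.re := by
  have e1 := Complex.Gamma_mul_Gamma_eq_betaIntegral (s := z) (t := (σ : ℂ)) hz (by simpa using hσ)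
  have e2 := Complex.Gamma_mul_Gamma_eq_betaIntegral (s := (z.re : ℂ)) (t := (σ : ℂ)) (by simpa using hz)
    (by simpa using hσ)
  set B : ℝ := ∫ x : ℝ in 0..1, x ^ (z.re - 1) * (1 - x) ^ (σ - 1) with hB
  have hae : ∀ᵐ x : ℝ ∂volume, x ≠ 1 := by
    rw [ae_iff]; simp
  have e3 : Complex.betaIntegral (z.re : ℂ) (σ : ℂ) = (B : ℂ) := by
    unfold Complex.betaIntegral
    rw [hB, ← intervalIntegral.integral_ofReal]
    apply intervalIntegral.integral_congr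
    intro x hx
    rw [uIcc_of_le zero_le_one] at hx
    simp only
    rw [Complex.ofReal_mul, Complex.ofReal_cpow hx.1, Complex.ofReal_cpow (by linarith [hx.2])]
    push_cast
    ring
  have hint : IntervalIntegrable (fun x : ℝ => x ^ (z.re - 1) * (1 - x) ^ (σ - 1)) volume 0 1 := by
    have h1 := Complex.betaIntegral_convergent (u := (z.re : ℂ)) (v := (σ : ℂ)) (by simpa using hz)
      (by simpa using hσ)
    have h2 := h1.norm
    rw [intervalIntegrable_iff_integrableOn_Ioc_of_le zero_le_one] at h2 ⊢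
    refine h2.congr ?_
    filter_upwards [ae_restrict_mem measurableSet_Ioc] with x hx
    have hx1 : 0 ≤ 1 - x := by linarith [hx.2]
    rw [norm_mul, ← Complex.ofReal_one, ← Complex.ofReal_sub, ← Complex.ofReal_sub, ← Complex.ofReal_sub,
      ← Complex.ofReal_cpow hx.1.le, ← Complex.ofReal_cpow hx1, Complex.norm_real, Complex.norm_real,
      Real.norm_of_nonneg (Real.rpow_nonneg hx.1.le _), Real.norm_of_nonneg (Real.rpow_nonneg hx1 _)]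
  have e4 : ‖Complex.betaIntegral z (σ : ℂ)‖ ≤ B := by
    unfold Complex.betaIntegral
    refine intervalIntegral.norm_integral_le_of_norm_le zero_le_one ?_ hint
    filter_upwards [hae] with x hx1 hx
    have hx2 : 0 < 1 - x := by
      have := lt_of_le_of_ne hx.2 hx1
      linarith
    rw [norm_mul, ← Complex.ofReal_one, ← Complex.ofReal_sub, Complex.norm_cpow_eq_rpow_re_of_pos hx.1,
      Complex.norm_cpow_eq_rpow_re_of_pos hx2]
    simp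
  have hGσ : 0 < Real.Gamma σ := Real.Gamma_pos_of_pos hσ
  have hGx : 0 < Real.Gamma z.re := Real.Gamma_pos_of_pos hz
  have hGxs : 0 < Real.Gamma (z.re + σ) := Real.Gamma_pos_of_pos (by linarith)
  rw [e3, Complex.Gamma_ofReal, Complex.Gamma_ofReal, ← Complex.ofReal_add, Complex.Gamma_ofReal] at e2
  have e5 : Real.Gamma z.re * Real.Gamma σ = Real.Gamma (z.re + σ) * B := by exact_mod_cast e2
  have e6 := congrArg norm e1
  rw [norm_mul, norm_mul, Complex.Gamma_ofReal, Complex.norm_real, Real.norm_of_nonneg hGσ.le] at e6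
  have h7 : ‖Complex.Gamma z‖ * Real.Gamma σ ≤ ‖Complex.Gamma (z + σ)‖ * B := by
    rw [e6]
    gcongr
  have h8 : (‖Complex.Gamma z‖ * Real.Gamma (z.re + σ)) * Real.Gamma σ ≤
      (‖Complex.Gamma (z + σ)‖ * Real.Gamma z.re) * Real.Gamma σ := by
    calc (‖Complex.Gamma z‖ * Real.Gamma (z.re + σ)) * Real.Gamma σ
        = (‖Complex.Gamma z‖ * Real.Gamma σ) * Real.Gamma (z.re + σ) := by ring
      _ ≤ (‖Complex.Gamma (z + σ)‖ * B) * Real.Gamma (z.re + σ) := by gcongr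
      _ = _ := by rw [mul_assoc _ B, mul_comm B, ← e5]; ring
  exact le_of_mul_le_mul_right h8 hGσ

lemma gamma_ge_one {y : ℝ} (h0 : 0 < y) (h1 : y ≤ 1) : 1 ≤ Real.Gamma y := by
  rcases h1.lt_or_eq with h | h
  · have hy : 0 < 2 - y := by linarith
    have h2 := Real.convexOn_Gamma.2 (show y ∈ Ioi 0 from h0) (show (2:ℝ) ∈ Ioi 0 by simp)
      (show 0 ≤ 1 / (2 - y) by positivity) (show 0 ≤ (1 - y) / (2 - y) from div_nonneg (by linarith) hy.le)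
      (show 1 / (2 - y) + (1 - y) / (2 - y) = 1 by field_simp; ring)
    have e : 1 / (2 - y) * y + (1 - y) / (2 - y) * 2 = 1 := by field_simp; ring
    simp only [smul_eq_mul] at h2
    rw [e, Real.Gamma_one, Real.Gamma_two] at h2
    have h3 : (1 - y) / (2 - y) * 1 = 1 - 1 / (2 - y) := by field_simp; ring
    rw [h3] at h2
    have h4 : 1 / (2 - y) ≤ 1 / (2 - y) * Real.Gamma y := by linarith
    have h5 : 0 < 1 / (2 - y) := by positivity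
    nlinarith
  · rw [h, Real.Gamma_one]

lemma gamma_le {x : ℝ} (h0 : 0 < x) (h1 : x ≤ 1) : Real.Gamma x ≤ 1 / x := by
  have h2 := Real.convexOn_Gamma.2 (show (1:ℝ) ∈ Ioi 0 by simp) (show (2:ℝ) ∈ Ioi 0 by simp)
    (show 0 ≤ 1 - x by linarith) h0.le (show 1 - x + x = 1 by ring)
  simp only [smul_eq_mul] at h2
  have e : (1 - x) * 1 + x * 2 = x + 1 := by ring
  rw [e, Real.Gamma_one, Real.Gamma_two, Real.Gamma_add_one h0.ne'] at h2
  rw [le_div_iff₀ h0]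
  nlinarith

lemma norm_Gammaℝ (s : ℂ) : ‖Complex.Gammaℝ s‖ = Real.pi ^ (-s.re / 2) * ‖Complex.Gamma (s / 2)‖ := by
  rw [Complex.Gammaℝ_def, norm_mul, Complex.norm_cpow_eq_rpow_re_of_pos Real.pi_pos]
  congr 2
  simp

lemma norm_Gamma_conj (s : ℂ) : ‖Complex.Gamma ((starRingEnd ℂ) s)‖ = ‖Complex.Gamma s‖ := by
  rw [Complex.Gamma_conj, RCLike.norm_conj]

/-- the functional equation in terms of absolute values -/
lemma fe_norm {s : ℂ} (h0 : s ≠ 0) (h1 : s ≠ 1) (hG : Complex.Gammaℝ s ≠ 0) (hG' : Complex.Gammaℝ (1 - s) ≠ 0) :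
    ‖riemannZeta s‖ * ‖Complex.Gammaℝ s‖ = ‖riemannZeta (1 - s)‖ * ‖Complex.Gammaℝ (1 - s)‖ := by
  have h2 : (1 : ℂ) - s ≠ 0 := by
    intro h; apply h1; linear_combination -h
  rw [riemannZeta_def_of_ne_zero h0, riemannZeta_def_of_ne_zero h2, completedRiemannZeta_one_sub, norm_div,
    norm_div, div_mul_cancel₀ _ (norm_pos_iff.2 hG).ne', div_mul_cancel₀ _ (norm_pos_iff.2 hG').ne']

lemma mk_ne_one {a t : ℝ} (ha : a ≠ 1) : (⟨a, t⟩ : ℂ) ≠ 1 := by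
  intro h
  apply ha
  have := congrArg Complex.re h
  simpa using this

lemma mk_ne_zero {a t : ℝ} (ha : a ≠ 0) : (⟨a, t⟩ : ℂ) ≠ 0 := by
  intro h
  apply ha
  have := congrArg Complex.re h
  simpa using this

lemma zeta_compare {σ : ℝ} (h0 : 0 < σ) (h1 : σ ≤ 1 / 4) (t : ℝ) :
    ‖riemannZeta ⟨1 / 2 + σ, t⟩‖ ≤ 16 * ‖riemannZeta ⟨1 / 2 - σ, t⟩‖ := by
  set s' : ℂ := ⟨1 / 2 - σ, t⟩ with hs'
  set z : ℂ := (starRingEnd ℂ) (s' / 2) with hz
  have hzre : z.re = 1 / 4 - σ / 2 := by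
    rw [hz, hs', Complex.conj_re]
    simp
    ring
  have hzim : z.im = -(t / 2) := by
    rw [hz, hs', Complex.conj_im]
    simp
  have e1 : (1 - s') / 2 = z + σ := by
    apply Complex.ext
    · rw [Complex.add_re, hzre]; simp [hs']; ring
    · rw [Complex.add_im, hzim]; simp [hs']; ring
  have hG1 : Complex.Gammaℝ s' ≠ 0 := Complex.Gammaℝ_ne_zero_of_re_pos (by simp [hs']; linarith)
  have hG2 : Complex.Gammaℝ (1 - s') ≠ 0 := Complex.Gammaℝ_ne_zero_of_re_pos (by simp [hs']; linarith)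
  have hfe := fe_norm (s := s') (mk_ne_zero (by linarith)) (mk_ne_one (by linarith)) hG1 hG2
  have e2 : ‖riemannZeta (1 - s')‖ = ‖riemannZeta ⟨1 / 2 + σ, t⟩‖ := by
    have : (1 - s') = (starRingEnd ℂ) ⟨1 / 2 + σ, t⟩ := by
      apply Complex.ext
      · simp [hs']; ring
      · simp [hs']
    rw [this, riemannZeta_conj, RCLike.norm_conj]
  rw [e2, norm_Gammaℝ, norm_Gammaℝ, e1] at hfe
  have e3 : ‖Complex.Gamma (s' / 2)‖ = ‖Complex.Gamma z‖ := by rw [hz, norm_Gamma_conj]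
  rw [e3] at hfe
  have h3 := gamma_ratio (z := z) (σ := σ) (by rw [hzre]; linarith) h0
  rw [hzre] at h3
  have hg1 : 1 ≤ Real.Gamma (1 / 4 - σ / 2 + σ) := gamma_ge_one (by linarith) (by linarith)
  have hg2 : Real.Gamma (1 / 4 - σ / 2) ≤ 8 := by
    refine (gamma_le (by linarith) (by linarith)).trans ?_
    rw [div_le_iff₀ (by linarith)]
    linarith
  have h4 : ‖Complex.Gamma z‖ ≤ 8 * ‖Complex.Gamma (z + σ)‖ := by
    have h5 : ‖Complex.Gamma z‖ * 1 ≤ ‖Complex.Gamma z‖ * Real.Gamma (1 / 4 - σ / 2 + σ) := by gcongr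
    have h6 : ‖Complex.Gamma (z + σ)‖ * Real.Gamma (1 / 4 - σ / 2) ≤ ‖Complex.Gamma (z + σ)‖ * 8 := by gcongr
    linarith
  have hzp : 0 < ‖Complex.Gamma (z + σ)‖ := by
    refine norm_pos_iff.2 (Complex.Gamma_ne_zero_of_re_pos ?_)
    rw [Complex.add_re, hzre, Complex.ofReal_re]; linarith
  -- powers of pi
  have e4 : Real.pi ^ (-s'.re / 2) = Real.pi ^ σ * Real.pi ^ (-(1 - s').re / 2) := by
    rw [← Real.rpow_add Real.pi_pos]
    congr 1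
    simp [hs']; ring
  have hpi : Real.pi ^ σ ≤ 2 := by
    calc Real.pi ^ σ ≤ Real.pi ^ (1 / 4 : ℝ) :=
          Real.rpow_le_rpow_of_exponent_le (by linarith [Real.pi_gt_three]) h1
      _ ≤ (2 ^ 4 : ℝ) ^ (1 / 4 : ℝ) :=
          Real.rpow_le_rpow Real.pi_pos.le (by linarith [Real.pi_lt_four]) (by norm_num)
      _ = 2 := by
          rw [← Real.rpow_natCast, ← Real.rpow_mul (by norm_num)]; norm_num
  set P : ℝ := Real.pi ^ (-(1 - s').re / 2) with hP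
  have hP0 : 0 < P := by rw [hP]; positivity
  have h7 : ‖riemannZeta ⟨1 / 2 + σ, t⟩‖ * (P * ‖Complex.Gamma (z + σ)‖) ≤
      (16 * ‖riemannZeta s'‖) * (P * ‖Complex.Gamma (z + σ)‖) := by
    rw [← hfe, e4]
    calc ‖riemannZeta s'‖ * (Real.pi ^ σ * P * ‖Complex.Gamma z‖)
        ≤ ‖riemannZeta s'‖ * (2 * P * (8 * ‖Complex.Gamma (z + σ)‖)) := by gcongr
      _ = _ := by ring
  exact le_of_mul_le_mul_right h7 (by positivity)

lemma line_compare {σ : ℝ} (h0 : 0 < σ) (h1 : σ ≤ 1 / 4) {t : ℝ} (hz : riemannZeta ⟨1 / 2 + σ, t⟩ ≠ 0) :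
    ‖HH ⟨1 / 2 - σ, t⟩‖ ≤ 48 * ‖HH ⟨1 / 2 + σ, t⟩‖ := by
  rw [HH_eq (mk_ne_one (by linarith)), HH_eq (mk_ne_one (by linarith)), norm_div, norm_div, norm_mul, norm_mul,
    norm_one]
  have h2 := zeta_compare h0 h1 t
  have h3 : 0 < ‖riemannZeta ⟨1 / 2 + σ, t⟩‖ := norm_pos_iff.2 hz
  have h4 : 0 < ‖riemannZeta ⟨1 / 2 - σ, t⟩‖ := by
    by_contra hc
    have : ‖riemannZeta ⟨1 / 2 - σ, t⟩‖ = 0 := le_antisymm (not_lt.1 hc) (norm_nonneg _)
    rw [this] at h2; linarith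
  have h5 : ‖(⟨1 / 2 + σ, t⟩ : ℂ)‖ ≤ 3 * ‖(⟨1 / 2 - σ, t⟩ : ℂ)‖ := by
    have e1 : ‖(⟨1 / 2 + σ, t⟩ : ℂ)‖ ^ 2 = (1 / 2 + σ) ^ 2 + t ^ 2 := by
      rw [← Complex.normSq_eq_norm_sq, Complex.normSq_mk]; ring
    have e2 : ‖(⟨1 / 2 - σ, t⟩ : ℂ)‖ ^ 2 = (1 / 2 - σ) ^ 2 + t ^ 2 := by
      rw [← Complex.normSq_eq_norm_sq, Complex.normSq_mk]; ring
    refine abs_le_of_sq_le_sq' ?_ (by positivity) |>.2
    rw [mul_pow, e1, e2]
    nlinarith
  have h6 : 0 < ‖(⟨1 / 2 + σ, t⟩ : ℂ)‖ := norm_pos_iff.2 (mk_ne_zero (by linarith))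
  have h7 : 0 < ‖(⟨1 / 2 - σ, t⟩ : ℂ)‖ := norm_pos_iff.2 (mk_ne_zero (by linarith))
  rw [mul_one_div, div_le_div_iff₀ (by positivity) (by positivity)]
  nlinarith [mul_le_mul h5 h2 h3.le (by positivity : (0:ℝ) ≤ 3 * ‖(⟨1 / 2 - σ, t⟩ : ℂ)‖)]

/-- the left line -/
lemma line_left : ∃ K : ℝ, 0 < K ∧ ∀ t : ℝ, ‖HH ⟨-1 / 2, t⟩‖ ≤ K / (1 + t ^ 2) := by
  obtain ⟨K, hK1, hK⟩ := zeta_bounds (a := 3 / 2) (by norm_num)
  have hpi := Real.pi_pos
  refine ⟨8 * Real.pi * K, by positivity, fun t => ?_⟩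
  set s' : ℂ := ⟨-1 / 2, t⟩ with hs'
  have hs0 : s' ≠ 0 := mk_ne_zero (by norm_num)
  have hs1 : s' ≠ 1 := mk_ne_one (by norm_num)
  have hsp : 0 < ‖s'‖ := norm_pos_iff.2 hs0
  have hG1 : Complex.Gammaℝ s' ≠ 0 := by
    rw [Ne, Complex.Gammaℝ_eq_zero_iff]
    rintro ⟨n, hn⟩
    have h2 := congrArg Complex.re hn
    simp [hs'] at h2
    have h3 : (n : ℝ) * 4 = 1 := by linarith
    have h4 : n * 4 = 1 := by exact_mod_cast h3
    omega
  have hG2 : Complex.Gammaℝ (1 - s') ≠ 0 := Complex.Gammaℝ_ne_zero_of_re_pos (by simp [hs']; norm_num)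
  have hfe := fe_norm hs0 hs1 hG1 hG2
  have e2 : (1 - s') = (starRingEnd ℂ) ⟨3 / 2, t⟩ := by
    apply Complex.ext
    · simp [hs']; norm_num
    · simp [hs']
  have e3 : s' + 2 = ⟨3 / 2, t⟩ := by
    apply Complex.ext
    · simp [hs']; norm_num
    · simp [hs']
  have e4 : ‖Complex.Gammaℝ (1 - s')‖ = ‖Complex.Gammaℝ s'‖ * ‖s'‖ / (2 * Real.pi) := by
    have h1 : ‖Complex.Gammaℝ (1 - s')‖ = ‖Complex.Gammaℝ (s' + 2)‖ := by
      rw [norm_Gammaℝ, norm_Gammaℝ, e2, e3]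
      congr 1
      rw [← norm_Gamma_conj (⟨3 / 2, t⟩ / 2)]
      congr 2
      rw [map_div₀]
      congr 1
      exact (Complex.conj_ofReal 2).symm
    rw [h1, Complex.Gammaℝ_add_two hs0, norm_div, norm_div, norm_mul, Complex.norm_real,
      Real.norm_of_nonneg hpi.le]
    simp
    ring
  have e5 : ‖riemannZeta (1 - s')‖ = ‖riemannZeta ⟨3 / 2, t⟩‖ := by
    rw [e2, riemannZeta_conj, RCLike.norm_conj]
  rw [e4, e5] at hfe
  have hGp : 0 < ‖Complex.Gammaℝ s'‖ := norm_pos_iff.2 hG1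
  have e6 : ‖riemannZeta s'‖ = ‖riemannZeta ⟨3 / 2, t⟩‖ * ‖s'‖ / (2 * Real.pi) := by
    apply mul_right_cancel₀ hGp.ne'
    rw [hfe]; ring
  have hf := (hK ⟨3 / 2, t⟩ (le_refl _)).2
  rw [fz_eq (mk_ne_one (by norm_num)), norm_inv] at hf
  have hzp : 0 < ‖riemannZeta ⟨3 / 2, t⟩‖ :=
    norm_pos_iff.2 (riemannZeta_ne_zero_of_one_le_re (by norm_num))
  rw [HH_eq hs1, norm_div, norm_one, norm_mul, e6]
  have e7 : ‖s'‖ ^ 2 = 1 / 4 + t ^ 2 := by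
    rw [← Complex.normSq_eq_norm_sq, hs', Complex.normSq_mk]; ring
  have e8 : 1 / (‖s'‖ * (‖riemannZeta ⟨3 / 2, t⟩‖ * ‖s'‖ / (2 * Real.pi))) =
      2 * Real.pi * ‖riemannZeta ⟨3 / 2, t⟩‖⁻¹ / ‖s'‖ ^ 2 := by
    field_simp
  rw [e8, e7, div_le_div_iff₀ (by positivity) (by positivity)]
  have h9 : 1 + t ^ 2 ≤ 4 * (1 / 4 + t ^ 2) := by nlinarith [sq_nonneg t]
  calc 2 * Real.pi * ‖riemannZeta ⟨3 / 2, t⟩‖⁻¹ * (1 + t ^ 2) ≤ 2 * Real.pi * K * (4 * (1 / 4 + t ^ 2)) := by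
        gcongr
    _ = _ := by ring

lemma line_right : ∃ K : ℝ, 0 < K ∧ ∀ t : ℝ, ‖HH ⟨3 / 2, t⟩‖ ≤ K := by
  obtain ⟨K, hK1, hK⟩ := zeta_bounds (a := 3 / 2) (by norm_num)
  refine ⟨K, by linarith, fun t => ?_⟩
  unfold HH
  rw [norm_div]
  have h1 : 1 ≤ ‖(⟨3 / 2, t⟩ : ℂ)‖ := by
    have := Complex.abs_re_le_norm (⟨3 / 2, t⟩ : ℂ)
    simp only at this
    rw [abs_of_pos (by norm_num)] at this
    linarith
  exact (div_le_self (norm_nonneg _) h1).trans (hK _ (le_refl _)).2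

/-- `1/(sζ(s))` is continuous away from its poles -/
lemma HH_diffAt {s : ℂ} (h0 : s ≠ 0) (hs : -2 < s.re) (hn : s ∉ NT) : DifferentiableAt ℂ HH s := by
  unfold HH
  exact (fz_differentiableAt (by rw [Ne, Zs_zero_iff hs]; exact hn)).div differentiableAt_id h0

/-- good heights -/
theorem heights : ∃ C : ℝ, 0 < C ∧ ∀ T : ℝ, 3 ≤ T → ∃ U ∈ Icc T (T + 1), ∀ σ ∈ Icc (-1 / 2 : ℝ) (3 / 2),
    (⟨σ, U⟩ : ℂ) ∉ NT ∧ (⟨σ, -U⟩ : ℂ) ∉ NT ∧
      ‖HH ⟨σ, U⟩‖ ≤ C * Real.exp (C * (Real.log T) ^ 2) ∧ ‖HH ⟨σ, -U⟩‖ ≤ C * Real.exp (C * (Real.log T) ^ 2) := by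
  obtain ⟨C, hC, h⟩ := H370.good_height H370.good_zeta
  obtain ⟨K, hK1, hK⟩ := zeta_bounds (a := 3 / 2) (by norm_num)
  refine ⟨K + 2 * C, by linarith, fun T hT => ?_⟩
  obtain ⟨U, hU, hb⟩ := h T hT
  have hU3 : 3 ≤ U := hT.trans hU.1
  refine ⟨U, hU, fun σ hσ => ?_⟩
  have hne : ∀ x ∈ Icc (0:ℝ) 2, riemannZeta ⟨3 / 2 - x, U⟩ ≠ 0 := fun x hx =>
    (hb (3 / 2 - x) ⟨by linarith [hx.2], by linarith [hx.1]⟩).1
  have hd : ∀ x ∈ Icc (0:ℝ) 2, HasDerivAt (fun x : ℝ => (riemannZeta ⟨3 / 2 - x, U⟩)⁻¹)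
      (deriv riemannZeta ⟨3 / 2 - x, U⟩ / riemannZeta ⟨3 / 2 - x, U⟩ * (riemannZeta ⟨3 / 2 - x, U⟩)⁻¹) x := by
    intro x hx
    have hne1 : (⟨3 / 2 - x, U⟩ : ℂ) ≠ 1 := by
      intro h1
      have := congrArg Complex.im h1
      simp at this; linarith
    have h1 : HasDerivAt (fun y : ℝ => (⟨3 / 2 - y, U⟩ : ℂ)) (-1) x := by
      have e : (fun y : ℝ => (⟨3 / 2 - y, U⟩ : ℂ)) = fun y : ℝ => (⟨3 / 2, U⟩ : ℂ) - (y : ℂ) := by
        funext y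
        apply Complex.ext <;> simp
      rw [e]
      exact (Complex.ofRealCLM.hasDerivAt (x := x)).const_sub _
    have h2 := (differentiableAt_riemannZeta hne1).hasDerivAt
    have h3 : HasDerivAt (fun y : ℝ => riemannZeta ⟨3 / 2 - y, U⟩) (deriv riemannZeta ⟨3 / 2 - x, U⟩ * -1) x :=
      HasDerivAt.comp_of_eq x h2 h1 rfl
    have h4 := h3.inv (hne x hx)
    refine h4.congr_deriv ?_
    field_simp
  have hgr := norm_le_gronwallBound_of_norm_deriv_right_le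
    (f := fun x : ℝ => (riemannZeta ⟨3 / 2 - x, U⟩)⁻¹)
    (f' := fun x : ℝ => deriv riemannZeta ⟨3 / 2 - x, U⟩ / riemannZeta ⟨3 / 2 - x, U⟩ *
      (riemannZeta ⟨3 / 2 - x, U⟩)⁻¹) (δ := K) (K := C * (Real.log T) ^ 2) (ε := 0) (a := 0) (b := 2)
    (fun x hx => (hd x hx).continuousAt.continuousWithinAt)
    (fun x hx => (hd x ⟨hx.1, hx.2.le⟩).hasDerivWithinAt)
    (by
      have := (hK ⟨3 / 2 - 0, U⟩ (by simp)).2
      rwa [fz_eq (mk_ne_one (by norm_num))] at this)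
    (by
      intro x hx
      rw [norm_mul, add_zero]
      have := (hb (3 / 2 - x) ⟨by linarith [hx.2], by linarith [hx.1]⟩).2
      gcongr)
  have hx : 3 / 2 - σ ∈ Icc (0:ℝ) 2 := ⟨by linarith [hσ.2], by linarith [hσ.1]⟩
  have h5 := hgr (3 / 2 - σ) hx
  rw [gronwallBound_ε0] at h5
  simp only [sub_sub_cancel, sub_zero] at h5
  have hne' := hne (3 / 2 - σ) hx
  rw [sub_sub_cancel] at hne'
  have hT0 : 0 ≤ (Real.log T) ^ 2 := sq_nonneg _
  have h6 : ‖(riemannZeta ⟨σ, U⟩)⁻¹‖ ≤ (K + 2 * C) * Real.exp ((K + 2 * C) * (Real.log T) ^ 2) := by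
    refine h5.trans ?_
    have h7 : C * Real.log T ^ 2 * (3 / 2 - σ) ≤ (K + 2 * C) * (Real.log T) ^ 2 := by
      have : C * Real.log T ^ 2 * (3 / 2 - σ) ≤ C * Real.log T ^ 2 * 2 := by
        gcongr
        exact hx.2
      nlinarith
    have h8 : K ≤ K + 2 * C := by linarith
    gcongr
  have hnorm : ∀ V : ℝ, V = U ∨ V = -U → 1 ≤ ‖(⟨σ, V⟩ : ℂ)‖ := by
    intro V hV
    have h8 := Complex.abs_im_le_norm (⟨σ, V⟩ : ℂ)
    simp only at h8
    have h9 : |V| = U := by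
      rcases hV with rfl | rfl
      · exact abs_of_pos (by linarith)
      · rw [abs_neg]; exact abs_of_pos (by linarith)
    linarith
  have hconj : ‖(riemannZeta ⟨σ, -U⟩)⁻¹‖ = ‖(riemannZeta ⟨σ, U⟩)⁻¹‖ := by
    have : (⟨σ, -U⟩ : ℂ) = (starRingEnd ℂ) ⟨σ, U⟩ := by
      apply Complex.ext <;> simp
    rw [this, riemannZeta_conj, norm_inv, norm_inv, RCLike.norm_conj]
  have hgen : ∀ V : ℝ, V = U ∨ V = -U → ‖(riemannZeta ⟨σ, V⟩)⁻¹‖ = ‖(riemannZeta ⟨σ, U⟩)⁻¹‖ →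
      ‖HH ⟨σ, V⟩‖ ≤ (K + 2 * C) * Real.exp ((K + 2 * C) * (Real.log T) ^ 2) := by
    intro V hV h10
    have hne1 : (⟨σ, V⟩ : ℂ) ≠ 1 := by
      intro h1
      have := congrArg Complex.im h1
      simp at this
      rcases hV with rfl | rfl <;> linarith
    unfold HH
    rw [norm_div, fz_eq hne1]
    exact (div_le_self (norm_nonneg _) (hnorm V hV)).trans (h10.le.trans h6)
  refine ⟨?_, ?_, hgen U (Or.inl rfl) rfl, hgen (-U) (Or.inr rfl) hconj⟩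
  · rintro ⟨h9, -, -⟩
    exact hne' h9
  · intro h9
    have h10 := NT_conj h9
    have : (starRingEnd ℂ) (⟨σ, -U⟩ : ℂ) = ⟨σ, U⟩ := by
      apply Complex.ext <;> simp
    rw [this] at h10
    exact hne' h10.1

end

end Pool.Agent.Helper37.WMH
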