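import Pool.Agent.Helper37.WMH.SmallInc

/-! The integral of `(1 - cos t)/t²`. -/

set_option autoImplicit false

open MeasureTheory Filter Topology Set
open scoped ENNReal

namespace Pool.Agent.Helper37.WMH

open Pool.Agent.H295R2

noncomputable section

/-- the kernel -/
def hK (y : ℝ) : ℝ := (1 - Real.cos y) / y ^ 2

lemma hK_nonneg (y : ℝ) : 0 ≤ hK y := by
  unfold hK
  have := Real.cos_le_one y
  exact div_nonneg (by linarith) (by positivity)

lemma hK_le (y : ℝ) : hK y ≤ 1 / 2 := by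
  unfold hK
  rcases eq_or_ne y 0 with rfl | hy
  · simp
  · rw [div_le_iff₀ (by positivity)]
    have := Real.one_sub_sq_div_two_le_cos (x := y)
    linarith

lemma hK_abs (y : ℝ) : hK |y| = hK y := by
  unfold hK
  rw [Real.cos_abs, sq_abs]

lemma hK_meas : Measurable hK := by
  unfold hK
  fun_prop

/-- the indicator of `[-1/2, 1/2]` -/
def bx (u : ℝ) : ℂ := (Icc (-(1 / 2) : ℝ) (1 / 2)).indicator (fun _ => 1) u

lemma bx_nice : Nice bx (Real.exp (1 / 2)) (-1) (-(1 / 2)) := by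
  refine ⟨measurable_const.indicator measurableSet_Icc, fun u => ?_, fun u hu => ?_⟩
  · unfold bx
    by_cases h : u ∈ Icc (-(1 / 2) : ℝ) (1 / 2)
    · rw [indicator_of_mem h, norm_one, ← Real.exp_add]
      apply Real.one_le_exp
      linarith [h.2]
    · rw [indicator_of_notMem h, norm_zero]; positivity
  · unfold bx
    rw [indicator_of_notMem (fun h => absurd h.1 (not_le.2 hu))]

lemma Lap_bx {t : ℝ} (ht : t ≠ 0) : ‖Lap bx (t * Complex.I)‖ ^ 2 = 2 * hK t := by
  have h1 : Lap bx (t * Complex.I) = ∫ u in (-(1 / 2) : ℝ)..(1 / 2), Complex.exp ((-(t * Complex.I)) * u) := by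
    unfold Lap bx
    rw [intervalIntegral.integral_of_le (by norm_num), ← integral_Icc_eq_integral_Ioc,
      ← integral_indicator measurableSet_Icc]
    refine integral_congr_ae (Eventually.of_forall fun u => ?_)
    simp only
    by_cases h : u ∈ Icc (-(1 / 2) : ℝ) (1 / 2)
    · rw [indicator_of_mem h, indicator_of_mem h, one_mul]; congr 1; ring
    · rw [indicator_of_notMem h, indicator_of_notMem h, zero_mul]
  have hc : -((t : ℂ) * Complex.I) ≠ 0 := neg_ne_zero.2 (mul_ne_zero (by exact_mod_cast ht) Complex.I_ne_zero)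
  rw [h1, integral_exp_mul_complex hc, norm_div, div_pow]
  have h2 : Complex.exp (-(t * Complex.I) * ((1 / 2 : ℝ) : ℂ)) - Complex.exp (-(t * Complex.I) * ((-(1 / 2) : ℝ) : ℂ)) =
      Complex.exp (((t / 2 : ℝ) : ℂ) * Complex.I) * (Complex.exp ((⟨0, -t⟩ : ℂ) * ((1 : ℝ) : ℂ)) - 1) := by
    have h3 : (⟨0, -t⟩ : ℂ) = -(t * Complex.I) := by apply Complex.ext <;> simp
    rw [h3, mul_sub, mul_one, ← Complex.exp_add]
    congr 2
    · push_cast; ring
    · push_cast; ring
  rw [h2, norm_mul, Complex.norm_exp_ofReal_mul_I, one_mul, exp_sub_one_sq]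
  have h4 : ‖-((t : ℂ) * Complex.I)‖ = |t| := by
    rw [norm_neg, norm_mul, Complex.norm_I, mul_one, Complex.norm_real, Real.norm_eq_abs]
  rw [h4, sq_abs]
  unfold hK
  simp
  ring

theorem hK_int : Integrable hK ∧ ∫ t, hK t = Real.pi := by
  obtain ⟨h1, h2⟩ := plancherel_Lap bx_nice (c := 0) (by norm_num)
  have hpi : (0:ℝ) < 2 * Real.pi := by have := Real.pi_pos; positivity
  have e : ∀ ξ : ℝ, Lap bx (((0:ℝ) : ℂ) + 2 * Real.pi * ξ * Complex.I) = Lap bx (((ξ * (2 * Real.pi) : ℝ) : ℂ) * Complex.I) := by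
    intro ξ; congr 1; push_cast; ring
  simp_rw [e] at h1 h2
  have h3 : Integrable (fun t : ℝ => ‖Lap bx ((t : ℂ) * Complex.I)‖ ^ 2) :=
    (integrable_comp_mul_right_iff (fun t : ℝ => ‖Lap bx ((t : ℂ) * Complex.I)‖ ^ 2) hpi.ne').1 h1
  have hae : (fun t : ℝ => ‖Lap bx ((t : ℂ) * Complex.I)‖ ^ 2) =ᵐ[volume] (fun t => 2 * hK t) := by
    have : ∀ᵐ t : ℝ, t ≠ 0 := by
      rw [ae_iff]; simp
    filter_upwards [this] with t ht
    exact Lap_bx ht
  have h4 : ∫ t : ℝ, ‖Lap bx ((t : ℂ) * Complex.I)‖ ^ 2 = 2 * Real.pi := by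
    have h5 := Measure.integral_comp_mul_right (fun t : ℝ => ‖Lap bx ((t : ℂ) * Complex.I)‖ ^ 2) (2 * Real.pi)
    rw [h2, abs_of_pos (inv_pos.2 hpi), smul_eq_mul] at h5
    have h6 : ∫ u : ℝ, ‖bx u‖ ^ 2 * Real.exp (-(2 * 0 * u)) = 1 := by
      have : ∀ u : ℝ, ‖bx u‖ ^ 2 * Real.exp (-(2 * 0 * u)) = (Icc (-(1 / 2) : ℝ) (1 / 2)).indicator (fun _ => (1:ℝ)) u := by
        intro u
        unfold bx
        by_cases h : u ∈ Icc (-(1 / 2) : ℝ) (1 / 2)
        · rw [indicator_of_mem h, indicator_of_mem h]; simp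
        · rw [indicator_of_notMem h, indicator_of_notMem h]; simp
      simp_rw [this]
      rw [integral_indicator measurableSet_Icc, setIntegral_const]
      simp
      norm_num
    rw [h6] at h5
    field_simp at h5
    linarith
  constructor
  · have := (h3.congr hae).const_mul (1 / 2)
    refine this.congr (Eventually.of_forall fun t => ?_)
    simp only
    ring
  · rw [integral_congr_ae hae, integral_const_mul] at h4
    linarith

/-- `∫ (1 - cos(at))/t² dt = π|a|` -/
theorem hK_scale (a : ℝ) : Integrable (fun t : ℝ => (1 - Real.cos (a * t)) / t ^ 2) ∧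
    ∫ t : ℝ, (1 - Real.cos (a * t)) / t ^ 2 = Real.pi * |a| := by
  rcases eq_or_ne a 0 with rfl | ha
  · simp
  · have e : ∀ t : ℝ, (1 - Real.cos (a * t)) / t ^ 2 = a ^ 2 * hK (a * t) := by
      intro t
      unfold hK
      rcases eq_or_ne t 0 with rfl | ht
      · simp
      · field_simp
    simp_rw [e]
    constructor
    · exact (hK_int.1.comp_mul_left' ha).const_mul _
    · rw [integral_const_mul, Measure.integral_comp_mul_left, hK_int.2, smul_eq_mul, abs_inv, ← sq_abs]
      have : 0 < |a| := abs_pos.2 ha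
      field_simp

lemma hK_Ioi : ∫ t in Ioi (0:ℝ), hK t = Real.pi / 2 := by
  have h1 := integral_comp_abs (f := hK)
  simp_rw [hK_abs] at h1
  rw [hK_int.2] at h1
  linarith

lemma hK_lim : Tendsto (fun R : ℝ => ∫ t in (0:ℝ)..R, hK t) atTop (𝓝 (Real.pi / 2)) := by
  rw [← hK_Ioi]
  exact intervalIntegral_tendsto_integral_Ioi 0 hK_int.1.integrableOn tendsto_id

end

end Pool.Agent.Helper37.WMH
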