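import Pool.Agent.Helper37.WMH.JBound
import Pool.Agent.Helper37.WMH.KInt

/-! The Abelian direction. -/

set_option autoImplicit false

open MeasureTheory Filter Topology Set
open scoped ENNReal

namespace Pool.Agent.Helper37.WMH

open Pool.Agent.H295R2

noncomputable section

/-- `γ² |a_ρ|²` -/
def gz (ρ : ℂ) : ℝ := ‖aa ρ‖ ^ 2 * ρ.im ^ 2

lemma gz_nonneg (ρ : ℂ) : 0 ≤ gz ρ := by unfold gz; positivity

/-- the sum of `γ² |a_ρ|²` over `|γ| ≤ T` -/
def Gz (T : ℝ) : ℝ := ∑ ρ ∈ ZT T, gz ρ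

lemma Gz_nonneg (T : ℝ) : 0 ≤ Gz T := Finset.sum_nonneg fun _ _ => gz_nonneg _

/-- the structure function -/
def EE (x : ℝ) : ℝ := ∑' ρ : NT, ‖aa ρ‖ ^ 2 * (1 - Real.cos ((ρ : ℂ).im * x))

lemma one_sub_cos_nonneg (y : ℝ) : 0 ≤ 1 - Real.cos y := by have := Real.cos_le_one y; linarith

lemma one_sub_cos_le (y : ℝ) : 1 - Real.cos y ≤ 2 := by have := Real.neg_one_le_cos y; linarith

lemma EE_summable (hs : Summable (fun ρ : NT => ‖aa ρ‖ ^ 2)) (x : ℝ) :
    Summable (fun ρ : NT => ‖aa ρ‖ ^ 2 * (1 - Real.cos ((ρ : ℂ).im * x))) :=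
  Summable.of_nonneg_of_le (fun ρ => mul_nonneg (by positivity) (one_sub_cos_nonneg _))
    (fun ρ => mul_le_mul_of_nonneg_left (one_sub_cos_le _) (by positivity)) (hs.mul_right 2)

/-- `u h'(u)` -/
def eK (u : ℝ) : ℝ := Real.sin u / u - 2 * hK u

lemma eK_abs {u : ℝ} (hu : 0 < u) : |eK u| ≤ 2 := by
  unfold eK
  have h1 : |Real.sin u / u| ≤ 1 := by
    rw [abs_div, abs_of_pos hu, div_le_one hu]
    have := Real.abs_sin_le_one u
    rcases le_or_gt 1 u with h | h
    · linarith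
    · rw [abs_of_nonneg (Real.sin_nonneg_of_nonneg_of_le_pi hu.le (by linarith [Real.pi_gt_three]))]
      exact (Real.sin_le hu.le)
  have h2 := hK_nonneg u
  have h3 := hK_le u
  rw [abs_le] at h1 ⊢
  constructor <;> linarith [h1.1, h1.2]

lemma eK_meas : Measurable eK := by
  unfold eK
  exact (Real.measurable_sin.div measurable_id).sub (hK_meas.const_mul 2)

lemma hK_deriv {u : ℝ} (hu : 0 < u) : HasDerivAt hK (eK u / u) u := by
  have h1 : HasDerivAt (fun y : ℝ => 1 - Real.cos y) (Real.sin u) u := by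
    have := (Real.hasDerivAt_cos u).const_sub 1
    simpa using this
  have h2 : HasDerivAt (fun y : ℝ => y ^ 2) (2 * u) u := by
    have := hasDerivAt_pow 2 u
    simpa using this
  have h3 := h1.div h2 (by positivity)
  refine h3.congr_deriv ?_
  unfold eK hK
  field_simp

/-- the fundamental theorem of calculus for `h` -/
lemma hK_ftc {y R : ℝ} (hy : 0 < y) (hyR : y ≤ R) :
    IntegrableOn (fun u => (Ici y).indicator (fun u => eK u / u) u) (Ioc 0 R) ∧
    ∫ u in Ioc 0 R, (Ici y).indicator (fun u => eK u / u) u = hK R - hK y := by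
  have hb : IntegrableOn (fun u => eK u / u) (Icc y R) := by
    refine Measure.integrableOn_of_bounded (M := 2 / y) (by simp) (eK_meas.div measurable_id).aestronglyMeasurable ?_
    filter_upwards [ae_restrict_mem measurableSet_Icc] with u hu
    have hu0 : 0 < u := hy.trans_le hu.1
    rw [Real.norm_eq_abs, abs_div, abs_of_pos hu0]
    have := eK_abs hu0
    have := hu.1
    gcongr
  have e : Ioc 0 R ∩ Ici y = Icc y R := by
    ext u; simp only [mem_inter_iff, mem_Ioc, mem_Ici, mem_Icc]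
    exact ⟨fun h => ⟨h.2, h.1.2⟩, fun h => ⟨⟨hy.trans_le h.1, h.2⟩, h.1⟩⟩
  constructor
  · rw [IntegrableOn, integrable_indicator_iff measurableSet_Ici, IntegrableOn, Measure.restrict_restrict measurableSet_Ici,
      inter_comm, e]
    exact hb
  · rw [setIntegral_indicator measurableSet_Ici, e, integral_Icc_eq_integral_Ioc,
      ← intervalIntegral.integral_of_le hyR]
    apply intervalIntegral.integral_eq_sub_of_hasDerivAt
    · intro u hu
      rw [uIcc_of_le hyR] at hu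
      exact hK_deriv (hy.trans_le hu.1)
    · rw [intervalIntegrable_iff_integrableOn_Icc_of_le hyR]
      exact hb

/-- integration by parts -/
lemma hK_parts {R : ℝ} (hR : 0 < R) : ∫ u in Ioc 0 R, eK u = R * hK R - ∫ u in (0:ℝ)..R, hK u := by
  have hi1 : IntegrableOn hK (Ioc 0 R) := hK_int.1.integrableOn
  have hi2 : IntegrableOn eK (Ioc 0 R) := by
    refine Measure.integrableOn_of_bounded (M := 2) (by simp) eK_meas.aestronglyMeasurable ?_
    filter_upwards [ae_restrict_mem measurableSet_Ioc] with u hu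
    rw [Real.norm_eq_abs]
    exact eK_abs hu.1
  have hc : ContinuousOn (fun u => u * hK u) (Icc 0 R) := by
    intro u hu
    rcases eq_or_lt_of_le hu.1 with h | h
    · apply ContinuousAt.continuousWithinAt
      rw [← h]
      have h1 : Tendsto (fun u : ℝ => u * hK u) (𝓝 0) (𝓝 0) := by
        apply squeeze_zero_norm (a := fun u : ℝ => |u|)
        · intro u
          rw [Real.norm_eq_abs, abs_mul, abs_of_nonneg (hK_nonneg u)]
          have := hK_le u
          have := abs_nonneg u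
          nlinarith
        · have := continuous_abs.tendsto (0:ℝ)
          rwa [abs_zero] at this
      rw [ContinuousAt, zero_mul]
      exact h1
    · exact (continuousAt_id.mul (hK_deriv h).continuousAt).continuousWithinAt
  have h1 : ∫ u in (0:ℝ)..R, (hK u + eK u) = R * hK R - 0 * hK 0 := by
    apply intervalIntegral.integral_eq_sub_of_hasDeriv_right_of_le hR.le hc
    · intro u hu
      have := (hasDerivAt_id u).mul (hK_deriv hu.1)
      refine (this.congr_deriv ?_).hasDerivWithinAt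
      have : u ≠ 0 := hu.1.ne'
      simp only [id]
      field_simp
    · rw [intervalIntegrable_iff_integrableOn_Ioc_of_le hR.le]
      exact hi1.add hi2
  rw [intervalIntegral.integral_add] at h1
  · rw [intervalIntegral.integral_of_le (f := eK) hR.le] at h1
    linarith
  · rw [intervalIntegrable_iff_integrableOn_Ioc_of_le hR.le]; exact hi1
  · rw [intervalIntegrable_iff_integrableOn_Ioc_of_le hR.le]; exact hi2

lemma ZT_filter {T U : ℝ} (h : T ≤ U) : (ZT U).filter (fun ρ => |ρ.im| ≤ T) = ZT T := by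
  ext ρ
  rw [Finset.mem_filter, mem_ZT, mem_ZT]
  exact ⟨fun h' => ⟨h'.1.1, h'.2⟩, fun h' => ⟨⟨h'.1, h'.2.trans h⟩, h'.2⟩⟩

/-- partial summation for the low zeros -/
lemma low_part {R x : ℝ} (hx : 0 < x) :
    ∑ ρ ∈ ZT (R / x), ‖aa ρ‖ ^ 2 * (1 - Real.cos (ρ.im * x)) =
      x ^ 2 * (hK R * Gz (R / x) - ∫ u in Ioc 0 R, eK u / u * Gz (u / x)) := by
  classical
  have h1 : ∀ ρ ∈ ZT (R / x), ‖aa ρ‖ ^ 2 * (1 - Real.cos (ρ.im * x)) =
      x ^ 2 * (gz ρ * (hK R - ∫ u in Ioc 0 R, (Ici (|ρ.im| * x)).indicator (fun u => eK u / u) u)) := by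
    intro ρ hρ
    have hρ2 := (mem_ZT.1 hρ).2
    rw [le_div_iff₀ hx] at hρ2
    rcases eq_or_ne ρ.im 0 with h | h
    · unfold gz; rw [h]; simp
    · have h2 : 0 < |ρ.im| * x := by positivity
      rw [(hK_ftc h2 hρ2).2]
      have h3 : hK (|ρ.im| * x) = (1 - Real.cos (ρ.im * x)) / (ρ.im * x) ^ 2 := by
        have : |ρ.im| * x = |ρ.im * x| := by rw [abs_mul, abs_of_pos hx]
        rw [this, hK_abs]; rfl
      rw [sub_sub_cancel, h3]
      unfold gz
      field_simp
  have hint : ∀ ρ ∈ ZT (R / x), IntegrableOn (fun u => gz ρ * (Ici (|ρ.im| * x)).indicator (fun u => eK u / u) u) (Ioc 0 R) := by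
    intro ρ hρ
    have hρ2 := (mem_ZT.1 hρ).2
    rw [le_div_iff₀ hx] at hρ2
    rcases eq_or_ne ρ.im 0 with h | h
    · have : gz ρ = 0 := by unfold gz; rw [h]; simp
      simp only [this, zero_mul]
      exact integrableOn_zero
    · have h2 : 0 < |ρ.im| * x := by positivity
      exact (hK_ftc h2 hρ2).1.const_mul _
  rw [Finset.sum_congr rfl h1, ← Finset.mul_sum]
  congr 1
  have h2 : ∑ ρ ∈ ZT (R / x), gz ρ * (hK R - ∫ u in Ioc 0 R, (Ici (|ρ.im| * x)).indicator (fun u => eK u / u) u) =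
      hK R * Gz (R / x) - ∑ ρ ∈ ZT (R / x), ∫ u in Ioc 0 R, gz ρ * (Ici (|ρ.im| * x)).indicator (fun u => eK u / u) u := by
    unfold Gz
    rw [Finset.mul_sum, ← Finset.sum_sub_distrib]
    refine Finset.sum_congr rfl fun ρ _ => ?_
    rw [integral_const_mul]
    ring
  rw [h2, ← integral_finsetSum _ hint]
  congr 1
  refine setIntegral_congr_fun measurableSet_Ioc fun u hu => ?_
  unfold Gz
  rw [← ZT_filter (show u / x ≤ R / x by have := hu.2; gcongr), Finset.sum_filter, Finset.mul_sum]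
  refine Finset.sum_congr rfl fun ρ _ => ?_
  by_cases h : |ρ.im| ≤ u / x
  · rw [if_pos h]
    rw [le_div_iff₀ hx] at h
    rw [indicator_of_mem (show u ∈ Ici (|ρ.im| * x) from h)]
    ring
  · rw [if_neg h]
    rw [le_div_iff₀ hx] at h
    rw [indicator_of_notMem (show u ∉ Ici (|ρ.im| * x) from h)]
    ring

/-- a linear bound for `Gz` -/
lemma Gz_le (hs : Summable (fun ρ : NT => ‖aa ρ‖ ^ 2)) {g : ℝ} (h : Tendsto (fun T => Gz T / T) atTop (𝓝 g)) :
    ∃ C : ℝ, 0 ≤ C ∧ ∀ T : ℝ, 0 ≤ T → Gz T ≤ C * T := by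
  classical
  have h1 := (h.eventually_lt_const (show g < g + 1 by linarith)).and (eventually_gt_atTop 0)
  obtain ⟨T₀, hT₀⟩ := eventually_atTop.1 h1
  set A : ℝ := ∑' ρ : NT, ‖aa ρ‖ ^ 2 with hA
  have hA0 : 0 ≤ A := tsum_nonneg fun _ => by positivity
  have h2 : ∀ T : ℝ, 0 ≤ T → Gz T ≤ A * T ^ 2 := by
    intro T _
    unfold Gz gz
    calc ∑ ρ ∈ ZT T, ‖aa ρ‖ ^ 2 * ρ.im ^ 2 ≤ ∑ ρ ∈ ZT T, ‖aa ρ‖ ^ 2 * T ^ 2 := by
          refine Finset.sum_le_sum fun ρ hρ => ?_
          have h3 := (mem_ZT.1 hρ).2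
          have h4 : ρ.im ^ 2 ≤ T ^ 2 := by rw [← sq_abs]; gcongr
          gcongr
      _ = (∑ ρ ∈ ZT T, ‖aa ρ‖ ^ 2) * T ^ 2 := by rw [Finset.sum_mul]
      _ ≤ A * T ^ 2 := by
          gcongr
          have h2 := hs.sum_le_tsum ((ZT T).subtype (· ∈ NT)) (fun ρ _ => by positivity)
          rwa [Finset.sum_subtype_of_mem (fun ρ => ‖aa ρ‖ ^ 2) ZT_NT] at h2
  refine ⟨max (|g| + 1) (A * |T₀|), by positivity, fun T hT => ?_⟩
  rcases le_or_gt T₀ T with h3 | h3
  · obtain ⟨h4, h5⟩ := hT₀ T h3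
    rw [div_lt_iff₀ h5] at h4
    refine h4.le.trans ?_
    have := le_abs_self g
    have := le_max_left (|g| + 1) (A * |T₀|)
    gcongr
    linarith
  · refine (h2 T hT).trans ?_
    have h4 : T ≤ |T₀| := h3.le.trans (le_abs_self _)
    have h5 := le_max_right (|g| + 1) (A * |T₀|)
    calc A * T ^ 2 = (A * T) * T := by ring
      _ ≤ (A * |T₀|) * T := by gcongr
      _ ≤ _ := by gcongr

/-- the tail -/
lemma tail_le {C : ℝ} (hG : ∀ T : ℝ, 0 ≤ T → Gz T ≤ C * T) {U : ℝ} (hU : 0 < U)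
    {Z : Finset ℂ} (hZ : ∀ ρ ∈ Z, ρ ∈ NT ∧ U < |ρ.im|) : ∑ ρ ∈ Z, ‖aa ρ‖ ^ 2 ≤ 2 * C / U := by
  classical
  have hi : ∀ ρ ∈ Z, IntegrableOn (fun t => gz ρ * (Ici |ρ.im|).indicator k3 t) (Ioi U) := by
    intro ρ _
    exact ((k3_int hU).1.indicator measurableSet_Ici).const_mul _
  have h1 : ∑ ρ ∈ Z, ‖aa ρ‖ ^ 2 = ∫ t in Ioi U, ∑ ρ ∈ Z, gz ρ * (Ici |ρ.im|).indicator k3 t := by
    rw [integral_finsetSum _ hi]
    refine Finset.sum_congr rfl fun ρ hρ => ?_
    have hρU := (hZ ρ hρ).2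
    have hρ0 : 0 < |ρ.im| := hU.trans hρU
    rw [integral_const_mul, setIntegral_indicator measurableSet_Ici]
    have e : (Ioi U ∩ Ici |ρ.im| : Set ℝ) = Ici |ρ.im| := by
      ext t; simp only [mem_inter_iff, mem_Ioi, mem_Ici]
      exact ⟨fun h => h.2, fun h' => ⟨hρU.trans_le h', h'⟩⟩
    rw [e, integral_Ici_eq_integral_Ioi, (k3_int hρ0).2, sq_abs]
    unfold gz
    have : ρ.im ≠ 0 := abs_pos.1 hρ0
    field_simp
  have i1 : IntegrableOn (fun t : ℝ => 2 * C * t ^ (-2 : ℝ)) (Ioi U) :=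
    (integrableOn_Ioi_rpow_of_lt (by norm_num) hU).const_mul _
  have h2 : ∫ t in Ioi U, ∑ ρ ∈ Z, gz ρ * (Ici |ρ.im|).indicator k3 t ≤ ∫ t in Ioi U, 2 * C * t ^ (-2 : ℝ) := by
    refine setIntegral_mono_on (integrable_finsetSum _ hi) i1 measurableSet_Ioi fun t ht => ?_
    have ht0 : 0 < t := hU.trans ht
    have h3 : ∑ ρ ∈ Z, gz ρ * (Ici |ρ.im|).indicator k3 t = (∑ ρ ∈ Z.filter (fun ρ => |ρ.im| ≤ t), gz ρ) * k3 t := by
      rw [Finset.sum_filter, Finset.sum_mul]
      refine Finset.sum_congr rfl fun ρ _ => ?_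
      by_cases h4 : |ρ.im| ≤ t
      · rw [if_pos h4, indicator_of_mem (show t ∈ Ici |ρ.im| from h4)]
      · rw [if_neg h4, indicator_of_notMem (show t ∉ Ici |ρ.im| from h4), mul_zero, zero_mul]
    have h4 : ∑ ρ ∈ Z.filter (fun ρ => |ρ.im| ≤ t), gz ρ ≤ Gz t := by
      unfold Gz
      refine Finset.sum_le_sum_of_subset_of_nonneg (fun ρ hρ => ?_) fun _ _ _ => gz_nonneg _
      rw [Finset.mem_filter] at hρ
      rw [mem_ZT]
      exact ⟨(hZ ρ hρ.1).1, hρ.2⟩
    rw [h3]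
    calc (∑ ρ ∈ Z.filter (fun ρ => |ρ.im| ≤ t), gz ρ) * k3 t ≤ (C * t) * k3 t :=
          mul_le_mul_of_nonneg_right (h4.trans (hG t ht0.le)) (k3_nonneg ht0)
      _ = 2 * C * (t ^ (1:ℝ) * t ^ (-3 : ℝ)) := by unfold k3; rw [Real.rpow_one]; ring
      _ = _ := by rw [← Real.rpow_add ht0]; norm_num
  rw [h1]
  refine h2.trans (le_of_eq ?_)
  rw [integral_const_mul, integral_Ioi_rpow_of_lt (by norm_num) hU]
  have : (-2 : ℝ) + 1 = -1 := by norm_num
  rw [this, Real.rpow_neg_one]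
  field_simp

/-- the Abelian theorem -/
theorem EE_lim (hs : Summable (fun ρ : NT => ‖aa ρ‖ ^ 2)) {c : ℝ} (h : Tendsto (fun T => Gz T / T) atTop (𝓝 (2 * c))) :
    Tendsto (fun x => EE x / x) (𝓝[>] 0) (𝓝 (Real.pi * c)) := by
  classical
  obtain ⟨C, hC, hG⟩ := Gz_le hs h
  -- the low part
  have hlow : ∀ R : ℝ, 0 < R → Tendsto (fun x : ℝ => (∑ ρ ∈ ZT (R / x), ‖aa ρ‖ ^ 2 * (1 - Real.cos (ρ.im * x))) / x)
      (𝓝[>] 0) (𝓝 (2 * c * ∫ u in (0:ℝ)..R, hK u)) := by
    intro R hR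
    have hdiv : ∀ u : ℝ, 0 < u → Tendsto (fun x : ℝ => u / x) (𝓝[>] 0) atTop := by
      intro u hu
      simp_rw [div_eq_mul_inv]
      exact tendsto_inv_nhdsGT_zero.const_mul_atTop hu
    have h1 : ∀ u : ℝ, 0 < u → Tendsto (fun x : ℝ => x / u * Gz (u / x)) (𝓝[>] 0) (𝓝 (2 * c)) := by
      intro u hu
      refine (h.comp (hdiv u hu)).congr' ?_
      filter_upwards [self_mem_nhdsWithin] with x hx
      have hx' : (0:ℝ) < x := hx
      simp only [Function.comp]
      field_simp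
    have h2 : Tendsto (fun x : ℝ => ∫ u in Ioc 0 R, eK u * (x / u * Gz (u / x))) (𝓝[>] 0)
        (𝓝 (∫ u in Ioc 0 R, eK u * (2 * c))) := by
      refine tendsto_integral_filter_of_dominated_convergence (fun _ => 2 * C) ?_ ?_ ?_ ?_
      · filter_upwards [self_mem_nhdsWithin] with x hx
        have hx' : (0:ℝ) < x := hx
        have hm : Monotone Gz := by
          intro a b hab
          unfold Gz
          refine Finset.sum_le_sum_of_subset_of_nonneg (fun ρ hρ => ?_) fun _ _ _ => gz_nonneg _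
          rw [mem_ZT] at hρ ⊢
          exact ⟨hρ.1, hρ.2.trans hab⟩
        exact (eK_meas.mul ((measurable_const.div measurable_id).mul
          (hm.measurable.comp (measurable_id.div_const x)))).aestronglyMeasurable
      · filter_upwards [self_mem_nhdsWithin] with x hx
        have hx' : (0:ℝ) < x := hx
        filter_upwards [ae_restrict_mem measurableSet_Ioc] with u hu
        have hu0 := hu.1
        rw [Real.norm_eq_abs, abs_mul]
        have h3 : |x / u * Gz (u / x)| ≤ C := by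
          rw [abs_of_nonneg (mul_nonneg (by positivity) (Gz_nonneg _))]
          calc x / u * Gz (u / x) ≤ x / u * (C * (u / x)) := by
                gcongr
                exact hG _ (by positivity)
            _ = C := by field_simp
        exact mul_le_mul (eK_abs hu0) h3 (abs_nonneg _) (by norm_num)
      · exact integrableOn_const (by simp)
      · filter_upwards [ae_restrict_mem measurableSet_Ioc] with u hu
        exact (h1 u hu.1).const_mul _
    have h3 := ((h1 R hR).const_mul (R * hK R)).sub h2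
    have h4 : R * hK R * (2 * c) - ∫ u in Ioc 0 R, eK u * (2 * c) = 2 * c * ∫ u in (0:ℝ)..R, hK u := by
      rw [integral_mul_const, hK_parts hR]; ring
    rw [h4] at h3
    refine h3.congr' ?_
    filter_upwards [self_mem_nhdsWithin] with x hx
    have hx' : (0:ℝ) < x := hx
    rw [low_part hx', eq_div_iff hx'.ne']
    have e1 : ∫ u in Ioc 0 R, eK u * (x / u * Gz (u / x)) = x * ∫ u in Ioc 0 R, eK u / u * Gz (u / x) := by
      rw [← integral_const_mul]
      refine setIntegral_congr_fun measurableSet_Ioc fun u hu => ?_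
      ring
    rw [e1]
    field_simp
  -- conclusion
  rw [Metric.tendsto_nhds]
  intro ε hε
  have hk := (hK_lim.const_mul (2 * c))
  have hk2 : Tendsto (fun R : ℝ => 4 * C / R) atTop (𝓝 0) := tendsto_const_nhds.div_atTop tendsto_id
  obtain ⟨R, hR1, hR2, hR0⟩ := ((Metric.tendsto_nhds.1 hk (ε / 3) (by positivity)).and
    ((hk2.eventually_lt_const (show 0 < ε / 3 by positivity)).and (eventually_gt_atTop 0))).exists
  filter_upwards [Metric.tendsto_nhds.1 (hlow R hR0) (ε / 3) (by positivity), self_mem_nhdsWithin] with x hx1 hx0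
  have hx : (0:ℝ) < x := hx0
  set L := ∑ ρ ∈ ZT (R / x), ‖aa ρ‖ ^ 2 * (1 - Real.cos (ρ.im * x)) with hL
  have hEs := EE_summable hs x
  have hsplit : 0 ≤ EE x - L ∧ EE x - L ≤ 4 * C / R * x := by
    set s : Finset NT := (ZT (R / x)).subtype (· ∈ NT) with hsdef
    have h1 := hEs.sum_add_tsum_compl (s := s)
    have h2 : ∑ ρ ∈ s, ‖aa ρ‖ ^ 2 * (1 - Real.cos ((ρ : ℂ).im * x)) = L := by
      rw [hsdef, hL, Finset.sum_subtype_of_mem (fun ρ => ‖aa ρ‖ ^ 2 * (1 - Real.cos (ρ.im * x))) ZT_NT]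
    rw [h2] at h1
    have h3 : EE x - L = ∑' ρ : ((s : Set NT)ᶜ : Set NT), ‖aa ρ‖ ^ 2 * (1 - Real.cos ((ρ : ℂ).im * x)) := by
      unfold EE; linarith
    rw [h3]
    constructor
    · exact tsum_nonneg fun ρ => mul_nonneg (by positivity) (one_sub_cos_nonneg _)
    · refine (hEs.subtype _).tsum_le_of_sum_le fun t => ?_
      set Z : Finset ℂ := (t.map (Function.Embedding.subtype _)).map (Function.Embedding.subtype _) with hZ
      have h4 : ∑ ρ ∈ t, ‖aa ρ‖ ^ 2 = ∑ ρ ∈ Z, ‖aa ρ‖ ^ 2 := by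
        rw [hZ, Finset.sum_map, Finset.sum_map]
        rfl
      have h5 := tail_le hG (U := R / x) (by positivity) (Z := Z) (by
        intro ρ hρ
        rw [hZ, Finset.mem_map] at hρ
        obtain ⟨ρ', hρ', rfl⟩ := hρ
        rw [Finset.mem_map] at hρ'
        obtain ⟨ρ'', _, rfl⟩ := hρ'
        refine ⟨ρ''.1.2, ?_⟩
        have h6 := ρ''.2
        by_contra hc
        push Not at hc
        have h7 : ρ''.1 ∈ s := Finset.mem_subtype.2 (mem_ZT.2 ⟨ρ''.1.2, hc⟩)
        exact h6 (Finset.mem_coe.2 h7))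
      calc ∑ ρ ∈ t, ‖aa ρ‖ ^ 2 * (1 - Real.cos ((ρ : ℂ).im * x)) ≤ ∑ ρ ∈ t, ‖aa ρ‖ ^ 2 * 2 :=
            Finset.sum_le_sum fun ρ _ => mul_le_mul_of_nonneg_left (one_sub_cos_le _) (by positivity)
        _ = (∑ ρ ∈ Z, ‖aa ρ‖ ^ 2) * 2 := by rw [← Finset.sum_mul, h4]
        _ ≤ 2 * C / (R / x) * 2 := by gcongr
        _ = _ := by field_simp; ring
  rw [Real.dist_eq] at hx1 hR1 ⊢
  have h1 : |EE x / x - L / x| ≤ 4 * C / R := by
    rw [← sub_div, abs_div, abs_of_pos hx, div_le_iff₀ hx, abs_of_nonneg hsplit.1]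
    exact hsplit.2
  have e1 : 2 * c * (Real.pi / 2) = Real.pi * c := by ring
  rw [e1] at hR1
  have h2 := abs_sub_le (EE x / x) (L / x) (Real.pi * c)
  have h3 := abs_sub_le (L / x) (2 * c * ∫ u in (0:ℝ)..R, hK u) (Real.pi * c)
  linarith

end

end Pool.Agent.Helper37.WMH
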