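import Pool.Agent.Helper37.WMH.Win

/-! From the Gaussian sums to the windows. -/

set_option autoImplicit false

open MeasureTheory Filter Topology Set
open scoped ENNReal

namespace Pool.Agent.Helper37.WMH

open Pool.Agent.H295R2

noncomputable section

/-- the Gaussian-damped transform -/
def XX (h : ℝ → ℂ) (ε x : ℝ) : ℂ :=
  ∫ v : ℝ, (Real.exp (-(ε ^ 2 * v ^ 2 / 4)) : ℂ) * Complex.exp (-(x * v * Complex.I)) * h v

lemma tame_sq_integrable {h : ℝ → ℂ} (hh : Tame h) {ε : ℝ} (hε : 0 < ε) :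
    Integrable (fun v : ℝ => Real.exp (-(ε ^ 2 * v ^ 2 / 2)) * ‖h v‖ ^ 2) := by
  obtain ⟨C, hC, hb⟩ := hh.bound
  have hA : Integrable (fun v : ℝ => C ^ 2 * (Real.exp (-((ε ^ 2 / 2) * v ^ 2)) * Real.exp (2 * |v|))) :=
    (gexp_integrable (by positivity) 2).const_mul _
  refine hA.mono' ?_ (Eventually.of_forall fun v => ?_)
  · exact (Measurable.mul (Continuous.measurable (by fun_prop)) (hh.meas.norm.pow_const 2)).aestronglyMeasurable
  · rw [Real.norm_of_nonneg (by positivity)]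
    have e : Real.exp (-(ε ^ 2 * v ^ 2 / 2)) = Real.exp (-((ε ^ 2 / 2) * v ^ 2)) := by congr 1; ring
    rw [e]
    have h2 : ‖h v‖ ^ 2 ≤ (C * Real.exp |v|) ^ 2 := by
      have := hb v
      gcongr
    have h3 : (C * Real.exp |v|) ^ 2 = C ^ 2 * Real.exp (2 * |v|) := by
      rw [mul_pow, ← Real.exp_nat_mul]; norm_num
    rw [h3] at h2
    calc Real.exp (-(ε ^ 2 / 2 * v ^ 2)) * ‖h v‖ ^ 2 ≤
          Real.exp (-(ε ^ 2 / 2 * v ^ 2)) * (C ^ 2 * Real.exp (2 * |v|)) := by gcongr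
      _ = _ := by ring

open FourierTransform in
/-- Plancherel -/
theorem XX_planch {h : ℝ → ℂ} (hh : Tame h) {ε : ℝ} (hε : 0 < ε) :
    Measurable (XX h ε) ∧
    ∫⁻ x : ℝ, ‖XX h ε x‖ₑ ^ 2 = ENNReal.ofReal (2 * Real.pi * ∫ v : ℝ, Real.exp (-(ε ^ 2 * v ^ 2 / 2)) * ‖h v‖ ^ 2) := by
  set g : ℝ → ℂ := fun v => (Real.exp (-(ε ^ 2 * v ^ 2 / 4)) : ℂ) * h v with hg
  have hgi : Integrable g := by
    refine (tame_int hh hε 0).congr (Eventually.of_forall fun v => ?_)
    simp [hg]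
  have hsq : ∀ v, ‖g v‖ ^ 2 = Real.exp (-(ε ^ 2 * v ^ 2 / 2)) * ‖h v‖ ^ 2 := by
    intro v
    rw [hg]
    simp only
    rw [norm_mul, Complex.norm_real, Real.norm_of_nonneg (Real.exp_pos _).le, mul_pow, ← Real.exp_nat_mul]
    congr 2
    push_cast
    ring
  have hint := tame_sq_integrable hh hε
  have hg2 : MemLp g 2 := by
    rw [memLp_two_iff_integrable_sq_norm hgi.aestronglyMeasurable]
    simp_rw [hsq]
    exact hint
  obtain ⟨h1, h2⟩ := Pool.Agent.Helper625.Planch.plancherel g hgi hg2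
  have hF : ∀ x : ℝ, XX h ε x = 𝓕 g (x / (2 * Real.pi)) := by
    intro x
    rw [Real.fourier_real_eq_integral_exp_smul]
    unfold XX
    refine integral_congr_ae (Eventually.of_forall fun v => ?_)
    simp only [hg, smul_eq_mul]
    have e : Complex.exp (((-2 * Real.pi * v * (x / (2 * Real.pi)) : ℝ) : ℂ) * Complex.I) =
        Complex.exp (-(x * v * Complex.I)) := by
      congr 1
      have : (-2 * Real.pi * v * (x / (2 * Real.pi)) : ℝ) = -(x * v) := by
        have := Real.pi_ne_zero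
        field_simp
      rw [this]
      push_cast; ring
    rw [e]
    ring
  have h2pi : (0:ℝ) < 2 * Real.pi := by positivity
  have h3 : Integrable (fun ξ : ℝ => ‖𝓕 g ξ‖ ^ 2) := (memLp_two_iff_integrable_sq_norm h1.aestronglyMeasurable).1 h1
  have hcont : Continuous (𝓕 g) :=
    VectorFourier.fourierIntegral_continuous Real.continuous_fourierChar (by exact continuous_inner) hgi
  constructor
  · have e : XX h ε = fun x => 𝓕 g (x / (2 * Real.pi)) := funext hF
    rw [e]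
    exact (hcont.comp (continuous_id.div_const _)).measurable
  · have h4 : Integrable (fun x : ℝ => ‖XX h ε x‖ ^ 2) := by
      simp_rw [hF]
      exact h3.comp_div h2pi.ne'
    have h5 : ∫ x : ℝ, ‖XX h ε x‖ ^ 2 = 2 * Real.pi * ∫ v : ℝ, Real.exp (-(ε ^ 2 * v ^ 2 / 2)) * ‖h v‖ ^ 2 := by
      simp_rw [hF]
      rw [Measure.integral_comp_div (fun ξ => ‖𝓕 g ξ‖ ^ 2), h2, abs_of_pos h2pi, smul_eq_mul]
      simp_rw [hsq]
    rw [← h5, ofReal_integral_eq_lintegral_ofReal h4 (Eventually.of_forall fun x => by positivity)]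
    refine lintegral_congr fun x => ?_
    rw [ENNReal.ofReal_pow (norm_nonneg _), ofReal_norm]

/-- the mean of the exponential -/
def kap (δ v : ℝ) : ℂ := ∫ u in Ioc 0 δ, Complex.exp (-(u * v * Complex.I))

lemma exp_norm_one (u v : ℝ) : ‖Complex.exp (-(u * v * Complex.I))‖ = 1 := by
  rw [show -((u : ℂ) * v * Complex.I) = ((-(u * v) : ℝ) : ℂ) * Complex.I by push_cast; ring]
  exact Complex.norm_exp_ofReal_mul_I _

lemma kap_meas (δ : ℝ) : Measurable (kap δ) := by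
  unfold kap
  have h : StronglyMeasurable (fun v : ℝ => ∫ u in Ioc 0 δ, Complex.exp (-(u * v * Complex.I))) := by
    apply StronglyMeasurable.integral_prod_right' (f := fun p : ℝ × ℝ => Complex.exp (-(p.2 * p.1 * Complex.I)))
    apply Continuous.stronglyMeasurable
    fun_prop
  exact h.measurable

lemma kap_le {δ : ℝ} (hδ : 0 ≤ δ) (v : ℝ) : ‖kap δ v‖ ≤ δ := by
  unfold kap
  have h := norm_setIntegral_le_of_norm_le_const (μ := volume) (s := Ioc 0 δ) (C := 1)
    (f := fun u : ℝ => Complex.exp (-(u * v * Complex.I))) (by simp) (fun u _ => (exp_norm_one u v).le)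
  simpa [hδ] using h

lemma kap_le' {δ : ℝ} (hδ : 0 ≤ δ) {v : ℝ} (hv : v ≠ 0) : ‖kap δ v‖ ≤ 2 / |v| := by
  unfold kap
  have hne : (-(v * Complex.I) : ℂ) ≠ 0 := by
    simp [hv]
  have h1 : ∫ u in Ioc 0 δ, Complex.exp (-(u * v * Complex.I)) = ∫ u in (0:ℝ)..δ, Complex.exp ((-(v * Complex.I)) * u) := by
    rw [intervalIntegral.integral_of_le hδ]
    refine integral_congr_ae (Eventually.of_forall fun u => ?_)
    simp only
    congr 1; ring
  rw [h1, integral_exp_mul_complex hne, norm_div]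
  have h2 : ‖(-(v * Complex.I) : ℂ)‖ = |v| := by simp
  rw [h2]
  gcongr
  refine (norm_sub_le _ _).trans ?_
  have h3 : ∀ u : ℝ, ‖Complex.exp ((-(v * Complex.I)) * u)‖ = 1 := by
    intro u
    rw [show (-(v * Complex.I)) * (u : ℂ) = -(u * v * Complex.I) by ring]
    exact exp_norm_one u v
  rw [h3, h3]
  norm_num

lemma J_small {X : ℝ} (hX : X ^ 2 ≤ 1) : (3 : ℝ) / 10 ≤ ∫ t in (0:ℝ)..1, t * Real.exp (-(t ^ 2 * X ^ 2 / 2)) := by
  have h1 : ∫ t in (0:ℝ)..1, t * (6 / 10) ≤ ∫ t in (0:ℝ)..1, t * Real.exp (-(t ^ 2 * X ^ 2 / 2)) := by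
    apply intervalIntegral.integral_mono_on zero_le_one
    · exact Continuous.intervalIntegrable (by fun_prop) _ _
    · exact Continuous.intervalIntegrable (by fun_prop) _ _
    · intro t ht
      have h2 : (6:ℝ) / 10 ≤ Real.exp (-(1 / 2)) := by
        rw [Real.exp_neg, le_inv_comm₀ (by norm_num) (Real.exp_pos _)]
        have h3 : Real.exp (1 / 2) ^ 2 = Real.exp 1 := by rw [← Real.exp_nat_mul]; norm_num
        have h4 := Real.exp_one_lt_d9
        have h5 := Real.exp_pos (1 / 2 : ℝ)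
        nlinarith
      have h3 : Real.exp (-(1 / 2)) ≤ Real.exp (-(t ^ 2 * X ^ 2 / 2)) := by
        apply Real.exp_le_exp.2
        have h4 : t ^ 2 ≤ 1 := by nlinarith [ht.1, ht.2]
        have h5 : t ^ 2 * X ^ 2 ≤ 1 * 1 := mul_le_mul h4 hX (sq_nonneg _) (by norm_num)
        linarith
      exact mul_le_mul_of_nonneg_left (h2.trans h3) ht.1
  rw [intervalIntegral.integral_mul_const, integral_id] at h1
  norm_num at h1 ⊢
  exact h1

lemma J_big {X : ℝ} (hX : 1 ≤ X ^ 2) : (39 : ℝ) / 100 / X ^ 2 ≤ ∫ t in (0:ℝ)..1, t * Real.exp (-(t ^ 2 * X ^ 2 / 2)) := by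
  have hX0 : 0 < X ^ 2 := by linarith
  have hXne : X ≠ 0 := by rintro rfl; norm_num at hX
  have h1 : ∀ t ∈ uIcc (0:ℝ) 1, HasDerivAt (fun t : ℝ => -(Real.exp (-(t ^ 2 * X ^ 2 / 2)) / X ^ 2))
      (t * Real.exp (-(t ^ 2 * X ^ 2 / 2))) t := by
    intro t _
    have h2 : HasDerivAt (fun t : ℝ => -(t ^ 2 * X ^ 2 / 2)) (-(t * X ^ 2)) t := by
      have := (((hasDerivAt_pow 2 t).mul_const (X ^ 2)).div_const 2).fun_neg
      refine this.congr_deriv ?_
      push_cast
      ring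
    refine (h2.exp.div_const (X ^ 2)).fun_neg.congr_deriv ?_
    field_simp
  rw [intervalIntegral.integral_eq_sub_of_hasDerivAt h1 (Continuous.intervalIntegrable (by fun_prop) _ _)]
  have h3 : Real.exp (-(1 ^ 2 * X ^ 2 / 2)) ≤ 61 / 100 := by
    have h4 : Real.exp (-(1 ^ 2 * X ^ 2 / 2)) ≤ Real.exp (-(1 / 2)) := by
      apply Real.exp_le_exp.2; linarith
    refine h4.trans ?_
    rw [Real.exp_neg, inv_le_comm₀ (Real.exp_pos _) (by norm_num)]
    have h5 : Real.exp (1 / 2) ^ 2 = Real.exp 1 := by rw [← Real.exp_nat_mul]; norm_num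
    have h6 := Real.exp_one_gt_d9
    have h7 := Real.exp_pos (1 / 2 : ℝ)
    nlinarith
  have h8 : Real.exp (-((0:ℝ) ^ 2 * X ^ 2 / 2)) = 1 := by norm_num
  rw [h8]
  rw [neg_sub_neg, ← sub_div]
  gcongr
  linarith

lemma kap_sq_le {δ : ℝ} (hδ : 0 < δ) (v : ℝ) :
    ‖kap δ v‖ ^ 2 ≤ 11 * δ ^ 2 * ∫ t in (0:ℝ)..1, t * Real.exp (-(t ^ 2 * (δ * v) ^ 2 / 2)) := by
  rcases le_or_gt ((δ * v) ^ 2) 1 with h | h
  · have h1 := J_small h
    have h2 : ‖kap δ v‖ ^ 2 ≤ δ ^ 2 := by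
      have := kap_le hδ.le v
      gcongr
    nlinarith [sq_nonneg δ]
  · have h1 := J_big h.le
    have hv : v ≠ 0 := by
      rintro rfl; norm_num at h
    have h2 : ‖kap δ v‖ ^ 2 ≤ 4 / v ^ 2 := by
      have h3 := kap_le' hδ.le hv
      calc ‖kap δ v‖ ^ 2 ≤ (2 / |v|) ^ 2 := by gcongr
        _ = 4 / v ^ 2 := by rw [div_pow, sq_abs]; norm_num
    refine h2.trans ?_
    calc 4 / v ^ 2 ≤ 11 * δ ^ 2 * (39 / 100 / (δ * v) ^ 2) := by
          have : 11 * δ ^ 2 * (39 / 100 / (δ * v) ^ 2) = (429 / 100) / v ^ 2 := by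
            field_simp
            norm_num
          rw [this]
          gcongr
          norm_num
      _ ≤ _ := by gcongr

lemma tame_kap {h : ℝ → ℂ} (hh : Tame h) {δ : ℝ} (hδ : 0 < δ) : Tame (fun v => kap δ v * h v) := by
  obtain ⟨C, hC, hb⟩ := hh.bound
  refine ⟨(kap_meas δ).mul hh.meas, δ * C, by positivity, fun v => ?_⟩
  rw [norm_mul, mul_assoc]
  exact mul_le_mul (kap_le hδ.le v) (hb v) (norm_nonneg _) hδ.le

/-- the smoothed windows -/
def YY (Z : Finset ℂ) (δ ε x : ℝ) : ℂ :=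
  (1 / (ε * Real.sqrt Real.pi) : ℝ) * ∫ u in Ioc 0 δ, SZ Z ε (x + u)

lemma YY_four (hR : RHS) {A : ℝ} (hA : ∀ ρ ∈ NT, ‖aa ρ‖ ≤ A) {Z : Finset ℂ} (hZ : ∀ ρ ∈ Z, ρ ∈ NT)
    {δ ε : ℝ} (hε : 0 < ε) (x : ℝ) :
    YY Z δ ε x = (1 / (2 * Real.pi) : ℝ) * XX (fun v => kap δ v * nu Z v) ε x := by
  unfold YY XX
  simp_rw [SZ_eq hR hA hZ hε]
  rw [integral_const_mul, integral_integral_swap]
  · have e : ∀ v : ℝ, ∫ u in Ioc 0 δ, (Real.exp (-(ε ^ 2 * v ^ 2 / 4)) : ℂ) *
        Complex.exp (-(((x + u : ℝ) : ℂ) * v * Complex.I)) * nu Z v =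
        (Real.exp (-(ε ^ 2 * v ^ 2 / 4)) : ℂ) * Complex.exp (-(x * v * Complex.I)) * (kap δ v * nu Z v) := by
      intro v
      have e1 : ∀ u : ℝ, (Real.exp (-(ε ^ 2 * v ^ 2 / 4)) : ℂ) *
        Complex.exp (-(((x + u : ℝ) : ℂ) * v * Complex.I)) * nu Z v =
          ((Real.exp (-(ε ^ 2 * v ^ 2 / 4)) : ℂ) * Complex.exp (-(x * v * Complex.I)) * nu Z v) *
            Complex.exp (-(u * v * Complex.I)) := by
        intro u
        have : Complex.exp (-(((x + u : ℝ) : ℂ) * v * Complex.I)) =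
            Complex.exp (-(x * v * Complex.I)) * Complex.exp (-(u * v * Complex.I)) := by
          rw [← Complex.exp_add]; congr 1; push_cast; ring
        rw [this]; ring
      simp_rw [e1]
      rw [integral_const_mul]
      unfold kap
      ring
    simp_rw [e]
    rw [← mul_assoc, ← Complex.ofReal_mul]
    congr 2
    have h1 := Real.mul_self_sqrt Real.pi_pos.le
    have h2 := (Real.sqrt_pos.2 Real.pi_pos).ne'
    field_simp
    rw [sq, h1]
  · have hB : Integrable (fun v : ℝ => ‖(Real.exp (-(ε ^ 2 * v ^ 2 / 4)) : ℂ) * Complex.exp (-((0:ℝ) * v * Complex.I)) * nu Z v‖) :=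
      (tame_int (tame_nu Z) hε 0).norm
    have hA1 : Integrable (fun _ : ℝ => (1:ℝ)) (volume.restrict (Ioc 0 δ)) := integrable_const _
    refine (hA1.mul_prod hB).mono' ?_ (Eventually.of_forall fun z => ?_)
    · refine Measurable.aestronglyMeasurable ?_
      have m1 : Measurable (fun z : ℝ × ℝ => nu Z z.2) := (tame_nu Z).meas.comp measurable_snd
      have m2 : Measurable (fun z : ℝ × ℝ => (Real.exp (-(ε ^ 2 * z.2 ^ 2 / 4)) : ℂ) *
          Complex.exp (-(((x + z.1 : ℝ) : ℂ) * z.2 * Complex.I))) := Continuous.measurable (by fun_prop)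
      exact m2.mul m1
    · simp only [Function.uncurry]
      rw [norm_mul, norm_mul, norm_mul, norm_mul, exp_norm_one, exp_norm_one, one_mul]

/-- the Gaussian mean of the window -/
def yy (δ ε g : ℝ) : ℝ := 1 / (ε * Real.sqrt Real.pi) * ∫ u in Ioc 0 δ, gs ε (g - u)

lemma yy_nonneg {δ ε g : ℝ} (hε : 0 < ε) : 0 ≤ yy δ ε g := by
  unfold yy
  have : 0 ≤ ∫ u in Ioc 0 δ, gs ε (g - u) := integral_nonneg fun u => (gs_pos _ _).le
  positivity

lemma gs_sym (ε y : ℝ) : gs ε (-y) = gs ε y := by unfold gs; rw [neg_sq]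

lemma gs_sub_integrable {ε : ℝ} (hε : 0 < ε) (g : ℝ) : Integrable (fun u => gs ε (g - u)) := by
  refine (gs_integrable hε g).congr (Eventually.of_forall fun u => ?_)
  simp only
  rw [← gs_sym, neg_sub]

lemma gs_total {ε : ℝ} (hε : 0 < ε) (g : ℝ) : ∫ u, gs ε (g - u) = ε * Real.sqrt Real.pi := by
  have h1 : ∫ u, gs ε (g - u) = ∫ u, gs ε u := integral_sub_left_eq_self (fun u => gs ε u) volume g
  rw [h1]
  have h2 := integral_gaussian (1 / ε ^ 2)
  have e : ∀ u, gs ε u = Real.exp (-(1 / ε ^ 2) * u ^ 2) := by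
    intro u; unfold gs; congr 1; ring
  simp_rw [e]
  rw [h2, div_div_eq_mul_div, div_one, Real.sqrt_mul Real.pi_pos.le, Real.sqrt_sq hε.le]
  ring

lemma yy_le_one {δ ε : ℝ} (hε : 0 < ε) (g : ℝ) : yy δ ε g ≤ 1 := by
  unfold yy
  have h1 : ∫ u in Ioc 0 δ, gs ε (g - u) ≤ ε * Real.sqrt Real.pi := by
    rw [← gs_total hε g]
    exact setIntegral_le_integral (gs_sub_integrable hε g) (Eventually.of_forall fun u => (gs_pos _ _).le)
  have h2 := Real.sqrt_pos.2 Real.pi_pos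
  rw [one_div, inv_mul_le_iff₀ (by positivity), mul_one]
  exact h1

/-- decay away from the window -/
lemma yy_far {δ ε : ℝ} (hδ : 0 < δ) (hε : 0 < ε) {g d : ℝ} (hd : 0 < d) (h : g ≤ -d ∨ δ + d ≤ g) :
    yy δ ε g ≤ δ * ε / d ^ 2 := by
  unfold yy
  have h1 : ∀ u ∈ Ioc 0 δ, gs ε (g - u) ≤ ε ^ 2 / d ^ 2 := by
    intro u hu
    have h2 : d ^ 2 ≤ (g - u) ^ 2 := by
      rcases h with h | h
      · have : d ≤ -(g - u) := by linarith [hu.1]
        nlinarith
      · have : d ≤ g - u := by linarith [hu.2]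
        nlinarith
    unfold gs
    have h3 : 0 < (g - u) ^ 2 / ε ^ 2 := by
      have : 0 < (g - u) ^ 2 := lt_of_lt_of_le (by positivity) h2
      positivity
    calc Real.exp (-((g - u) ^ 2 / ε ^ 2)) ≤ 1 / ((g - u) ^ 2 / ε ^ 2) := by
          rw [Real.exp_neg, ← one_div]
          apply one_div_le_one_div_of_le h3
          have := Real.add_one_le_exp ((g - u) ^ 2 / ε ^ 2)
          linarith
      _ = ε ^ 2 / (g - u) ^ 2 := by rw [one_div_div]
      _ ≤ ε ^ 2 / d ^ 2 := by gcongr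
  have h4 : ∫ u in Ioc 0 δ, gs ε (g - u) ≤ δ * (ε ^ 2 / d ^ 2) := by
    have h5 : ∫ u in Ioc 0 δ, gs ε (g - u) ≤ ∫ _u in Ioc 0 δ, ε ^ 2 / d ^ 2 :=
      setIntegral_mono_on (gs_sub_integrable hε g).integrableOn (integrableOn_const (by simp)) measurableSet_Ioc h1
    refine h5.trans (le_of_eq ?_)
    rw [setIntegral_const]
    simp [hδ.le]
  have h6 : 1 ≤ Real.sqrt Real.pi := by
    rw [Real.one_le_sqrt]; linarith [Real.pi_gt_three]
  have h7 : 0 ≤ ∫ u in Ioc 0 δ, gs ε (g - u) := integral_nonneg fun u => (gs_pos _ _).le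
  calc 1 / (ε * Real.sqrt Real.pi) * ∫ u in Ioc 0 δ, gs ε (g - u) ≤
        1 / (ε * 1) * (δ * (ε ^ 2 / d ^ 2)) := by gcongr
    _ = _ := by field_simp

lemma yy_dom {δ ε : ℝ} (hδ : 0 < δ) (hε : 0 < ε) (hε1 : ε ≤ 1) (x g : ℝ) :
    yy δ ε (g - x) ≤ (1 + (2 * δ + 1) ^ 2 + 8 * δ) * (2 + 2 * x ^ 2) * (1 / (1 + g ^ 2)) := by
  have h1 : yy δ ε (g - x) ≤ (1 + (2 * δ + 1) ^ 2 + 8 * δ) * (1 / (1 + (g - x) ^ 2)) := by
    set y := g - x
    rcases le_or_gt |y| (2 * δ + 1) with h | h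
    · have h2 := yy_le_one (δ := δ) hε y
      refine h2.trans ?_
      rw [mul_one_div, le_div_iff₀ (by positivity), one_mul]
      have h3 : y ^ 2 ≤ (2 * δ + 1) ^ 2 := by
        rw [← sq_abs y]; gcongr
      linarith
    · have hy : 0 < |y| := by linarith
      have h2 : yy δ ε y ≤ δ * ε / (|y| / 2) ^ 2 := by
        apply yy_far hδ hε (by positivity)
        rcases le_or_gt 0 y with h3 | h3
        · right; rw [abs_of_nonneg h3] at h ⊢; linarith
        · left; rw [abs_of_neg h3] at h ⊢; linarith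
      refine h2.trans ?_
      rw [mul_one_div, div_le_div_iff₀ (by positivity) (by positivity), div_pow, sq_abs]
      have h3 : 1 ≤ y ^ 2 := by
        rw [← sq_abs]; nlinarith
      have h4 : δ * ε * (1 + y ^ 2) ≤ δ * 1 * (2 * y ^ 2) := by
        apply mul_le_mul _ (by linarith) (by positivity) (by positivity)
        gcongr
      have h5 : 0 ≤ (1 + (2 * δ + 1) ^ 2) * (y ^ 2 / 2 ^ 2) := by positivity
      nlinarith
  refine h1.trans ?_
  rw [mul_assoc]
  apply mul_le_mul_of_nonneg_left _ (by positivity)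
  rw [mul_one_div, div_le_div_iff₀ (by positivity) (by positivity)]
  nlinarith [sq_nonneg (g - 2 * x), sq_nonneg ((g - x) * x), sq_nonneg (g - x)]

lemma YY_sum {A : ℝ} (hA : ∀ ρ ∈ NT, ‖aa ρ‖ ≤ A) {Z : Finset ℂ} {δ ε : ℝ} (hε : 0 < ε) (x : ℝ) :
    YY Z δ ε x = ∑' ρ : NT, aZ Z ρ * (yy δ ε ((ρ : ℂ).im - x) : ℂ) := by
  have hint : ∀ ρ : NT, Integrable (fun u : ℝ => aZ Z ρ * (gs ε ((ρ : ℂ).im - (x + u)) : ℂ)) (volume.restrict (Ioc 0 δ)) := by
    intro ρ
    have h1 := (gs_sub_integrable hε ((ρ : ℂ).im - x)).integrableOn (s := Ioc 0 δ)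
    refine (h1.ofReal (𝕜 := ℂ)).const_mul (aZ Z ρ) |>.congr (Eventually.of_forall fun u => ?_)
    simp only
    rw [sub_sub]
    rfl
  have h2 := hasSum_integral_of_summable_integral_norm (μ := volume.restrict (Ioc 0 δ))
    (F := fun (ρ : NT) (u : ℝ) => aZ Z ρ * (gs ε ((ρ : ℂ).im - (x + u)) : ℂ)) hint (by
      have h3 : ∀ ρ : NT, ∫ u in Ioc 0 δ, ‖aZ Z ρ * (gs ε ((ρ : ℂ).im - (x + u)) : ℂ)‖ =
          ‖aZ Z ρ‖ * ((ε * Real.sqrt Real.pi) * yy δ ε ((ρ : ℂ).im - x)) := by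
        intro ρ
        have h4 : ∀ u : ℝ, ‖aZ Z ρ * (gs ε ((ρ : ℂ).im - (x + u)) : ℂ)‖ = ‖aZ Z ρ‖ * gs ε ((ρ : ℂ).im - x - u) := by
          intro u
          rw [norm_mul, Complex.norm_real, Real.norm_of_nonneg (gs_pos _ _).le, sub_sub]
        simp_rw [h4]
        rw [integral_const_mul]
        congr 1
        unfold yy
        have := (Real.sqrt_pos.2 Real.pi_pos).ne'
        field_simp
      simp_rw [h3]
      -- crude bound with `gs_le`
      refine Summable.of_nonneg_of_le (fun ρ => ?_) (fun ρ => ?_)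
        (summable_NT.mul_left (A * (|δ| * (1 + 2 * (|x| + |δ|) ^ 2 + 2 * ε ^ 2))))
      · have := yy_nonneg (δ := δ) (g := (ρ : ℂ).im - x) hε
        positivity
      · have hA0 : 0 ≤ A := (norm_nonneg _).trans (hA ρ ρ.2)
        have h5 : (ε * Real.sqrt Real.pi) * yy δ ε ((ρ : ℂ).im - x) ≤
            (|δ| * (1 + 2 * (|x| + |δ|) ^ 2 + 2 * ε ^ 2)) * (1 / (1 + (ρ : ℂ).im ^ 2)) := by
          have e : (ε * Real.sqrt Real.pi) * yy δ ε ((ρ : ℂ).im - x) = ∫ u in Ioc 0 δ, gs ε ((ρ : ℂ).im - (x + u)) := by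
            unfold yy
            have := (Real.sqrt_pos.2 Real.pi_pos).ne'
            simp_rw [← sub_sub]
            field_simp
          rw [e]
          have h6 : ∀ u ∈ Ioc 0 δ, gs ε ((ρ : ℂ).im - (x + u)) ≤
              (1 + 2 * (|x| + |δ|) ^ 2 + 2 * ε ^ 2) * (1 / (1 + (ρ : ℂ).im ^ 2)) := by
            intro u hu
            refine (gs_le hε (x + u) _).trans ?_
            have h7 : (x + u) ^ 2 ≤ (|x| + |δ|) ^ 2 := by
              rw [← sq_abs (x + u)]
              have h8 : |x + u| ≤ |x| + |δ| := by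
                refine (abs_add_le x u).trans ?_
                have : |u| ≤ |δ| := by
                  rw [abs_of_pos hu.1]; exact hu.2.trans (le_abs_self δ)
                linarith
              gcongr
            gcongr
          have h9 : ∫ u in Ioc 0 δ, gs ε ((ρ : ℂ).im - (x + u)) ≤
              ∫ _u in Ioc 0 δ, (1 + 2 * (|x| + |δ|) ^ 2 + 2 * ε ^ 2) * (1 / (1 + (ρ : ℂ).im ^ 2)) := by
            refine setIntegral_mono_on ?_ (integrableOn_const (by simp)) measurableSet_Ioc h6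
            have h10 := (gs_sub_integrable hε ((ρ : ℂ).im - x)).integrableOn (s := Ioc 0 δ)
            refine h10.congr (Eventually.of_forall fun u => ?_)
            simp only; rw [sub_sub]
          refine h9.trans ?_
          rw [setIntegral_const, smul_eq_mul, mul_assoc]
          have h11 : (volume : Measure ℝ).real (Ioc 0 δ) ≤ |δ| := by
            rw [measureReal_def, Real.volume_Ioc, sub_zero]
            rcases le_or_gt 0 δ with h | h
            · rw [ENNReal.toReal_ofReal h]; exact le_abs_self δ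
            · rw [ENNReal.ofReal_of_nonpos h.le]; simp
          gcongr
        have h12 : 0 ≤ (ε * Real.sqrt Real.pi) * yy δ ε ((ρ : ℂ).im - x) := by
          have := yy_nonneg (δ := δ) (g := (ρ : ℂ).im - x) hε
          positivity
        calc ‖aZ Z ρ‖ * ((ε * Real.sqrt Real.pi) * yy δ ε ((ρ : ℂ).im - x)) ≤
              A * ((|δ| * (1 + 2 * (|x| + |δ|) ^ 2 + 2 * ε ^ 2)) * (1 / (1 + (ρ : ℂ).im ^ 2))) :=
              mul_le_mul ((aZ_norm_le Z ρ).trans (hA ρ ρ.2)) h5 h12 hA0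
          _ = _ := by ring)
  unfold YY SZ
  rw [← h2.tsum_eq, ← tsum_mul_left]
  refine tsum_congr fun ρ => ?_
  rw [integral_const_mul, mul_left_comm]
  congr 1
  unfold yy
  push_cast
  rw [← integral_complex_ofReal]
  congr 1
  refine integral_congr_ae (Eventually.of_forall fun u => ?_)
  simp only
  rw [sub_sub]

end

end Pool.Agent.Helper37.WMH
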