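import Pool.Agent.Helper37.WMH.Back

/-! From the Gaussian sums to the windows: the limit. -/

set_option autoImplicit false

open MeasureTheory Filter Topology Set
open scoped ENNReal

namespace Pool.Agent.Helper37.WMH

open Pool.Agent.H295R2

noncomputable section

lemma GE_eq (hR : RHS) {A : ℝ} (hA : ∀ ρ ∈ NT, ‖aa ρ‖ ≤ A) {Z : Finset ℂ} (hZ : ∀ ρ ∈ Z, ρ ∈ NT)
    {δ : ℝ} (hδ : 0 < δ) :
    GE Z δ = ENNReal.ofReal (δ ^ 2 / 2 * ∫ v : ℝ, Real.exp (-(δ ^ 2 * v ^ 2 / 2)) * ‖nu Z v‖ ^ 2) := by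
  obtain ⟨h1, -, h3⟩ := planch_SZ hR hA hZ hδ
  rw [← h3, ofReal_integral_eq_lintegral_ofReal h1 (Eventually.of_forall fun x => by positivity)]
  unfold GE
  refine lintegral_congr fun x => ?_
  rw [ENNReal.ofReal_pow (norm_nonneg _), ofReal_norm]

lemma eps_pos (n : ℕ) : (0:ℝ) < 1 / ((n : ℝ) + 1) := by positivity

lemma eps_le (n : ℕ) : 1 / ((n : ℝ) + 1) ≤ 1 := by
  rw [div_le_one (by positivity)]
  have : (0:ℝ) ≤ n := Nat.cast_nonneg n
  linarith

lemma eps_lim : Tendsto (fun n : ℕ => 1 / ((n : ℝ) + 1)) atTop (𝓝 0) := tendsto_one_div_add_atTop_nhds_zero_nat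

open Classical in
lemma yy_lim {δ : ℝ} (hδ : 0 < δ) {g : ℝ} (h0 : g ≠ 0) (h1 : g ≠ δ) :
    Tendsto (fun n : ℕ => yy δ (1 / ((n : ℝ) + 1)) g) atTop (𝓝 (if 0 < g ∧ g ≤ δ then 1 else 0)) := by
  have hfar : ∀ d : ℝ, 0 < d → (g ≤ -d ∨ δ + d ≤ g) → Tendsto (fun n : ℕ => yy δ (1 / ((n : ℝ) + 1)) g) atTop (𝓝 0) := by
    intro d hd h
    have h2 : Tendsto (fun n : ℕ => δ * (1 / ((n : ℝ) + 1)) / d ^ 2) atTop (𝓝 0) := by
      have := (eps_lim.const_mul δ).div_const (d ^ 2)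
      simpa using this
    exact squeeze_zero (fun n => yy_nonneg (eps_pos n)) (fun n => yy_far hδ (eps_pos n) hd h) h2
  rcases lt_or_gt_of_ne h0 with h | h
  · rw [if_neg (by rintro ⟨h2, -⟩; linarith)]
    exact hfar (-g) (by linarith) (Or.inl (by linarith))
  · rcases lt_or_gt_of_ne h1 with h2 | h2
    · rw [if_pos ⟨h, h2.le⟩]
      have e : ∀ n : ℕ, yy δ (1 / ((n : ℝ) + 1)) g = 1 / Real.sqrt Real.pi *
          ∫ z in (-(g * ((n : ℝ) + 1)))..((δ - g) * ((n : ℝ) + 1)), Real.exp (-(1:ℝ) * z ^ 2) := by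
        intro n
        set ε : ℝ := 1 / ((n : ℝ) + 1) with hε
        have hn : (0:ℝ) < (n : ℝ) + 1 := by positivity
        have hε0 : 0 < ε := eps_pos n
        have hε1 : (n : ℝ) + 1 = 1 / ε := by rw [hε, one_div_one_div]
        unfold yy
        have h3 : ∫ u in Ioc 0 δ, gs ε (g - u) = ∫ u in (0:ℝ)..δ, (fun z : ℝ => Real.exp (-(1:ℝ) * z ^ 2)) (u / ε - g / ε) := by
          rw [intervalIntegral.integral_of_le hδ.le]
          refine integral_congr_ae (Eventually.of_forall fun u => ?_)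
          simp only
          unfold gs
          congr 1
          field_simp
          ring
        rw [h3, intervalIntegral.integral_comp_div_sub (fun z : ℝ => Real.exp (-(1:ℝ) * z ^ 2)) hε0.ne' (g / ε),
          smul_eq_mul, hε1]
        have h4 : 0 / ε - g / ε = -(g * (1 / ε)) := by ring
        have h5 : δ / ε - g / ε = (δ - g) * (1 / ε) := by ring
        rw [h4, h5]
        have := (Real.sqrt_pos.2 Real.pi_pos).ne'
        field_simp
      simp_rw [e]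
      have hn : Tendsto (fun n : ℕ => (n : ℝ) + 1) atTop atTop :=
        tendsto_atTop_add_const_right _ _ tendsto_natCast_atTop_atTop
      have l1 : Tendsto (fun n : ℕ => -(g * ((n : ℝ) + 1))) atTop atBot :=
        tendsto_neg_atTop_atBot.comp (Tendsto.const_mul_atTop h hn)
      have l2 : Tendsto (fun n : ℕ => (δ - g) * ((n : ℝ) + 1)) atTop atTop :=
        Tendsto.const_mul_atTop (by linarith) hn
      have l3 := intervalIntegral_tendsto_integral (integrable_exp_neg_mul_sq one_pos) l1 l2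
      have l4 := l3.const_mul (1 / Real.sqrt Real.pi)
      have e2 : 1 / Real.sqrt Real.pi * ∫ z : ℝ, Real.exp (-(1:ℝ) * z ^ 2) = 1 := by
        rw [integral_gaussian, div_one, one_div, inv_mul_cancel₀ (Real.sqrt_pos.2 Real.pi_pos).ne']
      rw [e2] at l4
      exact l4
    · rw [if_neg (by rintro ⟨-, h3⟩; linarith)]
      exact hfar (g - δ) (by linarith) (Or.inr (by linarith))

lemma YY_lim {A : ℝ} (hA : ∀ ρ ∈ NT, ‖aa ρ‖ ≤ A) (Z : Finset ℂ) {δ : ℝ} (hδ : 0 < δ) {x : ℝ}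
    (hx : ∀ ρ ∈ NT, x ≠ ρ.im ∧ x ≠ ρ.im - δ) :
    Tendsto (fun n : ℕ => YY Z δ (1 / ((n : ℝ) + 1)) x) atTop (𝓝 (FZ Z δ x)) := by
  classical
  simp_rw [fun n : ℕ => YY_sum hA (Z := Z) (δ := δ) (eps_pos n) x]
  unfold FZ
  refine tendsto_tsum_of_dominated_convergence (bound := fun ρ : NT =>
    A * ((1 + (2 * δ + 1) ^ 2 + 8 * δ) * (2 + 2 * x ^ 2) * (1 / (1 + (ρ : ℂ).im ^ 2)))) ?_ ?_ ?_
  · exact (summable_NT.mul_left _).mul_left A
  · intro ρ
    obtain ⟨h1, h2⟩ := hx ρ ρ.2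
    have h3 := yy_lim hδ (g := (ρ : ℂ).im - x) (fun h => h1 (by linarith)) (fun h => h2 (by linarith))
    have h4 : wd δ x (ρ : ℂ).im = (((if 0 < (ρ : ℂ).im - x ∧ (ρ : ℂ).im - x ≤ δ then 1 else 0 : ℝ)) : ℂ) := by
      unfold wd
      by_cases h5 : x < (ρ : ℂ).im ∧ (ρ : ℂ).im ≤ x + δ
      · rw [if_pos h5, if_pos ⟨by linarith [h5.1], by linarith [h5.2]⟩]; simp
      · rw [if_neg h5, if_neg (by
          rintro ⟨h6, h7⟩
          exact h5 ⟨by linarith, by linarith⟩)]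
        simp
    rw [h4]
    exact ((Complex.continuous_ofReal.tendsto _).comp h3).const_mul _
  · refine Eventually.of_forall fun n ρ => ?_
    rw [norm_mul, Complex.norm_real, Real.norm_of_nonneg (yy_nonneg (eps_pos n))]
    have hA0 : 0 ≤ A := (norm_nonneg _).trans (hA ρ ρ.2)
    exact mul_le_mul ((aZ_norm_le Z ρ).trans (hA ρ ρ.2)) (yy_dom hδ (eps_pos n) (eps_le n) x _)
      (yy_nonneg (eps_pos n)) hA0

lemma ae_good (δ : ℝ) : ∀ᵐ x : ℝ, ∀ ρ ∈ NT, x ≠ ρ.im ∧ x ≠ ρ.im - δ := by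
  rw [ae_iff]
  have h1 : {a : ℝ | ¬ ∀ ρ ∈ NT, a ≠ ρ.im ∧ a ≠ ρ.im - δ} ⊆
      (fun ρ : ℂ => ρ.im) '' NT ∪ (fun ρ : ℂ => ρ.im - δ) '' NT := by
    intro a ha
    rw [mem_ofPred_eq] at ha
    push Not at ha
    obtain ⟨ρ, hρ, h2⟩ := ha
    by_cases h3 : a = ρ.im
    · left; exact ⟨ρ, hρ, h3.symm⟩
    · right; exact ⟨ρ, hρ, (h2 h3).symm⟩
  exact measure_mono_null h1 (((NT_countable.image _).union (NT_countable.image _)).measure_zero _)

/-- **From Gaussians to windows.** -/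
theorem WE_le (hR : RHS) {A : ℝ} (hA : ∀ ρ ∈ NT, ‖aa ρ‖ ≤ A) {Z : Finset ℂ} (hZ : ∀ ρ ∈ Z, ρ ∈ NT)
    {B δ : ℝ} (hB : 0 ≤ B) (hδ : 0 < δ) (h : ∀ δ', 0 < δ' → δ' ≤ δ → GE Z δ' ≤ ENNReal.ofReal (B * δ')) :
    WE Z δ ≤ ENNReal.ofReal (4 * B * δ) := by
  have hnm := (tame_nu Z).meas
  have hkm := kap_meas δ
  set K : ℝ≥0∞ := ∫⁻ v : ℝ, ENNReal.ofReal (‖kap δ v‖ ^ 2 * ‖nu Z v‖ ^ 2) with hK
  -- step 1: the bound for K
  have hK1 : K ≤ ENNReal.ofReal (22 * B * δ) := by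
    have h1 : ∀ v : ℝ, ENNReal.ofReal (‖kap δ v‖ ^ 2 * ‖nu Z v‖ ^ 2) ≤
        ∫⁻ t in Ioc (0:ℝ) 1, ENNReal.ofReal (11 * δ ^ 2 * t) *
          ENNReal.ofReal (Real.exp (-((t * δ) ^ 2 * v ^ 2 / 2)) * ‖nu Z v‖ ^ 2) := by
      intro v
      have h2 := kap_sq_le hδ v
      have h3 : ‖kap δ v‖ ^ 2 * ‖nu Z v‖ ^ 2 ≤
          ∫ t in Ioc (0:ℝ) 1, (11 * δ ^ 2 * t) * (Real.exp (-((t * δ) ^ 2 * v ^ 2 / 2)) * ‖nu Z v‖ ^ 2) := by
        have h4 : ∫ t in Ioc (0:ℝ) 1, (11 * δ ^ 2 * t) * (Real.exp (-((t * δ) ^ 2 * v ^ 2 / 2)) * ‖nu Z v‖ ^ 2) =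
            (11 * δ ^ 2 * ∫ t in (0:ℝ)..1, t * Real.exp (-(t ^ 2 * (δ * v) ^ 2 / 2))) * ‖nu Z v‖ ^ 2 := by
          rw [intervalIntegral.integral_of_le zero_le_one, ← integral_const_mul, ← integral_mul_const]
          refine integral_congr_ae (Eventually.of_forall fun t => ?_)
          simp only
          have : (t * δ) ^ 2 * v ^ 2 / 2 = t ^ 2 * (δ * v) ^ 2 / 2 := by ring
          rw [this]
          ring
        rw [h4]
        gcongr
      refine (ENNReal.ofReal_le_ofReal h3).trans (le_of_eq ?_)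
      rw [ofReal_integral_eq_lintegral_ofReal]
      · refine setLIntegral_congr_fun measurableSet_Ioc fun t ht => ?_
        rw [← ENNReal.ofReal_mul (by have := ht.1; positivity)]
      · exact (Continuous.integrableOn_Icc (by fun_prop)).mono_set Ioc_subset_Icc_self
      · filter_upwards [ae_restrict_mem measurableSet_Ioc] with t ht
        have := ht.1
        positivity
    calc K ≤ ∫⁻ v : ℝ, ∫⁻ t in Ioc (0:ℝ) 1, ENNReal.ofReal (11 * δ ^ 2 * t) *
          ENNReal.ofReal (Real.exp (-((t * δ) ^ 2 * v ^ 2 / 2)) * ‖nu Z v‖ ^ 2) := lintegral_mono h1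
      _ = ∫⁻ t in Ioc (0:ℝ) 1, ∫⁻ v : ℝ, ENNReal.ofReal (11 * δ ^ 2 * t) *
          ENNReal.ofReal (Real.exp (-((t * δ) ^ 2 * v ^ 2 / 2)) * ‖nu Z v‖ ^ 2) := by
          apply lintegral_lintegral_swap
          apply Measurable.aemeasurable
          have m1 : Measurable (fun p : ℝ × ℝ => ENNReal.ofReal (11 * δ ^ 2 * p.2)) :=
            (measurable_snd.const_mul _).ennreal_ofReal
          have m2 : Measurable (fun p : ℝ × ℝ => Real.exp (-((p.2 * δ) ^ 2 * p.1 ^ 2 / 2))) :=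
            Continuous.measurable (by fun_prop)
          have m3 : Measurable (fun p : ℝ × ℝ => ‖nu Z p.1‖ ^ 2) := ((hnm.comp measurable_fst).norm).pow_const 2
          exact m1.mul (m2.mul m3).ennreal_ofReal
      _ ≤ ∫⁻ t in Ioc (0:ℝ) 1, ENNReal.ofReal (22 * B * δ) := by
          refine setLIntegral_mono' measurableSet_Ioc fun t ht => ?_
          have ht0 : 0 < t := ht.1
          have htd : 0 < t * δ := by positivity
          rw [lintegral_const_mul _ (by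
            apply Measurable.ennreal_ofReal
            exact (Continuous.measurable (by fun_prop)).mul (hnm.norm.pow_const 2))]
          have h5 := h (t * δ) htd (by nlinarith [ht.2])
          rw [GE_eq hR hA hZ htd] at h5
          have h6 := (ENNReal.ofReal_le_ofReal_iff (by positivity)).1 h5
          rw [← ofReal_integral_eq_lintegral_ofReal (tame_sq_integrable (tame_nu Z) htd)
            (Eventually.of_forall fun v => by positivity), ← ENNReal.ofReal_mul (by positivity)]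
          apply ENNReal.ofReal_le_ofReal
          set Q : ℝ := ∫ v : ℝ, Real.exp (-((t * δ) ^ 2 * v ^ 2 / 2)) * ‖nu Z v‖ ^ 2 with hQ
          have h7 : 11 * δ ^ 2 * t * Q = 22 / t * ((t * δ) ^ 2 / 2 * Q) := by
            field_simp
            ring
          rw [h7]
          calc 22 / t * ((t * δ) ^ 2 / 2 * Q) ≤ 22 / t * (B * (t * δ)) := by gcongr
            _ = _ := by field_simp
      _ = _ := by
          rw [setLIntegral_const]
          simp
  -- step 2: the smoothed windows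
  have hY : ∀ n : ℕ, ∫⁻ x : ℝ, ‖YY Z δ (1 / ((n : ℝ) + 1)) x‖ₑ ^ 2 ≤ ENNReal.ofReal (1 / (2 * Real.pi)) * K := by
    intro n
    set ε : ℝ := 1 / ((n : ℝ) + 1) with hε
    have hε0 : 0 < ε := eps_pos n
    have ht := tame_kap (tame_nu Z) hδ
    obtain ⟨hXm, hX⟩ := XX_planch ht hε0
    simp_rw [YY_four hR hA hZ hε0, enorm_mul, mul_pow]
    rw [lintegral_const_mul _ (hXm.enorm.pow_const 2), hX]
    have h2 : ‖((1 / (2 * Real.pi) : ℝ) : ℂ)‖ₑ = ENNReal.ofReal (1 / (2 * Real.pi)) := by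
      rw [← ofReal_norm, Complex.norm_real, Real.norm_of_nonneg (by positivity)]
    rw [h2]
    have hint := tame_sq_integrable ht hε0
    have h3 : ENNReal.ofReal (∫ v : ℝ, Real.exp (-(ε ^ 2 * v ^ 2 / 2)) * ‖kap δ v * nu Z v‖ ^ 2) ≤ K := by
      rw [ofReal_integral_eq_lintegral_ofReal hint (Eventually.of_forall fun v => by positivity)]
      refine lintegral_mono fun v => ?_
      apply ENNReal.ofReal_le_ofReal
      rw [norm_mul, mul_pow]
      have : Real.exp (-(ε ^ 2 * v ^ 2 / 2)) ≤ 1 := by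
        rw [Real.exp_le_one_iff]
        have : 0 ≤ ε ^ 2 * v ^ 2 / 2 := by positivity
        linarith
      exact mul_le_of_le_one_left (by positivity) this
    rw [ENNReal.ofReal_mul (by positivity : 0 ≤ 2 * Real.pi), sq, mul_assoc, ← mul_assoc _ (ENNReal.ofReal (2 * Real.pi)),
      ← ENNReal.ofReal_mul (by positivity : 0 ≤ 1 / (2 * Real.pi))]
    have h4 : 1 / (2 * Real.pi) * (2 * Real.pi) = 1 := by
      have := Real.pi_ne_zero
      field_simp
    rw [h4, ENNReal.ofReal_one, one_mul]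
    gcongr
  -- step 3: Fatou
  have hYm : ∀ n : ℕ, Measurable (fun x : ℝ => ‖YY Z δ (1 / ((n : ℝ) + 1)) x‖ₑ ^ 2) := by
    intro n
    have ht := tame_kap (tame_nu Z) hδ
    obtain ⟨hXm, -⟩ := XX_planch ht (eps_pos n)
    simp_rw [YY_four hR hA hZ (eps_pos n)]
    exact ((hXm.const_mul _).enorm).pow_const 2
  have hlim : WE Z δ ≤ liminf (fun n : ℕ => ∫⁻ x : ℝ, ‖YY Z δ (1 / ((n : ℝ) + 1)) x‖ₑ ^ 2) atTop := by
    unfold WE
    have h1 : ∀ᵐ x : ℝ, ‖FZ Z δ x‖ₑ ^ 2 = liminf (fun n : ℕ => ‖YY Z δ (1 / ((n : ℝ) + 1)) x‖ₑ ^ 2) atTop := by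
      filter_upwards [ae_good δ] with x hx
      have h2 := YY_lim hA Z hδ hx
      have h3 : Tendsto (fun n : ℕ => ‖YY Z δ (1 / ((n : ℝ) + 1)) x‖ₑ ^ 2) atTop (𝓝 (‖FZ Z δ x‖ₑ ^ 2)) :=
        ((ENNReal.continuous_pow 2).tendsto _).comp ((continuous_enorm.tendsto _).comp h2)
      exact h3.liminf_eq.symm
    rw [lintegral_congr_ae h1]
    exact lintegral_liminf_le hYm
  have h5 : liminf (fun n : ℕ => ∫⁻ x : ℝ, ‖YY Z δ (1 / ((n : ℝ) + 1)) x‖ₑ ^ 2) atTop ≤
      ENNReal.ofReal (1 / (2 * Real.pi)) * K := by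
    refine liminf_le_of_frequently_le' ?_
    exact (Eventually.of_forall hY).frequently
  refine hlim.trans (h5.trans ?_)
  calc ENNReal.ofReal (1 / (2 * Real.pi)) * K ≤ ENNReal.ofReal (1 / (2 * Real.pi)) * ENNReal.ofReal (22 * B * δ) := by
        gcongr
    _ = ENNReal.ofReal (1 / (2 * Real.pi) * (22 * B * δ)) := by
        rw [← ENNReal.ofReal_mul (by positivity : 0 ≤ 1 / (2 * Real.pi))]
    _ ≤ _ := by
        apply ENNReal.ofReal_le_ofReal
        have hpi := Real.pi_gt_three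
        rw [one_div, inv_mul_le_iff₀ (by positivity)]
        have : 0 ≤ B * δ := by positivity
        nlinarith

end

end Pool.Agent.Helper37.WMH
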