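import Pool.Graph.R_seed8.H295R2.WM8
import Pool.Graph.R_seed8.H370R2.DirGood
import Pool.Graph.R_seed8.H370R2.Local
import Pool.Graph.R_seed8.H382R2.Rect
import Pool.Graph.R_seed8.H437R2.A2

/-! Basic facts about the zeros of zeta and the function `1/(s ζ(s))`. -/

set_option autoImplicit false

open MeasureTheory Filter Topology Set

namespace Pool.Agent.Helper37.WMH

open Pool.Agent.H295R2

noncomputable section

/-- the nontrivial zeros -/
def NT : Set ℂ := {s : ℂ | riemannZeta s = 0 ∧ 0 < s.re ∧ s.re < 1}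

/-- all nontrivial zeros are on the critical line and simple -/
def RHS : Prop := ∀ ρ ∈ NT, ρ.re = 1 / 2 ∧ deriv riemannZeta ρ ≠ 0

/-- the residue `1/(ρ ζ'(ρ))` -/
def aa (ρ : ℂ) : ℂ := 1 / (ρ * deriv riemannZeta ρ)

/-- `1/(s ζ(s))` -/
def HH (s : ℂ) : ℂ := fz s / s

lemma HH_eq {s : ℂ} (hs : s ≠ 1) : HH s = 1 / (s * riemannZeta s) := by
  unfold HH
  rw [fz_eq hs, one_div, mul_inv, div_eq_mul_inv, mul_comm]

lemma HH_div (s : ℂ) : HH s = (s - 1) / (s * Zs s) := by
  unfold HH fz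
  rw [div_div, mul_comm]

/-- zeros of `(s-1)ζ(s)` to the right of `-2` -/
lemma Zs_zero_iff {s : ℂ} (hs : -2 < s.re) : Zs s = 0 ↔ s ∈ NT := by
  constructor
  · intro h
    have h1 : s ≠ 1 := by
      rintro rfl
      rw [Zs, riemannZeta₁_one] at h
      exact one_ne_zero h
    have hre : s.re < 1 := by
      by_contra hc
      push Not at hc
      exact Zs_ne_zero_of_one_le hc h
    have hz : riemannZeta s = 0 := by
      rw [← Zs_eq h1] at h
      rcases mul_eq_zero.1 h with h2 | h2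
      · exact absurd (sub_eq_zero.1 h2) h1
      · exact h2
    refine ⟨hz, ?_, hre⟩
    by_contra hc
    push Not at hc
    have h0 : s ≠ 0 := by
      rintro rfl
      rw [riemannZeta_zero] at hz
      norm_num at hz
    rw [riemannZeta_def_of_ne_zero h0] at hz
    have hG : Complex.Gammaℝ s ≠ 0 := by
      rw [Ne, Complex.Gammaℝ_eq_zero_iff]
      rintro ⟨n, hn⟩
      have h2 : s.re = -(2 * (n : ℝ)) := by
        rw [hn]; simp
      have hn1 : (n : ℝ) < 1 := by linarith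
      have hn2 : n = 0 := by
        have : n < 1 := by exact_mod_cast hn1
        omega
      rw [hn2] at hn
      apply h0
      rw [hn]; simp
    have hL : completedRiemannZeta s = 0 := by
      rcases div_eq_zero_iff.1 hz with h2 | h2
      · exact h2
      · exact absurd h2 hG
    have h3 : riemannZeta (1 - s) = 0 := by
      rw [riemannZeta_def_of_ne_zero (by
        intro h4
        apply h1
        linear_combination -h4), completedRiemannZeta_one_sub, hL, zero_div]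
    exact riemannZeta_ne_zero_of_one_le_re (s := 1 - s) (by simp; linarith) h3
  · rintro ⟨h1, h2, h3⟩
    rw [← Zs_eq (by rintro rfl; simp at h3), h1, mul_zero]

lemma zeta_ne_of {s : ℂ} (hs : -2 < s.re) (h : s ∉ NT) : riemannZeta s ≠ 0 := by
  intro h0
  by_cases h1 : s = 1
  · rw [h1] at h0
    exact riemannZeta_ne_zero_of_one_le_re (s := 1) (by simp) h0
  · apply h
    rw [← Zs_zero_iff hs, ← Zs_eq h1, h0, mul_zero]

lemma NT_im_ne {ρ : ℂ} (h : ρ ∈ NT) : ρ ≠ 0 ∧ ρ ≠ 1 := by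
  obtain ⟨-, h1, h2⟩ := h
  constructor
  · rintro rfl; simp at h1
  · rintro rfl; simp at h2

lemma NT_conj {ρ : ℂ} (h : ρ ∈ NT) : (starRingEnd ℂ) ρ ∈ NT := by
  obtain ⟨h0, h1, h2⟩ := h
  refine ⟨?_, by simpa using h1, by simpa using h2⟩
  rw [riemannZeta_conj, h0, map_zero]

lemma NT_finite (T : ℝ) : {ρ : ℂ | ρ ∈ NT ∧ |ρ.im| ≤ T}.Finite := by
  have h := H437R2.zeros_finite Zs Zs_differentiable ⟨1, by rw [Zs, riemannZeta₁_one]; exact one_ne_zero⟩
    (Icc (0:ℝ) 1 ×ℂ Icc (-T) T) (isCompact_Icc.reProdIm isCompact_Icc)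
  refine h.subset ?_
  rintro ρ ⟨h1, h2⟩
  refine ⟨(Zs_zero_iff (by linarith [h1.2.1])).2 h1, ?_⟩
  rw [abs_le] at h2
  exact ⟨⟨h1.2.1.le, h1.2.2.le⟩, ⟨h2.1, h2.2⟩⟩

/-- the zeros with `|γ| ≤ T` -/
def ZT (T : ℝ) : Finset ℂ := (NT_finite T).toFinset

lemma mem_ZT {T : ℝ} {ρ : ℂ} : ρ ∈ ZT T ↔ ρ ∈ NT ∧ |ρ.im| ≤ T := by
  unfold ZT; simp

lemma NT_countable : NT.Countable := by
  have : NT = ⋃ n : ℕ, {ρ : ℂ | ρ ∈ NT ∧ |ρ.im| ≤ n} := by
    ext ρ
    simp only [mem_iUnion, mem_ofPred_eq]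
    constructor
    · intro h
      obtain ⟨n, hn⟩ := exists_nat_ge |ρ.im|
      exact ⟨n, h, hn⟩
    · rintro ⟨n, h, -⟩
      exact h
  rw [this]
  exact countable_iUnion fun n => (NT_finite n).countable

instance : Countable NT := NT_countable.to_subtype

end

end Pool.Agent.Helper37.WMH
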