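import Pool.Agent.Helper37.WMH.Count

/-! Gaussian-weighted contour integrals. -/

set_option autoImplicit false

open MeasureTheory Filter Topology Set

namespace Pool.Agent.Helper37.WMH

open Pool.Agent.H295R2

noncomputable section

/-- a general contour formula -/
theorem contour {f N : ℂ → ℂ} {P : Set ℂ} {a b : ℝ} (hab : a < b)
    (hf : Differentiable ℂ f) (hN : Differentiable ℂ N)
    (hP : ∀ s : ℂ, a ≤ s.re → s.re ≤ b → (f s = 0 ↔ s ∈ P)) (hPr : ∀ s ∈ P, a < s.re ∧ s.re < b)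
    (hsim : ∀ s ∈ P, deriv f s ≠ 0) (hfin : ∀ T : ℝ, {s : ℂ | s ∈ P ∧ |s.im| ≤ T}.Finite)
    {U : ℕ → ℝ} (hU : Tendsto U atTop atTop) (hUP : ∀ n, ∀ s ∈ P, |s.im| ≠ U n)
    {B : ℕ → ℝ} (hB : Tendsto B atTop (𝓝 0))
    (hh : ∀ n, ∀ σ ∈ Icc a b, ‖N ⟨σ, U n⟩ / f ⟨σ, U n⟩‖ ≤ B n ∧ ‖N ⟨σ, -U n⟩ / f ⟨σ, -U n⟩‖ ≤ B n)
    (ha : Integrable (fun t : ℝ => N ⟨a, t⟩ / f ⟨a, t⟩)) (hb : Integrable (fun t : ℝ => N ⟨b, t⟩ / f ⟨b, t⟩))
    {S : ℂ} (hS : HasSum (fun ρ : P => N ρ / deriv f ρ) S) :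
    (∫ t : ℝ, N ⟨b, t⟩ / f ⟨b, t⟩) - ∫ t : ℝ, N ⟨a, t⟩ / f ⟨a, t⟩ = 2 * Real.pi * S := by
  classical
  set F : ℂ → ℂ := fun s => N s / f s with hF
  set Z : ℕ → Finset ℂ := fun n => (hfin (U n)).toFinset with hZ
  have hmem : ∀ n s, s ∈ Z n ↔ s ∈ P ∧ |s.im| ≤ U n := by
    intro n s; rw [hZ]; simp
  -- the rectangle formula
  have hrect : ∀ᶠ n in atTop, (∫ t in (-U n)..(U n), F ⟨b, t⟩) - (∫ t in (-U n)..(U n), F ⟨a, t⟩) =
      2 * Real.pi * (∑ s ∈ Z n, N s / deriv f s) +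
        Complex.I * ((∫ x in a..b, F ⟨x, -U n⟩) - ∫ x in a..b, F ⟨x, U n⟩) := by
    filter_upwards [hU.eventually_gt_atTop 0] with n hn
    have h1 := SG.rect_res f N a b (-U n) (U n) hab (by linarith) (Z n) (by
      intro z hz
      rw [hmem] at hz
      obtain ⟨h2, h3⟩ := hPr z hz.1
      have h4 := abs_lt.1 (lt_of_le_of_ne hz.2 (hUP n z hz.1))
      exact ⟨⟨h2, h3⟩, ⟨h4.1, h4.2⟩⟩) (fun z _ => hf.analyticAt z) (fun z _ => hN.analyticAt z) (by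
      intro s hs
      have hs1 : s.re ∈ Icc a b := hs.1
      have hs2 : s.im ∈ Icc (-U n) (U n) := hs.2
      rw [hP s hs1.1 hs1.2, hmem]
      exact ⟨fun h => ⟨h, abs_le.2 hs2⟩, fun h => h.1⟩) (fun z hz => hsim z ((hmem n z).1 hz).1)
    unfold SG.rectI at h1
    have hI : Complex.I * Complex.I = -1 := Complex.I_mul_I
    linear_combination (-Complex.I) * h1 + (∫ t in (-U n)..(U n), F ⟨b, t⟩) * hI -
      (∫ t in (-U n)..(U n), F ⟨a, t⟩) * hI - 2 * Real.pi * (∑ s ∈ Z n, N s / deriv f s) * hI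
  -- limits
  have hUneg : Tendsto (fun n => -U n) atTop atBot := tendsto_neg_atTop_atBot.comp hU
  have l1 : Tendsto (fun n => ∫ t in (-U n)..(U n), F ⟨b, t⟩) atTop (𝓝 (∫ t : ℝ, F ⟨b, t⟩)) :=
    intervalIntegral_tendsto_integral hb hUneg hU
  have l2 : Tendsto (fun n => ∫ t in (-U n)..(U n), F ⟨a, t⟩) atTop (𝓝 (∫ t : ℝ, F ⟨a, t⟩)) :=
    intervalIntegral_tendsto_integral ha hUneg hU
  have l3 : Tendsto (fun n => ∑ s ∈ Z n, N s / deriv f s) atTop (𝓝 S) := by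
    set Z' : ℕ → Finset P := fun n => (Z n).subtype (fun s => s ∈ P) with hZ'
    have h2 : Tendsto Z' atTop atTop := by
      rw [tendsto_atTop]
      intro s
      have h3 : ∀ᶠ n in atTop, ∀ ρ ∈ s, |(ρ : ℂ).im| ≤ U n := by
        rw [Filter.eventually_all_finset]
        intro ρ _
        exact hU.eventually_ge_atTop _
      filter_upwards [h3] with n hn ρ hρ
      rw [hZ', Finset.mem_subtype, hmem]
      exact ⟨ρ.2, hn ρ hρ⟩
    have h4 := hS.comp h2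
    refine h4.congr fun n => ?_
    simp only [Function.comp]
    rw [hZ']
    rw [Finset.sum_subtype_eq_sum_filter (s := Z n) (p := fun s => s ∈ P) (f := fun s : ℂ => N s / deriv f s)]
    rw [Finset.filter_true_of_mem]
    intro s hs
    exact ((hmem n s).1 hs).1
  have l4 : ∀ V : ℕ → ℝ, (∀ n, ∀ σ ∈ Icc a b, ‖F ⟨σ, V n⟩‖ ≤ B n) →
      Tendsto (fun n => ∫ x in a..b, F ⟨x, V n⟩) atTop (𝓝 0) := by
    intro V hV
    have h5 : Tendsto (fun n => B n * |b - a|) atTop (𝓝 0) := by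
      simpa using hB.mul_const |b - a|
    refine squeeze_zero_norm (fun n => ?_) h5
    exact intervalIntegral.norm_integral_le_of_norm_le_const (fun x hx => by
      rw [uIoc_of_le hab.le] at hx
      exact hV n x ⟨hx.1.le, hx.2⟩)
  have l5 := l4 (fun n => -U n) (fun n σ hσ => (hh n σ hσ).2)
  have l6 := l4 U (fun n σ hσ => (hh n σ hσ).1)
  have l7 : Tendsto (fun n => 2 * Real.pi * (∑ s ∈ Z n, N s / deriv f s) +
        Complex.I * ((∫ x in a..b, F ⟨x, -U n⟩) - ∫ x in a..b, F ⟨x, U n⟩)) atTop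
        (𝓝 (2 * Real.pi * S + Complex.I * (0 - 0))) :=
    (l3.const_mul _).add ((l5.sub l6).const_mul _)
  have l8 := (l1.sub l2).congr' hrect
  have := tendsto_nhds_unique l8 l7
  rw [this]; ring

/-- the Gaussian weight -/
def wt (δ x : ℝ) (s : ℂ) : ℂ := Complex.exp ((s - 1 / 2 - x * Complex.I) ^ 2 / (δ : ℂ) ^ 2)

lemma wt_diff (δ x : ℝ) : Differentiable ℂ (wt δ x) := by
  unfold wt
  fun_prop

lemma wt_norm (δ x σ t : ℝ) : ‖wt δ x ⟨σ, t⟩‖ = Real.exp ((σ - 1 / 2) ^ 2 / δ ^ 2) * gs δ (t - x) := by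
  unfold wt gs
  rw [Complex.norm_exp, ← Real.exp_add]
  congr 1
  have e : (((⟨σ, t⟩ : ℂ) - 1 / 2 - x * Complex.I) ^ 2 / (δ : ℂ) ^ 2) =
      ((((σ - 1 / 2) ^ 2 - (t - x) ^ 2) / δ ^ 2 : ℝ) : ℂ) + ((2 * (σ - 1 / 2) * (t - x) / δ ^ 2 : ℝ) : ℂ) * Complex.I := by
    have e1 : (⟨σ, t⟩ : ℂ) = σ + t * Complex.I := by apply Complex.ext <;> simp
    rw [e1]
    push_cast
    have hI : Complex.I ^ 2 = -1 := Complex.I_sq
    linear_combination ((t - x) ^ 2 / (δ : ℂ) ^ 2) * hI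
  rw [e, Complex.add_re, Complex.ofReal_re, Complex.re_ofReal_mul, Complex.I_re]
  ring

lemma wt_crit {δ x : ℝ} {ρ : ℂ} (h : ρ.re = 1 / 2) : wt δ x ρ = (gs δ (ρ.im - x) : ℂ) := by
  unfold wt gs
  rw [Complex.ofReal_exp]
  congr 1
  have e1 : ρ = 1 / 2 + ρ.im * Complex.I := by
    apply Complex.ext
    · simp [h]
    · simp
  rw [e1]
  have hI : Complex.I ^ 2 = -1 := Complex.I_sq
  simp only [Complex.add_im, Complex.mul_im, Complex.ofReal_re, Complex.I_im, Complex.ofReal_im, Complex.I_re]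
  push_cast
  simp
  linear_combination ((ρ.im - x) ^ 2 / (δ : ℂ) ^ 2) * hI

lemma gs_cont (δ : ℝ) : Continuous (gs δ) := by
  unfold gs
  fun_prop

lemma gs_integrable {δ : ℝ} (hδ : 0 < δ) (x : ℝ) : Integrable (fun t => gs δ (t - x)) := by
  have h1 : Integrable (gs δ) := by
    have h := integrable_exp_neg_mul_sq (b := 1 / δ ^ 2) (by positivity)
    refine h.congr (Eventually.of_forall fun t => ?_)
    unfold gs
    simp only
    congr 1
    ring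
  exact h1.comp_sub_right x

lemma mk_cont (a : ℝ) : Continuous (fun t : ℝ => (⟨a, t⟩ : ℂ)) := by
  have : (fun t : ℝ => (⟨a, t⟩ : ℂ)) = fun t : ℝ => (a : ℂ) + t * Complex.I := by
    funext t; apply Complex.ext <;> simp
  rw [this]
  fun_prop

lemma wt_line_cont (δ x a : ℝ) : Continuous (fun t : ℝ => wt δ x ⟨a, t⟩) :=
  (wt_diff δ x).continuous.comp (mk_cont a)

/-- continuity of `1/(sζ(s))` along a vertical line without poles -/
lemma HH_line_cont {a : ℝ} (ha : -2 < a) (h0 : a ≠ 0) (hn : ∀ t : ℝ, (⟨a, t⟩ : ℂ) ∉ NT) :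
    Continuous (fun t : ℝ => HH ⟨a, t⟩) := by
  rw [continuous_iff_continuousAt]
  intro t
  have h1 : ContinuousAt HH (⟨a, t⟩ : ℂ) := (HH_diffAt (mk_ne_zero h0) ha (hn t)).continuousAt
  exact ContinuousAt.comp (f := fun t : ℝ => (⟨a, t⟩ : ℂ)) h1 (mk_cont a).continuousAt

end

end Pool.Agent.Helper37.WMH
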