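import Pool.Agent.Helper37.WMH.Contour

/-! The explicit formula with a Gaussian weight. -/

set_option autoImplicit false

open MeasureTheory Filter Topology Set

namespace Pool.Agent.Helper37.WMH

open Pool.Agent.H295R2

noncomputable section

/-- good heights with a small Gaussian-weighted integrand -/
lemma good_seq {δ : ℝ} (hδ : 0 < δ) (x : ℝ) : ∃ U : ℕ → ℝ, Tendsto U atTop atTop ∧
    (∀ n, ∀ s ∈ NT, |s.im| ≠ U n) ∧ (∀ n, 3 ≤ U n) ∧ ∃ B : ℕ → ℝ, Tendsto B atTop (𝓝 0) ∧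
    ∀ n, ∀ σ ∈ Icc (-1 / 2 : ℝ) (3 / 2), ‖HH ⟨σ, U n⟩ * wt δ x ⟨σ, U n⟩‖ ≤ B n ∧
      ‖HH ⟨σ, -U n⟩ * wt δ x ⟨σ, -U n⟩‖ ≤ B n := by
  obtain ⟨C, hC, h⟩ := heights
  have hT : ∀ n : ℕ, (3:ℝ) ≤ (n : ℝ) + 3 + |x| := fun n => by
    have := abs_nonneg x
    have : (0:ℝ) ≤ n := Nat.cast_nonneg n
    linarith
  choose U hU hb using fun n : ℕ => h ((n : ℝ) + 3 + |x|) (hT n)
  have hUge : ∀ n : ℕ, (n : ℝ) + 3 + |x| ≤ U n := fun n => (hU n).1
  refine ⟨U, ?_, ?_, fun n => (hT n).trans (hUge n), fun n => C * Real.exp (4 * C * ((n : ℝ) + 3 + |x|)) *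
    (Real.exp (1 / δ ^ 2) * Real.exp (-(((n : ℝ) + 3) ^ 2 / δ ^ 2))), ?_, ?_⟩
  · refine tendsto_atTop_mono (fun n => hUge n) ?_
    have : Tendsto (fun n : ℕ => (n : ℝ) + (3 + |x|)) atTop atTop :=
      tendsto_atTop_add_const_right _ _ tendsto_natCast_atTop_atTop
    refine this.congr fun n => by ring
  · intro n s hs hne
    have h1 : s.re ∈ Icc (-1 / 2 : ℝ) (3 / 2) := ⟨by linarith [hs.2.1], by linarith [hs.2.2]⟩
    obtain ⟨h2, h3, -⟩ := hb n s.re h1
    rcases abs_choice s.im with h4 | h4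
    · apply h2
      have : (⟨s.re, U n⟩ : ℂ) = s := by
        apply Complex.ext
        · rfl
        · simp only; rw [← hne, h4]
      rwa [this]
    · apply h3
      have : (⟨s.re, -U n⟩ : ℂ) = s := by
        apply Complex.ext
        · rfl
        · simp only; rw [← hne, h4, neg_neg]
      rwa [this]
  · have h1 : Tendsto (fun n : ℕ => ((n : ℝ) + 3) * (4 * C - ((n : ℝ) + 3) / δ ^ 2) + (4 * C * |x| + 1 / δ ^ 2))
        atTop atBot := by
      apply tendsto_atBot_add_const_right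
      have h2 : Tendsto (fun n : ℕ => (n : ℝ) + 3) atTop atTop :=
        tendsto_atTop_add_const_right _ _ tendsto_natCast_atTop_atTop
      apply h2.atTop_mul_atBot₀
      have h3 : Tendsto (fun n : ℕ => ((n : ℝ) + 3) / δ ^ 2) atTop atTop :=
        h2.atTop_div_const (by positivity)
      have h4 := tendsto_atBot_add_const_left atTop (4 * C) (tendsto_neg_atTop_atBot.comp h3)
      refine h4.congr fun n => ?_
      simp only [Function.comp]
      ring
    have h5 := (Real.tendsto_exp_atBot.comp h1).const_mul C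
    rw [mul_zero] at h5
    refine h5.congr fun n => ?_
    simp only [Function.comp]
    rw [mul_assoc C, ← Real.exp_add, ← Real.exp_add]
    congr 2
    ring
  · intro n σ hσ
    obtain ⟨-, -, h4, h5⟩ := hb n σ hσ
    have hlog : Real.log ((n : ℝ) + 3 + |x|) ^ 2 ≤ 4 * ((n : ℝ) + 3 + |x|) := by
      have h6 := log_le_sqrt (x := (n : ℝ) + 3 + |x|) (by linarith [hT n])
      have h7 : 0 ≤ Real.log ((n : ℝ) + 3 + |x|) := Real.log_nonneg (by linarith [hT n])
      calc Real.log ((n : ℝ) + 3 + |x|) ^ 2 ≤ (2 * Real.sqrt ((n : ℝ) + 3 + |x|)) ^ 2 := by gcongr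
        _ = 4 * ((n : ℝ) + 3 + |x|) := by
          rw [mul_pow, Real.sq_sqrt (by linarith [hT n])]; norm_num
    have hexp : C * Real.exp (C * Real.log ((n : ℝ) + 3 + |x|) ^ 2) ≤ C * Real.exp (4 * C * ((n : ℝ) + 3 + |x|)) := by
      have : C * Real.log ((n : ℝ) + 3 + |x|) ^ 2 ≤ 4 * C * ((n : ℝ) + 3 + |x|) := by nlinarith
      gcongr
    have hsig : Real.exp ((σ - 1 / 2) ^ 2 / δ ^ 2) ≤ Real.exp (1 / δ ^ 2) := by
      have : (σ - 1 / 2) ^ 2 ≤ 1 := by nlinarith [hσ.1, hσ.2]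
      gcongr
    have hgs : ∀ V : ℝ, |V| = U n → gs δ (V - x) ≤ Real.exp (-(((n : ℝ) + 3) ^ 2 / δ ^ 2)) := by
      intro V hV
      unfold gs
      have h8 : (n : ℝ) + 3 ≤ |V - x| := by
        have h9 := abs_sub_abs_le_abs_sub V x
        have h10 := hUge n
        rw [hV] at h9
        linarith
      have h11 : ((n : ℝ) + 3) ^ 2 ≤ (V - x) ^ 2 := by
        rw [← sq_abs (V - x)]; gcongr
      gcongr
    have hU0 : 0 ≤ U n := by linarith [hT n, hUge n]
    constructor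
    · rw [norm_mul, wt_norm]
      have := hgs (U n) (abs_of_nonneg hU0)
      refine mul_le_mul (h4.trans hexp) ?_ (mul_nonneg (Real.exp_pos _).le (gs_pos _ _).le) (by positivity)
      exact mul_le_mul hsig this (gs_pos _ _).le (Real.exp_pos _).le
    · rw [norm_mul, wt_norm]
      have := hgs (-U n) (by rw [abs_neg]; exact abs_of_nonneg hU0)
      refine mul_le_mul (h5.trans hexp) ?_ (mul_nonneg (Real.exp_pos _).le (gs_pos _ _).le) (by positivity)
      exact mul_le_mul hsig this (gs_pos _ _).le (Real.exp_pos _).le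

lemma deriv_Zs {ρ : ℂ} (h : ρ ∈ NT) : deriv Zs ρ = (ρ - 1) * deriv riemannZeta ρ := by
  have hne : ρ ≠ 1 := (NT_im_ne h).2
  have h1 : Zs =ᶠ[𝓝 ρ] fun s => (s - 1) * riemannZeta s := by
    filter_upwards [isOpen_ne.mem_nhds hne] with s hs
    exact (Zs_eq hs).symm
  rw [h1.deriv_eq]
  have h2 := (differentiableAt_riemannZeta hne).hasDerivAt
  have h3 : HasDerivAt (fun s : ℂ => s - 1) 1 ρ := (hasDerivAt_id ρ).sub_const 1
  have h4 := h3.mul h2
  have h5 := h4.deriv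
  rw [show (fun s => (s - 1) * riemannZeta s) = (fun s : ℂ => s - 1) * riemannZeta from rfl, h5, h.1]
  ring

/-- the entire function `s (s-1) ζ(s)` -/
def ff (s : ℂ) : ℂ := s * Zs s

lemma ff_diff : Differentiable ℂ ff := by
  unfold ff
  exact differentiable_id.mul Zs_differentiable

lemma deriv_ff (s : ℂ) : deriv ff s = Zs s + s * deriv Zs s := by
  have h := (hasDerivAt_id s).mul (Zs_differentiable s).hasDerivAt
  have h2 := h.deriv
  rw [show ff = id * Zs from rfl, h2]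
  simp

lemma deriv_ff_NT {ρ : ℂ} (h : ρ ∈ NT) : deriv ff ρ = ρ * ((ρ - 1) * deriv riemannZeta ρ) := by
  rw [deriv_ff, (Zs_zero_iff (by linarith [h.2.1])).2 h, deriv_Zs h, zero_add]

lemma deriv_ff_zero : deriv ff 0 = 1 / 2 := by
  rw [deriv_ff, zero_mul, add_zero, ← Zs_eq (by norm_num), riemannZeta_zero]
  norm_num

lemma res_NT {ρ : ℂ} (h : ρ ∈ NT) (w : ℂ → ℂ) :
    ((ρ - 1) * w ρ) / deriv ff ρ = aa ρ * w ρ := by
  rw [deriv_ff_NT h]
  unfold aa
  have h1 : ρ - 1 ≠ 0 := sub_ne_zero.2 (NT_im_ne h).2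
  rw [mul_comm (ρ - 1) (w ρ), mul_comm (ρ - 1) (deriv riemannZeta ρ), ← mul_assoc ρ, mul_div_mul_right _ _ h1]
  ring

lemma HHw_eq (w : ℂ → ℂ) (s : ℂ) : ((s - 1) * w s) / ff s = HH s * w s := by
  rw [HH_div]
  unfold ff
  ring

lemma num_diff (δ x : ℝ) : Differentiable ℂ (fun s : ℂ => (s - 1) * wt δ x s) := by
  exact (differentiable_id.sub_const 1).mul (wt_diff δ x)

/-- the lines `Re s = 1/2 ± σ` -/
theorem contour_near (hR : RHS) {δ : ℝ} (hδ : 0 < δ) (x : ℝ) {σ : ℝ} (h0 : 0 < σ) (h1 : σ < 1 / 2)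
    (ha : Integrable (fun t : ℝ => HH ⟨1 / 2 - σ, t⟩ * wt δ x ⟨1 / 2 - σ, t⟩))
    (hb : Integrable (fun t : ℝ => HH ⟨1 / 2 + σ, t⟩ * wt δ x ⟨1 / 2 + σ, t⟩))
    {S : ℂ} (hS : HasSum (fun ρ : NT => aa ρ * (gs δ ((ρ : ℂ).im - x) : ℂ)) S) :
    (∫ t : ℝ, HH ⟨1 / 2 + σ, t⟩ * wt δ x ⟨1 / 2 + σ, t⟩) -
      ∫ t : ℝ, HH ⟨1 / 2 - σ, t⟩ * wt δ x ⟨1 / 2 - σ, t⟩ = 2 * Real.pi * S := by
  obtain ⟨U, hU, hUP, hU3, B, hB, hb2⟩ := good_seq hδ x
  have e : ∀ s : ℂ, ((s - 1) * wt δ x s) / ff s = HH s * wt δ x s := HHw_eq (wt δ x)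
  have key := contour (f := ff) (N := fun s => (s - 1) * wt δ x s) (P := NT) (a := 1 / 2 - σ) (b := 1 / 2 + σ)
    (by linarith) ff_diff (num_diff δ x) (by
      intro s hs1 hs2
      rw [← Zs_zero_iff (by linarith : -2 < s.re)]
      unfold ff
      constructor
      · intro h
        rcases mul_eq_zero.1 h with h | h
        · rw [h] at hs1; simp at hs1; linarith
        · exact h
      · intro h; rw [h, mul_zero]) (by
      intro s hs
      rw [(hR s hs).1]
      constructor <;> linarith) (by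
      intro s hs
      rw [deriv_ff_NT hs]
      exact mul_ne_zero (NT_im_ne hs).1 (mul_ne_zero (sub_ne_zero.2 (NT_im_ne hs).2) (hR s hs).2)) NT_finite
    hU hUP hB (by
      intro n σ' hσ'
      simp only [e]
      exact hb2 n σ' ⟨by linarith [hσ'.1], by linarith [hσ'.2]⟩) (by simpa only [e] using ha)
      (by simpa only [e] using hb) (S := S) (by
      convert hS using 1
      funext ρ
      rw [res_NT ρ.2 (wt δ x), wt_crit (hR ρ ρ.2).1])
  simpa only [e] using key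

/-- the lines `Re s = 3/2` and `Re s = -1/2` -/
theorem contour_far (hR : RHS) {δ : ℝ} (hδ : 0 < δ) (x : ℝ)
    (ha : Integrable (fun t : ℝ => HH ⟨-1 / 2, t⟩ * wt δ x ⟨-1 / 2, t⟩))
    (hb : Integrable (fun t : ℝ => HH ⟨3 / 2, t⟩ * wt δ x ⟨3 / 2, t⟩))
    {S : ℂ} (hS : HasSum (fun ρ : NT => aa ρ * (gs δ ((ρ : ℂ).im - x) : ℂ)) S) :
    (∫ t : ℝ, HH ⟨3 / 2, t⟩ * wt δ x ⟨3 / 2, t⟩) -
      ∫ t : ℝ, HH ⟨-1 / 2, t⟩ * wt δ x ⟨-1 / 2, t⟩ = 2 * Real.pi * (S - 2 * wt δ x 0) := by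
  obtain ⟨U, hU, hUP, hU3, B, hB, hb2⟩ := good_seq hδ x
  have e : ∀ s : ℂ, ((s - 1) * wt δ x s) / ff s = HH s * wt δ x s := HHw_eq (wt δ x)
  have h0NT : (0 : ℂ) ∉ NT := fun h => (NT_im_ne h).1 rfl
  have key := contour (f := ff) (N := fun s => (s - 1) * wt δ x s) (P := NT ∪ {0}) (a := -1 / 2) (b := 3 / 2)
    (by norm_num) ff_diff (num_diff δ x) (by
      intro s hs1 hs2
      rw [mem_union, ← Zs_zero_iff (by linarith : -2 < s.re), mem_singleton_iff]
      unfold ff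
      rw [mul_eq_zero, or_comm]) (by
      intro s hs
      rcases hs with hs | hs
      · exact ⟨by linarith [hs.2.1], by linarith [hs.2.2]⟩
      · rw [mem_singleton_iff.1 hs]; simp; norm_num) (by
      intro s hs
      rcases hs with hs | hs
      · rw [deriv_ff_NT hs]
        exact mul_ne_zero (NT_im_ne hs).1 (mul_ne_zero (sub_ne_zero.2 (NT_im_ne hs).2) (hR s hs).2)
      · rw [mem_singleton_iff.1 hs, deriv_ff_zero]; norm_num) (by
      intro T
      refine ((NT_finite T).union (finite_singleton (0 : ℂ))).subset ?_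
      rintro s ⟨hs | hs, h2⟩
      · exact Or.inl ⟨hs, h2⟩
      · exact Or.inr hs)
    hU (by
      intro n s hs
      rcases hs with hs | hs
      · exact hUP n s hs
      · rw [mem_singleton_iff.1 hs]
        simp only [Complex.zero_im, abs_zero]
        have := hU3 n
        intro h; linarith) hB (by
      intro n σ' hσ'
      simp only [e]
      exact hb2 n σ' hσ') (by simpa only [e] using ha)
      (by simpa only [e] using hb) (S := S - 2 * wt δ x 0) (by
      have h1 : HasSum (fun ρ : NT => ((fun s : ℂ => ((s - 1) * wt δ x s) / deriv ff s) ρ)) S := by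
        convert hS using 1
        funext ρ
        simp only
        rw [res_NT ρ.2 (wt δ x), wt_crit (hR ρ ρ.2).1]
      have h2 : HasSum (fun ρ : ({0} : Set ℂ) => ((fun s : ℂ => ((s - 1) * wt δ x s) / deriv ff s) ρ))
          (-(2 * wt δ x 0)) := by
        rw [show (-(2 * wt δ x 0)) = ((0 - 1) * wt δ x 0) / deriv ff 0 by rw [deriv_ff_zero]; ring]
        exact hasSum_singleton (0 : ℂ) (fun s : ℂ => ((s - 1) * wt δ x s) / deriv ff s)
      have h3 := HasSum.add_disjoint (f := fun s : ℂ => ((s - 1) * wt δ x s) / deriv ff s)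
        (s := NT) (t := ({0} : Set ℂ)) (by
        rw [disjoint_singleton_right]; exact h0NT) h1 h2
      rw [sub_eq_add_neg]
      exact h3)
  simpa only [e] using key

/-- a single pole on the critical line -/
theorem contour_pole {δ : ℝ} (hδ : 0 < δ) (x : ℝ) {σ : ℝ} (h0 : 0 < σ) (h1 : σ < 1 / 2) {ρ : ℂ} (hρ : ρ.re = 1 / 2) :
    (∫ t : ℝ, wt δ x ⟨1 / 2 + σ, t⟩ / ((⟨1 / 2 + σ, t⟩ : ℂ) - ρ)) -
      ∫ t : ℝ, wt δ x ⟨1 / 2 - σ, t⟩ / ((⟨1 / 2 - σ, t⟩ : ℂ) - ρ) = 2 * Real.pi * (gs δ (ρ.im - x) : ℂ) := by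
  have hne : ∀ a : ℝ, a ≠ 1 / 2 → ∀ t : ℝ, (⟨a, t⟩ : ℂ) - ρ ≠ 0 ∧ |a - 1 / 2| ≤ ‖(⟨a, t⟩ : ℂ) - ρ‖ := by
    intro a ha t
    have h2 := Complex.abs_re_le_norm ((⟨a, t⟩ : ℂ) - ρ)
    rw [Complex.sub_re, hρ] at h2
    simp only at h2
    have h3 : 0 < |a - 1 / 2| := abs_pos.2 (sub_ne_zero.2 ha)
    exact ⟨norm_pos_iff.1 (h3.trans_le h2), h2⟩
  have hint : ∀ a : ℝ, a ≠ 1 / 2 → Integrable (fun t : ℝ => wt δ x ⟨a, t⟩ / ((⟨a, t⟩ : ℂ) - ρ)) := by
    intro a ha
    have h3 : 0 < |a - 1 / 2| := abs_pos.2 (sub_ne_zero.2 ha)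
    refine ((gs_integrable hδ x).const_mul (Real.exp ((a - 1 / 2) ^ 2 / δ ^ 2) / |a - 1 / 2|)).mono'
      (Continuous.aestronglyMeasurable ?_) (Eventually.of_forall fun t => ?_)
    · exact (wt_line_cont δ x a).div ((mk_cont a).sub continuous_const) fun t => (hne a ha t).1
    · rw [norm_div, wt_norm, div_mul_eq_mul_div]
      exact div_le_div_of_nonneg_left (mul_nonneg (Real.exp_pos _).le (gs_pos _ _).le) h3 (hne a ha t).2
  have hUb : ∀ (n : ℕ) (V : ℝ), |V| = (n : ℝ) + 1 + |ρ.im| + |x| → ∀ σ' ∈ Icc (1 / 2 - σ) (1 / 2 + σ),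
      ‖wt δ x ⟨σ', V⟩ / ((⟨σ', V⟩ : ℂ) - ρ)‖ ≤ Real.exp (1 / δ ^ 2) * Real.exp (-(((n : ℝ) + 1) ^ 2 / δ ^ 2)) := by
    intro n V hV σ' hσ'
    rw [norm_div, wt_norm]
    have hn : (0:ℝ) ≤ n := Nat.cast_nonneg n
    have h2 : 1 ≤ ‖(⟨σ', V⟩ : ℂ) - ρ‖ := by
      have h3 := Complex.abs_im_le_norm ((⟨σ', V⟩ : ℂ) - ρ)
      rw [Complex.sub_im] at h3
      simp only at h3
      have h4 := abs_sub_abs_le_abs_sub V ρ.im
      have := abs_nonneg x
      linarith
    refine (div_le_self (mul_nonneg (Real.exp_pos _).le (gs_pos _ _).le) h2).trans ?_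
    have h5 : (σ' - 1 / 2) ^ 2 ≤ 1 := by nlinarith [hσ'.1, hσ'.2]
    have h6 : ((n : ℝ) + 1) ^ 2 ≤ (V - x) ^ 2 := by
      rw [← sq_abs (V - x)]
      have h7 := abs_sub_abs_le_abs_sub V x
      have := abs_nonneg ρ.im
      have h8 : (n : ℝ) + 1 ≤ |V - x| := by linarith
      gcongr
    unfold gs
    gcongr
  have hUt : Tendsto (fun n : ℕ => (n : ℝ) + 1 + |ρ.im| + |x|) atTop atTop := by
    apply tendsto_atTop_add_const_right
    apply tendsto_atTop_add_const_right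
    exact tendsto_atTop_add_const_right _ _ tendsto_natCast_atTop_atTop
  have key := contour (f := fun s => s - ρ) (N := wt δ x) (P := {ρ}) (a := 1 / 2 - σ) (b := 1 / 2 + σ)
    (by linarith) (differentiable_id.sub_const ρ) (wt_diff δ x) (by
      intro s _ _
      rw [mem_singleton_iff, sub_eq_zero]) (by
      intro s hs
      rw [mem_singleton_iff.1 hs, hρ]
      constructor <;> linarith) (by
      intro s _
      rw [deriv_sub_const, deriv_id'']
      exact one_ne_zero) (by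
      intro T
      exact (finite_singleton ρ).subset fun s hs => hs.1)
    (U := fun n : ℕ => (n : ℝ) + 1 + |ρ.im| + |x|) hUt (by
      intro n s hs
      rw [mem_singleton_iff.1 hs]
      have hn : (0:ℝ) ≤ n := Nat.cast_nonneg n
      have := abs_nonneg x
      intro h
      linarith) (B := fun n : ℕ => Real.exp (1 / δ ^ 2) * Real.exp (-(((n : ℝ) + 1) ^ 2 / δ ^ 2))) (by
      have h2 : Tendsto (fun n : ℕ => ((n : ℝ) + 1) ^ 2 / δ ^ 2) atTop atTop := by
        apply Tendsto.atTop_div_const (by positivity)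
        exact (tendsto_pow_atTop (by norm_num)).comp
          (tendsto_atTop_add_const_right _ _ tendsto_natCast_atTop_atTop)
      have h3 := (Real.tendsto_exp_neg_atTop_nhds_zero.comp h2).const_mul (Real.exp (1 / δ ^ 2))
      rw [mul_zero] at h3
      exact h3) (by
      intro n σ' hσ'
      have hn : (0:ℝ) ≤ (n : ℝ) + 1 + |ρ.im| + |x| := by positivity
      exact ⟨hUb n _ (abs_of_nonneg hn) σ' hσ', hUb n _ (by rw [abs_neg]; exact abs_of_nonneg hn) σ' hσ'⟩)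
    (hint _ (by linarith)) (hint _ (by linarith)) (S := (gs δ (ρ.im - x) : ℂ)) (by
      have h2 := hasSum_singleton ρ (fun s : ℂ => wt δ x s / deriv (fun s => s - ρ) s)
      have e : wt δ x ρ / deriv (fun s => s - ρ) ρ = (gs δ (ρ.im - x) : ℂ) := by
        rw [deriv_sub_const, deriv_id'', div_one, wt_crit hρ]
      rw [e] at h2
      exact h2)
  exact key

end

end Pool.Agent.Helper37.WMH
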