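import Pool.Agent.Helper37.WMH.Zeta

/-! Counting zeros; Gaussian sums over the zeros converge. -/

set_option autoImplicit false

open MeasureTheory Filter Topology Set

namespace Pool.Agent.Helper37.WMH

open Pool.Agent.H295R2

noncomputable section

lemma count_win : ∃ C : ℝ, 0 < C ∧ ∀ t : ℝ, 3 ≤ t → ∀ S : Finset ℂ,
    (∀ ρ ∈ S, ρ ∈ NT ∧ t - 1 < ρ.im ∧ ρ.im ≤ t + 1) → (S.card : ℝ) ≤ C * Real.log t := by
  classical
  obtain ⟨C, hC, h⟩ := H370.zcount H370.good_zeta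
  refine ⟨C, hC, fun t ht S hS => ?_⟩
  refine le_trans ?_ (h t ht)
  have h1 := H370.Loc.card_le_NN H370.good_zeta (t - 1) (t + 1) (by linarith)
  refine le_trans ?_ (Nat.cast_le.2 h1)
  exact_mod_cast Finset.card_le_card (fun ρ hρ => by
    obtain ⟨⟨h2, h3, h4⟩, h5, h6⟩ := hS ρ hρ
    rw [Set.Finite.mem_toFinset]
    exact ⟨h3, h4, h5, h6, h2⟩)

lemma log_le_sqrt {x : ℝ} (hx : 0 < x) : Real.log x ≤ 2 * Real.sqrt x := by
  have h1 : Real.log x = 2 * Real.log (Real.sqrt x) := by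
    rw [Real.log_sqrt hx.le]; ring
  rw [h1]
  have := Real.log_le_sub_one_of_pos (Real.sqrt_pos.2 hx)
  linarith

lemma card_fiber : ∃ K : ℝ, 0 < K ∧ ∀ (n : ℕ) (S : Finset ℂ), (∀ ρ ∈ S, ρ ∈ NT ∧ ⌊|ρ.im|⌋₊ = n) →
    (S.card : ℝ) ≤ K * Real.sqrt (n + 1) := by
  classical
  obtain ⟨C, hC, h⟩ := count_win
  set A : ℝ := ((ZT 3).card : ℝ) with hA
  refine ⟨A + 4 * C, by positivity, fun n S hS => ?_⟩
  have hsq : 1 ≤ Real.sqrt ((n : ℝ) + 1) := by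
    rw [Real.one_le_sqrt]; have : (0:ℝ) ≤ n := Nat.cast_nonneg n
    linarith
  have hA0 : 0 ≤ A := by positivity
  rcases lt_or_ge n 3 with hn | hn
  · have h1 : S ⊆ ZT 3 := by
      intro ρ hρ
      obtain ⟨h2, h3⟩ := hS ρ hρ
      rw [mem_ZT]
      refine ⟨h2, ?_⟩
      have h4 := Nat.lt_floor_add_one |ρ.im|
      rw [h3] at h4
      have h5 : (n : ℝ) + 1 ≤ 3 := by exact_mod_cast hn
      linarith
    have h6 : (S.card : ℝ) ≤ A := by
      rw [hA]; exact_mod_cast Finset.card_le_card h1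
    nlinarith
  · set t : ℝ := (n : ℝ) + 1 / 2 with ht
    have hn3 : (3 : ℝ) ≤ n := by exact_mod_cast hn
    have hlog : Real.log t ≤ 2 * Real.sqrt ((n : ℝ) + 1) :=
      (Real.log_le_log (by linarith) (by linarith : t ≤ (n : ℝ) + 1)).trans (log_le_sqrt (by linarith))
    set Sp := S.filter (fun ρ => 0 ≤ ρ.im) with hSp
    set Sm := S.filter (fun ρ => ¬ 0 ≤ ρ.im) with hSm
    have hfl : ∀ ρ ∈ S, (n : ℝ) ≤ |ρ.im| ∧ |ρ.im| < n + 1 := by
      intro ρ hρ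
      have h3 := (hS ρ hρ).2
      constructor
      · rw [← h3]; exact Nat.floor_le (abs_nonneg _)
      · have := Nat.lt_floor_add_one |ρ.im|
        rwa [h3] at this
    have h1 : (Sp.card : ℝ) ≤ C * Real.log t := by
      apply h t (by linarith) Sp
      intro ρ hρ
      rw [hSp, Finset.mem_filter] at hρ
      obtain ⟨h3, h4⟩ := hfl ρ hρ.1
      rw [abs_of_nonneg hρ.2] at h3 h4
      exact ⟨(hS ρ hρ.1).1, by linarith, by linarith⟩
    have h2 : (Sm.card : ℝ) ≤ C * Real.log t := by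
      have hc : (Sm.image (starRingEnd ℂ)).card = Sm.card :=
        Finset.card_image_of_injective _ (RingHom.injective _)
      rw [← hc]
      apply h t (by linarith)
      intro ρ' hρ'
      rw [Finset.mem_image] at hρ'
      obtain ⟨ρ, hρ, rfl⟩ := hρ'
      rw [hSm, Finset.mem_filter] at hρ
      obtain ⟨h3, h4⟩ := hfl ρ hρ.1
      rw [abs_of_neg (not_le.1 hρ.2)] at h3 h4
      refine ⟨NT_conj (hS ρ hρ.1).1, ?_, ?_⟩
      · rw [Complex.conj_im]; linarith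
      · rw [Complex.conj_im]; linarith
    have h3 : (S.card : ℝ) = Sp.card + Sm.card := by
      rw [hSp, hSm]
      exact_mod_cast (Finset.card_filter_add_card_filter_not (s := S) (fun ρ : ℂ => 0 ≤ ρ.im)).symm
    rw [h3]
    have h4 : C * Real.log t ≤ C * (2 * Real.sqrt ((n : ℝ) + 1)) := by gcongr
    nlinarith

theorem summable_NT : Summable (fun ρ : NT => 1 / (1 + (ρ : ℂ).im ^ 2)) := by
  classical
  obtain ⟨K, hK, h⟩ := card_fiber
  have hs : Summable (fun n : ℕ => K * Real.sqrt (n + 1) / (1 + (n : ℝ) ^ 2)) := by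
    have h1 : Summable (fun n : ℕ => 4 * K * (1 / ((n : ℝ) + 1) ^ (3 / 2 : ℝ))) := by
      refine Summable.mul_left _ ?_
      have := (summable_nat_add_iff (f := fun n : ℕ => 1 / (n : ℝ) ^ (3 / 2 : ℝ)) 1).2
        (Real.summable_one_div_nat_rpow.2 (by norm_num))
      simpa using this
    refine Summable.of_nonneg_of_le (fun n => by positivity) (fun n => ?_) h1
    have hn : (0 : ℝ) ≤ n := Nat.cast_nonneg n
    have h2 : ((n : ℝ) + 1) ^ (3 / 2 : ℝ) * Real.sqrt ((n : ℝ) + 1) = ((n : ℝ) + 1) ^ 2 := by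
      rw [Real.sqrt_eq_rpow, ← Real.rpow_add (by linarith), ← Real.rpow_natCast]
      norm_num
    rw [mul_one_div, div_le_div_iff₀ (by positivity) (by positivity)]
    calc K * Real.sqrt ((n : ℝ) + 1) * ((n : ℝ) + 1) ^ (3 / 2 : ℝ)
        = K * (((n : ℝ) + 1) ^ (3 / 2 : ℝ) * Real.sqrt ((n : ℝ) + 1)) := by ring
      _ = K * ((n : ℝ) + 1) ^ 2 := by rw [h2]
      _ ≤ K * (4 * (1 + (n : ℝ) ^ 2)) := by
          gcongr
          nlinarith [sq_nonneg ((n : ℝ) - 1)]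
      _ = _ := by ring
  refine summable_of_sum_le (c := ∑' n : ℕ, K * Real.sqrt (n + 1) / (1 + (n : ℝ) ^ 2)) (fun ρ => by positivity)
    fun S => ?_
  have h1 : ∑ ρ ∈ S, 1 / (1 + (ρ : ℂ).im ^ 2) =
      ∑ n ∈ S.image (fun ρ : NT => ⌊|(ρ : ℂ).im|⌋₊),
        ∑ ρ ∈ S.filter (fun ρ : NT => ⌊|(ρ : ℂ).im|⌋₊ = n), 1 / (1 + (ρ : ℂ).im ^ 2) :=
    (Finset.sum_fiberwise_of_maps_to (fun ρ hρ => Finset.mem_image_of_mem _ hρ) _).symm
  rw [h1]
  refine le_trans (Finset.sum_le_sum fun n _ => ?_) (hs.sum_le_tsum (S.image (fun ρ : NT => ⌊|(ρ : ℂ).im|⌋₊))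
    (fun n _ => by positivity))
  have h2 : ∑ ρ ∈ S.filter (fun ρ : NT => ⌊|(ρ : ℂ).im|⌋₊ = n), 1 / (1 + (ρ : ℂ).im ^ 2) ≤
      ∑ ρ ∈ S.filter (fun ρ : NT => ⌊|(ρ : ℂ).im|⌋₊ = n), 1 / (1 + (n : ℝ) ^ 2) := by
    refine Finset.sum_le_sum fun ρ hρ => ?_
    rw [Finset.mem_filter] at hρ
    have h3 : (n : ℝ) ≤ |(ρ : ℂ).im| := by
      rw [← hρ.2]; exact Nat.floor_le (abs_nonneg _)
    have h4 : (n : ℝ) ^ 2 ≤ (ρ : ℂ).im ^ 2 := by
      rw [← sq_abs (ρ : ℂ).im]; gcongr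
    gcongr
  refine h2.trans ?_
  rw [Finset.sum_const, nsmul_eq_mul, mul_one_div]
  have h5 := h n ((S.filter (fun ρ : NT => ⌊|(ρ : ℂ).im|⌋₊ = n)).map (Function.Embedding.subtype _)) (by
    intro ρ hρ
    rw [Finset.mem_map] at hρ
    obtain ⟨ρ', h6, rfl⟩ := hρ
    rw [Finset.mem_filter] at h6
    exact ⟨ρ'.2, h6.2⟩)
  rw [Finset.card_map] at h5
  gcongr

/-- the Gaussian -/
def gs (δ y : ℝ) : ℝ := Real.exp (-(y ^ 2 / δ ^ 2))

lemma gs_pos (δ y : ℝ) : 0 < gs δ y := Real.exp_pos _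

lemma gs_le_one (δ y : ℝ) : gs δ y ≤ 1 := by
  unfold gs
  rw [Real.exp_le_one_iff]
  have : 0 ≤ y ^ 2 / δ ^ 2 := by positivity
  linarith

lemma gs_le {δ : ℝ} (hδ : 0 < δ) (x g : ℝ) : gs δ (g - x) ≤ (1 + 2 * x ^ 2 + 2 * δ ^ 2) * (1 / (1 + g ^ 2)) := by
  unfold gs
  have h1 : Real.exp (-((g - x) ^ 2 / δ ^ 2)) ≤ 1 / (1 + (g - x) ^ 2 / δ ^ 2) := by
    rw [Real.exp_neg, ← one_div]
    apply one_div_le_one_div_of_le (by positivity)
    have := Real.add_one_le_exp ((g - x) ^ 2 / δ ^ 2)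
    linarith
  refine h1.trans ?_
  rw [mul_one_div, div_le_div_iff₀ (by positivity) (by positivity)]
  have h2 : (1 + 2 * x ^ 2 + 2 * δ ^ 2) * (1 + (g - x) ^ 2 / δ ^ 2) =
      1 + 2 * x ^ 2 + 2 * δ ^ 2 + (1 + 2 * x ^ 2) * ((g - x) ^ 2 / δ ^ 2) + 2 * (g - x) ^ 2 := by
    field_simp
    ring
  rw [h2]
  have h3 : 0 ≤ (1 + 2 * x ^ 2) * ((g - x) ^ 2 / δ ^ 2) := by positivity
  nlinarith [sq_nonneg (g - 2 * x), sq_nonneg δ]

/-- a bounded family times a Gaussian is summable over the zeros -/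
lemma summable_gs {δ : ℝ} (hδ : 0 < δ) (x : ℝ) {a : ℂ → ℂ} {A : ℝ} (hA : ∀ ρ ∈ NT, ‖a ρ‖ ≤ A) :
    Summable (fun ρ : NT => ‖a ρ‖ * gs δ ((ρ : ℂ).im - x)) := by
  refine Summable.of_nonneg_of_le (fun ρ => mul_nonneg (norm_nonneg _) (gs_pos _ _).le) (fun ρ => ?_)
    (summable_NT.mul_left (A * (1 + 2 * x ^ 2 + 2 * δ ^ 2)))
  have h1 := gs_le hδ x (ρ : ℂ).im
  have h2 := hA ρ ρ.2
  have hA0 : 0 ≤ A := (norm_nonneg _).trans h2
  rw [mul_assoc]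
  exact mul_le_mul h2 h1 (gs_pos _ _).le hA0

end

end Pool.Agent.Helper37.WMH
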