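import Pool.Agent.Helper37.WMH.Part2

/-! Increments of the Mertens function. -/

set_option autoImplicit false

open MeasureTheory Filter Topology Set
open scoped ENNReal

namespace Pool.Agent.Helper37.WMH

open Pool.Agent.H295R2

noncomputable section

/-- the normalised increment `(M(e^{v+H}) - M(e^v)) e^{-v/2}` -/
def DH (H : ℝ) (v : ℝ) : ℂ := Complex.exp (H / 2) * m0 (v + H) - m0 v

/-- `∫_1^x ((M(u+hu)-M(u))/u)² du` -/
def DI (h x : ℝ) : ℝ := ∫ u in (1:ℝ)..x, ((Mx (u + h * u) - Mx u) / u) ^ 2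

/-- its value in the logarithmic variable -/
def YD (H V : ℝ) : ℝ := ∫ v in Ioc 0 V, ‖DH H v‖ ^ 2

lemma DH_eq (H v : ℝ) : DH H v = (((Mx (Real.exp (v + H)) - Mx (Real.exp v)) * Real.exp (-(v / 2)) : ℝ) : ℂ) := by
  unfold DH m0
  have : Complex.exp (H / 2) = ((Real.exp (H / 2) : ℝ) : ℂ) := by push_cast; rfl
  rw [this, ← Complex.ofReal_mul, ← Complex.ofReal_sub]
  congr 1
  have h1 : Real.exp (-(v / 2)) = Real.exp (H / 2) * Real.exp (-((v + H) / 2)) := by
    rw [← Real.exp_add]; congr 1; ring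
  rw [sub_mul]
  congr 1
  rw [h1]; ring

lemma norm_DH_sq (H v : ℝ) : ‖DH H v‖ ^ 2 = (Mx (Real.exp (v + H)) - Mx (Real.exp v)) ^ 2 * Real.exp (-v) := by
  rw [DH_eq, Complex.norm_real, norm_mul, mul_pow, Real.norm_eq_abs, Real.norm_eq_abs, sq_abs, sq_abs,
    ← Real.exp_nat_mul]
  congr 2
  push_cast
  ring

lemma tame_shift {g : ℝ → ℂ} (hg : Tame g) (H : ℝ) : Tame (fun v => g (v + H)) := by
  obtain ⟨C, hC, h⟩ := hg.bound
  refine ⟨hg.meas.comp (measurable_id.add_const H), C * Real.exp |H|, by positivity, fun v => ?_⟩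
  refine (h (v + H)).trans ?_
  rw [mul_assoc, ← Real.exp_add]
  have := abs_add_le v H
  gcongr
  linarith

lemma tame_DH (H : ℝ) : Tame (DH H) := tame_sub ((tame_shift tame_m0 H).const_mul _) tame_m0

lemma DI_exp {h : ℝ} (hh : 0 ≤ h) {L : ℝ} (hL : 0 ≤ L) : DI h (Real.exp L) = YD (Real.log (1 + h)) L := by
  unfold DI YD
  rw [intervalIntegral.integral_of_le (Real.one_le_exp hL)]
  have h0 := integral_image_eq_integral_abs_deriv_smul (s := Ioc 0 L) (f := Real.exp) (f' := Real.exp)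
    measurableSet_Ioc (fun x _ => (Real.hasDerivAt_exp x).hasDerivWithinAt) (Real.exp_injective.injOn)
    (fun u => ((Mx (u + h * u) - Mx u) / u) ^ 2)
  have himg : Real.exp '' Ioc 0 L = Ioc 1 (Real.exp L) := by
    ext y
    simp only [mem_image, mem_Ioc]
    constructor
    · rintro ⟨x, ⟨h1, h2⟩, rfl⟩
      exact ⟨by simpa using Real.exp_lt_exp.2 h1, Real.exp_le_exp.2 h2⟩
    · rintro ⟨h1, h2⟩
      have hy : 0 < y := by linarith
      refine ⟨Real.log y, ⟨Real.log_pos h1, ?_⟩, Real.exp_log hy⟩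
      rwa [Real.log_le_iff_le_exp hy]
  rw [himg] at h0
  rw [h0]
  refine setIntegral_congr_fun measurableSet_Ioc fun v _ => ?_
  simp only [smul_eq_mul]
  rw [norm_DH_sq, abs_of_pos (Real.exp_pos v)]
  have h1 : Real.exp (v + Real.log (1 + h)) = Real.exp v + h * Real.exp v := by
    rw [Real.exp_add, Real.exp_log (by linarith)]; ring
  rw [h1, Real.exp_neg]
  have := Real.exp_pos v
  field_simp

lemma DI_eq {h : ℝ} (hh : 0 ≤ h) {x : ℝ} (hx : 1 ≤ x) : DI h x = YD (Real.log (1 + h)) (Real.log x) := by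
  rw [← DI_exp hh (Real.log_nonneg hx), Real.exp_log (by linarith)]

lemma YD_nonneg (H V : ℝ) : 0 ≤ YD H V := integral_nonneg fun _ => by positivity

/-- translation in the logarithmic variable -/
lemma shift_int (H V : ℝ) (g : ℝ → ℂ) : ∫ v in Ioc 0 V, ‖g (v + H)‖ ^ 2 = ∫ v in Ioc H (V + H), ‖g v‖ ^ 2 := by
  have h1 := (measurePreserving_add_right volume H).setIntegral_preimage_emb (measurableEmbedding_addRight H)
    (fun v => ‖g v‖ ^ 2) (Ioc H (V + H))
  rw [← h1]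
  congr 1
  congr 1
  ext v
  simp

/-- the mean square is controlled by the mean square of the increments -/
lemma JJ_le_YD {H : ℝ} (hH : 0 < H) : ∃ K : ℝ, 0 < K ∧ ∀ V : ℝ, 0 ≤ V → JJ V ≤ K * (1 + YD H V) := by
  set η : ℝ := Real.exp (H / 2) - 1 with hη
  have hη0 : 0 < η := by
    have := Real.add_one_lt_exp (show H / 2 ≠ 0 by positivity)
    rw [hη]; linarith
  have hη1 : 1 + η = Real.exp (H / 2) := by rw [hη]; ring
  set q : ℝ := 1 - Real.exp (-(H / 2)) with hq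
  have hq0 : 0 < q := by
    rw [hq]
    have := Real.exp_lt_exp.2 (show -(H / 2) < 0 by linarith)
    rw [Real.exp_zero] at this
    linarith
  set B : ℝ := Real.exp (-H) * (1 + 1 / η) with hB
  have hB0 : 0 < B := by rw [hB]; positivity
  refine ⟨(JJ H + B + 1) / q, by have := JJ_nonneg H; positivity, fun V hV => ?_⟩
  have hJH := JJ_nonneg H
  have hY := YD_nonneg H V
  have key : JJ V ≤ JJ H + Real.exp (-(H / 2)) * JJ V + B * YD H V := by
    have h1 : JJ V ≤ JJ (V + H) := JJ_mono (by linarith)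
    have h2 : JJ (V + H) = JJ H + ∫ v in Ioc H (V + H), ‖m0 v‖ ^ 2 := by
      rw [JJ_eq, JJ_eq, ← setIntegral_union (Ioc_disjoint_Ioc_of_le le_rfl) measurableSet_Ioc
        (tame_sq_iOn tame_m0 H) ((tame_sq_iOn tame_m0 (V + H)).mono_set (Ioc_subset_Ioc_left hH.le)),
        Ioc_union_Ioc_eq_Ioc hH.le (by linarith)]
    have h3 : ∫ v in Ioc H (V + H), ‖m0 v‖ ^ 2 ≤ Real.exp (-(H / 2)) * JJ V + B * YD H V := by
      rw [← shift_int H V m0, JJ_eq]
      unfold YD
      rw [← integral_const_mul, ← integral_const_mul, ← integral_add ((tame_sq_iOn tame_m0 V).const_mul _)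
        ((tame_sq_iOn (tame_DH H) V).const_mul _)]
      refine setIntegral_mono_on (tame_sq_iOn (tame_shift tame_m0 H) V)
        (((tame_sq_iOn tame_m0 V).const_mul _).add ((tame_sq_iOn (tame_DH H) V).const_mul _)) measurableSet_Ioc
        fun v _ => ?_
      have h4 : ‖m0 (v + H)‖ ≤ Real.exp (-(H / 2)) * (‖m0 v‖ + ‖DH H v‖) := by
        have h5 : m0 (v + H) = Complex.exp (-(H / 2)) * (m0 v + DH H v) := by
          unfold DH
          rw [add_sub_cancel, ← mul_assoc, ← Complex.exp_add]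
          simp
        have h6 : ‖Complex.exp (-(H / 2))‖ = Real.exp (-(H / 2)) := by
          rw [Complex.norm_exp]; congr 1
          have : (-((H : ℂ) / 2)) = ((-(H / 2) : ℝ) : ℂ) := by push_cast; ring
          rw [this, Complex.ofReal_re]
        rw [h5, norm_mul, h6]
        gcongr
        exact norm_add_le _ _
      have h7 : ‖m0 (v + H)‖ ^ 2 ≤ (Real.exp (-(H / 2)) * (‖m0 v‖ + ‖DH H v‖)) ^ 2 := by gcongr
      have h8 : Real.exp (-(H / 2)) ^ 2 = Real.exp (-H) := by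
        rw [← Real.exp_nat_mul]; congr 1; push_cast; ring
      have h9 : (‖m0 v‖ + ‖DH H v‖) ^ 2 ≤ (1 + η) * ‖m0 v‖ ^ 2 + (1 + 1 / η) * ‖DH H v‖ ^ 2 := by
        have h10 : 0 ≤ (η * ‖m0 v‖ - ‖DH H v‖) ^ 2 / η := by positivity
        have h11 : (η * ‖m0 v‖ - ‖DH H v‖) ^ 2 / η = η * ‖m0 v‖ ^ 2 - 2 * ‖m0 v‖ * ‖DH H v‖ + 1 / η * ‖DH H v‖ ^ 2 := by
          field_simp
          ring
        rw [h11] at h10
        nlinarith
      calc ‖m0 (v + H)‖ ^ 2 ≤ Real.exp (-(H / 2)) ^ 2 * (‖m0 v‖ + ‖DH H v‖) ^ 2 := by rw [← mul_pow]; exact h7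
        _ ≤ Real.exp (-(H / 2)) ^ 2 * ((1 + η) * ‖m0 v‖ ^ 2 + (1 + 1 / η) * ‖DH H v‖ ^ 2) := by gcongr
        _ = (Real.exp (-H) * (1 + η)) * ‖m0 v‖ ^ 2 + B * ‖DH H v‖ ^ 2 := by rw [h8, hB]; ring
        _ = Real.exp (-(H / 2)) * ‖m0 v‖ ^ 2 + B * ‖DH H v‖ ^ 2 := by
          rw [hη1, ← Real.exp_add]; congr 3; ring
    linarith
  have h4 : q * JJ V ≤ JJ H + B * YD H V := by rw [hq]; linarith
  rw [div_mul_eq_mul_div, le_div_iff₀ hq0]
  nlinarith

/-- the mean square of the increments is controlled by the mean square -/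
lemma YD_le_JJ {H : ℝ} (hH : 0 ≤ H) {V : ℝ} : YD H V ≤ 4 * Real.exp H * JJ (V + H) := by
  have h1 : YD H V ≤ 2 * Real.exp H * (∫ v in Ioc 0 V, ‖m0 (v + H)‖ ^ 2) + 2 * JJ V := by
    rw [JJ_eq]
    unfold YD
    rw [← integral_const_mul, ← integral_const_mul, ← integral_add ((tame_sq_iOn (tame_shift tame_m0 H) V).const_mul _)
        ((tame_sq_iOn tame_m0 V).const_mul _)]
    refine setIntegral_mono_on (tame_sq_iOn (tame_DH H) V)
        (((tame_sq_iOn (tame_shift tame_m0 H) V).const_mul _).add ((tame_sq_iOn tame_m0 V).const_mul _)) measurableSet_Ioc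
        fun v _ => ?_
    have h2 : ‖DH H v‖ ≤ Real.exp (H / 2) * ‖m0 (v + H)‖ + ‖m0 v‖ := by
      unfold DH
      refine (norm_sub_le _ _).trans ?_
      have : ‖Complex.exp (H / 2)‖ = Real.exp (H / 2) := by
        rw [Complex.norm_exp]; congr 1
        have : (((H : ℂ) / 2)) = ((H / 2 : ℝ) : ℂ) := by push_cast; ring
        rw [this, Complex.ofReal_re]
      rw [norm_mul, this]
    have h3 : ‖DH H v‖ ^ 2 ≤ (Real.exp (H / 2) * ‖m0 (v + H)‖ + ‖m0 v‖) ^ 2 := by gcongr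
    have h8 : Real.exp (H / 2) ^ 2 = Real.exp H := by
        rw [← Real.exp_nat_mul]; congr 1; push_cast; ring
    have h9 : 2 * Real.exp H * ‖m0 (v + H)‖ ^ 2 = 2 * (Real.exp (H / 2) * ‖m0 (v + H)‖) ^ 2 := by
      rw [mul_pow, h8]; ring
    rw [h9]
    nlinarith [sq_nonneg (Real.exp (H / 2) * ‖m0 (v + H)‖ - ‖m0 v‖)]
  have h2 : ∫ v in Ioc 0 V, ‖m0 (v + H)‖ ^ 2 ≤ JJ (V + H) := by
    rw [shift_int, JJ_eq]
    exact setIntegral_mono_set (tame_sq_iOn tame_m0 (V + H)) (Eventually.of_forall fun u => by positivity)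
      (Eventually.of_forall fun u hu => Ioc_subset_Ioc_left hH hu)
  have h3 : JJ V ≤ JJ (V + H) := JJ_mono (by linarith)
  have h4 : 1 ≤ Real.exp H := Real.one_le_exp hH
  have h5 := JJ_nonneg (V + H)
  calc YD H V ≤ 2 * Real.exp H * JJ (V + H) + 2 * JJ (V + H) := by
        refine h1.trans (add_le_add ?_ ?_)
        · gcongr
        · linarith
    _ ≤ 2 * Real.exp H * JJ (V + H) + 2 * (Real.exp H * JJ (V + H)) := by
        gcongr
        exact le_mul_of_one_le_left h5 h4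
    _ = _ := by ring

end

end Pool.Agent.Helper37.WMH
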