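import Pool.Agent.Helper37.WMH.Contour2

/-! The Gaussian sums over the zeros as Fourier transforms. -/

set_option autoImplicit false

open MeasureTheory Filter Topology Set

namespace Pool.Agent.Helper37.WMH

open Pool.Agent.H295R2

noncomputable section

/-! ### the Gaussian integral -/

lemma sqrt_pi_ne : (Real.sqrt Real.pi : ℂ) ≠ 0 := by
  exact_mod_cast (Real.sqrt_pos.2 Real.pi_pos).ne'

lemma gauss_int {δ : ℝ} (hδ : 0 < δ) (z : ℂ) :
    ∫ v : ℝ, (Real.exp (-(δ ^ 2 * v ^ 2 / 4)) : ℂ) * Complex.exp (v * z) =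
      (2 * Real.sqrt Real.pi / δ : ℝ) * Complex.exp (z ^ 2 / (δ : ℂ) ^ 2) := by
  have hδc : (δ : ℂ) ≠ 0 := by exact_mod_cast hδ.ne'
  have h := integral_cexp_quadratic (b := ((-(δ ^ 2 / 4) : ℝ) : ℂ)) (by
    rw [Complex.ofReal_re]; have : 0 < δ ^ 2 / 4 := by positivity
    linarith) z 0
  have e1 : ((Real.pi : ℂ) / -((-(δ ^ 2 / 4) : ℝ) : ℂ)) ^ (1 / 2 : ℂ) = ((2 * Real.sqrt Real.pi / δ : ℝ) : ℂ) := by
    have h1 : (Real.pi : ℂ) / -((-(δ ^ 2 / 4) : ℝ) : ℂ) = ((4 * Real.pi / δ ^ 2 : ℝ) : ℂ) := by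
      push_cast; field_simp
    rw [h1, show (1 / 2 : ℂ) = ((1 / 2 : ℝ) : ℂ) by push_cast; ring,
      ← Complex.ofReal_cpow (by positivity), ← Real.sqrt_eq_rpow]
    congr 1
    rw [show 4 * Real.pi / δ ^ 2 = Real.pi * (2 / δ) ^ 2 by field_simp; norm_num,
      Real.sqrt_mul Real.pi_pos.le, Real.sqrt_sq (by positivity)]
    ring
  have e2 : (0 : ℂ) - z ^ 2 / (4 * ((-(δ ^ 2 / 4) : ℝ) : ℂ)) = z ^ 2 / (δ : ℂ) ^ 2 := by
    push_cast; field_simp; ring
  rw [e1, e2] at h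
  rw [← h]
  refine integral_congr_ae (Eventually.of_forall fun v => ?_)
  simp only
  rw [Complex.ofReal_exp, ← Complex.exp_add]
  congr 1
  push_cast
  ring

/-- the weight `w(s)` as an integral -/
lemma wt_int {δ : ℝ} (hδ : 0 < δ) (x : ℝ) (s : ℂ) :
    wt δ x s = (δ / (2 * Real.sqrt Real.pi) : ℝ) *
      ∫ v : ℝ, (Real.exp (-(δ ^ 2 * v ^ 2 / 4)) : ℂ) * Complex.exp (v * (s - 1 / 2 - x * Complex.I)) := by
  rw [gauss_int hδ, ← mul_assoc, ← Complex.ofReal_mul]
  have : δ / (2 * Real.sqrt Real.pi) * (2 * Real.sqrt Real.pi / δ) = 1 := by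
    have := (Real.sqrt_pos.2 Real.pi_pos).ne'
    field_simp
  rw [this, Complex.ofReal_one, one_mul]
  rfl

lemma gexp_integrable {a : ℝ} (ha : 0 < a) (b : ℝ) : Integrable (fun v : ℝ => Real.exp (-(a * v ^ 2)) * Real.exp (b * |v|)) := by
  have h := (integrable_exp_neg_mul_sq (b := a / 2) (by positivity)).const_mul (Real.exp (b ^ 2 / (2 * a)))
  refine h.mono' (Continuous.aestronglyMeasurable (by fun_prop)) (Eventually.of_forall fun v => ?_)
  rw [Real.norm_of_nonneg (by positivity), ← Real.exp_add, ← Real.exp_add]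
  apply Real.exp_le_exp.2
  have h1 : 0 ≤ (a * |v| - b) ^ 2 / (2 * a) := by positivity
  have h2 : (a * |v| - b) ^ 2 / (2 * a) = a / 2 * v ^ 2 - b * |v| + b ^ 2 / (2 * a) := by
    rw [sub_sq, mul_pow, sq_abs]
    field_simp
  linarith

/-! ### the right line -/

/-- the Mertens function on the exponential scale -/
def kM (u : ℝ) : ℂ := ((Mx (Real.exp u) : ℝ) : ℂ)

lemma kM_zero {u : ℝ} (hu : u < 0) : kM u = 0 := by
  unfold kM Mx
  have h1 : ⌊Real.exp u⌋₊ = 0 := by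
    rw [Nat.floor_eq_zero, ← Real.exp_zero]; exact Real.exp_lt_exp.2 hu
  rw [h1]; simp

lemma kM_nice : Nice kM 1 1 0 where
  meas := by
    unfold kM
    exact Complex.measurable_ofReal.comp (Mx_meas.comp Real.measurable_exp)
  bound := by
    intro u
    unfold kM
    rw [Complex.norm_real, Real.norm_eq_abs, one_mul, one_mul]
    exact abs_Mx_le (Real.exp_pos u).le
  zero := fun u hu => kM_zero hu

lemma Lap_kM {s : ℂ} (hs : 1 < s.re) : Lap kM s = HH s := by
  have hO : (fun n : ℕ => ∑ k ∈ Finset.Icc 1 n, ‖((ArithmeticFunction.moebius k : ℤ) : ℂ)‖) =O[atTop]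
      fun n : ℕ => (n : ℝ) ^ (1:ℝ) := by
    refine Asymptotics.isBigO_of_le _ fun n => ?_
    rw [Real.norm_of_nonneg (Finset.sum_nonneg fun _ _ => norm_nonneg _), Real.rpow_one,
      Real.norm_of_nonneg (Nat.cast_nonneg n)]
    calc ∑ k ∈ Finset.Icc 1 n, ‖((ArithmeticFunction.moebius k : ℤ) : ℂ)‖ ≤ ∑ k ∈ Finset.Icc 1 n, (1:ℝ) := by
          refine Finset.sum_le_sum fun j hj => ?_
          have := abs_mu_le j
          unfold mu at this
          rw [← Complex.ofReal_intCast, Complex.norm_real]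
          exact this
      _ = n := by simp
  have h1 := LSeries_eq_mul_integral' (fun k : ℕ => ((ArithmeticFunction.moebius k : ℤ) : ℂ)) (r := 1)
    (by norm_num) (s := s) hs hO
  have h2 : LSeries (fun k : ℕ => ((ArithmeticFunction.moebius k : ℤ) : ℂ)) s = fz s :=
    (moebius_lseries hs).LSeries_eq
  have hs0 : s ≠ 0 := by rintro rfl; simp at hs; linarith
  have h3 : s * Lap kM s = fz s := by
    rw [← h2, h1]
    congr 1
    rw [integral_Ioi_exp]
    unfold Lap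
    rw [← setIntegral_eq_integral_of_forall_compl_eq_zero (s := Ici (0:ℝ)), integral_Ici_eq_integral_Ioi]
    · apply setIntegral_congr_fun measurableSet_Ioi
      intro u _
      simp only
      unfold kM Mx mu
      have hne : ((Real.exp u : ℝ) : ℂ) ≠ 0 := by exact_mod_cast (Real.exp_pos u).ne'
      rw [Complex.cpow_def_of_ne_zero hne, ← Complex.ofReal_log (Real.exp_pos u).le, Real.log_exp]
      have e1 : ((Real.exp u : ℝ) : ℂ) = Complex.exp u := Complex.ofReal_exp u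
      rw [e1]
      have e2 : Complex.exp (-(s * u)) = Complex.exp u * Complex.exp ((u : ℂ) * (-(s + 1))) := by
        rw [← Complex.exp_add]; ring_nf
      rw [e2]
      push_cast
      ring
    · intro u hu
      have : u < 0 := by simpa using hu
      rw [kM_zero this, zero_mul]
  unfold HH
  rw [← h3, mul_comm, mul_div_assoc, div_self hs0, mul_one]

lemma m0_eq (u : ℝ) : m0 u = kM u * Complex.exp (-(u / 2)) := by
  unfold m0 kM
  push_cast
  rfl

lemma m0_zero {u : ℝ} (hu : u < 0) : m0 u = 0 := by rw [m0_eq, kM_zero hu, zero_mul]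

lemma m0_meas : Measurable m0 := by
  unfold m0
  refine Complex.measurable_ofReal.comp ((Mx_meas.comp Real.measurable_exp).mul ?_)
  exact Continuous.measurable (by fun_prop)

lemma m0_norm (u : ℝ) : ‖m0 u‖ ≤ Real.exp (|u|) := by
  rcases lt_or_ge u 0 with h | h
  · rw [m0_zero h, norm_zero]; positivity
  · unfold m0
    rw [Complex.norm_real, norm_mul, Real.norm_eq_abs, Real.norm_of_nonneg (Real.exp_pos _).le]
    calc |Mx (Real.exp u)| * Real.exp (-(u / 2)) ≤ Real.exp u * 1 := by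
          gcongr
          · exact abs_Mx_le (Real.exp_pos u).le
          · rw [Real.exp_le_one_iff]; linarith
      _ = Real.exp |u| := by rw [mul_one, abs_of_nonneg h]

/-- the Gaussian integral over the line `Re s = 3/2` -/
lemma inner_right {δ : ℝ} (hδ : 0 < δ) (x u : ℝ) :
    ∫ t : ℝ, Complex.exp (-((⟨3 / 2, t⟩ : ℂ) * u)) * wt δ x ⟨3 / 2, t⟩ =
      (δ * Real.sqrt Real.pi : ℝ) * (Real.exp (-(δ ^ 2 * u ^ 2 / 4)) * Complex.exp (-(x * u * Complex.I)) *
        Complex.exp (-(u / 2))) := by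
  have hδc : (δ : ℂ) ≠ 0 := by exact_mod_cast hδ.ne'
  set b : ℂ := ((-(1 / δ ^ 2) : ℝ) : ℂ) with hb
  set c : ℂ := 2 * Complex.I / (δ : ℂ) ^ 2 + 2 * x / (δ : ℂ) ^ 2 - Complex.I * u with hc
  set d : ℂ := (1 - 2 * Complex.I * x - (x : ℂ) ^ 2) / (δ : ℂ) ^ 2 - 3 / 2 * u with hd
  have h := integral_cexp_quadratic (b := b) (by
    rw [hb, Complex.ofReal_re]; have : 0 < 1 / δ ^ 2 := by positivity
    linarith) c d
  have e1 : ((Real.pi : ℂ) / -b) ^ (1 / 2 : ℂ) = ((δ * Real.sqrt Real.pi : ℝ) : ℂ) := by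
    have h1 : (Real.pi : ℂ) / -b = ((Real.pi * δ ^ 2 : ℝ) : ℂ) := by
      rw [hb]; push_cast; field_simp
    rw [h1, show (1 / 2 : ℂ) = ((1 / 2 : ℝ) : ℂ) by push_cast; ring,
      ← Complex.ofReal_cpow (by positivity), ← Real.sqrt_eq_rpow]
    congr 1
    rw [Real.sqrt_mul Real.pi_pos.le, Real.sqrt_sq hδ.le]
    ring
  rw [e1] at h
  have e2 : Complex.exp (d - c ^ 2 / (4 * b)) = Real.exp (-(δ ^ 2 * u ^ 2 / 4)) * Complex.exp (-(x * u * Complex.I)) *
      Complex.exp (-(u / 2)) := by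
    rw [Complex.ofReal_exp, ← Complex.exp_add, ← Complex.exp_add]
    congr 1
    rw [hb, hc, hd]
    push_cast
    have hI : Complex.I ^ 2 = -1 := Complex.I_sq
    field_simp
    ring_nf
    simp only [hI]
    ring
  rw [e2] at h
  rw [← h]
  refine integral_congr_ae (Eventually.of_forall fun t => ?_)
  simp only
  unfold wt
  rw [← Complex.exp_add]
  congr 1
  have e3 : (⟨3 / 2, t⟩ : ℂ) = 3 / 2 + t * Complex.I := by apply Complex.ext <;> simp
  rw [e3, hb, hc, hd]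
  push_cast
  have hI : Complex.I ^ 2 = -1 := Complex.I_sq
  field_simp
  ring_nf
  simp only [hI]
  ring

lemma right_integrable {δ : ℝ} (hδ : 0 < δ) (x : ℝ) :
    Integrable (fun t : ℝ => HH ⟨3 / 2, t⟩ * wt δ x ⟨3 / 2, t⟩) := by
  obtain ⟨K, hK, hb⟩ := line_right
  have hc : Continuous (fun t : ℝ => HH ⟨3 / 2, t⟩) := HH_line_cont (by norm_num) (by norm_num) (by
    rintro t ⟨-, -, h⟩
    simp only at h
    norm_num at h)
  refine ((gs_integrable hδ x).const_mul (K * Real.exp ((3 / 2 - 1 / 2) ^ 2 / δ ^ 2))).mono'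
    (hc.mul (wt_line_cont δ x _)).aestronglyMeasurable (Eventually.of_forall fun t => ?_)
  rw [norm_mul, wt_norm, mul_assoc]
  exact mul_le_mul_of_nonneg_right (hb t) (mul_nonneg (Real.exp_pos _).le (gs_pos _ _).le)

lemma right_int {δ : ℝ} (hδ : 0 < δ) (x : ℝ) :
    ∫ t : ℝ, HH ⟨3 / 2, t⟩ * wt δ x ⟨3 / 2, t⟩ = (δ * Real.sqrt Real.pi : ℝ) *
      ∫ u : ℝ, (Real.exp (-(δ ^ 2 * u ^ 2 / 4)) : ℂ) * Complex.exp (-(x * u * Complex.I)) * m0 u := by
  have h1 : ∀ t : ℝ, HH ⟨3 / 2, t⟩ * wt δ x ⟨3 / 2, t⟩ =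
      ∫ u : ℝ, kM u * Complex.exp (-((⟨3 / 2, t⟩ : ℂ) * u)) * wt δ x ⟨3 / 2, t⟩ := by
    intro t
    rw [integral_mul_const, ← Lap_kM (by norm_num)]
    rfl
  simp_rw [h1]
  rw [integral_integral_swap]
  · rw [← integral_const_mul]
    refine integral_congr_ae (Eventually.of_forall fun u => ?_)
    simp only
    have h2 : ∀ t : ℝ, kM u * Complex.exp (-((⟨3 / 2, t⟩ : ℂ) * u)) * wt δ x ⟨3 / 2, t⟩ =
        kM u * (Complex.exp (-((⟨3 / 2, t⟩ : ℂ) * u)) * wt δ x ⟨3 / 2, t⟩) := fun t => by ring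
    simp_rw [h2]
    rw [integral_const_mul, inner_right hδ, m0_eq]
    ring
  · -- product integrability
    have hA : Integrable (fun t : ℝ => Real.exp ((3 / 2 - 1 / 2) ^ 2 / δ ^ 2) * gs δ (t - x)) :=
      (gs_integrable hδ x).const_mul _
    have hB : Integrable ((Ici (0:ℝ)).indicator (fun u : ℝ => (1:ℝ) * Real.exp ((1 - 3 / 2) * u))) :=
      integrable_ind_exp (by norm_num) 1 0
    have hAB := hA.mul_prod hB
    refine hAB.mono' ?_ (Eventually.of_forall fun z => ?_)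
    · refine Measurable.aestronglyMeasurable ?_
      have m1 : Measurable (fun z : ℝ × ℝ => kM z.2) := kM_nice.meas.comp measurable_snd
      have m2 : Measurable (fun z : ℝ × ℝ => Complex.exp (-((⟨3 / 2, z.1⟩ : ℂ) * (z.2 : ℂ)))) := by
        apply Continuous.measurable
        have := (mk_cont (3 / 2)).comp (continuous_fst (X := ℝ) (Y := ℝ))
        exact Complex.continuous_exp.comp (this.mul (Complex.continuous_ofReal.comp continuous_snd)).neg
      have m3 : Measurable (fun z : ℝ × ℝ => wt δ x ⟨3 / 2, z.1⟩) :=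
        ((wt_line_cont δ x (3 / 2)).comp continuous_fst).measurable
      exact (m1.mul m2).mul m3
    · simp only [Function.uncurry]
      rw [norm_mul, wt_norm, mul_comm]
      have h3 := kM_nice.dom (⟨3 / 2, z.1⟩ : ℂ) z.2
      simp only at h3
      exact mul_le_mul_of_nonneg_left h3 (mul_nonneg (Real.exp_pos _).le (gs_pos _ _).le)

/-! ### the left line -/

/-- the contribution of the left line -/
def KK (v : ℝ) : ℂ := ∫ t : ℝ, HH ⟨-1 / 2, t⟩ * Complex.exp (v * ((⟨-1 / 2, t⟩ : ℂ) - 1 / 2))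

lemma left_cont : Continuous (fun t : ℝ => HH ⟨-1 / 2, t⟩) := HH_line_cont (by norm_num) (by norm_num) (by
    rintro t ⟨-, h, -⟩
    simp only at h
    norm_num at h)

lemma left_L1 : Integrable (fun t : ℝ => ‖HH ⟨-1 / 2, t⟩‖) := by
  obtain ⟨K, hK, hb⟩ := line_left
  have h1 : Integrable (fun t : ℝ => K / (1 + t ^ 2)) := by
    have := integrable_inv_one_add_sq.const_mul K
    exact this
  refine h1.mono' left_cont.norm.aestronglyMeasurable (Eventually.of_forall fun t => ?_)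
  rw [norm_norm]
  exact hb t

lemma left_exp_norm (v t : ℝ) : ‖Complex.exp (v * ((⟨-1 / 2, t⟩ : ℂ) - 1 / 2))‖ = Real.exp (-v) := by
  rw [Complex.norm_exp]
  congr 1
  simp
  ring

lemma KK_bound : ∃ K : ℝ, 0 < K ∧ ∀ v : ℝ, ‖KK v‖ ≤ K * Real.exp (-v) := by
  refine ⟨(∫ t : ℝ, ‖HH ⟨-1 / 2, t⟩‖) + 1, by
    have : 0 ≤ ∫ t : ℝ, ‖HH ⟨-1 / 2, t⟩‖ := integral_nonneg fun t => norm_nonneg _
    linarith, fun v => ?_⟩
  unfold KK
  have h1 : ‖∫ t : ℝ, HH ⟨-1 / 2, t⟩ * Complex.exp (v * ((⟨-1 / 2, t⟩ : ℂ) - 1 / 2))‖ ≤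
      ∫ t : ℝ, ‖HH ⟨-1 / 2, t⟩‖ * Real.exp (-v) := by
    refine norm_integral_le_of_norm_le (left_L1.mul_const _) (Eventually.of_forall fun t => ?_)
    rw [norm_mul, left_exp_norm]
  rw [integral_mul_const] at h1
  have := Real.exp_pos (-v)
  nlinarith

lemma KK_meas : Measurable KK := by
  unfold KK
  have h : StronglyMeasurable (fun v : ℝ => ∫ t : ℝ, HH ⟨-1 / 2, t⟩ * Complex.exp (v * ((⟨-1 / 2, t⟩ : ℂ) - 1 / 2))) := by
    apply StronglyMeasurable.integral_prod_right' (f := fun p : ℝ × ℝ =>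
      HH ⟨-1 / 2, p.2⟩ * Complex.exp (p.1 * ((⟨-1 / 2, p.2⟩ : ℂ) - 1 / 2)))
    apply Continuous.stronglyMeasurable
    have h1 := (mk_cont (-1 / 2)).comp (continuous_snd (X := ℝ) (Y := ℝ))
    exact (left_cont.comp continuous_snd).mul
      (Complex.continuous_exp.comp ((Complex.continuous_ofReal.comp continuous_fst).mul (h1.sub continuous_const)))
  exact h.measurable

lemma left_integrable (δ x : ℝ) :
    Integrable (fun t : ℝ => HH ⟨-1 / 2, t⟩ * wt δ x ⟨-1 / 2, t⟩) := by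
  refine (left_L1.mul_const (Real.exp (1 / δ ^ 2))).mono'
    (left_cont.mul (wt_line_cont δ x _)).aestronglyMeasurable (Eventually.of_forall fun t => ?_)
  rw [norm_mul, wt_norm]
  have h1 := gs_le_one δ (t - x)
  have h2 : Real.exp ((-1 / 2 - 1 / 2) ^ 2 / δ ^ 2) * gs δ (t - x) ≤ Real.exp (1 / δ ^ 2) := by
    norm_num
    exact mul_le_of_le_one_right (Real.exp_pos _).le h1
  exact mul_le_mul_of_nonneg_left h2 (norm_nonneg _)

lemma left_int {δ : ℝ} (hδ : 0 < δ) (x : ℝ) :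
    ∫ t : ℝ, HH ⟨-1 / 2, t⟩ * wt δ x ⟨-1 / 2, t⟩ = (δ / (2 * Real.sqrt Real.pi) : ℝ) *
      ∫ v : ℝ, (Real.exp (-(δ ^ 2 * v ^ 2 / 4)) : ℂ) * Complex.exp (-(x * v * Complex.I)) * KK v := by
  have h1 : ∀ t : ℝ, HH ⟨-1 / 2, t⟩ * wt δ x ⟨-1 / 2, t⟩ = (δ / (2 * Real.sqrt Real.pi) : ℝ) *
      ∫ v : ℝ, (Real.exp (-(δ ^ 2 * v ^ 2 / 4)) : ℂ) * Complex.exp (-(x * v * Complex.I)) *
        (HH ⟨-1 / 2, t⟩ * Complex.exp (v * ((⟨-1 / 2, t⟩ : ℂ) - 1 / 2))) := by
    intro t
    rw [wt_int hδ, mul_left_comm, ← integral_const_mul]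
    congr 1
    refine integral_congr_ae (Eventually.of_forall fun v => ?_)
    simp only
    have : Complex.exp (v * ((⟨-1 / 2, t⟩ : ℂ) - 1 / 2 - x * Complex.I)) =
        Complex.exp (-(x * v * Complex.I)) * Complex.exp (v * ((⟨-1 / 2, t⟩ : ℂ) - 1 / 2)) := by
      rw [← Complex.exp_add]; congr 1; ring
    rw [this]; ring
  simp_rw [h1]
  rw [integral_const_mul, integral_integral_swap]
  · congr 1
    refine integral_congr_ae (Eventually.of_forall fun v => ?_)
    simp only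
    rw [integral_const_mul]
    rfl
  · have hA : Integrable (fun v : ℝ => Real.exp (-((δ ^ 2 / 4) * v ^ 2)) * Real.exp (1 * |v|)) :=
      gexp_integrable (by positivity) 1
    have hAB := left_L1.mul_prod hA
    refine hAB.mono' ?_ (Eventually.of_forall fun z => ?_)
    · apply Continuous.aestronglyMeasurable
      have h2 := (mk_cont (-1 / 2)).comp (continuous_fst (X := ℝ) (Y := ℝ))
      have h3 : Continuous (fun z : ℝ × ℝ => HH ⟨-1 / 2, z.1⟩) := left_cont.comp continuous_fst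
      have h4 : Continuous (fun z : ℝ × ℝ => Complex.exp ((z.2 : ℂ) * ((⟨-1 / 2, z.1⟩ : ℂ) - 1 / 2))) :=
        Complex.continuous_exp.comp ((Complex.continuous_ofReal.comp continuous_snd).mul (h2.sub continuous_const))
      have h5 : Continuous (fun z : ℝ × ℝ => (Real.exp (-(δ ^ 2 * z.2 ^ 2 / 4)) : ℂ) *
          Complex.exp (-(x * z.2 * Complex.I))) := by fun_prop
      exact h5.mul (h3.mul h4)
    · simp only [Function.uncurry]
      rw [norm_mul, norm_mul, norm_mul, left_exp_norm, Complex.norm_real, Real.norm_of_nonneg (Real.exp_pos _).le]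
      have h2 : ‖Complex.exp (-(x * z.2 * Complex.I))‖ = 1 := by
        rw [show -((x : ℂ) * z.2 * Complex.I) = ((-(x * z.2) : ℝ) : ℂ) * Complex.I by push_cast; ring]
        exact Complex.norm_exp_ofReal_mul_I _
      rw [h2, mul_one]
      have h3 : Real.exp (-z.2) ≤ Real.exp (1 * |z.2|) := by
        apply Real.exp_le_exp.2; rw [one_mul]; exact neg_le_abs z.2
      have h4 : Real.exp (-(δ ^ 2 * z.2 ^ 2 / 4)) = Real.exp (-((δ ^ 2 / 4) * z.2 ^ 2)) := by congr 1; ring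
      rw [h4]
      calc Real.exp (-(δ ^ 2 / 4 * z.2 ^ 2)) * (‖HH ⟨-1 / 2, z.1⟩‖ * Real.exp (-z.2))
          = ‖HH ⟨-1 / 2, z.1⟩‖ * (Real.exp (-(δ ^ 2 / 4 * z.2 ^ 2)) * Real.exp (-z.2)) := by ring
        _ ≤ _ := by gcongr

end

end Pool.Agent.Helper37.WMH
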