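import Pool.Agent.Helper37.WMH.DLim
import Pool.Agent.Helper90.WM.T6

/-! Moments of `1/ζ'(ρ)` and increments of the Mertens function. -/

set_option autoImplicit false

open MeasureTheory Filter Topology Set
open scoped ENNReal

namespace Pool.Agent.Helper37.WMH

open Pool.Agent.H295R2

noncomputable section

/-- `1/|ζ'(ρ)|²` -/
def zd (ρ : ℂ) : ℝ := 1 / ‖deriv riemannZeta ρ‖ ^ 2

lemma zd_nonneg (ρ : ℂ) : 0 ≤ zd ρ := by unfold zd; positivity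

/-- `J_{-1}(T)` -/
def JM (T : ℝ) : ℝ := ∑ ρ ∈ (ZT T).filter (fun ρ => 0 < ρ.im), zd ρ

/-- the sum over all zeros with `|γ| ≤ T` -/
def JA (T : ℝ) : ℝ := ∑ ρ ∈ ZT T, zd ρ

lemma JM_nonneg (T : ℝ) : 0 ≤ JM T := Finset.sum_nonneg fun _ _ => zd_nonneg _

lemma aa_sq (ρ : ℂ) : ‖aa ρ‖ ^ 2 = zd ρ / ‖ρ‖ ^ 2 := by
  unfold aa zd
  rw [norm_div, norm_one, norm_mul, div_pow, mul_pow, one_pow, div_div, mul_comm]

lemma deriv_conj (ρ : ℂ) : deriv riemannZeta ((starRingEnd ℂ) ρ) = (starRingEnd ℂ) (deriv riemannZeta ρ) := by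
  have h1 : riemannZeta = (starRingEnd ℂ) ∘ riemannZeta ∘ (starRingEnd ℂ) := by
    funext s
    simp only [Function.comp]
    rw [riemannZeta_conj, Complex.conj_conj]
  have h2 := congrFun (deriv_conj_conj (f := riemannZeta) (𝕜 := ℂ)) ((starRingEnd ℂ) ρ)
  rw [← h1] at h2
  simp only [Function.comp, Complex.conj_conj] at h2
  exact h2

lemma zd_conj (ρ : ℂ) : zd ((starRingEnd ℂ) ρ) = zd ρ := by
  unfold zd
  rw [deriv_conj, RCLike.norm_conj]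

lemma JA_le (hR : RHS) (T : ℝ) : JA T ≤ 2 * JM T + zd (1 / 2) := by
  classical
  unfold JA JM
  rw [← Finset.sum_filter_add_sum_filter_not (ZT T) (fun ρ => 0 < ρ.im)]
  have h1 : ∑ ρ ∈ (ZT T).filter (fun ρ => ¬ 0 < ρ.im), zd ρ ≤
      ∑ ρ ∈ insert (1 / 2 : ℂ) (((ZT T).filter (fun ρ => 0 < ρ.im)).image (starRingEnd ℂ)), zd ρ := by
    refine Finset.sum_le_sum_of_subset_of_nonneg ?_ fun _ _ _ => zd_nonneg _
    intro ρ hρ
    rw [Finset.mem_filter, mem_ZT] at hρ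
    rw [Finset.mem_insert]
    rcases lt_or_eq_of_le (not_lt.1 hρ.2) with h | h
    · right
      rw [Finset.mem_image]
      refine ⟨(starRingEnd ℂ) ρ, ?_, Complex.conj_conj ρ⟩
      rw [Finset.mem_filter, mem_ZT]
      refine ⟨⟨NT_conj hρ.1.1, ?_⟩, ?_⟩
      · rw [Complex.conj_im, abs_neg]; exact hρ.1.2
      · rw [Complex.conj_im]; linarith
    · left
      apply Complex.ext
      · rw [(hR ρ hρ.1.1).1]; simp
      · rw [h]; simp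
  have h2 : ∑ ρ ∈ insert (1 / 2 : ℂ) (((ZT T).filter (fun ρ => 0 < ρ.im)).image (starRingEnd ℂ)), zd ρ ≤
      zd (1 / 2) + ∑ ρ ∈ ((ZT T).filter (fun ρ => 0 < ρ.im)).image (starRingEnd ℂ), zd ρ := by
    by_cases h : (1 / 2 : ℂ) ∈ ((ZT T).filter (fun ρ => 0 < ρ.im)).image (starRingEnd ℂ)
    · rw [Finset.insert_eq_of_mem h]
      have := zd_nonneg (1 / 2)
      linarith
    · rw [Finset.sum_insert h]
  have h3 : ∑ ρ ∈ ((ZT T).filter (fun ρ => 0 < ρ.im)).image (starRingEnd ℂ), zd ρ =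
      ∑ ρ ∈ (ZT T).filter (fun ρ => 0 < ρ.im), zd ρ := by
    rw [Finset.sum_image fun x _ y _ h => (starRingEnd ℂ).injective h]
    exact Finset.sum_congr rfl fun ρ _ => zd_conj ρ
  rw [h3] at h2
  linarith

lemma JM_ge {T : ℝ} {Z : Finset ℂ} (hZ : ∀ ρ ∈ Z, ρ ∈ NT ∧ 0 < ρ.im ∧ ρ.im ≤ T) : ∑ ρ ∈ Z, zd ρ ≤ JM T := by
  unfold JM
  refine Finset.sum_le_sum_of_subset_of_nonneg (fun ρ hρ => ?_) fun _ _ _ => zd_nonneg _
  obtain ⟨h1, h2, h3⟩ := hZ ρ hρ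
  rw [Finset.mem_filter, mem_ZT, abs_of_pos h2]
  exact ⟨⟨h1, h3⟩, h2⟩

lemma RHS.h90 (hR : RHS) : Pool.Agent.Helper90.WM.RHSimple := fun ρ h0 h1 h2 => hR ρ ⟨h0, h1, h2⟩

theorem Asymp_of_JM (hR : RHS) {C θ : ℝ} (hθ : 0 < θ) (h : ∀ T : ℝ, 1 ≤ T → JM T ≤ C * T ^ (2 - θ)) : AsympP := by
  have hC : 0 ≤ C := by
    have h1 := h 1 le_rfl
    rw [Real.one_rpow, mul_one] at h1
    exact (JM_nonneg 1).trans h1
  have hGQ := Pool.Agent.Helper90.WM.concl_J hR.h90 (C := C * (3 / θ) ^ 3) (ε := 1) one_pos (by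
    intro T hT Z hZ
    have hT0 : 0 < T := by linarith
    have h1 : ∑ ρ ∈ Z, 1 / ‖deriv riemannZeta ρ‖ ^ 2 ≤ JM T := JM_ge hZ
    refine h1.trans ((h T (by linarith)).trans ?_)
    have hlog : 0 < Real.log T := Real.log_pos (by linarith)
    have h2 : Real.log T ≤ T ^ (θ / 3) / (θ / 3) := Real.log_le_rpow_div hT0.le (by positivity)
    have h3 : Real.log T ^ 3 ≤ (3 / θ) ^ 3 * T ^ θ := by
      calc Real.log T ^ 3 ≤ (T ^ (θ / 3) / (θ / 3)) ^ 3 := by gcongr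
        _ = (3 / θ) ^ 3 * (T ^ (θ / 3)) ^ 3 := by rw [div_pow, div_pow, div_pow]; field_simp
        _ = (3 / θ) ^ 3 * T ^ θ := by
          rw [← Real.rpow_natCast (T ^ (θ / 3)) 3, ← Real.rpow_mul hT0.le]
          congr 2
          push_cast
          ring
    have h4 : Real.log T ^ ((2:ℝ) + 1) = Real.log T ^ 3 := by
      have : (2:ℝ) + 1 = ((3:ℕ):ℝ) := by norm_num
      rw [this, Real.rpow_natCast]
    rw [h4, le_div_iff₀ (by positivity)]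
    have h5 : T ^ (2 - θ) * T ^ θ = T ^ 2 := by
      rw [← Real.rpow_add hT0, sub_add_cancel]
      norm_num
    calc C * T ^ (2 - θ) * Real.log T ^ 3 ≤ C * T ^ (2 - θ) * ((3 / θ) ^ 3 * T ^ θ) := by gcongr
      _ = C * (3 / θ) ^ 3 * (T ^ (2 - θ) * T ^ θ) := by ring
      _ = _ := by rw [h5])
  obtain ⟨h1, h2, _⟩ := Pool.Agent.Helper90.WM.concl hR.h90 hGQ
  have e : ∀ ρ : ℂ, (1 / ‖(ρ : ℂ) * deriv riemannZeta ρ‖) ^ 2 = ‖aa ρ‖ ^ 2 := by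
    intro ρ
    rw [norm_aa_sq, div_pow, one_pow]
  refine ⟨?_, ?_⟩
  · refine h1.congr fun ρ => ?_
    exact e ρ
  · have : ∑' ρ : NT, ‖aa ρ‖ ^ 2 = ∑' ρ : Pool.Agent.Helper90.WM.NT, (1 / ‖(ρ : ℂ) * deriv riemannZeta ρ‖) ^ 2 := by
      refine tsum_congr fun ρ => ?_
      exact (e ρ).symm
    rw [this]
    exact h2

/-- upper bound for the weight -/
lemma wH_le_min (hR : RHS) {H : ℝ} (hH : 0 < H) (hH1 : H ≤ 1) {ρ : ℂ} (hρ : ρ ∈ NT) :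
    wH H ρ ≤ 9 ∧ (‖ρ‖ * H ≤ 1 → wH H ρ ≤ 9 * (‖ρ‖ * H) ^ 2) := by
  constructor
  · refine (wH_le hR hρ).trans ?_
    have h1 : Real.exp (H / 2) ≤ 2 := by
      have h2 : Real.exp (H / 2) ≤ Real.exp (1 / 2) := Real.exp_le_exp.2 (by linarith)
      have h3 : Real.exp (1 / 2) ^ 2 = Real.exp 1 := by
        rw [← Real.exp_nat_mul]; congr 1; norm_num
      have h4 := Real.exp_one_lt_d9
      have h5 := Real.exp_pos (1 / 2)
      nlinarith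
    have h2 : (Real.exp (H / 2) + 1) ^ 2 ≤ (2 + 1) ^ 2 := by
      have := Real.exp_pos (H / 2)
      gcongr
    linarith
  · intro h
    unfold wH
    have h1 : ‖ρ * H‖ = ‖ρ‖ * H := by rw [norm_mul, Complex.norm_real, Real.norm_of_nonneg hH.le]
    have h2 := Complex.norm_exp_sub_one_le (x := ρ * H) (by rw [h1]; exact h)
    rw [h1] at h2
    calc ‖Complex.exp (ρ * H) - 1‖ ^ 2 ≤ (2 * (‖ρ‖ * H)) ^ 2 := by gcongr
      _ ≤ 9 * (‖ρ‖ * H) ^ 2 := by nlinarith [sq_nonneg (‖ρ‖ * H)]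

/-- the kernel `2 t^{-3}` -/
def k3 (t : ℝ) : ℝ := 2 * t ^ (-3 : ℝ)

lemma k3_nonneg {t : ℝ} (ht : 0 < t) : 0 ≤ k3 t := by unfold k3; positivity

lemma k3_int {c : ℝ} (hc : 0 < c) : IntegrableOn k3 (Ioi c) ∧ ∫ t in Ioi c, k3 t = (c ^ 2)⁻¹ := by
  unfold k3
  constructor
  · exact (integrableOn_Ioi_rpow_of_lt (by norm_num) hc).const_mul 2
  · rw [integral_const_mul, integral_Ioi_rpow_of_lt (by norm_num) hc]
    have : (-3 : ℝ) + 1 = -((2:ℕ):ℝ) := by norm_num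
    rw [this, Real.rpow_neg hc.le, Real.rpow_natCast]
    push_cast
    ring

/-- the weight as an integral -/
lemma weight_int (hR : RHS) {H : ℝ} (hH : 0 < H) (hH1 : H ≤ 1) {ρ : ℂ} (hρ : ρ ∈ NT) :
    wH H ρ / ‖ρ‖ ^ 2 ≤ 9 * ∫ t in Ioi (1 / H), (Ici ‖ρ‖).indicator k3 t := by
  obtain ⟨h1, h2⟩ := wH_le_min hR hH hH1 hρ
  have hρ0 : 0 < ‖ρ‖ := norm_pos_iff.2 (NT_im_ne hρ).1
  rw [setIntegral_indicator measurableSet_Ici]
  rcases le_or_gt ‖ρ‖ (1 / H) with h | h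
  · have e : Ioi (1 / H) ∩ Ici ‖ρ‖ = Ioi (1 / H) := by
      ext t; simp only [mem_inter_iff, mem_Ioi, mem_Ici]
      exact ⟨fun h => h.1, fun h' => ⟨h', h.trans h'.le⟩⟩
    rw [e, (k3_int (by positivity)).2, div_le_iff₀ (by positivity)]
    have h3 : ‖ρ‖ * H ≤ 1 := by rwa [le_div_iff₀ hH] at h
    refine (h2 h3).trans (le_of_eq ?_)
    field_simp
  · have e : (Ioi (1 / H) ∩ Ici ‖ρ‖ : Set ℝ) = Ici ‖ρ‖ := by
      ext t; simp only [mem_inter_iff, mem_Ioi, mem_Ici]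
      exact ⟨fun h => h.2, fun h' => ⟨h.trans_le h', h'⟩⟩
    rw [e, integral_Ici_eq_integral_Ioi, (k3_int hρ0).2, div_eq_mul_inv]
    gcongr

theorem sum_wH_le (hR : RHS) {C θ : ℝ} (hθ : 0 < θ) (hθ2 : θ ≤ 2) (h : ∀ T : ℝ, 1 ≤ T → JM T ≤ C * T ^ (2 - θ))
    {H : ℝ} (hH : 0 < H) (hH1 : H ≤ 1) {Z : Finset ℂ} (hZ : ∀ ρ ∈ Z, ρ ∈ NT) :
    ∑ ρ ∈ Z, ‖aa ρ‖ ^ 2 * wH H ρ ≤ 9 * (4 * C / θ + zd (1 / 2)) * H ^ θ := by
  classical
  have hC : 0 ≤ C := by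
    have h1 := h 1 le_rfl
    rw [Real.one_rpow, mul_one] at h1
    exact (JM_nonneg 1).trans h1
  have hi : ∀ ρ ∈ Z, IntegrableOn (fun t => zd ρ * (Ici ‖ρ‖).indicator k3 t) (Ioi (1 / H)) := by
    intro ρ _
    exact ((k3_int (by positivity)).1.indicator measurableSet_Ici).const_mul _
  have h1 : ∑ ρ ∈ Z, ‖aa ρ‖ ^ 2 * wH H ρ ≤ 9 * ∫ t in Ioi (1 / H), ∑ ρ ∈ Z, zd ρ * (Ici ‖ρ‖).indicator k3 t := by
    rw [integral_finsetSum _ hi, Finset.mul_sum]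
    refine Finset.sum_le_sum fun ρ hρ => ?_
    rw [integral_const_mul, aa_sq]
    have := mul_le_mul_of_nonneg_left (weight_int hR hH hH1 (hZ ρ hρ)) (zd_nonneg ρ)
    calc zd ρ / ‖ρ‖ ^ 2 * wH H ρ = zd ρ * (wH H ρ / ‖ρ‖ ^ 2) := by ring
      _ ≤ _ := this
      _ = _ := by ring
  have hH1' : 1 ≤ 1 / H := by rw [le_div_iff₀ hH]; linarith
  have i1 : IntegrableOn (fun t : ℝ => 4 * C * t ^ (-1 - θ)) (Ioi (1 / H)) :=
    (integrableOn_Ioi_rpow_of_lt (by linarith) (by positivity)).const_mul _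
  have i2 : IntegrableOn (fun t : ℝ => zd (1 / 2) * k3 t) (Ioi (1 / H)) := (k3_int (by positivity)).1.const_mul _
  have h2 : ∫ t in Ioi (1 / H), ∑ ρ ∈ Z, zd ρ * (Ici ‖ρ‖).indicator k3 t ≤
      ∫ t in Ioi (1 / H), (4 * C * t ^ (-1 - θ) + zd (1 / 2) * k3 t) := by
    refine setIntegral_mono_on (integrable_finsetSum _ hi) (i1.add i2) measurableSet_Ioi fun t ht => ?_
    have ht1 : 1 ≤ t := hH1'.trans (le_of_lt ht)
    have ht0 : 0 < t := by linarith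
    have h3 : ∑ ρ ∈ Z, zd ρ * (Ici ‖ρ‖).indicator k3 t = (∑ ρ ∈ Z.filter (fun ρ => ‖ρ‖ ≤ t), zd ρ) * k3 t := by
      rw [Finset.sum_filter, Finset.sum_mul]
      refine Finset.sum_congr rfl fun ρ _ => ?_
      by_cases h4 : ‖ρ‖ ≤ t
      · rw [if_pos h4, indicator_of_mem (show t ∈ Ici ‖ρ‖ from h4)]
      · rw [if_neg h4, indicator_of_notMem (show t ∉ Ici ‖ρ‖ from h4), mul_zero, zero_mul]
    have h4 : ∑ ρ ∈ Z.filter (fun ρ => ‖ρ‖ ≤ t), zd ρ ≤ JA t := by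
      unfold JA
      refine Finset.sum_le_sum_of_subset_of_nonneg (fun ρ hρ => ?_) fun _ _ _ => zd_nonneg _
      rw [Finset.mem_filter] at hρ
      rw [mem_ZT]
      exact ⟨hZ ρ hρ.1, (Complex.abs_im_le_norm ρ).trans hρ.2⟩
    have h5 := JA_le hR t
    have h6 := h t ht1
    rw [h3]
    have h7 : t ^ (2 - θ) * k3 t = 2 * t ^ (-1 - θ) := by
      unfold k3
      rw [mul_left_comm, ← Real.rpow_add ht0]
      congr 2
      ring
    calc (∑ ρ ∈ Z.filter (fun ρ => ‖ρ‖ ≤ t), zd ρ) * k3 t ≤ (2 * (C * t ^ (2 - θ)) + zd (1 / 2)) * k3 t := by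
          apply mul_le_mul_of_nonneg_right _ (k3_nonneg ht0)
          linarith
      _ = 2 * C * (t ^ (2 - θ) * k3 t) + zd (1 / 2) * k3 t := by ring
      _ = _ := by rw [h7]; ring
  have h3 : ∫ t in Ioi (1 / H), (4 * C * t ^ (-1 - θ) + zd (1 / 2) * k3 t) = 4 * C / θ * H ^ θ + zd (1 / 2) * H ^ 2 := by
    rw [integral_add i1 i2, integral_const_mul, integral_const_mul, (k3_int (by positivity)).2,
      integral_Ioi_rpow_of_lt (by linarith) (by positivity)]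
    congr 1
    · have e1 : (-1 - θ + 1) = -θ := by ring
      rw [e1, Real.rpow_neg (by positivity), one_div, Real.inv_rpow hH.le, inv_inv]
      field_simp
    · field_simp
  have h4 : H ^ 2 ≤ H ^ θ := by
    have := Real.rpow_le_rpow_of_exponent_ge hH hH1 hθ2
    rwa [show H ^ (2:ℝ) = H ^ 2 by norm_num] at this
  calc ∑ ρ ∈ Z, ‖aa ρ‖ ^ 2 * wH H ρ ≤ 9 * (4 * C / θ * H ^ θ + zd (1 / 2) * H ^ 2) := by
        rw [← h3]
        exact h1.trans (mul_le_mul_of_nonneg_left h2 (by norm_num))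
    _ ≤ 9 * (4 * C / θ * H ^ θ + zd (1 / 2) * H ^ θ) := by
        have := zd_nonneg (1 / 2)
        gcongr
    _ = _ := by ring

/-- from moments to increments -/
theorem YD_of_JM (hR : RHS) {C θ : ℝ} (hθ : 0 < θ) (hθ2 : θ ≤ 2) (h : ∀ T : ℝ, 1 ≤ T → JM T ≤ C * T ^ (2 - θ)) :
    AsympP ∧ ∃ B : ℝ, 0 < B ∧ ∀ H : ℝ, 0 < H → H ≤ 1 → ∃ V₀ : ℝ, ∀ V : ℝ, V₀ ≤ V → YD H V ≤ B * H ^ θ * V := by
  have hA := Asymp_of_JM hR hθ h
  have hC : 0 ≤ C := by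
    have h1 := h 1 le_rfl
    rw [Real.one_rpow, mul_one] at h1
    exact (JM_nonneg 1).trans h1
  have hz := zd_nonneg (1 / 2)
  refine ⟨hA, 9 * (4 * C / θ + zd (1 / 2)) + 1, by positivity, fun H hH hH1 => ?_⟩
  have h1 := YD_lim hA hR hH.le
  have h2 : ∑' ρ : NT, ‖aa ρ‖ ^ 2 * wH H ρ ≤ 9 * (4 * C / θ + zd (1 / 2)) * H ^ θ := by
    refine (summable_wH hR hA.1 H).tsum_le_of_sum_le fun s => ?_
    have h3 := sum_wH_le hR hθ hθ2 h hH hH1 (Z := s.map (Function.Embedding.subtype _)) (by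
      intro ρ hρ
      rw [Finset.mem_map] at hρ
      obtain ⟨ρ', _, rfl⟩ := hρ
      exact ρ'.2)
    rw [Finset.sum_map] at h3
    exact h3
  have h3 : ∑' ρ : NT, ‖aa ρ‖ ^ 2 * wH H ρ < (9 * (4 * C / θ + zd (1 / 2)) + 1) * H ^ θ := by
    have : 0 < H ^ θ := by positivity
    linarith
  have h4 := h1.eventually_lt_const h3
  obtain ⟨V₀, hV₀⟩ := eventually_atTop.1 (h4.and (eventually_gt_atTop 0))
  refine ⟨V₀, fun V hV => ?_⟩
  obtain ⟨h5, h6⟩ := hV₀ V hV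
  rw [div_lt_iff₀ h6] at h5
  exact h5.le

/-- lower bound for the weight -/
lemma wH_ge (hR : RHS) {H : ℝ} (hH : 0 < H) {ρ : ℂ} (hρ : ρ ∈ NT) (h : |ρ.im| * H ≤ Real.pi) :
    4 / Real.pi ^ 2 * H ^ 2 * ‖ρ‖ ^ 2 ≤ wH H ρ := by
  have hp := Real.pi_pos
  have hp3 := Real.pi_gt_three
  have h1 : wH H ρ = (Real.exp (1 / 2 * H) - 1) ^ 2 + 2 * Real.exp (1 / 2 * H) * (1 - Real.cos (ρ.im * H)) := by
    unfold wH
    rw [← exp_sub_one_sq, mk_im hR hρ]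
  have h2 : ‖ρ‖ ^ 2 = 1 / 4 + ρ.im ^ 2 := by
    rw [← Complex.normSq_eq_norm_sq, Complex.normSq_apply, (hR ρ hρ).1]; ring
  have h3 : Real.cos (ρ.im * H) ≤ 1 - 2 / Real.pi ^ 2 * (ρ.im * H) ^ 2 := by
    apply Real.cos_le_one_sub_mul_cos_sq
    rw [abs_mul, abs_of_pos hH]; exact h
  rw [h1, h2]
  have h4 : 1 / 2 * H ≤ Real.exp (1 / 2 * H) - 1 := by
    have := Real.add_one_le_exp (1 / 2 * H)
    linarith
  have h5 : (1 / 2 * H) ^ 2 ≤ (Real.exp (1 / 2 * H) - 1) ^ 2 := by gcongr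
  have h6 : 1 ≤ Real.exp (1 / 2 * H) := Real.one_le_exp (by positivity)
  have h7 : 0 ≤ 1 - Real.cos (ρ.im * H) := by have := Real.cos_le_one (ρ.im * H); linarith
  have h8 : 2 * (1 - Real.cos (ρ.im * H)) ≤ 2 * Real.exp (1 / 2 * H) * (1 - Real.cos (ρ.im * H)) := by nlinarith
  have h9 : 4 / Real.pi ^ 2 ≤ 1 := by
    rw [div_le_one (by positivity)]; nlinarith
  have h10 : 4 / Real.pi ^ 2 * (H ^ 2 * (1 / 4)) ≤ 1 * (H ^ 2 * (1 / 4)) := by gcongr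
  calc 4 / Real.pi ^ 2 * H ^ 2 * (1 / 4 + ρ.im ^ 2)
      = 4 / Real.pi ^ 2 * (H ^ 2 * (1 / 4)) + 2 * (2 / Real.pi ^ 2 * (ρ.im * H) ^ 2) := by ring
    _ ≤ 1 * (H ^ 2 * (1 / 4)) + 2 * (1 - Real.cos (ρ.im * H)) := by gcongr; linarith
    _ = (1 / 2 * H) ^ 2 + 2 * (1 - Real.cos (ρ.im * H)) := by ring
    _ ≤ _ := by linarith

/-- `S_H` for `H = log(1+h)` controls `J_{-1}(1/h)` -/
lemma JM_le_S (hR : RHS) (hs : Summable (fun ρ : NT => ‖aa ρ‖ ^ 2)) {T : ℝ} (hT : 1 ≤ T) :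
    JM T ≤ Real.pi ^ 2 * T ^ 2 * ∑' ρ : NT, ‖aa ρ‖ ^ 2 * wH (Real.log (1 + 1 / T)) ρ := by
  classical
  have hp := Real.pi_pos
  have hp3 := Real.pi_gt_three
  have hT0 : 0 < T := by linarith
  set H := Real.log (1 + 1 / T) with hH
  have hH0 : 0 < H := Real.log_pos (by have : 0 < 1 / T := by positivity
                                       linarith)
  have hHT : H ≤ 1 / T := by
    have := Real.log_le_sub_one_of_pos (show 0 < 1 + 1 / T by positivity)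
    linarith
  have hHT2 : 1 / (2 * T) ≤ H := by
    have := Real.one_sub_inv_le_log_of_pos (show 0 < 1 + 1 / T by positivity)
    refine le_trans ?_ this
    have e : 1 - (1 + 1 / T)⁻¹ = 1 / (T + 1) := by field_simp; ring
    rw [e]
    exact one_div_le_one_div_of_le (by positivity) (by linarith)
  have hsw := summable_wH hR hs H
  have h1 : ∑ ρ ∈ (ZT T).filter (fun ρ => 0 < ρ.im), ‖aa ρ‖ ^ 2 * wH H ρ ≤ ∑' ρ : NT, ‖aa ρ‖ ^ 2 * wH H ρ := by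
    have hZ : ∀ ρ ∈ (ZT T).filter (fun ρ => 0 < ρ.im), ρ ∈ NT := fun ρ hρ => (mem_ZT.1 (Finset.mem_filter.1 hρ).1).1
    have h2 := hsw.sum_le_tsum (((ZT T).filter (fun ρ => 0 < ρ.im)).subtype (· ∈ NT))
      (fun ρ _ => mul_nonneg (by positivity) (wH_nonneg _ _))
    rwa [Finset.sum_subtype_of_mem (fun ρ => ‖aa ρ‖ ^ 2 * wH H ρ) hZ] at h2
  have h2 : 1 / (Real.pi ^ 2 * T ^ 2) * JM T ≤ ∑ ρ ∈ (ZT T).filter (fun ρ => 0 < ρ.im), ‖aa ρ‖ ^ 2 * wH H ρ := by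
    unfold JM
    rw [Finset.mul_sum]
    refine Finset.sum_le_sum fun ρ hρ => ?_
    obtain ⟨hρ1, hρ2⟩ := Finset.mem_filter.1 hρ
    obtain ⟨hρN, hρT⟩ := mem_ZT.1 hρ1
    have hρ0 : 0 < ‖ρ‖ := norm_pos_iff.2 (NT_im_ne hρN).1
    have h3 := wH_ge hR hH0 hρN (by
      calc |ρ.im| * H ≤ T * (1 / T) := by gcongr
        _ = 1 := by field_simp
        _ ≤ Real.pi := by linarith)
    have h4 : 1 / (Real.pi ^ 2 * T ^ 2) * ‖ρ‖ ^ 2 ≤ wH H ρ := by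
      refine le_trans ?_ h3
      have h5 : 1 / (Real.pi ^ 2 * T ^ 2) = 4 / Real.pi ^ 2 * (1 / (2 * T)) ^ 2 := by field_simp; norm_num
      rw [h5]
      gcongr
    rw [aa_sq]
    calc 1 / (Real.pi ^ 2 * T ^ 2) * zd ρ = zd ρ / ‖ρ‖ ^ 2 * (1 / (Real.pi ^ 2 * T ^ 2) * ‖ρ‖ ^ 2) := by
          field_simp
      _ ≤ _ := by
          apply mul_le_mul_of_nonneg_left h4
          have := zd_nonneg ρ
          positivity
  have h3 := h2.trans h1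
  have h4 : JM T = Real.pi ^ 2 * T ^ 2 * (1 / (Real.pi ^ 2 * T ^ 2) * JM T) := by field_simp
  rw [h4]
  gcongr

/-- bounds of power type give small increments -/
lemma Inc_of_pow {B θ : ℝ} (hθ : 0 < θ) (h : ∀ H : ℝ, 0 < H → H ≤ Real.log 2 → ∃ V₀ : ℝ, ∀ V : ℝ, V₀ ≤ V →
    YD H V ≤ B * (Real.exp H - 1) ^ θ * V) : IncP := by
  intro ε hε
  have h1 : Tendsto (fun H : ℝ => B * (Real.exp H - 1) ^ θ) (𝓝[>] 0) (𝓝 0) := by
    have h2 : Continuous (fun H : ℝ => B * (Real.exp H - 1) ^ θ) :=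
      continuous_const.mul ((Real.continuous_exp.sub continuous_const).rpow_const (fun _ => Or.inr hθ.le))
    have h3 := h2.tendsto 0
    rw [Real.exp_zero, sub_self, Real.zero_rpow hθ.ne', mul_zero] at h3
    exact h3.mono_left nhdsWithin_le_nhds
  obtain ⟨H₀, hH₀, h2⟩ := ev_to _ (h1.eventually_lt_const hε)
  have hl2 : 0 < Real.log 2 := Real.log_pos (by norm_num)
  refine ⟨min H₀ (Real.log 2), by positivity, fun H hH hH1 => ?_⟩
  obtain ⟨V₀, hV₀⟩ := h H hH (hH1.trans (min_le_right _ _))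
  refine ⟨max V₀ 0, fun V hV => ?_⟩
  have h3 := h2 H hH (hH1.trans (min_le_left _ _))
  have hV0 : 0 ≤ V := (le_max_right _ _).trans hV
  refine (hV₀ V ((le_max_left _ _).trans hV)).trans ?_
  gcongr

/-- from increments to moments -/
theorem JM_of_YD {B θ : ℝ} (hθ : 0 < θ) (h : ∀ H : ℝ, 0 < H → H ≤ Real.log 2 → ∃ V₀ : ℝ, ∀ V : ℝ, V₀ ≤ V →
    YD H V ≤ B * (Real.exp H - 1) ^ θ * V) : RHS ∧ ∀ T : ℝ, 1 ≤ T → JM T ≤ Real.pi ^ 2 * B * T ^ (2 - θ) := by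
  have hI := Inc_of_pow hθ h
  have hR := (Ab_of_Inc hI).1
  have hA := Asymp_of_Inc hI
  refine ⟨hR, fun T hT => ?_⟩
  have hp := Real.pi_pos
  have hT0 : 0 < T := by linarith
  have h1T : 0 < 1 / T := by positivity
  have h1T' : 1 / T ≤ 1 := by rw [div_le_one hT0]; exact hT
  set H := Real.log (1 + 1 / T) with hH
  have hH0 : 0 < H := Real.log_pos (by linarith)
  have hH2 : H ≤ Real.log 2 := Real.log_le_log (by positivity) (by linarith)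
  have hexp : Real.exp H - 1 = 1 / T := by rw [hH, Real.exp_log (by positivity)]; ring
  obtain ⟨V₀, hV₀⟩ := h H hH0 hH2
  have h1 : ∑' ρ : NT, ‖aa ρ‖ ^ 2 * wH H ρ ≤ B * (1 / T) ^ θ := by
    refine le_of_tendsto (YD_lim hA hR hH0.le) ?_
    filter_upwards [eventually_ge_atTop V₀, eventually_gt_atTop 0] with V hV hV0
    rw [div_le_iff₀ hV0, ← hexp]
    exact hV₀ V hV
  have h2 := JM_le_S hR hA.1 hT
  rw [← hH] at h2
  refine h2.trans ?_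
  have h3 : T ^ (2 - θ) = T ^ 2 * (1 / T) ^ θ := by
    rw [Real.rpow_sub hT0, one_div, Real.inv_rpow hT0.le, ← div_eq_mul_inv]
    norm_num
  rw [h3]
  calc Real.pi ^ 2 * T ^ 2 * ∑' ρ : NT, ‖aa ρ‖ ^ 2 * wH H ρ ≤ Real.pi ^ 2 * T ^ 2 * (B * (1 / T) ^ θ) := by gcongr
    _ = _ := by ring

end

end Pool.Agent.Helper37.WMH
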