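import Pool.Agent.Helper37.WMH.Young

/-! The left line compared with the right line. -/

set_option autoImplicit false

open MeasureTheory Filter Topology Set
open scoped ENNReal

namespace Pool.Agent.Helper37.WMH

open Pool.Agent.H295R2

noncomputable section

lemma left_empty (hR : RHS) {σ : ℝ} (h0 : 0 < σ) (h1 : σ ≤ 1 / 4) :
    ∫⁻ t : ℝ, ‖hh ∅ ⟨1 / 2 - σ, t⟩‖ₑ ^ 2 ≤ ENNReal.ofReal (48 ^ 2) * ∫⁻ t : ℝ, ‖hh ∅ ⟨1 / 2 + σ, t⟩‖ₑ ^ 2 := by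
  rw [← lintegral_const_mul' _ _ ENNReal.ofReal_ne_top]
  refine lintegral_mono fun t => ?_
  have h2 := line_compare h0 h1 (t := t) (zeta_ne_of (by simp only; linarith) (off_line hR (by linarith) t))
  unfold hh QZ
  simp only [Finset.sum_empty, sub_zero]
  rw [← ofReal_norm, ← ofReal_norm, ← ENNReal.ofReal_pow (norm_nonneg _), ← ENNReal.ofReal_pow (norm_nonneg _),
    ← ENNReal.ofReal_mul (by positivity), ← mul_pow]
  apply ENNReal.ofReal_le_ofReal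
  gcongr

lemma gap {T : ℝ} (_hT : 0 ≤ T) : ∃ T' : ℝ, T < T' ∧ ∀ ρ ∈ NT, |ρ.im| ≤ T' → |ρ.im| ≤ T := by
  classical
  set S : Finset ℂ := (ZT (T + 1)).filter (fun ρ => T < |ρ.im|) with hS
  rcases S.eq_empty_or_nonempty with h | h
  · refine ⟨T + 1, by linarith, fun ρ hρ h2 => ?_⟩
    by_contra hc
    push Not at hc
    have : ρ ∈ S := by
      rw [hS, Finset.mem_filter, mem_ZT]
      exact ⟨⟨hρ, h2⟩, hc⟩
    rw [h] at this
    exact Finset.notMem_empty _ this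
  · obtain ⟨ρ₀, h0, hmin⟩ := S.exists_min_image (fun ρ => |ρ.im|) h
    have h1 : T < |ρ₀.im| ∧ |ρ₀.im| ≤ T + 1 := by
      rw [hS, Finset.mem_filter, mem_ZT] at h0
      exact ⟨h0.2, h0.1.2⟩
    refine ⟨(T + |ρ₀.im|) / 2, by linarith, fun ρ hρ h2 => ?_⟩
    by_contra hc
    push Not at hc
    have : ρ ∈ S := by
      rw [hS, Finset.mem_filter, mem_ZT]
      exact ⟨⟨hρ, by linarith⟩, hc⟩
    have h5 : |ρ₀.im| ≤ |ρ.im| := hmin ρ this
    linarith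

/-- removing the pole -/
lemma near_pole (hR : RHS) {p : ℂ} (hp : p ∈ NT) :
    ∃ C : ℝ, ∀ᶠ s in 𝓝[≠] p, ‖HH s - aa p / (s - p)‖ ≤ C := by
  have hd : Differentiable ℂ (dslope ff p) := by
    rw [← differentiableOn_univ]
    exact (Complex.differentiableOn_dslope univ_mem).2 ff_diff.differentiableOn
  have h1 : dslope ff p p ≠ 0 := by
    rw [dslope_same, deriv_ff_NT hp]
    obtain ⟨h0, h1⟩ := NT_im_ne hp
    exact mul_ne_zero h0 (mul_ne_zero (sub_ne_zero.2 h1) (hR p hp).2)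
  set φ : ℂ → ℂ := fun s => (s - 1) / dslope ff p s with hφ
  have hφd : DifferentiableAt ℂ φ p := ((differentiableAt_id.sub_const 1).div (hd p) h1)
  have hφp : φ p = aa p := by
    rw [hφ]
    simp only
    rw [dslope_same, deriv_ff_NT hp]
    unfold aa
    obtain ⟨h0, h1⟩ := NT_im_ne hp
    have h2 := sub_ne_zero.2 h1
    have h3 := (hR p hp).2
    field_simp
  have hff : ff p = 0 := by
    unfold ff
    rw [(Zs_zero_iff (by linarith [hp.2.1])).2 hp, mul_zero]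
  have ht := hφd.hasDerivAt.tendsto_slope
  refine ⟨‖deriv φ p‖ + 1, ?_⟩
  have h2 := (ht.norm.eventually_lt_const (show ‖deriv φ p‖ < ‖deriv φ p‖ + 1 by linarith))
  filter_upwards [h2, self_mem_nhdsWithin] with s hs hne
  have hne' : s ≠ p := hne
  have hsp : s - p ≠ 0 := sub_ne_zero.2 hne'
  have h3 : HH s - aa p / (s - p) = slope φ p s := by
    have h4 : HH s = φ s / (s - p) := by
      rw [hφ]
      simp only
      rw [dslope_of_ne _ hne', slope_def_field, hff, sub_zero, HH_div]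
      unfold ff
      rw [div_div, div_mul_cancel₀ _ hsp]
    rw [slope_def_field, hφp, h4, sub_div]
  rw [h3]
  exact hs.le

/-- boundedness near the critical line -/
lemma near_bound (hR : RHS) {T T' : ℝ} (hg : ∀ ρ ∈ NT, |ρ.im| ≤ T' → |ρ.im| ≤ T) :
    ∃ C : ℝ, 0 ≤ C ∧ ∀ s : ℂ, 1 / 4 ≤ s.re → s.re ≤ 3 / 4 → |s.im| ≤ T' → s ∉ NT → ‖hh (ZT T) s‖ ≤ C := by
  classical
  have hK : IsCompact (Icc (1 / 4 : ℝ) (3 / 4) ×ℂ Icc (-T') T') := isCompact_Icc.reProdIm isCompact_Icc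
  have hloc : ∀ p ∈ Icc (1 / 4 : ℝ) (3 / 4) ×ℂ Icc (-T') T', ∃ C : ℝ, ∀ᶠ s in 𝓝 p, s ∉ NT → ‖hh (ZT T) s‖ ≤ C := by
    rintro p ⟨hp1, hp2⟩
    have hre : (1:ℝ) / 4 ≤ p.re := hp1.1
    have him : |p.im| ≤ T' := abs_le.2 hp2
    have hp0 : p ≠ 0 := by
      rintro rfl
      norm_num at hre
    have hQ : ∀ Z : Finset ℂ, p ∉ Z → ContinuousAt (QZ Z) p := by
      intro Z hpZ
      unfold QZ
      apply tendsto_finsetSum
      intro ρ hρ
      have hne : p - ρ ≠ 0 := sub_ne_zero.2 fun h => hpZ (h ▸ hρ)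
      exact ContinuousAt.div continuousAt_const (continuousAt_id.sub continuousAt_const) hne
    by_cases hpN : p ∈ NT
    · obtain ⟨C, hC⟩ := near_pole hR hpN
      have hpZ : p ∈ ZT T := mem_ZT.2 ⟨hpN, hg p hpN him⟩
      have h2 := (hQ ((ZT T).erase p) (Finset.notMem_erase _ _)).norm
      have h3 := h2.eventually_lt continuousAt_const (show ‖QZ ((ZT T).erase p) p‖ < ‖QZ ((ZT T).erase p) p‖ + 1 by linarith)
      refine ⟨C + (‖QZ ((ZT T).erase p) p‖ + 1), ?_⟩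
      rw [eventually_nhdsWithin_iff] at hC
      filter_upwards [h3, hC] with s hs1 hs2 hsN
      have hsp : s ≠ p := fun h => hsN (h ▸ hpN)
      have h4 : hh (ZT T) s = (HH s - aa p / (s - p)) - QZ ((ZT T).erase p) s := by
        unfold hh QZ
        rw [← Finset.add_sum_erase _ _ hpZ]
        ring
      rw [h4]
      exact (norm_sub_le _ _).trans (add_le_add (hs2 hsp) hs1.le)
    · have h1 : ContinuousAt (hh (ZT T)) p :=
        (HH_diffAt hp0 (by linarith) hpN).continuousAt.sub (hQ (ZT T) fun h => hpN (mem_ZT.1 h).1)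
      have h3 := h1.norm.eventually_lt continuousAt_const (show ‖hh (ZT T) p‖ < ‖hh (ZT T) p‖ + 1 by linarith)
      refine ⟨‖hh (ZT T) p‖ + 1, ?_⟩
      filter_upwards [h3] with s hs _
      exact hs.le
  have hind := hK.induction_on (p := fun S => ∃ C : ℝ, ∀ s ∈ S, s ∉ NT → ‖hh (ZT T) s‖ ≤ C)
    ⟨0, fun s hs => absurd hs (notMem_empty s)⟩
    (fun S S' hSS ⟨C, hC⟩ => ⟨C, fun s hs => hC s (hSS hs)⟩)
    (fun S S' ⟨C, hC⟩ ⟨C', hC'⟩ => ⟨max C C', fun s hs hn => by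
      rcases hs with hs | hs
      · exact (hC s hs hn).trans (le_max_left _ _)
      · exact (hC' s hs hn).trans (le_max_right _ _)⟩)
    (fun p hp => by
      obtain ⟨C, hC⟩ := hloc p hp
      exact ⟨_, mem_nhdsWithin_of_mem_nhds hC, C, fun s hs => hs⟩)
  obtain ⟨C, hC⟩ := hind
  refine ⟨max C 0, le_max_right _ _, fun s h1 h2 h3 h4 => (hC s ⟨⟨h1, h2⟩, abs_le.1 h3⟩ h4).trans (le_max_left _ _)⟩

/-- the polar part far away -/
lemma QZ_far {T T' : ℝ} (hT : 0 ≤ T) (hTT : T < T') : ∃ D : ℝ, 0 ≤ D ∧ ∀ a t : ℝ, T' ≤ |t| →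
    ‖QZ (ZT T) ⟨a, t⟩‖ ^ 2 ≤ D / (1 + t ^ 2) := by
  set c : ℝ := (T' - T) / (1 + T') with hc
  have hT' : 0 < 1 + T' := by linarith
  have hc0 : 0 < c := by rw [hc]; exact div_pos (by linarith) hT'
  have hc1 : c ≤ 1 := by rw [hc, div_le_one hT']; linarith
  have hcT : c * (1 + T') = T' - T := by rw [hc]; field_simp
  set A : ℝ := ∑ ρ ∈ ZT T, ‖aa ρ‖ with hA
  have hA0 : 0 ≤ A := Finset.sum_nonneg fun _ _ => norm_nonneg _
  refine ⟨A ^ 2 / c ^ 2, by positivity, fun a t ht => ?_⟩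
  have h1 : c * (1 + |t|) ≤ |t| - T := by nlinarith
  have h2 : 0 < c * (1 + |t|) := by positivity
  have h3 : ‖QZ (ZT T) ⟨a, t⟩‖ ≤ A / (c * (1 + |t|)) := by
    unfold QZ
    rw [hA, Finset.sum_div]
    refine (norm_sum_le _ _).trans (Finset.sum_le_sum fun ρ hρ => ?_)
    rw [norm_div]
    apply div_le_div_of_nonneg_left (norm_nonneg _) h2
    have h4 := Complex.abs_im_le_norm ((⟨a, t⟩ : ℂ) - ρ)
    rw [Complex.sub_im] at h4
    simp only at h4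
    have h5 := abs_sub_abs_le_abs_sub t ρ.im
    have h6 := (mem_ZT.1 hρ).2
    linarith
  calc ‖QZ (ZT T) ⟨a, t⟩‖ ^ 2 ≤ (A / (c * (1 + |t|))) ^ 2 := by gcongr
    _ = A ^ 2 / c ^ 2 / (1 + |t|) ^ 2 := by
      rw [div_pow, mul_pow, div_div]
    _ ≤ A ^ 2 / c ^ 2 / (1 + t ^ 2) := by
      apply div_le_div_of_nonneg_left (by positivity) (by positivity)
      nlinarith [abs_nonneg t, sq_abs t]

theorem left_ZT (hR : RHS) {T : ℝ} (hT : 0 ≤ T) : ∃ C : ℝ, 0 ≤ C ∧ ∀ σ : ℝ, 0 < σ → σ ≤ 1 / 4 →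
    ∫⁻ t : ℝ, ‖hh (ZT T) ⟨1 / 2 - σ, t⟩‖ₑ ^ 2 ≤
      ENNReal.ofReal (3 * 48 ^ 2) * (∫⁻ t : ℝ, ‖hh (ZT T) ⟨1 / 2 + σ, t⟩‖ₑ ^ 2) + ENNReal.ofReal C := by
  obtain ⟨T', hTT, hg⟩ := gap hT
  obtain ⟨C, hC0, hC⟩ := near_bound hR hg
  obtain ⟨D, hD0, hD⟩ := QZ_far hT hTT
  set G : ℝ → ℝ := fun t => (Icc (-T') T').indicator (fun _ => C ^ 2) t + 3 * (48 ^ 2 + 1) * D * (1 + t ^ 2)⁻¹ with hG
  have hG0 : ∀ t, 0 ≤ G t := by
    intro t
    have : 0 ≤ (Icc (-T') T').indicator (fun _ => C ^ 2) t := indicator_nonneg (fun _ _ => by positivity) _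
    rw [hG]; positivity
  have hGi : Integrable G := by
    refine Integrable.add ?_ (integrable_inv_one_add_sq.const_mul _)
    rw [integrable_indicator_iff measurableSet_Icc]
    exact integrableOn_const (by simp)
  refine ⟨∫ t, G t, integral_nonneg hG0, fun σ h0 h1 => ?_⟩
  rw [ofReal_integral_eq_lintegral_ofReal hGi (Eventually.of_forall hG0),
    ← lintegral_const_mul' _ _ ENNReal.ofReal_ne_top, ← lintegral_add_right' _ hGi.aestronglyMeasurable.aemeasurable.ennreal_ofReal]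
  refine lintegral_mono fun t => ?_
  have n1 : (1:ℝ) / 2 + σ ≠ 1 / 2 := by linarith
  have n2 : (1:ℝ) / 2 - σ ≠ 1 / 2 := by linarith
  rw [← ofReal_norm, ← ofReal_norm, ← ENNReal.ofReal_pow (norm_nonneg _), ← ENNReal.ofReal_pow (norm_nonneg _),
    ← ENNReal.ofReal_mul (by positivity), ← ENNReal.ofReal_add (by positivity) (hG0 t)]
  apply ENNReal.ofReal_le_ofReal
  by_cases ht : |t| ≤ T'
  · have h2 := hC ⟨1 / 2 - σ, t⟩ (by simp only; linarith) (by simp only; linarith) ht (off_line hR n2 t)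
    have h3 : C ^ 2 ≤ G t := by
      rw [hG]
      simp only
      rw [indicator_of_mem (show t ∈ Icc (-T') T' from abs_le.1 ht)]
      have : 0 ≤ 3 * (48 ^ 2 + 1) * D * (1 + t ^ 2)⁻¹ := by positivity
      linarith
    have h4 : ‖hh (ZT T) ⟨1 / 2 - σ, t⟩‖ ^ 2 ≤ C ^ 2 := by gcongr
    have h5 : 0 ≤ 3 * 48 ^ 2 * ‖hh (ZT T) ⟨1 / 2 + σ, t⟩‖ ^ 2 := by positivity
    linarith
  · push Not at ht
    have h2 := line_compare h0 h1 (t := t) (zeta_ne_of (by simp only; linarith) (off_line hR n1 t))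
    have q1 := hD (1 / 2 + σ) t ht.le
    have q2 := hD (1 / 2 - σ) t ht.le
    have h3 : ‖hh (ZT T) ⟨1 / 2 - σ, t⟩‖ ≤ 48 * ‖hh (ZT T) ⟨1 / 2 + σ, t⟩‖ + 48 * ‖QZ (ZT T) ⟨1 / 2 + σ, t⟩‖ +
        ‖QZ (ZT T) ⟨1 / 2 - σ, t⟩‖ := by
      have h4 : ‖HH ⟨1 / 2 + σ, t⟩‖ ≤ ‖hh (ZT T) ⟨1 / 2 + σ, t⟩‖ + ‖QZ (ZT T) ⟨1 / 2 + σ, t⟩‖ := by
        have : HH ⟨1 / 2 + σ, t⟩ = hh (ZT T) ⟨1 / 2 + σ, t⟩ + QZ (ZT T) ⟨1 / 2 + σ, t⟩ := by unfold hh; ring
        rw [this]; exact norm_add_le _ _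
      have h5 : ‖hh (ZT T) ⟨1 / 2 - σ, t⟩‖ ≤ ‖HH ⟨1 / 2 - σ, t⟩‖ + ‖QZ (ZT T) ⟨1 / 2 - σ, t⟩‖ := by
        unfold hh; exact norm_sub_le _ _
      linarith
    have h4 : 3 * (48 ^ 2 + 1) * D * (1 + t ^ 2)⁻¹ ≤ G t := by
      rw [hG]
      simp only
      have : 0 ≤ (Icc (-T') T').indicator (fun _ => C ^ 2) t := indicator_nonneg (fun _ _ => by positivity) _
      linarith
    have h5 : D / (1 + t ^ 2) = D * (1 + t ^ 2)⁻¹ := div_eq_mul_inv _ _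
    rw [h5] at q1 q2
    set x := ‖hh (ZT T) ⟨1 / 2 + σ, t⟩‖
    set y := ‖QZ (ZT T) ⟨1 / 2 + σ, t⟩‖
    set z := ‖QZ (ZT T) ⟨1 / 2 - σ, t⟩‖
    set w := ‖hh (ZT T) ⟨1 / 2 - σ, t⟩‖
    have hw : 0 ≤ w := norm_nonneg _
    have h6 : w ^ 2 ≤ 3 * (48 ^ 2 * x ^ 2 + 48 ^ 2 * y ^ 2 + z ^ 2) := by
      have h7 : w ^ 2 ≤ (48 * x + 48 * y + z) ^ 2 := by gcongr
      nlinarith [sq_nonneg (48 * x - 48 * y), sq_nonneg (48 * x - z), sq_nonneg (48 * y - z)]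
    nlinarith

end

end Pool.Agent.Helper37.WMH
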