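import Pool.Agent.Helper37.WMH.Abe

/-! The Tauberian direction. -/

set_option autoImplicit false

open MeasureTheory Filter Topology Set
open scoped ENNReal BoundedContinuousFunction

namespace Pool.Agent.Helper37.WMH

open Pool.Agent.H295R2

noncomputable section

lemma trig_id (ξ y : ℝ) : (1 - Real.cos y) * Real.cos (ξ * y) =
    1 / 2 * (1 - Real.cos ((ξ + 1) * y)) + 1 / 2 * (1 - Real.cos ((ξ - 1) * y)) - (1 - Real.cos (ξ * y)) := by
  have h1 : (ξ + 1) * y = ξ * y + y := by ring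
  have h2 : (ξ - 1) * y = ξ * y - y := by ring
  rw [h1, h2, Real.cos_add, Real.cos_sub]
  ring

lemma aa_conj (ρ : ℂ) : ‖aa ((starRingEnd ℂ) ρ)‖ = ‖aa ρ‖ := by
  unfold aa
  rw [deriv_conj, norm_div, norm_div, norm_mul, norm_mul, RCLike.norm_conj, RCLike.norm_conj]

/-- conjugation of zeros -/
def conjE : NT ≃ NT where
  toFun ρ := ⟨(starRingEnd ℂ) ρ, NT_conj ρ.2⟩
  invFun ρ := ⟨(starRingEnd ℂ) ρ, NT_conj ρ.2⟩
  left_inv _ := Subtype.ext (Complex.conj_conj _)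
  right_inv _ := Subtype.ext (Complex.conj_conj _)

lemma EE_abs (x : ℝ) : EE |x| = EE x := by
  rcases abs_choice x with h | h
  · rw [h]
  · rw [h]
    unfold EE
    refine tsum_congr fun ρ => ?_
    rw [mul_neg, Real.cos_neg]

lemma EE_zero : EE 0 = 0 := by
  unfold EE
  simp

lemma EE_nonneg (x : ℝ) : 0 ≤ EE x := tsum_nonneg fun _ => mul_nonneg (by positivity) (one_sub_cos_nonneg _)

/-- scaling of the structure function -/
lemma EE_scale {c : ℝ} (h : Tendsto (fun x => EE x / x) (𝓝[>] 0) (𝓝 (Real.pi * c))) {u : ℕ → ℝ}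
    (hu : Tendsto u atTop atTop) (ξ : ℝ) : Tendsto (fun n => u n * EE (ξ / u n)) atTop (𝓝 (Real.pi * c * |ξ|)) := by
  rcases eq_or_ne ξ 0 with rfl | hξ
  · simp [EE_zero]
  · have hξ0 : 0 < |ξ| := abs_pos.2 hξ
    have h1 : Tendsto (fun n => |ξ| / u n) atTop (𝓝[>] 0) := by
      refine tendsto_nhdsWithin_iff.2 ⟨tendsto_const_nhds.div_atTop hu, ?_⟩
      filter_upwards [hu.eventually_gt_atTop 0] with n hn
      exact div_pos hξ0 hn
    have h2 := (h.comp h1).mul_const |ξ|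
    refine h2.congr' ?_
    filter_upwards [hu.eventually_gt_atTop 0] with n hn
    simp only [Function.comp]
    have h3 : EE (ξ / u n) = EE (|ξ| / u n) := by
      rw [← EE_abs (ξ / u n), abs_div, abs_of_pos hn]
    rw [h3]
    field_simp

/-- the masses -/
def wT (T : ℝ) (ρ : NT) : ℝ := T * (‖aa ρ‖ ^ 2 * (1 - Real.cos ((ρ : ℂ).im * (1 / T))))

lemma wT_nonneg {T : ℝ} (hT : 0 ≤ T) (ρ : NT) : 0 ≤ wT T ρ :=
  mul_nonneg hT (mul_nonneg (by positivity) (one_sub_cos_nonneg _))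

lemma wT_summable (hs : Summable (fun ρ : NT => ‖aa ρ‖ ^ 2)) (T : ℝ) : Summable (wT T) :=
  (EE_summable hs (1 / T)).mul_left T

lemma wT_tsum (T : ℝ) : ∑' ρ : NT, wT T ρ = T * EE (1 / T) := by
  unfold wT EE
  rw [tsum_mul_left]

/-- the measures -/
def muT (T : ℝ) : Measure ℝ := Measure.sum (fun ρ : NT => ENNReal.ofReal (wT T ρ) • Measure.dirac ((ρ : ℂ).im / T))

lemma muT_univ (hs : Summable (fun ρ : NT => ‖aa ρ‖ ^ 2)) {T : ℝ} (hT : 0 ≤ T) :
    muT T univ = ENNReal.ofReal (T * EE (1 / T)) := by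
  unfold muT
  rw [Measure.sum_apply _ MeasurableSet.univ, ← wT_tsum, ENNReal.ofReal_tsum_of_nonneg (wT_nonneg hT) (wT_summable hs T)]
  refine tsum_congr fun ρ => ?_
  simp

lemma muT_integral {E : Type*} [NormedAddCommGroup E] [NormedSpace ℝ E] [FiniteDimensional ℝ E]
    {T : ℝ} (hT : 0 ≤ T) (F : ℝ → E) : ∫ x, F x ∂(muT T) = ∑' ρ : NT, wT T ρ • F ((ρ : ℂ).im / T) := by
  unfold muT
  rw [integral_sum_dirac fun _ => ENNReal.ofReal_ne_top]
  refine tsum_congr fun ρ => ?_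
  rw [ENNReal.toReal_ofReal (wT_nonneg hT ρ)]

lemma wT_conj (T : ℝ) (ρ : NT) : wT T (conjE ρ) = wT T ρ := by
  unfold wT conjE
  simp only [Equiv.coe_fn_mk, aa_conj, Complex.conj_im, neg_mul, Real.cos_neg]

/-- the Fourier transform of the measures -/
lemma muT_char (hs : Summable (fun ρ : NT => ‖aa ρ‖ ^ 2)) {T : ℝ} (hT : 0 < T) (ξ : ℝ) :
    ∫ x : ℝ, Complex.exp (ξ * x * Complex.I) ∂(muT T) =
      ((1 / 2 * (T * EE ((ξ + 1) / T)) + 1 / 2 * (T * EE ((ξ - 1) / T)) - T * EE (ξ / T) : ℝ) : ℂ) := by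
  rw [muT_integral hT.le]
  set f : NT → ℂ := fun ρ => wT T ρ • Complex.exp (ξ * (((ρ : ℂ).im / T : ℝ) : ℂ) * Complex.I) with hf
  have hfs : Summable f := by
    refine Summable.of_norm ((wT_summable hs T).congr fun ρ => ?_)
    rw [hf]
    simp only
    rw [norm_smul, Real.norm_of_nonneg (wT_nonneg hT.le ρ), ← Complex.ofReal_mul, Complex.norm_exp_ofReal_mul_I, mul_one]
  have h1 : ∑' ρ, f ρ = ∑' ρ, f (conjE ρ) := (conjE.tsum_eq f).symm
  have hfs2 : Summable (fun ρ => f (conjE ρ)) := (conjE.summable_iff (f := f)).2 hfs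
  have h2 : ∑' ρ, f ρ = 1 / 2 * ∑' ρ, (f ρ + f (conjE ρ)) := by
    rw [hfs.tsum_add hfs2, ← h1]; ring
  have h3 : ∀ ρ, f ρ + f (conjE ρ) = ((2 * (wT T ρ * Real.cos (ξ * ((ρ : ℂ).im / T))) : ℝ) : ℂ) := by
    intro ρ
    rw [hf]
    simp only
    rw [wT_conj]
    have h4 : (((conjE ρ : NT) : ℂ).im / T : ℝ) = -((ρ : ℂ).im / T) := by
      unfold conjE; simp only [Equiv.coe_fn_mk, Complex.conj_im]; ring
    rw [h4, ← smul_add, Complex.real_smul]
    have h5 : Complex.exp (ξ * (((ρ : ℂ).im / T : ℝ) : ℂ) * Complex.I) +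
        Complex.exp (ξ * ((-((ρ : ℂ).im / T) : ℝ) : ℂ) * Complex.I) =
        2 * Complex.cos (ξ * (((ρ : ℂ).im / T : ℝ) : ℂ)) := by
      rw [Complex.two_cos]
      congr 2
      push_cast
      ring
    rw [h5]
    push_cast
    ring
  rw [h2]
  simp_rw [h3]
  rw [← Complex.ofReal_tsum, tsum_mul_left]
  have h4 : ∀ ρ : NT, wT T ρ * Real.cos (ξ * ((ρ : ℂ).im / T)) =
      1 / 2 * (T * (‖aa ρ‖ ^ 2 * (1 - Real.cos ((ρ : ℂ).im * ((ξ + 1) / T))))) +
      1 / 2 * (T * (‖aa ρ‖ ^ 2 * (1 - Real.cos ((ρ : ℂ).im * ((ξ - 1) / T))))) -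
      T * (‖aa ρ‖ ^ 2 * (1 - Real.cos ((ρ : ℂ).im * (ξ / T)))) := by
    intro ρ
    unfold wT
    have h5 := trig_id ξ ((ρ : ℂ).im / T)
    have e1 : (ρ : ℂ).im * (1 / T) = (ρ : ℂ).im / T := by ring
    have e2 : (ρ : ℂ).im * ((ξ + 1) / T) = (ξ + 1) * ((ρ : ℂ).im / T) := by ring
    have e3 : (ρ : ℂ).im * ((ξ - 1) / T) = (ξ - 1) * ((ρ : ℂ).im / T) := by ring
    have e4 : (ρ : ℂ).im * (ξ / T) = ξ * ((ρ : ℂ).im / T) := by ring
    rw [e1, e2, e3, e4]
    linear_combination (T * ‖aa ρ‖ ^ 2) * h5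
  have hS : ∀ x : ℝ, Summable (fun ρ : NT => T * (‖aa ρ‖ ^ 2 * (1 - Real.cos ((ρ : ℂ).im * x)))) :=
    fun x => (EE_summable hs x).mul_left T
  have h5 : ∑' ρ : NT, wT T ρ * Real.cos (ξ * ((ρ : ℂ).im / T)) =
      1 / 2 * (T * EE ((ξ + 1) / T)) + 1 / 2 * (T * EE ((ξ - 1) / T)) - T * EE (ξ / T) := by
    simp_rw [h4]
    rw [((hS _).mul_left (1 / 2)).add ((hS _).mul_left (1 / 2)) |>.tsum_sub (hS _),
      ((hS _).mul_left (1 / 2)).tsum_add ((hS _).mul_left (1 / 2)), tsum_mul_left, tsum_mul_left, tsum_mul_left,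
      tsum_mul_left, tsum_mul_left]
    rfl
  rw [h5]
  push_cast
  ring

/-- the triangle function -/
def tri (ξ : ℝ) : ℝ := 1 / 2 * |ξ + 1| + 1 / 2 * |ξ - 1| - |ξ|

/-- the limit measure -/
def P0 : Measure ℝ := volume.withDensity (fun t => ENNReal.ofReal (hK t / Real.pi))

lemma P0_prob : IsProbabilityMeasure P0 := by
  constructor
  unfold P0
  rw [withDensity_apply _ MeasurableSet.univ, Measure.restrict_univ,
    ← ofReal_integral_eq_lintegral_ofReal (hK_int.1.div_const _)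
      (Eventually.of_forall fun t => div_nonneg (hK_nonneg t) Real.pi_pos.le), integral_div, hK_int.2,
    div_self Real.pi_pos.ne', ENNReal.ofReal_one]

lemma P0_integral {E : Type*} [NormedAddCommGroup E] [NormedSpace ℝ E] (F : ℝ → E) :
    ∫ x, F x ∂P0 = ∫ x, (hK x / Real.pi) • F x := by
  unfold P0
  rw [integral_withDensity_eq_integral_toReal_smul (hK_meas.div_const _).ennreal_ofReal
    (Eventually.of_forall fun _ => ENNReal.ofReal_lt_top)]
  refine integral_congr_ae (Eventually.of_forall fun x => ?_)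
  simp only
  rw [ENNReal.toReal_ofReal (div_nonneg (hK_nonneg x) Real.pi_pos.le)]

lemma P0_char (ξ : ℝ) : ∫ x : ℝ, Complex.exp (ξ * x * Complex.I) ∂P0 = ((tri ξ : ℝ) : ℂ) := by
  rw [P0_integral]
  set f : ℝ → ℂ := fun x => (hK x / Real.pi) • Complex.exp (ξ * x * Complex.I) with hf
  have hfi : Integrable f := by
    refine (hK_int.1.div_const Real.pi).mono' ?_ (Eventually.of_forall fun x => ?_)
    · exact ((hK_meas.div_const _).smul (Continuous.measurable (by fun_prop))).aestronglyMeasurable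
    · rw [hf]
      simp only
      rw [norm_smul, Real.norm_of_nonneg (div_nonneg (hK_nonneg x) Real.pi_pos.le), ← Complex.ofReal_mul,
        Complex.norm_exp_ofReal_mul_I, mul_one]
  have h1 : ∫ x, f x = ∫ x, f (-x) := (integral_neg_eq_self f volume).symm
  have h2 : ∫ x, f x = 1 / 2 * ∫ x, (f x + f (-x)) := by
    rw [integral_add hfi hfi.comp_neg, ← h1]; ring
  have h3 : ∀ x : ℝ, f x + f (-x) = ((2 * (hK x / Real.pi * Real.cos (ξ * x)) : ℝ) : ℂ) := by
    intro x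
    rw [hf]
    simp only
    have h4 : hK (-x) = hK x := by rw [← hK_abs (-x), abs_neg, hK_abs]
    rw [h4, ← smul_add, Complex.real_smul]
    have h5 : Complex.exp (ξ * x * Complex.I) + Complex.exp (ξ * ((-x : ℝ) : ℂ) * Complex.I) =
        2 * Complex.cos (ξ * x) := by
      rw [Complex.two_cos]
      congr 2
      push_cast
      ring
    rw [h5]
    push_cast
    ring
  rw [h2]
  simp_rw [h3]
  rw [integral_complex_ofReal, integral_const_mul]
  have h4 : ∀ x : ℝ, hK x / Real.pi * Real.cos (ξ * x) = 1 / Real.pi * (1 / 2 * ((1 - Real.cos ((ξ + 1) * x)) / x ^ 2) +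
      1 / 2 * ((1 - Real.cos ((ξ - 1) * x)) / x ^ 2) - (1 - Real.cos (ξ * x)) / x ^ 2) := by
    intro x
    unfold hK
    have h5 := trig_id ξ x
    have e : (1 - Real.cos x) / x ^ 2 / Real.pi * Real.cos (ξ * x) =
      1 / Real.pi * (((1 - Real.cos x) * Real.cos (ξ * x)) / x ^ 2) := by ring
    rw [e, h5]
    ring
  have h5 : ∫ x : ℝ, hK x / Real.pi * Real.cos (ξ * x) = tri ξ := by
    simp_rw [h4]
    obtain ⟨i1, j1⟩ := hK_scale (ξ + 1)
    obtain ⟨i2, j2⟩ := hK_scale (ξ - 1)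
    obtain ⟨i3, j3⟩ := hK_scale ξ
    rw [integral_const_mul]
    have t1 := integral_sub ((i1.const_mul (1 / 2)).add (i2.const_mul (1 / 2))) i3
    have t2 := integral_add (i1.const_mul (1 / 2)) (i2.const_mul (1 / 2))
    simp only [Pi.add_apply] at t1
    rw [t1, t2, integral_const_mul, integral_const_mul, j1, j2, j3]
    unfold tri
    have := Real.pi_pos
    field_simp
  rw [h5]
  push_cast
  ring

end

end Pool.Agent.Helper37.WMH
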