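import Pool.Agent.Helper37.WMH.Lev

/-! The Tauberian theorem. -/

set_option autoImplicit false

open MeasureTheory Filter Topology Set
open scoped ENNReal BoundedContinuousFunction

namespace Pool.Agent.Helper37.WMH

open Pool.Agent.H295R2

noncomputable section

/-- the normalised measures -/
def PT (hs : Summable (fun ρ : NT => ‖aa ρ‖ ^ 2)) {T : ℝ} (hT : 0 < T) (hE : 0 < EE (1 / T)) : ProbabilityMeasure ℝ :=
  ⟨(ENNReal.ofReal (T * EE (1 / T)))⁻¹ • muT T, ⟨by
    rw [Measure.smul_apply, muT_univ hs hT.le, smul_eq_mul]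
    exact ENNReal.inv_mul_cancel (ENNReal.ofReal_pos.2 (by positivity)).ne' ENNReal.ofReal_ne_top⟩⟩

lemma PT_integral {E : Type*} [NormedAddCommGroup E] [NormedSpace ℝ E] (hs : Summable (fun ρ : NT => ‖aa ρ‖ ^ 2))
    {T : ℝ} (hT : 0 < T) (hE : 0 < EE (1 / T)) (F : ℝ → E) :
    ∫ x, F x ∂(PT hs hT hE : Measure ℝ) = (T * EE (1 / T))⁻¹ • ∫ x, F x ∂(muT T) := by
  change ∫ x, F x ∂((ENNReal.ofReal (T * EE (1 / T)))⁻¹ • muT T) = _
  rw [integral_smul_measure, ENNReal.toReal_inv, ENNReal.toReal_ofReal (by positivity)]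

/-- the limit measure as a probability measure -/
def P0p : ProbabilityMeasure ℝ := ⟨P0, P0_prob⟩

lemma P0p_coe : (P0p : Measure ℝ) = P0 := rfl

theorem PT_tendsto (hs : Summable (fun ρ : NT => ‖aa ρ‖ ^ 2)) {c : ℝ} (hc : 0 < c)
    (h : Tendsto (fun x => EE x / x) (𝓝[>] 0) (𝓝 (Real.pi * c))) {u : ℕ → ℝ}
    (hu : Tendsto u atTop atTop) (hu0 : ∀ n, 0 < u n) (hE : ∀ n, 0 < EE (1 / u n)) :
    Tendsto (fun n => PT hs (hu0 n) (hE n)) atTop (𝓝 P0p) := by
  apply ProbabilityMeasure.tendsto_of_tendsto_charFun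
  intro ξ
  have hp := Real.pi_pos
  have e1 : charFun (P0p : Measure ℝ) ξ = ((tri ξ : ℝ) : ℂ) := by
    rw [charFun_apply_real, P0p_coe]
    exact P0_char ξ
  have e2 : ∀ n, charFun (PT hs (hu0 n) (hE n) : Measure ℝ) ξ =
      (((u n * EE (1 / u n))⁻¹ * (1 / 2 * (u n * EE ((ξ + 1) / u n)) + 1 / 2 * (u n * EE ((ξ - 1) / u n)) -
        u n * EE (ξ / u n)) : ℝ) : ℂ) := by
    intro n
    rw [charFun_apply_real, PT_integral, muT_char hs (hu0 n), Complex.real_smul]
    push_cast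
    ring
  rw [e1]
  simp_rw [e2]
  apply (Complex.continuous_ofReal.tendsto _).comp
  have h1 := EE_scale h hu 1
  have h2 := (((EE_scale h hu (ξ + 1)).const_mul (1 / 2)).add ((EE_scale h hu (ξ - 1)).const_mul (1 / 2))).sub
    (EE_scale h hu ξ)
  rw [abs_one, mul_one] at h1
  have h3 := (h1.inv₀ (by positivity)).mul h2
  have e3 : (Real.pi * c)⁻¹ * (1 / 2 * (Real.pi * c * |ξ + 1|) + 1 / 2 * (Real.pi * c * |ξ - 1|) - Real.pi * c * |ξ|) = tri ξ := by
    unfold tri
    field_simp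
  rw [e3] at h3
  exact h3

/-- trapezoids -/
def chi (r η t : ℝ) : ℝ := max 0 (min 1 ((r - |t|) / η))

lemma chi_cont (r η : ℝ) : Continuous (chi r η) := by unfold chi; fun_prop

lemma chi_nonneg (r η t : ℝ) : 0 ≤ chi r η t := le_max_left _ _

lemma chi_le_one (r η t : ℝ) : chi r η t ≤ 1 := max_le zero_le_one (min_le_left _ _)

lemma chi_one {r η t : ℝ} (hη : 0 < η) (h : |t| ≤ r - η) : chi r η t = 1 := by
  unfold chi
  have : 1 ≤ (r - |t|) / η := by rw [le_div_iff₀ hη]; linarith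
  rw [min_eq_left this]
  exact max_eq_right zero_le_one

lemma chi_zero {r η t : ℝ} (hη : 0 < η) (h : r ≤ |t|) : chi r η t = 0 := by
  unfold chi
  have : (r - |t|) / η ≤ 0 := div_nonpos_of_nonpos_of_nonneg (by linarith) hη.le
  exact max_eq_left ((min_le_right _ _).trans this)

/-- `t²/(1 - cos t)`, cut off -/
def ph (t : ℝ) : ℝ := 2 / max (Real.sinc (t / 2) ^ 2) (4 / Real.pi ^ 2)

lemma ph_cont : Continuous ph := by
  unfold ph
  have hp := Real.pi_pos
  refine continuous_const.div ((Real.continuous_sinc.comp (continuous_id.div_const 2)).pow 2 |>.max continuous_const) ?_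
  intro t
  have : 0 < 4 / Real.pi ^ 2 := by positivity
  exact (this.trans_le (le_max_right _ _)).ne'

lemma ph_nonneg (t : ℝ) : 0 ≤ ph t := by
  unfold ph
  have hp := Real.pi_pos
  have : 0 < 4 / Real.pi ^ 2 := by positivity
  exact div_nonneg (by norm_num) (this.le.trans (le_max_right _ _))

lemma ph_le (t : ℝ) : ph t ≤ 8 := by
  unfold ph
  have hp := Real.pi_pos
  have hp4 := Real.pi_le_four
  have h0 : 0 < 4 / Real.pi ^ 2 := by positivity
  have h1 : 4 / Real.pi ^ 2 ≤ max (Real.sinc (t / 2) ^ 2) (4 / Real.pi ^ 2) := le_max_right _ _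
  rw [div_le_iff₀ (h0.trans_le h1)]
  have h2 : 1 / 4 ≤ 4 / Real.pi ^ 2 := by
    rw [div_le_div_iff₀ (by norm_num) (by positivity)]; nlinarith
  linarith

lemma ph_mul {t : ℝ} (h : |t| ≤ 2) : (1 - Real.cos t) * ph t = t ^ 2 := by
  rcases eq_or_ne t 0 with rfl | ht
  · simp
  · have hp := Real.pi_pos
    have hp3 := Real.pi_gt_three
    have h1 : Real.sinc (t / 2) ^ 2 = 2 * (1 - Real.cos t) / t ^ 2 := by
      rw [Real.sinc_of_ne_zero (by simpa using ht)]
      have h2 : Real.cos t = 1 - 2 * Real.sin (t / 2) ^ 2 := by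
        have h3 := Real.cos_sq' (t / 2)
        have h4 := Real.cos_sq (t / 2)
        have h5 : 2 * (t / 2) = t := by ring
        rw [h5] at h4
        linarith
      rw [h2]
      field_simp
      ring
    have h2 : Real.cos t ≤ 1 - 2 / Real.pi ^ 2 * t ^ 2 := Real.cos_le_one_sub_mul_cos_sq (by linarith)
    have h3 : 4 / Real.pi ^ 2 ≤ 2 * (1 - Real.cos t) / t ^ 2 := by
      rw [le_div_iff₀ (by positivity)]
      have : 4 / Real.pi ^ 2 * t ^ 2 = 2 * (2 / Real.pi ^ 2 * t ^ 2) := by ring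
      rw [this]
      linarith
    have h4 : 0 < 1 - Real.cos t := by
      have : 0 < 2 / Real.pi ^ 2 * t ^ 2 := by positivity
      linarith
    unfold ph
    rw [h1, max_eq_left h3]
    field_simp

/-- the test functions -/
def Fc (r η t : ℝ) : ℝ := ph t * chi r η t

lemma Fc_cont (r η : ℝ) : Continuous (Fc r η) := ph_cont.mul (chi_cont r η)

lemma Fc_nonneg (r η t : ℝ) : 0 ≤ Fc r η t := mul_nonneg (ph_nonneg t) (chi_nonneg r η t)

lemma Fc_le (r η t : ℝ) : Fc r η t ≤ 8 := by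
  unfold Fc
  have := mul_le_mul (ph_le t) (chi_le_one r η t) (chi_nonneg r η t) (by norm_num)
  linarith

lemma Fc_mul {r η : ℝ} (hη : 0 < η) (hr : r ≤ 2) (t : ℝ) : (1 - Real.cos t) * Fc r η t = t ^ 2 * chi r η t := by
  unfold Fc
  rcases le_or_gt |t| 2 with h | h
  · rw [← mul_assoc, ph_mul h]
  · rw [chi_zero hη (by linarith)]; ring

/-- the integral against the discrete measures -/
lemma muT_Fc {T : ℝ} (hT : 0 < T) {r η : ℝ} (hη : 0 < η) (hr : r ≤ 2) :
    ∫ x, Fc r η x ∂(muT T) = 1 / T * ∑' ρ : NT, gz ρ * chi r η ((ρ : ℂ).im / T) := by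
  rw [muT_integral hT.le, ← tsum_mul_left]
  refine tsum_congr fun ρ => ?_
  rw [smul_eq_mul]
  unfold wT gz
  have h1 := Fc_mul hη hr ((ρ : ℂ).im / T)
  have e1 : (ρ : ℂ).im * (1 / T) = (ρ : ℂ).im / T := by ring
  rw [e1]
  have e2 : T * (‖aa ρ‖ ^ 2 * (1 - Real.cos ((ρ : ℂ).im / T))) * Fc r η ((ρ : ℂ).im / T) =
      T * ‖aa ρ‖ ^ 2 * ((1 - Real.cos ((ρ : ℂ).im / T)) * Fc r η ((ρ : ℂ).im / T)) := by ring
  rw [e2, h1]
  field_simp

lemma chi_summable (hs : Summable (fun ρ : NT => ‖aa ρ‖ ^ 2)) {T : ℝ} (hT : 0 < T) {r η : ℝ} (hη : 0 < η) (hr : r ≤ 2) :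
    Summable (fun ρ : NT => gz ρ * chi r η ((ρ : ℂ).im / T)) := by
  refine Summable.of_nonneg_of_le (fun ρ => mul_nonneg (gz_nonneg _) (chi_nonneg _ _ _)) (fun ρ => ?_)
    (hs.mul_right ((2 * T) ^ 2))
  unfold gz
  rcases le_or_gt |(ρ : ℂ).im / T| 2 with h | h
  · rw [abs_div, abs_of_pos hT, div_le_iff₀ hT] at h
    have h1 : (ρ : ℂ).im ^ 2 ≤ (2 * T) ^ 2 := by rw [← sq_abs]; gcongr
    calc ‖aa ρ‖ ^ 2 * (ρ : ℂ).im ^ 2 * chi r η ((ρ : ℂ).im / T) ≤ ‖aa ρ‖ ^ 2 * (2 * T) ^ 2 * 1 :=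
          mul_le_mul (by gcongr) (chi_le_one _ _ _) (chi_nonneg _ _ _) (by positivity)
      _ = _ := mul_one _
  · rw [chi_zero hη (by linarith), mul_zero]
    positivity

lemma Gz_upper (hs : Summable (fun ρ : NT => ‖aa ρ‖ ^ 2)) {T : ℝ} (hT : 0 < T) {η : ℝ} (hη : 0 < η) (hη1 : η ≤ 1) :
    Gz T / T ≤ ∫ x, Fc (1 + η) η x ∂(muT T) := by
  classical
  rw [muT_Fc hT hη (by linarith), one_div, ← div_eq_inv_mul]
  gcongr
  have h1 := (chi_summable hs hT hη (r := 1 + η) (by linarith)).sum_le_tsum ((ZT T).subtype (· ∈ NT))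
    (fun ρ _ => mul_nonneg (gz_nonneg _) (chi_nonneg _ _ _))
  rw [Finset.sum_subtype_of_mem (fun ρ => gz ρ * chi (1 + η) η (ρ.im / T)) ZT_NT] at h1
  refine le_trans (le_of_eq ?_) h1
  unfold Gz
  refine Finset.sum_congr rfl fun ρ hρ => ?_
  rw [chi_one hη, mul_one]
  rw [abs_div, abs_of_pos hT, add_sub_cancel_right, div_le_one hT]
  exact (mem_ZT.1 hρ).2

lemma Gz_lower (hs : Summable (fun ρ : NT => ‖aa ρ‖ ^ 2)) {T : ℝ} (hT : 0 < T) {η : ℝ} (hη : 0 < η) :
    ∫ x, Fc 1 η x ∂(muT T) ≤ Gz T / T := by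
  classical
  rw [muT_Fc hT hη (by norm_num), one_div, ← div_eq_inv_mul]
  gcongr
  refine (chi_summable hs hT hη (r := 1) (by norm_num)).tsum_le_of_sum_le fun s => ?_
  have h1 : ∑ ρ ∈ s, gz ρ * chi 1 η ((ρ : ℂ).im / T) =
      ∑ ρ ∈ s.map (Function.Embedding.subtype _), gz ρ * chi 1 η (ρ.im / T) := by
    rw [Finset.sum_map]; rfl
  rw [h1]
  set Z : Finset ℂ := s.map (Function.Embedding.subtype _) with hZ
  have hZN : ∀ ρ ∈ Z, ρ ∈ NT := by
    intro ρ hρ
    rw [hZ, Finset.mem_map] at hρ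
    obtain ⟨ρ', _, rfl⟩ := hρ
    exact ρ'.2
  calc ∑ ρ ∈ Z, gz ρ * chi 1 η (ρ.im / T) = ∑ ρ ∈ Z.filter (fun ρ => |ρ.im| ≤ T), gz ρ * chi 1 η (ρ.im / T) := by
        rw [Finset.sum_filter]
        refine Finset.sum_congr rfl fun ρ _ => ?_
        by_cases h : |ρ.im| ≤ T
        · rw [if_pos h]
        · rw [if_neg h, chi_zero hη, mul_zero]
          rw [abs_div, abs_of_pos hT, le_div_iff₀ hT]
          push Not at h
          linarith
    _ ≤ ∑ ρ ∈ ZT T, gz ρ * 1 := by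
        refine (Finset.sum_le_sum fun ρ _ => mul_le_mul_of_nonneg_left (chi_le_one _ _ _) (gz_nonneg _)).trans ?_
        refine Finset.sum_le_sum_of_subset_of_nonneg (fun ρ hρ => ?_) fun ρ _ _ => by
          rw [mul_one]; exact gz_nonneg _
        rw [Finset.mem_filter] at hρ
        exact mem_ZT.2 ⟨hZN ρ hρ.1, hρ.2⟩
    _ = Gz T := by unfold Gz; simp

/-- the integral against the limit measure -/
lemma P0_Fc {r η : ℝ} (hη : 0 < η) (hr : r ≤ 2) : ∫ x, Fc r η x ∂P0 = 1 / Real.pi * ∫ x, chi r η x := by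
  rw [P0_integral, ← integral_const_mul]
  refine integral_congr_ae ?_
  have : ∀ᵐ t : ℝ, t ≠ 0 := by
    rw [ae_iff]; simp
  filter_upwards [this] with t ht
  have h1 := Fc_mul hη hr t
  unfold hK
  rw [smul_eq_mul]
  have e : (1 - Real.cos t) / t ^ 2 / Real.pi * Fc r η t = 1 / Real.pi * (((1 - Real.cos t) * Fc r η t) / t ^ 2) := by ring
  rw [e, h1]
  field_simp

lemma chi_int {r η : ℝ} (hη : 0 < η) : Integrable (chi r η) := by
  have h1 : Integrable ((Icc (-r) r).indicator (fun _ : ℝ => (1:ℝ))) := by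
    rw [integrable_indicator_iff measurableSet_Icc]
    exact integrableOn_const (by simp)
  refine h1.mono' (chi_cont r η).aestronglyMeasurable (Eventually.of_forall fun t => ?_)
  rw [Real.norm_of_nonneg (chi_nonneg _ _ _)]
  by_cases h : t ∈ Icc (-r) r
  · rw [indicator_of_mem h]; exact chi_le_one _ _ _
  · rw [indicator_of_notMem h, chi_zero hη]
    by_contra hc
    push Not at hc
    exact h (abs_le.1 hc.le)

lemma chi_int_le {r η : ℝ} (hη : 0 < η) (hr : 0 ≤ r) : ∫ x, chi r η x ≤ 2 * r := by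
  have h1 : Integrable ((Icc (-r) r).indicator (fun _ : ℝ => (1:ℝ))) := by
    rw [integrable_indicator_iff measurableSet_Icc]
    exact integrableOn_const (by simp)
  calc ∫ x, chi r η x ≤ ∫ x, (Icc (-r) r).indicator (fun _ : ℝ => (1:ℝ)) x := by
        refine integral_mono (chi_int hη) h1 fun t => ?_
        by_cases h : t ∈ Icc (-r) r
        · rw [indicator_of_mem h]; exact chi_le_one _ _ _
        · rw [indicator_of_notMem h, chi_zero hη]
          by_contra hc
          push Not at hc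
          exact h (abs_le.1 hc.le)
    _ = 2 * r := by
        rw [integral_indicator measurableSet_Icc, setIntegral_const]
        simp [hr]
        ring

lemma chi_int_ge {r η : ℝ} (hη : 0 < η) (hr : η ≤ r) : 2 * (r - η) ≤ ∫ x, chi r η x := by
  have h1 : Integrable ((Icc (-(r - η)) (r - η)).indicator (fun _ : ℝ => (1:ℝ))) := by
    rw [integrable_indicator_iff measurableSet_Icc]
    exact integrableOn_const (by simp)
  calc 2 * (r - η) = ∫ x, (Icc (-(r - η)) (r - η)).indicator (fun _ : ℝ => (1:ℝ)) x := by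
        rw [integral_indicator measurableSet_Icc, setIntegral_const, Measure.real, Real.volume_Icc,
          ENNReal.toReal_ofReal (by linarith), smul_eq_mul]
        ring
    _ ≤ _ := by
        refine integral_mono h1 (chi_int hη) fun t => ?_
        by_cases h : t ∈ Icc (-(r - η)) (r - η)
        · rw [indicator_of_mem h, chi_one hη (abs_le.2 h)]
        · rw [indicator_of_notMem h]; exact chi_nonneg _ _ _

/-- the limit of the test integrals -/
lemma Fc_lim (hs : Summable (fun ρ : NT => ‖aa ρ‖ ^ 2)) {c : ℝ} (hc : 0 < c)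
    (h : Tendsto (fun x => EE x / x) (𝓝[>] 0) (𝓝 (Real.pi * c))) {u : ℕ → ℝ}
    (hu : Tendsto u atTop atTop) (hu0 : ∀ n, 0 < u n) (hE : ∀ n, 0 < EE (1 / u n)) {r η : ℝ} (hη : 0 < η) (hr : r ≤ 2) :
    Tendsto (fun n => ∫ x, Fc r η x ∂(muT (u n))) atTop (𝓝 (c * ∫ x, chi r η x)) := by
  have hp := Real.pi_pos
  have h1 := PT_tendsto hs hc h hu hu0 hE
  rw [ProbabilityMeasure.tendsto_iff_forall_integral_tendsto] at h1
  have h2 := h1 (BoundedContinuousFunction.ofNormedAddCommGroup (Fc r η) (Fc_cont r η) 8 (fun t => by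
    rw [Real.norm_of_nonneg (Fc_nonneg _ _ _)]; exact Fc_le _ _ _))
  simp only [BoundedContinuousFunction.coe_ofNormedAddCommGroup] at h2
  have h3 := EE_scale h hu 1
  rw [abs_one, mul_one] at h3
  have h4 := h3.mul h2
  have e1 : Real.pi * c * ∫ x, Fc r η x ∂(P0p : Measure ℝ) = c * ∫ x, chi r η x := by
    rw [P0p_coe, P0_Fc hη hr]
    field_simp
  rw [e1] at h4
  refine h4.congr fun n => ?_
  rw [PT_integral, smul_eq_mul]
  have h5 : 0 < u n * EE (1 / u n) := mul_pos (hu0 n) (hE n)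
  rw [← mul_assoc, mul_inv_cancel₀ h5.ne', one_mul]

/-- the Tauberian theorem -/
theorem Gz_lim (hs : Summable (fun ρ : NT => ‖aa ρ‖ ^ 2)) {c : ℝ} (hc : 0 < c)
    (h : Tendsto (fun x => EE x / x) (𝓝[>] 0) (𝓝 (Real.pi * c))) : Tendsto (fun T => Gz T / T) atTop (𝓝 (2 * c)) := by
  have hp := Real.pi_pos
  obtain ⟨x₀, hx₀, hpos⟩ := ev_to _ ((h.eventually_const_lt (show 0 < Real.pi * c by positivity)))
  apply tendsto_of_seq_tendsto
  intro v hv
  set u : ℕ → ℝ := fun n => max (v n) (1 / x₀) with hu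
  have hu0 : ∀ n, 0 < u n := fun n => lt_of_lt_of_le (by positivity) (le_max_right _ _)
  have hut : Tendsto u atTop atTop := tendsto_atTop_mono (fun n => le_max_left _ _) hv
  have hE : ∀ n, 0 < EE (1 / u n) := by
    intro n
    have h1 : 1 / u n ≤ x₀ := by
      rw [div_le_iff₀ (hu0 n)]
      have := le_max_right (v n) (1 / x₀)
      rw [div_le_iff₀ hx₀] at this
      linarith
    have h2 := hpos (1 / u n) (by have := hu0 n; positivity) h1
    by_contra hc'
    have h3 : EE (1 / u n) = 0 := le_antisymm (not_lt.1 hc') (EE_nonneg _)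
    rw [h3, zero_div] at h2
    exact lt_irrefl _ h2
  have key : Tendsto (fun n => Gz (u n) / u n) atTop (𝓝 (2 * c)) := by
    rw [Metric.tendsto_nhds]
    intro ε hε
    set η : ℝ := min 1 (ε / (4 * c)) with hη
    have hη0 : 0 < η := by positivity
    have hη1 : η ≤ 1 := min_le_left _ _
    have hη2 : η * (4 * c) ≤ ε := by
      have := min_le_right 1 (ε / (4 * c))
      rwa [le_div_iff₀ (by positivity)] at this
    have h1 := Fc_lim hs hc h hut hu0 hE hη0 (r := 1 + η) (by linarith)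
    have h2 := Fc_lim hs hc h hut hu0 hE hη0 (r := 1) (by norm_num)
    have h3 := chi_int_le hη0 (r := 1 + η) (by linarith)
    have h4 := chi_int_ge hη0 (r := 1) hη1
    have h5 : c * ∫ x, chi (1 + η) η x < 2 * c + ε := by nlinarith
    have h6 : 2 * c - ε < c * ∫ x, chi 1 η x := by nlinarith
    filter_upwards [h1.eventually_lt_const h5, h2.eventually_const_lt h6] with n h7 h8
    have h9 := Gz_upper hs (hu0 n) hη0 hη1
    have h10 := Gz_lower hs (hu0 n) hη0
    rw [Real.dist_eq, abs_lt]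
    constructor <;> linarith
  refine key.congr' ?_
  filter_upwards [hv.eventually_ge_atTop (1 / x₀)] with n hn
  simp only [hu, Function.comp]
  rw [max_eq_left hn]

end

end Pool.Agent.Helper37.WMH
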