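import Pool.Agent.Helper37.WMH.Mean

/-! Laplace transforms and Plancherel on lines to the right of the critical line. -/

set_option autoImplicit false

open MeasureTheory Filter Topology Set
open scoped ENNReal

namespace Pool.Agent.Helper37.WMH

open Pool.Agent.H295R2

noncomputable section

lemma RHS.free (hR : RHS) {s : ℂ} (hs : 1 / 2 < s.re) : Zs s ≠ 0 := by
  intro h
  have h1 := (hR s ((Zs_zero_iff (by linarith)).1 h)).1
  linarith

/-- the polar part -/
def QZ (Z : Finset ℂ) (s : ℂ) : ℂ := ∑ ρ ∈ Z, aa ρ / (s - ρ)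

/-- `1/(sζ(s))` with some polar parts removed -/
def hh (Z : Finset ℂ) (s : ℂ) : ℂ := HH s - QZ Z s

/-- the error on the right half line -/
def kZ (Z : Finset ℂ) (u : ℝ) : ℂ := (Ici (0:ℝ)).indicator (fun u => m0 u - PZ Z u) u

lemma m0_nice (hR : RHS) {ε : ℝ} (hε : 0 < ε) (hε1 : ε ≤ 1) : ∃ C, Nice m0 C ε 0 := by
  obtain ⟨C, hC0, hC⟩ := mertens_bound (θ := 1 / 2) (by norm_num) (fun s hs => hR.free hs)
    (σ := 1 / 2 + ε) (by linarith) (by linarith)
  refine ⟨C, m0_meas, fun u => ?_, fun u hu => m0_zero hu⟩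
  rcases lt_or_ge u 0 with h | h
  · rw [m0_zero h, norm_zero]; positivity
  · have h0 : ‖m0 u‖ = |Mx (Real.exp u)| * Real.exp (-(u / 2)) := by
      unfold m0
      rw [Complex.norm_real, Real.norm_eq_abs, abs_mul, abs_of_pos (Real.exp_pos _)]
    rw [h0]
    have h1 := hC (Real.exp u) (Real.one_le_exp h)
    have h2 : Real.exp u ^ (1 / 2 + ε) = Real.exp ((1 / 2 + ε) * u) := by
      rw [← Real.exp_mul]; ring_nf
    calc |Mx (Real.exp u)| * Real.exp (-(u / 2)) ≤ (C * Real.exp u ^ (1 / 2 + ε)) * Real.exp (-(u / 2)) := by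
          gcongr
      _ = C * (Real.exp ((1 / 2 + ε) * u) * Real.exp (-(u / 2))) := by rw [h2]; ring
      _ = C * Real.exp (ε * u) := by rw [← Real.exp_add]; ring_nf

lemma Lap_m0_far {s : ℂ} (hs : 1 / 2 < s.re) : Lap m0 s = HH (s + 1 / 2) := by
  rw [← Lap_kM (by rw [Complex.add_re]; norm_num; linarith)]
  unfold Lap
  refine integral_congr_ae (Eventually.of_forall fun u => ?_)
  simp only
  rw [m0_eq, mul_assoc, ← Complex.exp_add]
  congr 2
  ring

theorem Lap_m0 (hR : RHS) {s : ℂ} (hs : 0 < s.re) : Lap m0 s = HH (s + 1 / 2) := by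
  have h1 : AnalyticOnNhd ℂ (Lap m0) {s | 0 < s.re} := by
    apply DifferentiableOn.analyticOnNhd _ (isOpen_lt continuous_const Complex.continuous_re)
    intro s hs
    have hs' : 0 < s.re := hs
    obtain ⟨C, hC⟩ := m0_nice hR (ε := min (s.re / 2) 1) (by positivity) (min_le_right _ _)
    exact (hC.Lap_differentiableAt (by
      have := min_le_left (s.re / 2) 1
      linarith)).differentiableWithinAt
  have h2 : AnalyticOnNhd ℂ (fun s => HH (s + 1 / 2)) {s | 0 < s.re} := by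
    apply DifferentiableOn.analyticOnNhd _ (isOpen_lt continuous_const Complex.continuous_re)
    intro s hs
    have hs' : 0 < s.re := hs
    have h3 : (s + 1 / 2).re = s.re + 1 / 2 := by rw [Complex.add_re]; norm_num
    have h4 : DifferentiableAt ℂ HH (s + 1 / 2) := by
      apply HH_diffAt
      · intro h
        rw [h] at h3
        simp at h3
        linarith
      · rw [h3]; linarith
      · intro h
        have := (hR _ h).1
        rw [h3] at this
        linarith
    exact (h4.comp s (differentiableAt_id.add_const _)).differentiableWithinAt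
  have h3 := h1.eqOn_of_preconnected_of_eventuallyEq h2 (convex_halfSpace_re_gt 0).isPreconnected
    (z₀ := 1) (by simp) (by
      have : {s : ℂ | 1 / 2 < s.re} ∈ 𝓝 (1 : ℂ) :=
        (isOpen_lt continuous_const Complex.continuous_re).mem_nhds (by norm_num)
      filter_upwards [this] with z hz
      exact Lap_m0_far hz)
  exact h3 hs

/-- the Laplace transform of a truncated exponential -/
lemma exp_lap (g : ℝ) {s : ℂ} (hs : 0 < s.re) :
    IntegrableOn (fun u : ℝ => Complex.exp (g * u * Complex.I) * Complex.exp (-(s * u))) (Ici 0) ∧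
    ∫ u in Ici (0:ℝ), Complex.exp (g * u * Complex.I) * Complex.exp (-(s * u)) = 1 / (s - g * Complex.I) := by
  have hre : (g * Complex.I - s).re < 0 := by simp [hs]
  have e : ∀ u : ℝ, Complex.exp (g * u * Complex.I) * Complex.exp (-(s * u)) =
      Complex.exp ((g * Complex.I - s) * u) := by
    intro u; rw [← Complex.exp_add]; ring_nf
  simp_rw [e]
  constructor
  · rw [integrableOn_Ici_iff_integrableOn_Ioi]
    exact integrableOn_exp_mul_complex_Ioi hre 0
  · rw [integral_Ici_eq_integral_Ioi, integral_exp_mul_complex_Ioi hre 0]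
    simp only [Complex.ofReal_zero, mul_zero, Complex.exp_zero]
    rw [← neg_sub, neg_div_neg_eq]

lemma PZ_lap (hR : RHS) {Z : Finset ℂ} (hZ : ∀ ρ ∈ Z, ρ ∈ NT) {s : ℂ} (hs : 0 < s.re) :
    IntegrableOn (fun u : ℝ => PZ Z u * Complex.exp (-(s * u))) (Ici 0) ∧
    ∫ u in Ici (0:ℝ), PZ Z u * Complex.exp (-(s * u)) = QZ Z (s + 1 / 2) := by
  have e : ∀ u : ℝ, PZ Z u * Complex.exp (-(s * u)) =
      ∑ ρ ∈ Z, aa ρ * (Complex.exp (ρ.im * u * Complex.I) * Complex.exp (-(s * u))) := by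
    intro u
    unfold PZ
    rw [Finset.sum_mul]
    exact Finset.sum_congr rfl fun ρ _ => by ring
  simp_rw [e]
  constructor
  · exact integrable_finsetSum _ fun ρ _ => (exp_lap ρ.im hs).1.const_mul _
  · rw [integral_finsetSum _ fun ρ _ => (exp_lap ρ.im hs).1.const_mul _]
    unfold QZ
    refine Finset.sum_congr rfl fun ρ hρ => ?_
    rw [integral_const_mul, (exp_lap ρ.im hs).2, mul_one_div]
    congr 1
    have h1 := (hR ρ (hZ ρ hρ)).1
    apply Complex.ext
    · simp [h1]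
    · simp

lemma Lap_kZ (hR : RHS) {Z : Finset ℂ} (hZ : ∀ ρ ∈ Z, ρ ∈ NT) {s : ℂ} (hs : 0 < s.re) :
    Lap (kZ Z) s = hh Z (s + 1 / 2) := by
  have h1 := PZ_lap hR hZ hs
  obtain ⟨C, hC⟩ := m0_nice hR (ε := min (s.re / 2) 1) (by positivity) (min_le_right _ _)
  have h2 := hC.integrable (s := s) (by
      have := min_le_left (s.re / 2) 1
      linarith)
  have h3 : Lap m0 s = ∫ u in Ici (0:ℝ), m0 u * Complex.exp (-(s * u)) := by
    unfold Lap
    rw [← setIntegral_eq_integral_of_forall_compl_eq_zero (s := Ici (0:ℝ))]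
    intro u hu
    have : u < 0 := by simpa using hu
    rw [m0_zero this, zero_mul]
  unfold hh
  rw [← Lap_m0 hR hs, h3, ← h1.2, ← integral_sub h2.integrableOn h1.1]
  unfold Lap
  rw [← setIntegral_eq_integral_of_forall_compl_eq_zero (s := Ici (0:ℝ))]
  · refine setIntegral_congr_fun measurableSet_Ici fun u hu => ?_
    unfold kZ
    simp only [indicator_of_mem hu]
    ring
  · intro u hu
    unfold kZ
    rw [indicator_of_notMem hu, zero_mul]

lemma PZ_bound (Z : Finset ℂ) (u : ℝ) : ‖PZ Z u‖ ≤ ∑ ρ ∈ Z, ‖aa ρ‖ := by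
  unfold PZ
  refine (norm_sum_le _ _).trans (Finset.sum_le_sum fun ρ _ => ?_)
  rw [norm_mul, ← Complex.ofReal_mul, Complex.norm_exp_ofReal_mul_I, mul_one]

lemma kZ_nice (hR : RHS) (Z : Finset ℂ) {ε : ℝ} (hε : 0 < ε) (hε1 : ε ≤ 1) : ∃ C, Nice (kZ Z) C ε 0 := by
  obtain ⟨C, hC⟩ := m0_nice hR hε hε1
  refine ⟨C + ∑ ρ ∈ Z, ‖aa ρ‖, ?_, fun u => ?_, fun u hu => ?_⟩
  · unfold kZ
    exact (m0_meas.sub (tame_PZ Z).meas).indicator measurableSet_Ici
  · have hS : 0 ≤ ∑ ρ ∈ Z, ‖aa ρ‖ := Finset.sum_nonneg fun _ _ => norm_nonneg _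
    have hC0 := hC.C_nonneg
    unfold kZ
    by_cases hu : u ∈ Ici (0:ℝ)
    · rw [indicator_of_mem hu, add_mul]
      have hu0 : 0 ≤ u := hu
      refine (norm_sub_le _ _).trans (add_le_add (hC.bound u) ((PZ_bound Z u).trans ?_))
      have : 1 ≤ Real.exp (ε * u) := Real.one_le_exp (by positivity)
      exact le_mul_of_one_le_right hS this
    · rw [indicator_of_notMem hu, norm_zero]
      positivity
  · unfold kZ
    rw [indicator_of_notMem (by simpa using hu)]

/-- Plancherel on the line `Re s = 1/2 + c` -/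
theorem line_planch (hR : RHS) {Z : Finset ℂ} (hZ : ∀ ρ ∈ Z, ρ ∈ NT) {c : ℝ} (hc : 0 < c) :
    Integrable (fun t : ℝ => ‖hh Z ⟨1 / 2 + c, t⟩‖ ^ 2) ∧
    ∫ t : ℝ, ‖hh Z ⟨1 / 2 + c, t⟩‖ ^ 2 = 2 * Real.pi * ∫ u : ℝ, ‖kZ Z u‖ ^ 2 * Real.exp (-(2 * c * u)) := by
  obtain ⟨C, hC⟩ := kZ_nice hR Z (ε := min (c / 2) 1) (by positivity) (min_le_right _ _)
  obtain ⟨h1, h2⟩ := plancherel_Lap hC (c := c) (by
      have := min_le_left (c / 2) 1
      linarith)
  have e : ∀ ξ : ℝ, Lap (kZ Z) (c + 2 * Real.pi * ξ * Complex.I) = hh Z ⟨1 / 2 + c, ξ * (2 * Real.pi)⟩ := by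
    intro ξ
    rw [Lap_kZ hR hZ (by simpa using hc)]
    congr 1
    apply Complex.ext
    · simp; ring
    · simp; ring
  simp_rw [e] at h1 h2
  have hpi : (0:ℝ) < 2 * Real.pi := by have := Real.pi_pos; positivity
  constructor
  · exact (integrable_comp_mul_right_iff (fun t : ℝ => ‖hh Z ⟨1 / 2 + c, t⟩‖ ^ 2) hpi.ne').1 h1
  · rw [← h2, Measure.integral_comp_mul_right (fun t : ℝ => ‖hh Z ⟨1 / 2 + c, t⟩‖ ^ 2) (2 * Real.pi),
      abs_of_pos (inv_pos.2 hpi), smul_eq_mul, ← mul_assoc, mul_inv_cancel₀ hpi.ne', one_mul]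

end

end Pool.Agent.Helper37.WMH
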