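import Pool.Agent.Helper37.WMH.Back2

/-! From the Gaussian sums to the mean square of the Mertens function. -/

set_option autoImplicit false

open MeasureTheory Filter Topology Set
open scoped ENNReal

namespace Pool.Agent.Helper37.WMH

open Pool.Agent.H295R2

noncomputable section

lemma tame_sub {f g : ℝ → ℂ} (hf : Tame f) (hg : Tame g) : Tame (fun v => f v - g v) := by
  have h := hf.add (hg.const_mul (-1))
  have e : (fun v => f v - g v) = fun v => f v + (-1) * g v := by funext v; ring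
  rw [e]; exact h

lemma tame_sq_iOn {h : ℝ → ℂ} (hh : Tame h) (V : ℝ) : IntegrableOn (fun v : ℝ => ‖h v‖ ^ 2) (Ioc 0 V) := by
  obtain ⟨C, hC, hb⟩ := hh.bound
  refine Integrable.mono' (g := fun _ => (C * Real.exp V) ^ 2) (integrableOn_const (by simp))
    (hh.meas.norm.pow_const 2).aestronglyMeasurable ?_
  filter_upwards [ae_restrict_mem measurableSet_Ioc] with v hv
  rw [Real.norm_of_nonneg (by positivity)]
  have h1 := hb v
  rw [abs_of_pos hv.1] at h1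
  have h2 : Real.exp v ≤ Real.exp V := Real.exp_le_exp.2 hv.2
  have h3 : ‖h v‖ ≤ C * Real.exp V := h1.trans (by gcongr)
  gcongr

/-- **From Gaussians to the mean square.** -/
theorem mean_le (hR : RHS) {A : ℝ} (hA : ∀ ρ ∈ NT, ‖aa ρ‖ ≤ A) : ∃ C₀ : ℝ, 0 < C₀ ∧
    ∀ (Z : Finset ℂ), (∀ ρ ∈ Z, ρ ∈ NT) → ∀ B V : ℝ, 0 ≤ B → 0 < V → GE Z (1 / V) ≤ ENNReal.ofReal (B * (1 / V)) →
      ∫ v in Ioc 0 V, ‖m0 v - PZ Z v‖ ^ 2 ≤ C₀ + 8 * B * V := by
  obtain ⟨K, hK, hKb⟩ := KK_bound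
  refine ⟨2 * (K + 2) ^ 2, by positivity, fun Z hZ B V hB hV hG => ?_⟩
  have hV' : 0 < 1 / V := by positivity
  rw [GE_eq hR hA hZ hV'] at hG
  have h1 := (ENNReal.ofReal_le_ofReal_iff (by positivity)).1 hG
  set Q : ℝ := ∫ v : ℝ, Real.exp (-((1 / V) ^ 2 * v ^ 2 / 2)) * ‖nu Z v‖ ^ 2 with hQ
  have hQ1 : Q ≤ 2 * B * V := by
    have : (1 / V) ^ 2 / 2 * Q * (2 * V ^ 2) ≤ B * (1 / V) * (2 * V ^ 2) := by gcongr
    have e1 : (1 / V) ^ 2 / 2 * Q * (2 * V ^ 2) = Q := by field_simp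
    have e2 : B * (1 / V) * (2 * V ^ 2) = 2 * B * V := by field_simp
    rwa [e1, e2] at this
  have hQi := tame_sq_integrable (tame_nu Z) hV'
  -- the integral of nu
  have hnu : ∫ v in Ioc 0 V, ‖nu Z v‖ ^ 2 ≤ 2 * Q := by
    have h2 : ∀ v ∈ Ioc 0 V, ‖nu Z v‖ ^ 2 ≤ 2 * (Real.exp (-((1 / V) ^ 2 * v ^ 2 / 2)) * ‖nu Z v‖ ^ 2) := by
      intro v hv
      have h3 : (1 / V) ^ 2 * v ^ 2 ≤ 1 := by
        have : (1 / V) ^ 2 * v ^ 2 = (v / V) ^ 2 := by ring
        rw [this]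
        have h4 : v / V ≤ 1 := (div_le_one hV).2 hv.2
        have h5 : 0 ≤ v / V := div_nonneg hv.1.le hV.le
        nlinarith
      have h6 : (1:ℝ) / 2 ≤ Real.exp (-((1 / V) ^ 2 * v ^ 2 / 2)) := by
        have h7 := Real.add_one_le_exp (-((1 / V) ^ 2 * v ^ 2 / 2))
        linarith
      have h8 : 0 ≤ ‖nu Z v‖ ^ 2 := by positivity
      nlinarith
    calc ∫ v in Ioc 0 V, ‖nu Z v‖ ^ 2 ≤ ∫ v in Ioc 0 V, 2 * (Real.exp (-((1 / V) ^ 2 * v ^ 2 / 2)) * ‖nu Z v‖ ^ 2) :=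
          setIntegral_mono_on (tame_sq_iOn (tame_nu Z) V) (hQi.const_mul 2).integrableOn measurableSet_Ioc h2
      _ = 2 * ∫ v in Ioc 0 V, (Real.exp (-((1 / V) ^ 2 * v ^ 2 / 2)) * ‖nu Z v‖ ^ 2) := integral_const_mul _ _
      _ ≤ 2 * Q := by
          gcongr
          exact setIntegral_le_integral hQi (Eventually.of_forall fun v => by positivity)
  -- the correction
  set r : ℝ → ℂ := fun v => KK v / (2 * Real.pi) - 2 * Complex.exp (-(v / 2)) with hr
  have hrt : Tame r := by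
    have h2 := tame_sub (tame_KK.const_mul (1 / (2 * Real.pi))) (tame_half.const_mul 2)
    have e : r = fun v => 1 / (2 * (Real.pi : ℂ)) * KK v - 2 * Complex.exp (-(v / 2)) := by
      funext v; rw [hr]; ring
    rw [e]; exact h2
  have hrb : ∀ v : ℝ, 0 < v → ‖r v‖ ≤ (K + 2) * Real.exp (-(v / 2)) := by
    intro v hv
    rw [hr]
    refine (norm_sub_le _ _).trans ?_
    have h2 : ‖KK v / (2 * Real.pi)‖ ≤ K * Real.exp (-(v / 2)) := by
      rw [norm_div]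
      have h3 : ‖(2 * Real.pi : ℂ)‖ = 2 * Real.pi := by
        rw [show (2 * Real.pi : ℂ) = ((2 * Real.pi : ℝ) : ℂ) by push_cast; ring, Complex.norm_real,
          Real.norm_of_nonneg (by positivity)]
      rw [h3]
      have h4 : 1 ≤ 2 * Real.pi := by linarith [Real.pi_gt_three]
      refine (div_le_self (norm_nonneg _) h4).trans ((hKb v).trans ?_)
      have : Real.exp (-v) ≤ Real.exp (-(v / 2)) := Real.exp_le_exp.2 (by linarith)
      gcongr
    have h5 : ‖(2 : ℂ) * Complex.exp (-(v / 2))‖ = 2 * Real.exp (-(v / 2)) := by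
      rw [norm_mul, Complex.norm_exp]
      congr 1
      · simp
      · congr 1; simp
    rw [h5]
    linarith
  have hrI : ∫ v in Ioc 0 V, ‖r v‖ ^ 2 ≤ (K + 2) ^ 2 := by
    have h2 : ∀ v ∈ Ioc 0 V, ‖r v‖ ^ 2 ≤ (K + 2) ^ 2 * Real.exp ((-1) * v) := by
      intro v hv
      calc ‖r v‖ ^ 2 ≤ ((K + 2) * Real.exp (-(v / 2))) ^ 2 := by
            have := hrb v hv.1
            gcongr
        _ = _ := by
            rw [mul_pow, ← Real.exp_nat_mul]
            congr 2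
            push_cast; ring
    have hE : IntegrableOn (fun v : ℝ => (K + 2) ^ 2 * Real.exp ((-1) * v)) (Ioi 0) :=
      (integrableOn_exp_mul_Ioi (by norm_num) 0).const_mul _
    calc ∫ v in Ioc 0 V, ‖r v‖ ^ 2 ≤ ∫ v in Ioc 0 V, (K + 2) ^ 2 * Real.exp ((-1) * v) :=
          setIntegral_mono_on (tame_sq_iOn hrt V) (hE.mono_set Ioc_subset_Ioi_self) measurableSet_Ioc h2
      _ ≤ ∫ v in Ioi (0:ℝ), (K + 2) ^ 2 * Real.exp ((-1) * v) :=
          setIntegral_mono_set hE (Eventually.of_forall fun v => by positivity) (Eventually.of_forall Ioc_subset_Ioi_self)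
      _ = (K + 2) ^ 2 := by
          rw [integral_const_mul, integral_exp_mul_Ioi (by norm_num)]
          simp
  have hdec : ∀ v : ℝ, m0 v - PZ Z v = nu Z v + r v := by
    intro v
    rw [hr]
    unfold nu mh
    ring
  calc ∫ v in Ioc 0 V, ‖m0 v - PZ Z v‖ ^ 2 ≤ ∫ v in Ioc 0 V, (2 * ‖nu Z v‖ ^ 2 + 2 * ‖r v‖ ^ 2) := by
        refine setIntegral_mono_on (tame_sq_iOn (tame_sub tame_m0 (tame_PZ Z)) V) ?_ measurableSet_Ioc fun v _ => ?_
        · exact ((tame_sq_iOn (tame_nu Z) V).const_mul 2).add ((tame_sq_iOn hrt V).const_mul 2)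
        · rw [hdec]
          have h2 := norm_add_le (nu Z v) (r v)
          have h3 : ‖nu Z v + r v‖ ^ 2 ≤ (‖nu Z v‖ + ‖r v‖) ^ 2 := by gcongr
          nlinarith [sq_nonneg (‖nu Z v‖ - ‖r v‖)]
    _ = 2 * (∫ v in Ioc 0 V, ‖nu Z v‖ ^ 2) + 2 * ∫ v in Ioc 0 V, ‖r v‖ ^ 2 := by
        rw [integral_add ((tame_sq_iOn (tame_nu Z) V).const_mul 2) ((tame_sq_iOn hrt V).const_mul 2),
          integral_const_mul, integral_const_mul]
    _ ≤ 2 * (2 * (2 * B * V)) + 2 * (K + 2) ^ 2 := by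
        have := hnu.trans (by linarith : 2 * Q ≤ 2 * (2 * B * V))
        linarith
    _ = _ := by ring

lemma JJ_eq (L : ℝ) : JJ L = ∫ v in Ioc 0 L, ‖m0 v‖ ^ 2 := by
  unfold JJ
  refine integral_congr_ae (Eventually.of_forall fun v => ?_)
  simp only
  unfold m0
  rw [Complex.norm_real, norm_mul, mul_pow, Real.norm_eq_abs, Real.norm_eq_abs, sq_abs, sq_abs, ← Real.exp_nat_mul]
  congr 2
  push_cast
  ring

/-- the coefficients are bounded by the windows -/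
theorem aa_bound (hR : RHS) {Z : Finset ℂ} {B δ₀ : ℝ} (hB : 0 ≤ B) (hδ₀ : 0 < δ₀)
    (h : ∀ δ, 0 < δ → δ ≤ δ₀ → WE Z δ ≤ ENNReal.ofReal (B * δ)) {ρ : ℂ} (hρ : ρ ∈ NT) :
    ‖aZ Z ρ‖ ^ 2 ≤ B := by
  classical
  -- a gap around `γ`
  obtain ⟨d, hd, hgap⟩ : ∃ d : ℝ, 0 < d ∧ ∀ ρ' ∈ NT, ρ' ≠ ρ → d ≤ |ρ'.im - ρ.im| := by
    set S : Finset ℂ := (ZT (|ρ.im| + 1)).erase ρ with hS
    have hpos : ∀ ρ' ∈ S, 0 < |ρ'.im - ρ.im| := by
      intro ρ' hρ'
      rw [hS, Finset.mem_erase, mem_ZT] at hρ'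
      rw [abs_pos]
      intro h0
      apply hρ'.1
      apply Complex.ext
      · rw [(hR ρ' hρ'.2.1).1, (hR ρ hρ).1]
      · linarith
    by_cases hne : S.Nonempty
    · obtain ⟨ρ₁, h1, h2⟩ := S.exists_min_image (fun ρ' => |ρ'.im - ρ.im|) hne
      refine ⟨min 1 |ρ₁.im - ρ.im|, lt_min one_pos (hpos ρ₁ h1), fun ρ' hρ' hne' => ?_⟩
      by_cases h3 : |ρ'.im| ≤ |ρ.im| + 1
      · refine (min_le_right _ _).trans (h2 ρ' ?_)
        rw [hS, Finset.mem_erase, mem_ZT]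
        exact ⟨hne', hρ', h3⟩
      · refine (min_le_left _ _).trans ?_
        push Not at h3
        have := abs_sub_abs_le_abs_sub ρ'.im ρ.im
        linarith
    · refine ⟨1, one_pos, fun ρ' hρ' hne' => ?_⟩
      by_contra h3
      push Not at h3
      apply hne
      refine ⟨ρ', ?_⟩
      rw [hS, Finset.mem_erase, mem_ZT]
      have := abs_sub_abs_le_abs_sub ρ'.im ρ.im
      exact ⟨hne', hρ', by linarith⟩
  set δ : ℝ := min δ₀ (d / 2) with hδ
  have hδ0 : 0 < δ := lt_min hδ₀ (by linarith)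
  have hδd : δ < d := (min_le_right _ _).trans_lt (by linarith)
  have hval : ∀ x ∈ Ico (ρ.im - δ) ρ.im, FZ Z δ x = aZ Z ρ := by
    intro x hx
    unfold FZ
    rw [tsum_eq_single (⟨ρ, hρ⟩ : NT)]
    · simp only
      unfold wd
      rw [if_pos ⟨hx.2, by linarith [hx.1]⟩, mul_one]
    · intro ρ' hne'
      have h1 : (ρ' : ℂ) ≠ ρ := fun h2 => hne' (Subtype.ext h2)
      have h2 := hgap ρ' ρ'.2 h1
      unfold wd
      rw [if_neg, mul_zero]
      rintro ⟨h3, h4⟩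
      have h5 : |(ρ' : ℂ).im - ρ.im| < d := by
        rw [abs_lt]
        constructor <;> linarith [hx.1, hx.2]
      linarith
  have h1 := h δ hδ0 (min_le_left _ _)
  have h2 : ENNReal.ofReal (‖aZ Z ρ‖ ^ 2 * δ) ≤ WE Z δ := by
    unfold WE
    calc ENNReal.ofReal (‖aZ Z ρ‖ ^ 2 * δ) = ∫⁻ x in Ico (ρ.im - δ) ρ.im, ‖aZ Z ρ‖ₑ ^ 2 := by
          rw [setLIntegral_const, Real.volume_Ico, sub_sub_cancel, ENNReal.ofReal_mul (by positivity),
            ENNReal.ofReal_pow (norm_nonneg _), ofReal_norm]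
      _ = ∫⁻ x in Ico (ρ.im - δ) ρ.im, ‖FZ Z δ x‖ₑ ^ 2 := by
          refine setLIntegral_congr_fun measurableSet_Ico fun x hx => ?_
          rw [hval x hx]
      _ ≤ _ := setLIntegral_le_lintegral _ _
  have h3 := (ENNReal.ofReal_le_ofReal_iff (by positivity)).1 (h2.trans h1)
  exact le_of_mul_le_mul_right h3 hδ0

end

end Pool.Agent.Helper37.WMH
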