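import Pool.Agent.Helper37.WMH.Part1

/-! Means of trigonometric polynomials and Abel means. -/

set_option autoImplicit false

open MeasureTheory Filter Topology Set
open scoped ENNReal

namespace Pool.Agent.Helper37.WMH

open Pool.Agent.H295R2

noncomputable section

/-- a trigonometric polynomial -/
def TP (Λ : Finset ℝ) (c : ℝ → ℂ) (u : ℝ) : ℂ := ∑ l ∈ Λ, c l * Complex.exp (l * u * Complex.I)

lemma TP_cont (Λ : Finset ℝ) (c : ℝ → ℂ) : Continuous (TP Λ c) := by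
  unfold TP
  exact continuous_finsetSum _ fun l _ => by fun_prop

lemma TP_norm_le (Λ : Finset ℝ) (c : ℝ → ℂ) (u : ℝ) : ‖TP Λ c u‖ ≤ ∑ l ∈ Λ, ‖c l‖ := by
  unfold TP
  refine (norm_sum_le _ _).trans (Finset.sum_le_sum fun l _ => ?_)
  rw [norm_mul, ← Complex.ofReal_mul, Complex.norm_exp_ofReal_mul_I, mul_one]

lemma conj_exp (l u : ℝ) : (starRingEnd ℂ) (Complex.exp (l * u * Complex.I)) = Complex.exp (-(l * u * Complex.I)) := by
  rw [← Complex.exp_conj]
  congr 1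
  simp

lemma TP_sq (Λ : Finset ℝ) (c : ℝ → ℂ) (u : ℝ) : ‖TP Λ c u‖ ^ 2 =
    (∑ l ∈ Λ, ∑ m ∈ Λ, c l * (starRingEnd ℂ) (c m) * Complex.exp (((l : ℂ) - m) * Complex.I * u)).re := by
  rw [← Complex.normSq_eq_norm_sq]
  have h1 : ((Complex.normSq (TP Λ c u) : ℝ) : ℂ) =
      ∑ l ∈ Λ, ∑ m ∈ Λ, c l * (starRingEnd ℂ) (c m) * Complex.exp (((l : ℂ) - m) * Complex.I * u) := by
    rw [Complex.normSq_eq_conj_mul_self, mul_comm]
    unfold TP
    rw [map_sum, Finset.sum_mul_sum]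
    refine Finset.sum_congr rfl fun l _ => Finset.sum_congr rfl fun m _ => ?_
    rw [map_mul, conj_exp]
    have : Complex.exp (((l : ℂ) - m) * Complex.I * u) = Complex.exp (l * u * Complex.I) * Complex.exp (-(m * u * Complex.I)) := by
      rw [← Complex.exp_add]; congr 1; ring
    rw [this]; ring
  rw [← h1, Complex.ofReal_re]

lemma diag (c : ℂ) : c * (starRingEnd ℂ) c = ((‖c‖ ^ 2 : ℝ) : ℂ) := by
  rw [mul_comm, ← Complex.normSq_eq_conj_mul_self, Complex.normSq_eq_norm_sq]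

theorem TP_mean (Λ : Finset ℝ) (c : ℝ → ℂ) : ∃ K : ℝ, 0 ≤ K ∧ ∀ V : ℝ, 0 ≤ V →
    ∫ u in Ioc 0 V, ‖TP Λ c u‖ ^ 2 ≤ (∑ l ∈ Λ, ‖c l‖ ^ 2) * V + K := by
  classical
  refine ⟨∑ l ∈ Λ, ∑ m ∈ Λ, ‖c l‖ * ‖c m‖ * (2 / ‖((l : ℂ) - m) * Complex.I‖),
    Finset.sum_nonneg fun _ _ => Finset.sum_nonneg fun _ _ => by positivity, fun V hV => ?_⟩
  simp_rw [TP_sq]
  have i2 : IntegrableOn (fun u : ℝ => ∑ l ∈ Λ, ∑ m ∈ Λ, c l * (starRingEnd ℂ) (c m) *
      Complex.exp (((l : ℂ) - m) * Complex.I * u)) (Ioc 0 V) := cont_iOn (by fun_prop) V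
  have h1 := integral_re i2
  simp only [RCLike.re_eq_complex_re] at h1
  rw [h1, integral_finsetSum]
  · rw [Complex.re_sum, Finset.sum_mul, ← Finset.sum_add_distrib]
    refine Finset.sum_le_sum fun l hl => ?_
    rw [integral_finsetSum]
    · rw [Complex.re_sum]
      have h3 : ∀ m ∈ Λ, (∫ u in Ioc 0 V, c l * (starRingEnd ℂ) (c m) *
          Complex.exp (((l : ℂ) - m) * Complex.I * u)).re ≤
          (if m = l then ‖c l‖ ^ 2 * V else 0) + ‖c l‖ * ‖c m‖ * (2 / ‖((l : ℂ) - m) * Complex.I‖) := by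
        intro m _
        rw [integral_const_mul]
        change (c l * (starRingEnd ℂ) (c m) * GR (((l : ℂ) - m) * Complex.I) V).re ≤ _
        by_cases he : m = l
        · subst he
          rw [if_pos rfl, sub_self, zero_mul, GR_zero hV, diag, ← Complex.ofReal_mul, Complex.ofReal_re]
          simp
        · rw [if_neg he, zero_add]
          refine (Complex.re_le_norm _).trans ?_
          rw [norm_mul, norm_mul, RCLike.norm_conj]
          gcongr
          apply GR_bound _ _ hV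
          · refine mul_ne_zero (sub_ne_zero.2 ?_) Complex.I_ne_zero
            exact_mod_cast Ne.symm he
          · simp
      refine (Finset.sum_le_sum h3).trans ?_
      rw [Finset.sum_add_distrib, Finset.sum_ite_eq' Λ l, if_pos hl]
    · exact fun m _ => cont_iOn (by fun_prop) V
  · exact fun l _ => cont_iOn (by fun_prop) V

/-- the Fourier coefficients -/
def bb (l : ℝ) : ℂ := by
  classical
  exact if (⟨1 / 2, l⟩ : ℂ) ∈ NT then aa ⟨1 / 2, l⟩ else 0

lemma bb_pos {l : ℝ} (h : (⟨1 / 2, l⟩ : ℂ) ∈ NT) : bb l = aa ⟨1 / 2, l⟩ := by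
  unfold bb; simp only [if_pos h]

lemma bb_neg {l : ℝ} (h : (⟨1 / 2, l⟩ : ℂ) ∉ NT) : bb l = 0 := by
  unfold bb; simp only [if_neg h]

/-- the Abel limit at a point of the critical line -/
theorem HH_lim (hR : RHS) (l : ℝ) :
    Tendsto (fun c : ℝ => 2 * (c : ℂ) * HH ⟨1 / 2 + 2 * c, l⟩) (𝓝[>] 0) (𝓝 (bb l)) := by
  set p : ℂ := ⟨1 / 2, l⟩ with hp
  have hpath : ∀ c : ℝ, (⟨1 / 2 + 2 * c, l⟩ : ℂ) = p + 2 * c := by
    intro c; rw [hp]; apply Complex.ext <;> simp
  have hc0 : Tendsto (fun c : ℝ => 2 * (c : ℂ)) (𝓝[>] 0) (𝓝 0) := by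
    have h1 : Continuous (fun c : ℝ => 2 * (c : ℂ)) := by fun_prop
    have h2 := h1.tendsto 0
    simp only [Complex.ofReal_zero, mul_zero] at h2
    exact h2.mono_left nhdsWithin_le_nhds
  have ht0 : Tendsto (fun c : ℝ => p + 2 * (c : ℂ)) (𝓝[>] 0) (𝓝 p) := by
    have := hc0.const_add p
    rwa [add_zero] at this
  simp_rw [hpath]
  by_cases h : p ∈ NT
  · rw [bb_pos h]
    obtain ⟨C, hC⟩ := near_pole hR h
    have ht : Tendsto (fun c : ℝ => p + 2 * (c : ℂ)) (𝓝[>] 0) (𝓝[≠] p) := by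
      refine tendsto_nhdsWithin_iff.2 ⟨ht0, ?_⟩
      filter_upwards [self_mem_nhdsWithin] with c hc
      have hc' : (0:ℝ) < c := hc
      intro h2
      have h3 : p + 2 * (c : ℂ) = p := h2
      have h4 : (2 * (c : ℂ)) = 0 := by linear_combination h3
      have h5 : (c : ℂ) = 0 := by
        rcases mul_eq_zero.1 h4 with h | h
        · norm_num at h
        · exact h
      exact hc'.ne' (by exact_mod_cast h5)
    have h2 := ht.eventually hC
    have h3 : Tendsto (fun c : ℝ => 2 * (c : ℂ) * (HH (p + 2 * c) - aa p / (p + 2 * c - p))) (𝓝[>] 0) (𝓝 0) := by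
      apply tendsto_zero_iff_norm_tendsto_zero.2
      refine squeeze_zero' (Eventually.of_forall fun c => norm_nonneg _) (g := fun c : ℝ => ‖2 * (c : ℂ)‖ * C) ?_ ?_
      · filter_upwards [h2] with c hc
        rw [norm_mul]
        exact mul_le_mul_of_nonneg_left hc (norm_nonneg _)
      · have := hc0.norm.mul_const C
        rwa [norm_zero, zero_mul] at this
    have h4 := h3.add_const (aa p)
    rw [zero_add] at h4
    refine h4.congr' ?_
    filter_upwards [self_mem_nhdsWithin] with c hc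
    have hc' : (0:ℝ) < c := hc
    have h5 : (c : ℂ) ≠ 0 := by exact_mod_cast hc'.ne'
    rw [add_sub_cancel_left]
    field_simp
    ring
  · rw [bb_neg h]
    have h1 : ContinuousAt HH p := (HH_diffAt (by
      intro h0
      have := congrArg Complex.re h0
      rw [hp] at this
      norm_num at this) (by rw [hp]; norm_num) h).continuousAt
    have h2 := hc0.mul (h1.tendsto.comp ht0)
    rw [zero_mul] at h2
    exact h2

/-- the limits of the Gram kernels -/
lemma kern_lim (x : ℝ) : Tendsto (fun c : ℝ => 2 * (c : ℂ) / (2 * c - x * Complex.I)) (𝓝[>] 0)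
    (𝓝 (if x = 0 then 1 else 0)) := by
  by_cases hx : x = 0
  · rw [if_pos hx, hx]
    refine tendsto_const_nhds.congr' ?_
    filter_upwards [self_mem_nhdsWithin] with c hc
    have hc' : (0:ℝ) < c := hc
    have h5 : (c : ℂ) ≠ 0 := by exact_mod_cast hc'.ne'
    simp only [Complex.ofReal_zero, zero_mul, sub_zero]
    rw [div_self (mul_ne_zero two_ne_zero h5)]
  · rw [if_neg hx]
    have h1 : ContinuousAt (fun c : ℝ => 2 * (c : ℂ) / (2 * c - x * Complex.I)) 0 := by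
      apply ContinuousAt.div (by fun_prop) (by fun_prop)
      simp [hx]
    have h2 := h1.tendsto
    simp only [Complex.ofReal_zero, mul_zero, zero_div] at h2
    exact h2.mono_left nhdsWithin_le_nhds

lemma exp_Ioi (x : ℝ) {c : ℝ} (hc : 0 < c) :
    IntegrableOn (fun u : ℝ => Complex.exp (x * Complex.I * u) * Real.exp (-(2 * c * u))) (Ioi 0) ∧
    ∫ u in Ioi (0:ℝ), Complex.exp (x * Complex.I * u) * Real.exp (-(2 * c * u)) = 1 / (2 * c - x * Complex.I) := by
  have hre : (x * Complex.I - 2 * c).re < 0 := by simp [hc]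
  have e : ∀ u : ℝ, Complex.exp (x * Complex.I * u) * Real.exp (-(2 * c * u)) =
      Complex.exp ((x * Complex.I - 2 * c) * u) := by
    intro u; rw [Complex.ofReal_exp, ← Complex.exp_add]; congr 1; push_cast; ring
  simp_rw [e]
  constructor
  · exact integrableOn_exp_mul_complex_Ioi hre 0
  · rw [integral_exp_mul_complex_Ioi hre 0]
    simp only [Complex.ofReal_zero, mul_zero, Complex.exp_zero]
    rw [← neg_sub, neg_div_neg_eq]

lemma m0_Ioi (hR : RHS) (l : ℝ) {c : ℝ} (hc : 0 < c) :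
    IntegrableOn (fun u : ℝ => m0 u * Complex.exp (-(l * u * Complex.I)) * Real.exp (-(2 * c * u))) (Ioi 0) ∧
    ∫ u in Ioi (0:ℝ), m0 u * Complex.exp (-(l * u * Complex.I)) * Real.exp (-(2 * c * u)) = HH ⟨1 / 2 + 2 * c, l⟩ := by
  obtain ⟨C, hC⟩ := m0_nice hR (ε := min (c / 2) 1) (by positivity) (min_le_right _ _)
  set s : ℂ := 2 * c + l * Complex.I with hs
  have hsre : s.re = 2 * c := by simp [hs]
  have h2 := hC.integrable (s := s) (by
      have := min_le_left (c / 2) 1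
      rw [hsre]
      linarith)
  have e : ∀ u : ℝ, m0 u * Complex.exp (-(l * u * Complex.I)) * Real.exp (-(2 * c * u)) =
      m0 u * Complex.exp (-(s * u)) := by
    intro u
    rw [Complex.ofReal_exp, mul_assoc, ← Complex.exp_add, hs]
    congr 2
    push_cast
    ring
  simp_rw [e]
  refine ⟨h2.integrableOn, ?_⟩
  have h3 : Lap m0 s = ∫ u in Ici (0:ℝ), m0 u * Complex.exp (-(s * u)) := by
    unfold Lap
    rw [← setIntegral_eq_integral_of_forall_compl_eq_zero (s := Ici (0:ℝ))]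
    intro u hu
    have : u < 0 := by simpa using hu
    rw [m0_zero this, zero_mul]
  rw [← integral_Ici_eq_integral_Ioi, ← h3, Lap_m0 hR (by rw [hsre]; positivity)]
  congr 1
  apply Complex.ext
  · simp [hs]; ring
  · simp [hs]

/-- the expansion of an Abel mean square -/
theorem AM_expand (hR : RHS) (Λ : Finset ℝ) (cf : ℝ → ℂ) {c : ℝ} (hc : 0 < c) :
    AM (fun u => m0 u - TP Λ cf u) c = AM m0 c -
      2 * (∑ l ∈ Λ, (starRingEnd ℂ) (cf l) * HH ⟨1 / 2 + 2 * c, l⟩).re +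
      (∑ l ∈ Λ, ∑ m ∈ Λ, cf l * (starRingEnd ℂ) (cf m) * (1 / (2 * c - ((l - m : ℝ) : ℂ) * Complex.I))).re := by
  have hpt : ∀ u : ℝ, ‖m0 u - TP Λ cf u‖ ^ 2 * Real.exp (-(2 * c * u)) =
      ‖m0 u‖ ^ 2 * Real.exp (-(2 * c * u)) -
      2 * (∑ l ∈ Λ, (starRingEnd ℂ) (cf l) *
        (m0 u * Complex.exp (-(l * u * Complex.I)) * Real.exp (-(2 * c * u)))).re +
      (∑ l ∈ Λ, ∑ m ∈ Λ, cf l * (starRingEnd ℂ) (cf m) *
        (Complex.exp (((l - m : ℝ) : ℂ) * Complex.I * u) * Real.exp (-(2 * c * u)))).re := by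
    intro u
    have e1 : ‖m0 u - TP Λ cf u‖ ^ 2 = ‖m0 u‖ ^ 2 - 2 * (m0 u * (starRingEnd ℂ) (TP Λ cf u)).re + ‖TP Λ cf u‖ ^ 2 := by
      rw [← Complex.normSq_eq_norm_sq, Complex.normSq_sub, Complex.normSq_eq_norm_sq, Complex.normSq_eq_norm_sq]
      ring
    have e2 : m0 u * (starRingEnd ℂ) (TP Λ cf u) = ∑ l ∈ Λ, (starRingEnd ℂ) (cf l) * (m0 u * Complex.exp (-(l * u * Complex.I))) := by
      unfold TP
      rw [map_sum, Finset.mul_sum]
      refine Finset.sum_congr rfl fun l _ => ?_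
      rw [map_mul, conj_exp]; ring
    have e3 : (∑ l ∈ Λ, (starRingEnd ℂ) (cf l) *
        (m0 u * Complex.exp (-(l * u * Complex.I)) * Real.exp (-(2 * c * u)))) =
        (∑ l ∈ Λ, (starRingEnd ℂ) (cf l) * (m0 u * Complex.exp (-(l * u * Complex.I)))) * Real.exp (-(2 * c * u)) := by
      rw [Finset.sum_mul]
      exact Finset.sum_congr rfl fun l _ => by ring
    have e4 : (∑ l ∈ Λ, ∑ m ∈ Λ, cf l * (starRingEnd ℂ) (cf m) *
        (Complex.exp (((l - m : ℝ) : ℂ) * Complex.I * u) * Real.exp (-(2 * c * u)))) =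
        (∑ l ∈ Λ, ∑ m ∈ Λ, cf l * (starRingEnd ℂ) (cf m) * Complex.exp (((l : ℂ) - m) * Complex.I * u)) *
          Real.exp (-(2 * c * u)) := by
      rw [Finset.sum_mul]
      refine Finset.sum_congr rfl fun l _ => ?_
      rw [Finset.sum_mul]
      refine Finset.sum_congr rfl fun m _ => ?_
      push_cast
      ring
    rw [e1, e2, TP_sq, e3, e4, Complex.re_mul_ofReal, Complex.re_mul_ofReal]
    ring
  have i0 : IntegrableOn (fun u => ‖m0 u‖ ^ 2 * Real.exp (-(2 * c * u))) (Ioi 0) := by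
    have := kZ_int hR ∅ hc
    unfold PZ at this
    simpa using this
  have i1 : IntegrableOn (fun u : ℝ => ∑ l ∈ Λ, (starRingEnd ℂ) (cf l) *
        (m0 u * Complex.exp (-(l * u * Complex.I)) * Real.exp (-(2 * c * u)))) (Ioi 0) :=
    integrable_finsetSum _ fun l _ => (m0_Ioi hR l hc).1.const_mul _
  have i2 : IntegrableOn (fun u : ℝ => ∑ l ∈ Λ, ∑ m ∈ Λ, cf l * (starRingEnd ℂ) (cf m) *
        (Complex.exp (((l - m : ℝ) : ℂ) * Complex.I * u) * Real.exp (-(2 * c * u)))) (Ioi 0) :=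
    integrable_finsetSum _ fun l _ => integrable_finsetSum _ fun m _ => (exp_Ioi (l - m) hc).1.const_mul _
  have r1 := integral_re i1
  have r2 := integral_re i2
  simp only [RCLike.re_eq_complex_re] at r1 r2
  have j1 : IntegrableOn (fun u : ℝ => 2 * (∑ l ∈ Λ, (starRingEnd ℂ) (cf l) *
        (m0 u * Complex.exp (-(l * u * Complex.I)) * Real.exp (-(2 * c * u)))).re) (Ioi 0) := i1.re.const_mul 2
  have j2 : IntegrableOn (fun u : ℝ => (∑ l ∈ Λ, ∑ m ∈ Λ, cf l * (starRingEnd ℂ) (cf m) *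
        (Complex.exp (((l - m : ℝ) : ℂ) * Complex.I * u) * Real.exp (-(2 * c * u)))).re) (Ioi 0) := i2.re
  unfold AM
  simp_rw [hpt]
  have j3 : IntegrableOn (fun u : ℝ => ‖m0 u‖ ^ 2 * Real.exp (-(2 * c * u)) - 2 * (∑ l ∈ Λ, (starRingEnd ℂ) (cf l) *
        (m0 u * Complex.exp (-(l * u * Complex.I)) * Real.exp (-(2 * c * u)))).re) (Ioi 0) := i0.sub j1
  have t1 := integral_add j3 j2
  have t2 := integral_sub i0 j1
  rw [t1, t2, integral_const_mul, r1, r2]
  congr 2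
  · congr 2
    rw [integral_finsetSum _ fun l _ => (m0_Ioi hR l hc).1.const_mul _]
    refine Finset.sum_congr rfl fun l _ => ?_
    rw [integral_const_mul, (m0_Ioi hR l hc).2]
  · rw [integral_finsetSum _ fun l _ => integrable_finsetSum _ fun m _ => (exp_Ioi (l - m) hc).1.const_mul _]
    refine Finset.sum_congr rfl fun l _ => ?_
    rw [integral_finsetSum _ fun m _ => (exp_Ioi (l - m) hc).1.const_mul _]
    refine Finset.sum_congr rfl fun m _ => ?_
    rw [integral_const_mul, (exp_Ioi (l - m) hc).2]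

/-- the limit of the difference of Abel means -/
theorem AM_lim (hR : RHS) (Λ : Finset ℝ) (cf : ℝ → ℂ) :
    Tendsto (fun c : ℝ => 2 * c * AM (fun u => m0 u - TP Λ cf u) c - 2 * c * AM m0 c) (𝓝[>] 0)
      (𝓝 (∑ l ∈ Λ, (‖cf l - bb l‖ ^ 2 - ‖bb l‖ ^ 2))) := by
  classical
  have h1 : Tendsto (fun c : ℝ => - 2 * (∑ l ∈ Λ, (starRingEnd ℂ) (cf l) * (2 * (c : ℂ) * HH ⟨1 / 2 + 2 * c, l⟩)).re +
      (∑ l ∈ Λ, ∑ m ∈ Λ, cf l * (starRingEnd ℂ) (cf m) * (2 * (c : ℂ) / (2 * c - ((l - m : ℝ) : ℂ) * Complex.I))).re)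
      (𝓝[>] 0) (𝓝 (-2 * (∑ l ∈ Λ, (starRingEnd ℂ) (cf l) * bb l).re +
        (∑ l ∈ Λ, ∑ m ∈ Λ, cf l * (starRingEnd ℂ) (cf m) * (if l - m = 0 then 1 else 0)).re)) := by
    refine Tendsto.add (Tendsto.const_mul _ ?_) ?_
    · refine (Complex.continuous_re.tendsto _).comp (tendsto_finsetSum _ fun l _ => ?_)
      exact (HH_lim hR l).const_mul _
    · refine (Complex.continuous_re.tendsto _).comp (tendsto_finsetSum _ fun l _ => tendsto_finsetSum _ fun m _ => ?_)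
      exact (kern_lim (l - m)).const_mul _
  have h2 : -2 * (∑ l ∈ Λ, (starRingEnd ℂ) (cf l) * bb l).re +
        (∑ l ∈ Λ, ∑ m ∈ Λ, cf l * (starRingEnd ℂ) (cf m) * (if l - m = 0 then 1 else 0)).re =
        ∑ l ∈ Λ, (‖cf l - bb l‖ ^ 2 - ‖bb l‖ ^ 2) := by
    have e1 : (∑ l ∈ Λ, ∑ m ∈ Λ, cf l * (starRingEnd ℂ) (cf m) * (if l - m = 0 then 1 else 0)) =
        ((∑ l ∈ Λ, ‖cf l‖ ^ 2 : ℝ) : ℂ) := by
      push_cast
      refine Finset.sum_congr rfl fun l hl => ?_
      rw [Finset.sum_eq_single l]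
      · rw [sub_self, if_pos rfl, mul_one, diag]; push_cast; rfl
      · intro m _ hm
        rw [if_neg (sub_ne_zero.2 (Ne.symm hm)), mul_zero]
      · intro h; exact absurd hl h
    rw [e1, Complex.ofReal_re, Complex.re_sum, Finset.mul_sum, ← Finset.sum_add_distrib]
    refine Finset.sum_congr rfl fun l _ => ?_
    have e2 : ‖cf l - bb l‖ ^ 2 = ‖cf l‖ ^ 2 + ‖bb l‖ ^ 2 - 2 * (cf l * (starRingEnd ℂ) (bb l)).re := by
      rw [← Complex.normSq_eq_norm_sq, Complex.normSq_sub, Complex.normSq_eq_norm_sq, Complex.normSq_eq_norm_sq]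
    have e3 : (cf l * (starRingEnd ℂ) (bb l)).re = ((starRingEnd ℂ) (cf l) * bb l).re := by
      simp [Complex.mul_re]
    rw [e2, e3]
    ring
  rw [h2] at h1
  refine h1.congr' ?_
  filter_upwards [self_mem_nhdsWithin] with c hc
  have hc' : (0:ℝ) < c := hc
  rw [AM_expand hR Λ cf hc']
  have e1 : (∑ l ∈ Λ, (starRingEnd ℂ) (cf l) * (2 * (c : ℂ) * HH ⟨1 / 2 + 2 * c, l⟩)) =
      ((2 * c : ℝ) : ℂ) * ∑ l ∈ Λ, (starRingEnd ℂ) (cf l) * HH ⟨1 / 2 + 2 * c, l⟩ := by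
    rw [Finset.mul_sum]
    refine Finset.sum_congr rfl fun l _ => ?_
    push_cast; ring
  have e2 : (∑ l ∈ Λ, ∑ m ∈ Λ, cf l * (starRingEnd ℂ) (cf m) * (2 * (c : ℂ) / (2 * c - ((l - m : ℝ) : ℂ) * Complex.I))) =
      ((2 * c : ℝ) : ℂ) * ∑ l ∈ Λ, ∑ m ∈ Λ, cf l * (starRingEnd ℂ) (cf m) *
        (1 / (2 * c - ((l - m : ℝ) : ℂ) * Complex.I)) := by
    rw [Finset.mul_sum]
    refine Finset.sum_congr rfl fun l _ => ?_
    rw [Finset.mul_sum]
    refine Finset.sum_congr rfl fun m _ => ?_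
    push_cast; ring
  rw [e1, e2, Complex.re_ofReal_mul, Complex.re_ofReal_mul]
  ring

end

end Pool.Agent.Helper37.WMH
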