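import Pool.Agent.Helper37.WMH.Abel

/-! The criterion for the weak Mertens bound. -/

set_option autoImplicit false

open MeasureTheory Filter Topology Set
open scoped ENNReal

namespace Pool.Agent.Helper37.WMH

open Pool.Agent.H295R2

noncomputable section

lemma AM_nonneg (g : ℝ → ℂ) (c : ℝ) : 0 ≤ AM g c := by
  unfold AM
  exact integral_nonneg fun u => by positivity

lemma GE_of_AM_empty (hR : RHS) {A : ℝ} (hA : ∀ ρ ∈ NT, ‖aa ρ‖ ≤ A) {δ : ℝ} (hδ : 0 < δ) (hδ1 : δ ≤ 1) :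
    GE ∅ δ ≤ ENNReal.ofReal (δ ^ 2 / 4 * ((1 + 48 ^ 2) * (2 * Real.pi * AM (fun u => m0 u - PZ ∅ u) (δ / 4)))) := by
  have h1 := GE_line hR hA (Z := ∅) (by simp) hδ hδ1
  have h2 := left_empty hR (σ := δ / 4) (by positivity) (by linarith)
  have h3 := hh_line hR (Z := ∅) (by simp) (c := δ / 4) (by positivity)
  have hX := AM_nonneg (fun u => m0 u - PZ ∅ u) (δ / 4)
  set X := AM (fun u => m0 u - PZ ∅ u) (δ / 4)
  rw [h3] at h1 h2
  have hp := Real.pi_pos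
  refine h1.trans ?_
  calc ENNReal.ofReal (δ ^ 2 / 4) * (ENNReal.ofReal (2 * Real.pi * X) + ∫⁻ t : ℝ, ‖hh ∅ ⟨1 / 2 - δ / 4, t⟩‖ₑ ^ 2)
      ≤ ENNReal.ofReal (δ ^ 2 / 4) * (ENNReal.ofReal (2 * Real.pi * X) +
        ENNReal.ofReal (48 ^ 2) * ENNReal.ofReal (2 * Real.pi * X)) := by gcongr
    _ = _ := by
      rw [← ENNReal.ofReal_mul (by positivity), ← ENNReal.ofReal_add (by positivity) (by positivity),
        ← ENNReal.ofReal_mul (by positivity)]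
      congr 1
      ring

lemma GE_of_AM_ZT (hR : RHS) {A : ℝ} (hA : ∀ ρ ∈ NT, ‖aa ρ‖ ≤ A) {T : ℝ} (hT : 0 ≤ T) : ∃ C : ℝ, 0 ≤ C ∧
    ∀ δ : ℝ, 0 < δ → δ ≤ 1 → GE (ZT T) δ ≤
      ENNReal.ofReal (δ ^ 2 / 4 * ((1 + 3 * 48 ^ 2) * (2 * Real.pi * AM (fun u => m0 u - PZ (ZT T) u) (δ / 4)) + C)) := by
  obtain ⟨C, hC, h⟩ := left_ZT hR hT
  refine ⟨C, hC, fun δ hδ hδ1 => ?_⟩
  have hZ : ∀ ρ ∈ ZT T, ρ ∈ NT := fun ρ hρ => (mem_ZT.1 hρ).1
  have h1 := GE_line hR hA hZ hδ hδ1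
  have h2 := h (δ / 4) (by positivity) (by linarith)
  have h3 := hh_line hR hZ (c := δ / 4) (by positivity)
  have hX := AM_nonneg (fun u => m0 u - PZ (ZT T) u) (δ / 4)
  set X := AM (fun u => m0 u - PZ (ZT T) u) (δ / 4)
  rw [h3] at h1 h2
  have hp := Real.pi_pos
  refine h1.trans ?_
  calc ENNReal.ofReal (δ ^ 2 / 4) * (ENNReal.ofReal (2 * Real.pi * X) + ∫⁻ t : ℝ, ‖hh (ZT T) ⟨1 / 2 - δ / 4, t⟩‖ₑ ^ 2)
      ≤ ENNReal.ofReal (δ ^ 2 / 4) * (ENNReal.ofReal (2 * Real.pi * X) +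
        (ENNReal.ofReal (3 * 48 ^ 2) * ENNReal.ofReal (2 * Real.pi * X) + ENNReal.ofReal C)) := by gcongr
    _ = _ := by
      rw [← ENNReal.ofReal_mul (by positivity), ← ENNReal.ofReal_add (by positivity) (by positivity),
        ← ENNReal.ofReal_add (by positivity) (by positivity), ← ENNReal.ofReal_mul (by positivity)]
      congr 1
      ring

lemma JJ_mono {V W : ℝ} (h : V ≤ W) : JJ V ≤ JJ W := by
  rw [JJ_eq, JJ_eq]
  exact setIntegral_mono_set (tame_sq_iOn tame_m0 W) (Eventually.of_forall fun u => by positivity)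
    (Eventually.of_forall fun u hu => ⟨hu.1, hu.2.trans h⟩)

lemma JJ_nonneg (V : ℝ) : 0 ≤ JJ V := by
  rw [JJ_eq]
  exact integral_nonneg fun u => by positivity

lemma IW_one (x : ℝ) : IW 1 x = II x := by
  unfold IW II
  norm_num

lemma norm_aa_sq (ρ : ℂ) : ‖aa ρ‖ ^ 2 = 1 / ‖ρ * deriv riemannZeta ρ‖ ^ 2 := by
  unfold aa
  rw [norm_div, norm_one, div_pow, one_pow]

/-- consequences of a bound at arbitrarily large `x` -/
lemma basic {C : ℝ} (h : ∃ᶠ x in atTop, II x ≤ C * Real.log x) :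
    RHS ∧ ∀ Z : Finset ℂ, (∀ ρ ∈ Z, ρ ∈ NT) → ∑ ρ ∈ Z, ‖aa ρ‖ ^ 2 ≤ C := by
  have h1 := weak_mertens_windows (δ := 1) one_pos le_rfl (C := C) (h.mono fun x hx => by rw [IW_one]; exact hx)
  refine ⟨fun ρ hρ => h1.1 ρ hρ, fun Z hZ => ?_⟩
  have h2 := h1.2 Z hZ
  rw [div_one] at h2
  refine le_trans (le_of_eq (Finset.sum_congr rfl fun ρ _ => norm_aa_sq ρ)) h2

lemma II_nonneg {x : ℝ} (hx : 1 ≤ x) : 0 ≤ II x := by
  rw [II_eq hx]; exact JJ_nonneg _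

theorem fwd {C : ℝ} (h : ∀ x : ℝ, 2 ≤ x → II x ≤ C * Real.log x) :
    RHS ∧ ∃ C' : ℝ, 0 ≤ C' ∧ ∀ δ : ℝ, 0 < δ → δ ≤ 1 → WE ∅ δ ≤ ENNReal.ofReal (C' * δ) := by
  have hlog2 : 0 < Real.log 2 := Real.log_pos (by norm_num)
  have hlog2' : Real.log 2 ≤ 1 := by
    have := Real.log_two_lt_d9; linarith
  have hC : 0 ≤ C := by
    have h1 := h 2 le_rfl
    have h2 := II_nonneg (x := 2) (by norm_num)
    by_contra hc
    push Not at hc
    nlinarith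
  obtain ⟨hR, hS⟩ := basic (C := C) (((eventually_ge_atTop 2).mono fun x hx => h x hx).frequently)
  refine ⟨hR, ?_⟩
  have hA : ∀ ρ ∈ NT, ‖aa ρ‖ ≤ Real.sqrt C := by
    intro ρ hρ
    apply Real.le_sqrt_of_sq_le
    have := hS {ρ} (by simpa using hρ)
    simpa using this
  have hJ : ∀ V : ℝ, 0 < V → JJ V ≤ C * V + C := by
    intro V hV
    rcases le_or_gt (Real.log 2) V with h1 | h1
    · have h2 : 2 ≤ Real.exp V := by
        rw [← Real.log_le_iff_le_exp (by norm_num)]; exact h1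
      have h3 := h _ h2
      rw [II_exp hV.le, Real.log_exp] at h3
      linarith
    · have h3 := h 2 le_rfl
      rw [II_eq (by norm_num)] at h3
      have h4 := JJ_mono h1.le
      nlinarith [mul_nonneg hC hV.le]
  have hAM : ∀ c : ℝ, 0 < c → AM (fun u => m0 u - PZ ∅ u) c ≤ C / (2 * c) + C := by
    intro c hc
    refine AM_le (m0_meas.sub (tame_PZ ∅).meas) hC hC hc (fun V => tame_sq_iOn (tame_sub tame_m0 (tame_PZ ∅)) V) ?_
    intro V hV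
    have h1 := hJ V hV
    rw [JJ_eq] at h1
    refine le_trans (le_of_eq ?_) h1
    refine integral_congr_ae (Eventually.of_forall fun u => ?_)
    simp [PZ]
  set B : ℝ := (1 + 48 ^ 2) * (2 * Real.pi * (3 * C)) / 4 with hB
  have hp := Real.pi_pos
  have hB0 : 0 ≤ B := by rw [hB]; positivity
  have hG : ∀ δ : ℝ, 0 < δ → δ ≤ 1 → GE ∅ δ ≤ ENNReal.ofReal (B * δ) := by
    intro δ hδ hδ1
    refine (GE_of_AM_empty hR hA hδ hδ1).trans (ENNReal.ofReal_le_ofReal ?_)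
    have h1 := hAM (δ / 4) (by positivity)
    have h2 : C / (2 * (δ / 4)) + C ≤ 3 * C / δ := by
      have e1 : C / (2 * (δ / 4)) = 2 * C / δ := by field_simp; ring
      have e2 : C ≤ C / δ := by rw [le_div_iff₀ hδ]; nlinarith
      have e3 : 3 * C / δ = 2 * C / δ + C / δ := by ring
      rw [e1, e3]
      linarith
    calc δ ^ 2 / 4 * ((1 + 48 ^ 2) * (2 * Real.pi * AM (fun u => m0 u - PZ ∅ u) (δ / 4)))
        ≤ δ ^ 2 / 4 * ((1 + 48 ^ 2) * (2 * Real.pi * (3 * C / δ))) := by gcongr; linarith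
      _ = B * δ := by rw [hB]; field_simp
  refine ⟨4 * B, by positivity, fun δ hδ hδ1 => ?_⟩
  exact WE_le hR hA (Z := ∅) (by simp) hB0 hδ fun δ' h1 h2 => hG δ' h1 (h2.trans hδ1)

theorem bwd (hR : RHS) {C δ₀ : ℝ} (hC : 0 ≤ C) (hδ₀ : 0 < δ₀)
    (h : ∀ δ : ℝ, 0 < δ → δ ≤ δ₀ → WE ∅ δ ≤ ENNReal.ofReal (C * δ)) :
    ∃ C' : ℝ, ∀ x : ℝ, 2 ≤ x → II x ≤ C' * Real.log x := by
  have hA : ∀ ρ ∈ NT, ‖aa ρ‖ ≤ Real.sqrt C := by
    intro ρ hρ
    apply Real.le_sqrt_of_sq_le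
    have h1 := aa_bound hR hC hδ₀ h hρ
    unfold aZ at h1
    rwa [if_neg (Finset.notMem_empty _)] at h1
  obtain ⟨C₀, hC₀, hM⟩ := mean_le hR hA
  have hlog2 : 1 / 2 < Real.log 2 := by
    have := Real.log_two_gt_d9; linarith
  set B : ℝ := C * (2 + 8 / δ₀) with hB
  have hB0 : 0 ≤ B := by rw [hB]; positivity
  refine ⟨2 * C₀ + 8 * B, fun x hx => ?_⟩
  have hV : 1 / 2 < Real.log x := hlog2.trans_le (Real.log_le_log (by norm_num) hx)
  set V := Real.log x with hVd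
  have hV0 : 0 < V := by linarith
  have h1 := GE_le hA (Z := ∅) hC hδ₀ h (δ := 1 / V) (by positivity)
  have h2 : C * (2 * (1 / V) + 4 / δ₀ * (1 / V) ^ 2) ≤ B * (1 / V) := by
    have h3 : 1 / V ≤ 2 := by rw [div_le_iff₀ hV0]; linarith
    have h4 : 0 < 1 / V := by positivity
    have h5 : 4 / δ₀ * (1 / V) ^ 2 ≤ 8 / δ₀ * (1 / V) := by
      calc 4 / δ₀ * (1 / V) ^ 2 = (4 / δ₀ * (1 / V)) * (1 / V) := by ring
        _ ≤ (4 / δ₀ * 2) * (1 / V) := by gcongr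
        _ = _ := by ring
    calc C * (2 * (1 / V) + 4 / δ₀ * (1 / V) ^ 2) ≤ C * (2 * (1 / V) + 8 / δ₀ * (1 / V)) := by gcongr
      _ = _ := by rw [hB]; ring
  have h3 := hM ∅ (by simp) B V hB0 hV0 (h1.trans (ENNReal.ofReal_le_ofReal h2))
  have h4 : II x ≤ C₀ + 8 * B * V := by
    rw [II_eq (by linarith), JJ_eq]
    refine le_trans (le_of_eq ?_) h3
    refine integral_congr_ae (Eventually.of_forall fun u => ?_)
    simp [PZ]
  nlinarith

end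

end Pool.Agent.Helper37.WMH
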