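import Pool.Agent.Helper37.WMH.Four
import Pool.Graph.R_seed8.Helper625.Planch

/-! Plancherel for the Gaussian sums over the zeros. -/

set_option autoImplicit false

open MeasureTheory Filter Topology Set

namespace Pool.Agent.Helper37.WMH

open Pool.Agent.H295R2

noncomputable section

/-- `Σ_ρ a_ρ e^{iγv}` in the sense of distributions, for all real `v` -/
def mh (v : ℝ) : ℂ := m0 v - KK v / (2 * Real.pi) + 2 * Complex.exp (-(v / 2))

/-- the exponential sum over the zeros in `Z` -/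
def PZ (Z : Finset ℂ) (v : ℝ) : ℂ := ∑ ρ ∈ Z, aa ρ * Complex.exp (ρ.im * v * Complex.I)

open Classical in
/-- the coefficients with the zeros in `Z` removed -/
def aZ (Z : Finset ℂ) (ρ : ℂ) : ℂ := if ρ ∈ Z then 0 else aa ρ

/-- the Gaussian sums -/
def SZ (Z : Finset ℂ) (δ x : ℝ) : ℂ := ∑' ρ : NT, aZ Z ρ * (gs δ ((ρ : ℂ).im - x) : ℂ)

lemma aZ_norm_le (Z : Finset ℂ) (ρ : ℂ) : ‖aZ Z ρ‖ ≤ ‖aa ρ‖ := by
  unfold aZ
  split_ifs
  · rw [norm_zero]; exact norm_nonneg _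
  · exact le_rfl

lemma aZ_summable {A δ : ℝ} (hδ : 0 < δ) (x : ℝ) (Z : Finset ℂ) (hA : ∀ ρ ∈ NT, ‖aa ρ‖ ≤ A) :
    Summable (fun ρ : NT => aZ Z ρ * (gs δ ((ρ : ℂ).im - x) : ℂ)) := by
  refine Summable.of_norm ?_
  refine (summable_gs hδ x (a := aZ Z) (A := A) fun ρ hρ => (aZ_norm_le Z ρ).trans (hA ρ hρ)).congr fun ρ => ?_
  rw [norm_mul, Complex.norm_real, Real.norm_of_nonneg (gs_pos _ _).le]

/-- growth of order `e^{|v|}` -/
structure Tame (g : ℝ → ℂ) : Prop where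
  meas : Measurable g
  bound : ∃ C : ℝ, 0 < C ∧ ∀ v, ‖g v‖ ≤ C * Real.exp |v|

lemma Tame.add {f g : ℝ → ℂ} (hf : Tame f) (hg : Tame g) : Tame (fun v => f v + g v) := by
  obtain ⟨C, hC, h1⟩ := hf.bound
  obtain ⟨D, hD, h2⟩ := hg.bound
  refine ⟨hf.meas.add hg.meas, C + D, by positivity, fun v => ?_⟩
  refine (norm_add_le _ _).trans ?_
  have := h1 v
  have := h2 v
  rw [add_mul]
  linarith

lemma Tame.const_mul {f : ℝ → ℂ} (hf : Tame f) (c : ℂ) : Tame (fun v => c * f v) := by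
  obtain ⟨C, hC, h1⟩ := hf.bound
  refine ⟨hf.meas.const_mul c, (‖c‖ + 1) * C, by positivity, fun v => ?_⟩
  rw [norm_mul, mul_assoc]
  have := h1 v
  have := norm_nonneg c
  exact mul_le_mul (by linarith) (h1 v) (norm_nonneg _) (by positivity)

lemma tame_exp (g : ℝ) : Tame (fun v : ℝ => Complex.exp (g * v * Complex.I)) := by
  refine ⟨Continuous.measurable (by fun_prop), 1, one_pos, fun v => ?_⟩
  rw [← Complex.ofReal_mul, Complex.norm_exp_ofReal_mul_I, one_mul]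
  exact Real.one_le_exp (abs_nonneg v)

lemma tame_m0 : Tame m0 := ⟨m0_meas, 1, one_pos, fun v => by rw [one_mul]; exact m0_norm v⟩

lemma tame_KK : Tame KK := by
  obtain ⟨K, hK, h⟩ := KK_bound
  refine ⟨KK_meas, K, hK, fun v => (h v).trans ?_⟩
  have : Real.exp (-v) ≤ Real.exp |v| := Real.exp_le_exp.2 (neg_le_abs v)
  gcongr

lemma tame_half : Tame (fun v : ℝ => Complex.exp (-(v / 2))) := by
  refine ⟨Continuous.measurable (by fun_prop), 1, one_pos, fun v => ?_⟩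
  rw [Complex.norm_exp, one_mul]
  apply Real.exp_le_exp.2
  have h1 : (-((v : ℂ) / 2)).re = -(v / 2) := by simp
  rw [h1]
  have := neg_abs_le v
  have := abs_nonneg v
  linarith

lemma tame_mh : Tame mh := by
  have h := (tame_m0.add (tame_KK.const_mul (-(1 / (2 * Real.pi))))).add (tame_half.const_mul 2)
  have e : mh = fun v => m0 v + -(1 / (2 * (Real.pi : ℂ))) * KK v + 2 * Complex.exp (-(v / 2)) := by
    funext v
    unfold mh
    ring
  rw [e]
  exact h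

lemma tame_PZ (Z : Finset ℂ) : Tame (PZ Z) := by
  classical
  unfold PZ
  induction Z using Finset.induction_on with
  | empty => exact ⟨by simp, 1, one_pos, fun v => by simp; positivity⟩
  | insert ρ Z hρ ih =>
    have h := ((tame_exp ρ.im).const_mul (aa ρ)).add ih
    simp_rw [Finset.sum_insert hρ]
    exact h

/-- the spectral function with the zeros in `Z` removed -/
def nu (Z : Finset ℂ) (v : ℝ) : ℂ := mh v - PZ Z v

lemma tame_nu (Z : Finset ℂ) : Tame (nu Z) := by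
  have h := tame_mh.add ((tame_PZ Z).const_mul (-1))
  have e : nu Z = fun v => mh v + (-1) * PZ Z v := by
    funext v; unfold nu; ring
  rw [e]; exact h

lemma tame_int {g : ℝ → ℂ} (hg : Tame g) {δ : ℝ} (hδ : 0 < δ) (x : ℝ) :
    Integrable (fun v : ℝ => (Real.exp (-(δ ^ 2 * v ^ 2 / 4)) : ℂ) * Complex.exp (-(x * v * Complex.I)) * g v) := by
  obtain ⟨C, hC, h⟩ := hg.bound
  have hA : Integrable (fun v : ℝ => C * (Real.exp (-((δ ^ 2 / 4) * v ^ 2)) * Real.exp (1 * |v|))) :=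
    (gexp_integrable (by positivity) 1).const_mul C
  refine hA.mono' ?_ (Eventually.of_forall fun v => ?_)
  · refine Measurable.aestronglyMeasurable (Measurable.mul (Continuous.measurable (by fun_prop)) hg.meas)
  · rw [norm_mul, norm_mul, Complex.norm_real, Real.norm_of_nonneg (Real.exp_pos _).le]
    have h2 : ‖Complex.exp (-(x * v * Complex.I))‖ = 1 := by
      rw [show -((x : ℂ) * v * Complex.I) = ((-(x * v) : ℝ) : ℂ) * Complex.I by push_cast; ring]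
      exact Complex.norm_exp_ofReal_mul_I _
    rw [h2, mul_one, one_mul]
    have e : Real.exp (-(δ ^ 2 * v ^ 2 / 4)) = Real.exp (-((δ ^ 2 / 4) * v ^ 2)) := by congr 1; ring
    rw [e]
    calc Real.exp (-(δ ^ 2 / 4 * v ^ 2)) * ‖g v‖ ≤ Real.exp (-(δ ^ 2 / 4 * v ^ 2)) * (C * Real.exp |v|) := by
          gcongr; exact h v
      _ = _ := by ring

lemma gs_int {δ : ℝ} (hδ : 0 < δ) (x g : ℝ) : (gs δ (g - x) : ℂ) = (δ / (2 * Real.sqrt Real.pi) : ℝ) *
    ∫ v : ℝ, (Real.exp (-(δ ^ 2 * v ^ 2 / 4)) : ℂ) * Complex.exp (-(x * v * Complex.I)) *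
      Complex.exp (g * v * Complex.I) := by
  have h := wt_int hδ x (⟨1 / 2, g⟩ : ℂ)
  rw [wt_crit (by rfl)] at h
  simp only at h
  rw [h]
  congr 1
  refine integral_congr_ae (Eventually.of_forall fun v => ?_)
  simp only
  rw [mul_assoc, ← Complex.exp_add]
  congr 2
  have e3 : (⟨1 / 2, g⟩ : ℂ) = 1 / 2 + g * Complex.I := by apply Complex.ext <;> simp
  rw [e3]
  ring

lemma wt0_int {δ : ℝ} (hδ : 0 < δ) (x : ℝ) : wt δ x 0 = (δ / (2 * Real.sqrt Real.pi) : ℝ) *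
    ∫ v : ℝ, (Real.exp (-(δ ^ 2 * v ^ 2 / 4)) : ℂ) * Complex.exp (-(x * v * Complex.I)) *
      Complex.exp (-(v / 2)) := by
  rw [wt_int hδ x 0]
  congr 1
  refine integral_congr_ae (Eventually.of_forall fun v => ?_)
  simp only
  rw [mul_assoc, ← Complex.exp_add]
  congr 2
  ring

/-- **The explicit formula.** -/
theorem SZ_empty (hR : RHS) {A : ℝ} (hA : ∀ ρ ∈ NT, ‖aa ρ‖ ≤ A) {δ : ℝ} (hδ : 0 < δ) (x : ℝ) :
    SZ ∅ δ x = (δ / (2 * Real.sqrt Real.pi) : ℝ) *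
      ∫ v : ℝ, (Real.exp (-(δ ^ 2 * v ^ 2 / 4)) : ℂ) * Complex.exp (-(x * v * Complex.I)) * mh v := by
  have hsum : HasSum (fun ρ : NT => aa ρ * (gs δ ((ρ : ℂ).im - x) : ℂ)) (SZ ∅ δ x) := by
    have h := (aZ_summable hδ x ∅ hA).hasSum
    have e : ∀ ρ : ℂ, aZ ∅ ρ = aa ρ := fun ρ => by unfold aZ; simp
    simp only [e] at h
    unfold SZ
    simp only [e]
    exact h
  have h1 := contour_far hR hδ x (left_integrable δ x) (right_integrable hδ x) hsum
  rw [right_int hδ, left_int hδ, wt0_int hδ] at h1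
  set w : ℝ → ℂ := fun v => (Real.exp (-(δ ^ 2 * v ^ 2 / 4)) : ℂ) * Complex.exp (-(x * v * Complex.I)) with hw
  have i1 : Integrable (fun v : ℝ => w v * m0 v) := tame_int tame_m0 hδ x
  have i2 : Integrable (fun v : ℝ => w v * KK v) := tame_int tame_KK hδ x
  have i3 : Integrable (fun v : ℝ => w v * Complex.exp (-(v / 2))) := tame_int tame_half hδ x
  have e4 : ∫ v : ℝ, w v * mh v = (∫ v : ℝ, w v * m0 v) - (∫ v : ℝ, w v * KK v) / (2 * Real.pi) +
      2 * ∫ v : ℝ, w v * Complex.exp (-(v / 2)) := by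
    have e5 : ∀ v, w v * mh v = (w v * m0 v - (1 / (2 * Real.pi)) * (w v * KK v)) + 2 * (w v * Complex.exp (-(v / 2))) := by
      intro v; unfold mh; ring
    simp_rw [e5]
    rw [integral_add (f := fun v : ℝ => w v * m0 v - (1 / (2 * Real.pi)) * (w v * KK v))
      (g := fun v : ℝ => 2 * (w v * Complex.exp (-(v / 2)))) (i1.sub (i2.const_mul _)) (i3.const_mul _),
      integral_sub i1 (i2.const_mul _), integral_const_mul, integral_const_mul]
    ring
  have hpi : (Real.pi : ℂ) ≠ 0 := by exact_mod_cast Real.pi_ne_zero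
  have hsq : (Real.sqrt Real.pi : ℂ) ≠ 0 := sqrt_pi_ne
  have hsq2 : (Real.sqrt Real.pi : ℂ) ^ 2 = Real.pi := by
    rw [← Complex.ofReal_pow, Real.sq_sqrt Real.pi_pos.le]
  have h2 : SZ ∅ δ x = ((δ * Real.sqrt Real.pi : ℝ) * (∫ v : ℝ, w v * m0 v) -
      (δ / (2 * Real.sqrt Real.pi) : ℝ) * ∫ v : ℝ, w v * KK v) / (2 * Real.pi) +
      2 * ((δ / (2 * Real.sqrt Real.pi) : ℝ) * ∫ v : ℝ, w v * Complex.exp (-(v / 2))) := by
    rw [h1]
    field_simp
    ring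
  rw [h2]
  change _ = ((δ / (2 * Real.sqrt Real.pi) : ℝ) : ℂ) * ∫ v : ℝ, w v * mh v
  rw [e4]
  push_cast
  have e6 : (δ : ℂ) * Real.sqrt Real.pi / (2 * Real.pi) = δ / (2 * Real.sqrt Real.pi) := by
    rw [← hsq2]; field_simp
  linear_combination (∫ v : ℝ, w v * m0 v) * e6

theorem SZ_eq (hR : RHS) {A : ℝ} (hA : ∀ ρ ∈ NT, ‖aa ρ‖ ≤ A) {Z : Finset ℂ} (hZ : ∀ ρ ∈ Z, ρ ∈ NT)
    {δ : ℝ} (hδ : 0 < δ) (x : ℝ) :
    SZ Z δ x = (δ / (2 * Real.sqrt Real.pi) : ℝ) *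
      ∫ v : ℝ, (Real.exp (-(δ ^ 2 * v ^ 2 / 4)) : ℂ) * Complex.exp (-(x * v * Complex.I)) * nu Z v := by
  classical
  set w : ℝ → ℂ := fun v => (Real.exp (-(δ ^ 2 * v ^ 2 / 4)) : ℂ) * Complex.exp (-(x * v * Complex.I)) with hw
  have h0 := aZ_summable hδ x ∅ hA
  have h1 : SZ Z δ x = SZ ∅ δ x - ∑ ρ ∈ Z, aa ρ * (gs δ (ρ.im - x) : ℂ) := by
    unfold SZ
    have h2 : ∑ ρ ∈ Z, aa ρ * (gs δ (ρ.im - x) : ℂ) =
        ∑' ρ : NT, (if (ρ : ℂ) ∈ Z then aa ρ * (gs δ ((ρ : ℂ).im - x) : ℂ) else 0) := by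
      rw [tsum_eq_sum (s := Z.subtype (fun s => s ∈ NT)) (by
        intro ρ hρ
        rw [Finset.mem_subtype] at hρ
        rw [if_neg hρ])]
      rw [Finset.sum_subtype_eq_sum_filter (s := Z) (p := fun s => s ∈ NT)
        (f := fun s : ℂ => if s ∈ Z then aa s * (gs δ (s.im - x) : ℂ) else 0)]
      rw [Finset.filter_true_of_mem hZ]
      refine Finset.sum_congr rfl fun ρ hρ => ?_
      rw [if_pos hρ]
    have h3 : Summable (fun ρ : NT => (if (ρ : ℂ) ∈ Z then aa ρ * (gs δ ((ρ : ℂ).im - x) : ℂ) else 0)) := by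
      apply summable_of_ne_finset_zero (s := Z.subtype (fun s => s ∈ NT))
      intro ρ hρ
      rw [Finset.mem_subtype] at hρ
      rw [if_neg hρ]
    rw [h2, ← h0.tsum_sub h3]
    refine tsum_congr fun ρ => ?_
    unfold aZ
    by_cases h : (ρ : ℂ) ∈ Z
    · simp [h]
    · simp [h]
  rw [h1, SZ_empty hR hA hδ]
  have h4 : ∀ ρ ∈ Z, Integrable (fun v : ℝ => w v * (aa ρ * Complex.exp (ρ.im * v * Complex.I))) := fun ρ _ =>
    tame_int ((tame_exp ρ.im).const_mul (aa ρ)) hδ x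
  have h5 : ∫ v : ℝ, w v * nu Z v = (∫ v : ℝ, w v * mh v) -
      ∑ ρ ∈ Z, ∫ v : ℝ, w v * (aa ρ * Complex.exp (ρ.im * v * Complex.I)) := by
    rw [← integral_finsetSum Z h4, ← integral_sub (tame_int tame_mh hδ x) (integrable_finsetSum Z h4)]
    refine integral_congr_ae (Eventually.of_forall fun v => ?_)
    simp only
    unfold nu PZ
    rw [mul_sub, Finset.mul_sum]
  change _ = ((δ / (2 * Real.sqrt Real.pi) : ℝ) : ℂ) * ∫ v : ℝ, w v * nu Z v
  rw [h5, mul_sub, Finset.mul_sum]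
  congr 1
  refine Finset.sum_congr rfl fun ρ _ => ?_
  rw [gs_int hδ]
  have h6 : ∀ v : ℝ, w v * (aa ρ * Complex.exp (ρ.im * v * Complex.I)) =
      aa ρ * (w v * Complex.exp (ρ.im * v * Complex.I)) := fun v => by ring
  simp_rw [h6]
  rw [integral_const_mul]
  ring

open FourierTransform in
/-- **Plancherel.** -/
theorem planch_SZ (hR : RHS) {A : ℝ} (hA : ∀ ρ ∈ NT, ‖aa ρ‖ ≤ A) {Z : Finset ℂ} (hZ : ∀ ρ ∈ Z, ρ ∈ NT)
    {δ : ℝ} (hδ : 0 < δ) :
    Integrable (fun x : ℝ => ‖SZ Z δ x‖ ^ 2) ∧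
    Integrable (fun v : ℝ => Real.exp (-(δ ^ 2 * v ^ 2 / 2)) * ‖nu Z v‖ ^ 2) ∧
    ∫ x : ℝ, ‖SZ Z δ x‖ ^ 2 = δ ^ 2 / 2 * ∫ v : ℝ, Real.exp (-(δ ^ 2 * v ^ 2 / 2)) * ‖nu Z v‖ ^ 2 := by
  set c : ℝ := δ / (2 * Real.sqrt Real.pi) with hc
  have hc0 : 0 < c := by rw [hc]; have := Real.sqrt_pos.2 Real.pi_pos; positivity
  set g : ℝ → ℂ := fun v => (c : ℂ) * ((Real.exp (-(δ ^ 2 * v ^ 2 / 4)) : ℂ) * nu Z v) with hg
  have hmeas : Measurable (fun v : ℝ => (Real.exp (-(δ ^ 2 * v ^ 2 / 4)) : ℂ) * nu Z v) :=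
    Measurable.mul (Continuous.measurable (by fun_prop)) (tame_nu Z).meas
  have hgi : Integrable g := by
    have h := (tame_int (tame_nu Z) hδ 0).const_mul (c : ℂ)
    refine h.congr (Eventually.of_forall fun v => ?_)
    simp [hg]
  have hsq : ∀ v, ‖g v‖ ^ 2 = c ^ 2 * (Real.exp (-(δ ^ 2 * v ^ 2 / 2)) * ‖nu Z v‖ ^ 2) := by
    intro v
    rw [hg]
    simp only
    rw [norm_mul, norm_mul, Complex.norm_real, Complex.norm_real, Real.norm_of_nonneg hc0.le,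
      Real.norm_of_nonneg (Real.exp_pos _).le, mul_pow, mul_pow, ← Real.exp_nat_mul]
    congr 3
    push_cast
    ring
  have hint : Integrable (fun v : ℝ => Real.exp (-(δ ^ 2 * v ^ 2 / 2)) * ‖nu Z v‖ ^ 2) := by
    obtain ⟨C, hC, h⟩ := (tame_nu Z).bound
    have hA : Integrable (fun v : ℝ => C ^ 2 * (Real.exp (-((δ ^ 2 / 2) * v ^ 2)) * Real.exp (2 * |v|))) :=
      (gexp_integrable (by positivity) 2).const_mul _
    refine hA.mono' ?_ (Eventually.of_forall fun v => ?_)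
    · exact (Measurable.mul (Continuous.measurable (by fun_prop)) ((tame_nu Z).meas.norm.pow_const 2)).aestronglyMeasurable
    · rw [Real.norm_of_nonneg (by positivity)]
      have e : Real.exp (-(δ ^ 2 * v ^ 2 / 2)) = Real.exp (-((δ ^ 2 / 2) * v ^ 2)) := by congr 1; ring
      rw [e]
      have h2 : ‖nu Z v‖ ^ 2 ≤ (C * Real.exp |v|) ^ 2 := by
        have := h v
        gcongr
      have h3 : (C * Real.exp |v|) ^ 2 = C ^ 2 * Real.exp (2 * |v|) := by
        rw [mul_pow, ← Real.exp_nat_mul]; norm_num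
      rw [h3] at h2
      calc Real.exp (-(δ ^ 2 / 2 * v ^ 2)) * ‖nu Z v‖ ^ 2 ≤
            Real.exp (-(δ ^ 2 / 2 * v ^ 2)) * (C ^ 2 * Real.exp (2 * |v|)) := by gcongr
        _ = _ := by ring
  have hg2 : MemLp g 2 := by
    rw [memLp_two_iff_integrable_sq_norm hgi.aestronglyMeasurable]
    simp_rw [hsq]
    exact hint.const_mul _
  obtain ⟨h1, h2⟩ := Pool.Agent.Helper625.Planch.plancherel g hgi hg2
  have hF : ∀ x : ℝ, SZ Z δ x = 𝓕 g (x / (2 * Real.pi)) := by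
    intro x
    rw [SZ_eq hR hA hZ hδ, Real.fourier_real_eq_integral_exp_smul, ← integral_const_mul]
    refine integral_congr_ae (Eventually.of_forall fun v => ?_)
    simp only [hg, smul_eq_mul]
    have e : Complex.exp (((-2 * Real.pi * v * (x / (2 * Real.pi)) : ℝ) : ℂ) * Complex.I) =
        Complex.exp (-(x * v * Complex.I)) := by
      congr 1
      have : (-2 * Real.pi * v * (x / (2 * Real.pi)) : ℝ) = -(x * v) := by
        have := Real.pi_ne_zero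
        field_simp
      rw [this]
      push_cast; ring
    rw [e]
    ring
  have h2pi : (0:ℝ) < 2 * Real.pi := by positivity
  have h3 : Integrable (fun ξ : ℝ => ‖𝓕 g ξ‖ ^ 2) := (memLp_two_iff_integrable_sq_norm h1.aestronglyMeasurable).1 h1
  refine ⟨?_, hint, ?_⟩
  · simp_rw [hF]
    exact h3.comp_div h2pi.ne'
  · simp_rw [hF]
    rw [Measure.integral_comp_div (fun ξ => ‖𝓕 g ξ‖ ^ 2), h2, abs_of_pos h2pi, smul_eq_mul]
    simp_rw [hsq]
    rw [integral_const_mul, ← mul_assoc]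
    congr 1
    rw [hc, div_pow, mul_pow, Real.sq_sqrt Real.pi_pos.le]
    have := Real.pi_ne_zero
    field_simp

end

end Pool.Agent.Helper37.WMH
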