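import Pool.Agent.Helper37.WMH.Lev2

/-! The relation between the second moment of `1/ζ'(ρ)` and the increments. -/

set_option autoImplicit false

open MeasureTheory Filter Topology Set
open scoped ENNReal

namespace Pool.Agent.Helper37.WMH

open Pool.Agent.H295R2

noncomputable section

/-- the limit of the mean squares of the increments -/
def SS (H : ℝ) : ℝ := ∑' ρ : NT, ‖aa ρ‖ ^ 2 * wH H ρ

/-- the sum of all `|a_ρ|²` -/
def A0 : ℝ := ∑' ρ : NT, ‖aa ρ‖ ^ 2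

lemma SS_eq (hR : RHS) (hs : Summable (fun ρ : NT => ‖aa ρ‖ ^ 2)) (H : ℝ) :
    SS H = (Real.exp (1 / 2 * H) - 1) ^ 2 * A0 + 2 * Real.exp (1 / 2 * H) * EE H := by
  unfold SS A0 EE
  rw [← tsum_mul_left, ← tsum_mul_left, ← (hs.mul_left _).tsum_add ((EE_summable hs H).mul_left _)]
  refine tsum_congr fun ρ => ?_
  have h1 : wH H ρ = (Real.exp (1 / 2 * H) - 1) ^ 2 + 2 * Real.exp (1 / 2 * H) * (1 - Real.cos ((ρ : ℂ).im * H)) := by
    unfold wH
    rw [← exp_sub_one_sq, mk_im hR ρ.2]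
  rw [h1]
  ring

lemma exp_slope : Tendsto (fun H : ℝ => (Real.exp H - 1) / H) (𝓝[>] 0) (𝓝 1) := by
  have h1 := (Real.hasDerivAt_exp 0).tendsto_slope_zero_right
  rw [Real.exp_zero] at h1
  refine h1.congr fun t => ?_
  rw [zero_add, smul_eq_mul]
  ring

lemma log_slope : Tendsto (fun h : ℝ => Real.log (1 + h) / h) (𝓝[>] 0) (𝓝 1) := by
  have h1 := (Real.hasDerivAt_log one_ne_zero).tendsto_slope_zero_right
  rw [Real.log_one, inv_one] at h1
  refine h1.congr fun t => ?_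
  rw [sub_zero, smul_eq_mul]
  ring

lemma half_exp : Tendsto (fun H : ℝ => Real.exp (1 / 2 * H)) (𝓝[>] 0) (𝓝 1) := by
  have h1 : Continuous (fun H : ℝ => Real.exp (1 / 2 * H)) := by fun_prop
  have h2 := h1.tendsto 0
  rw [mul_zero, Real.exp_zero] at h2
  exact h2.mono_left nhdsWithin_le_nhds

lemma half_sq : Tendsto (fun H : ℝ => (Real.exp (1 / 2 * H) - 1) ^ 2 / H) (𝓝[>] 0) (𝓝 0) := by
  have h0 : Tendsto (fun H : ℝ => 1 / 2 * H) (𝓝[>] 0) (𝓝[>] 0) := by
    refine tendsto_nhdsWithin_iff.2 ⟨?_, ?_⟩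
    · have h1 : Continuous (fun H : ℝ => 1 / 2 * H) := by fun_prop
      have h2 := h1.tendsto 0
      rw [mul_zero] at h2
      exact h2.mono_left nhdsWithin_le_nhds
    · filter_upwards [self_mem_nhdsWithin] with H hH
      have : (0:ℝ) < H := hH
      exact mem_Ioi.2 (by positivity)
  have h1 := (exp_slope.comp h0).const_mul (1 / 2)
  have h2 := h1.mul (half_exp.sub_const 1)
  rw [sub_self, mul_zero] at h2
  refine h2.congr' ?_
  filter_upwards [self_mem_nhdsWithin] with H hH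
  have : (0:ℝ) < H := hH
  simp only [Function.comp]
  field_simp

lemma SS_of_EE (hR : RHS) (hs : Summable (fun ρ : NT => ‖aa ρ‖ ^ 2)) {c : ℝ}
    (h : Tendsto (fun x => EE x / x) (𝓝[>] 0) (𝓝 (Real.pi * c))) :
    Tendsto (fun x => SS x / x) (𝓝[>] 0) (𝓝 (2 * Real.pi * c)) := by
  have h1 := (half_sq.mul_const A0).add ((half_exp.const_mul 2).mul h)
  have e : 0 * A0 + 2 * 1 * (Real.pi * c) = 2 * Real.pi * c := by ring
  rw [e] at h1
  refine h1.congr fun x => ?_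
  rw [SS_eq hR hs]
  ring

lemma EE_of_SS (hR : RHS) (hs : Summable (fun ρ : NT => ‖aa ρ‖ ^ 2)) {c : ℝ}
    (h : Tendsto (fun x => SS x / x) (𝓝[>] 0) (𝓝 (2 * Real.pi * c))) :
    Tendsto (fun x => EE x / x) (𝓝[>] 0) (𝓝 (Real.pi * c)) := by
  have h1 := (h.sub (half_sq.mul_const A0)).div (half_exp.const_mul 2) (by norm_num)
  have e : (2 * Real.pi * c - 0 * A0) / (2 * 1) = Real.pi * c := by ring
  rw [e] at h1
  refine h1.congr fun x => ?_
  simp only [Pi.div_apply]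
  rw [SS_eq hR hs]
  have := Real.exp_pos (1 / 2 * x)
  field_simp
  ring

lemma JA_eq (hR : RHS) (T : ℝ) : JA T = Gz T + 1 / 4 * ∑ ρ ∈ ZT T, ‖aa ρ‖ ^ 2 := by
  unfold JA Gz
  rw [Finset.mul_sum, ← Finset.sum_add_distrib]
  refine Finset.sum_congr rfl fun ρ hρ => ?_
  have hρN := (mem_ZT.1 hρ).1
  have hρ0 : 0 < ‖ρ‖ := norm_pos_iff.2 (NT_im_ne hρN).1
  have h2 : ‖ρ‖ ^ 2 = 1 / 4 + ρ.im ^ 2 := by
    rw [← Complex.normSq_eq_norm_sq, Complex.normSq_apply, (hR ρ hρN).1]; ring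
  unfold gz
  rw [aa_sq, h2]
  have : (0:ℝ) < 1 / 4 + ρ.im ^ 2 := by positivity
  field_simp
  ring

lemma JA_ge (T : ℝ) : 2 * JM T ≤ JA T := by
  classical
  have h3 : ∑ ρ ∈ ((ZT T).filter (fun ρ => 0 < ρ.im)).image (starRingEnd ℂ), zd ρ = JM T := by
    unfold JM
    rw [Finset.sum_image fun x _ y _ h => (starRingEnd ℂ).injective h]
    exact Finset.sum_congr rfl fun ρ _ => zd_conj ρ
  have h4 : Disjoint ((ZT T).filter (fun ρ => 0 < ρ.im)) (((ZT T).filter (fun ρ => 0 < ρ.im)).image (starRingEnd ℂ)) := by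
    rw [Finset.disjoint_left]
    intro ρ h1 h2
    rw [Finset.mem_image] at h2
    obtain ⟨ρ', h5, h6⟩ := h2
    rw [Finset.mem_filter] at h1 h5
    rw [← h6, Complex.conj_im] at h1
    linarith [h1.2, h5.2]
  have h5 : ∑ ρ ∈ (ZT T).filter (fun ρ => 0 < ρ.im) ∪ ((ZT T).filter (fun ρ => 0 < ρ.im)).image (starRingEnd ℂ), zd ρ ≤ JA T := by
    unfold JA
    refine Finset.sum_le_sum_of_subset_of_nonneg (fun ρ hρ => ?_) fun _ _ _ => zd_nonneg _
    rw [Finset.mem_union] at hρ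
    rcases hρ with h | h
    · exact (Finset.mem_filter.1 h).1
    · rw [Finset.mem_image] at h
      obtain ⟨ρ', h7, rfl⟩ := h
      rw [Finset.mem_filter, mem_ZT] at h7
      rw [mem_ZT]
      refine ⟨NT_conj h7.1.1, ?_⟩
      rw [Complex.conj_im, abs_neg]
      exact h7.1.2
  rw [Finset.sum_union h4, h3] at h5
  unfold JM at h5 ⊢
  linarith

lemma JM_Gz (hR : RHS) (hs : Summable (fun ρ : NT => ‖aa ρ‖ ^ 2)) (T : ℝ) :
    |Gz T - 2 * JM T| ≤ zd (1 / 2) + A0 := by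
  classical
  have h1 := JA_eq hR T
  have h2 := JA_ge T
  have h3 := JA_le hR T
  have h4 : ∑ ρ ∈ ZT T, ‖aa ρ‖ ^ 2 ≤ A0 := by
    have h2 := hs.sum_le_tsum ((ZT T).subtype (· ∈ NT)) (fun ρ _ => by positivity)
    rwa [Finset.sum_subtype_of_mem (fun ρ => ‖aa ρ‖ ^ 2) ZT_NT] at h2
  have h5 : 0 ≤ ∑ ρ ∈ ZT T, ‖aa ρ‖ ^ 2 := Finset.sum_nonneg fun _ _ => by positivity
  have h6 := zd_nonneg (1 / 2)
  rw [abs_le]
  constructor <;> linarith

lemma const_div (K : ℝ) : Tendsto (fun T : ℝ => K / T) atTop (𝓝 0) := tendsto_const_nhds.div_atTop tendsto_id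

lemma diff_zero (hR : RHS) (hs : Summable (fun ρ : NT => ‖aa ρ‖ ^ 2)) :
    Tendsto (fun T : ℝ => (Gz T - 2 * JM T) / T) atTop (𝓝 0) := by
  refine squeeze_zero_norm' ?_ (const_div (zd (1 / 2) + A0))
  filter_upwards [eventually_gt_atTop 0] with T hT
  rw [Real.norm_eq_abs, abs_div, abs_of_pos hT]
  have := JM_Gz hR hs T
  gcongr

lemma Gz_of_JM (hR : RHS) (hs : Summable (fun ρ : NT => ‖aa ρ‖ ^ 2)) {c : ℝ}
    (h : Tendsto (fun T : ℝ => JM T / T) atTop (𝓝 c)) : Tendsto (fun T : ℝ => Gz T / T) atTop (𝓝 (2 * c)) := by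
  have h1 := (diff_zero hR hs).add (h.const_mul 2)
  rw [zero_add] at h1
  refine h1.congr fun T => ?_
  ring

lemma JM_of_Gz (hR : RHS) (hs : Summable (fun ρ : NT => ‖aa ρ‖ ^ 2)) {c : ℝ}
    (h : Tendsto (fun T : ℝ => Gz T / T) atTop (𝓝 (2 * c))) : Tendsto (fun T : ℝ => JM T / T) atTop (𝓝 c) := by
  have h1 := (h.sub (diff_zero hR hs)).const_mul (1 / 2)
  have e : 1 / 2 * (2 * c - 0) = c := by ring
  rw [e] at h1
  refine h1.congr fun T => ?_
  ring

lemma JM_mono {S T : ℝ} (h : S ≤ T) : JM S ≤ JM T := by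
  unfold JM
  refine Finset.sum_le_sum_of_subset_of_nonneg (fun ρ hρ => ?_) fun _ _ _ => zd_nonneg _
  rw [Finset.mem_filter, mem_ZT] at hρ ⊢
  exact ⟨⟨hρ.1.1, hρ.1.2.trans h⟩, hρ.2⟩

lemma log_tend : Tendsto (fun h : ℝ => Real.log (1 + h)) (𝓝[>] 0) (𝓝[>] 0) := by
  refine tendsto_nhdsWithin_iff.2 ⟨?_, ?_⟩
  · have h1 : ContinuousAt (fun h : ℝ => Real.log (1 + h)) 0 :=
      ContinuousAt.log (by fun_prop) (by norm_num)
    have h2 := h1.tendsto
    simp only [add_zero, Real.log_one] at h2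
    exact h2.mono_left nhdsWithin_le_nhds
  · filter_upwards [self_mem_nhdsWithin] with h hh
    have : (0:ℝ) < h := hh
    exact mem_Ioi.2 (Real.log_pos (by linarith))

lemma exp_tend : Tendsto (fun H : ℝ => Real.exp H - 1) (𝓝[>] 0) (𝓝[>] 0) := by
  refine tendsto_nhdsWithin_iff.2 ⟨?_, ?_⟩
  · have h1 : Continuous (fun H : ℝ => Real.exp H - 1) := by fun_prop
    have h2 := h1.tendsto 0
    rw [Real.exp_zero, sub_self] at h2
    exact h2.mono_left nhdsWithin_le_nhds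
  · filter_upwards [self_mem_nhdsWithin] with H hH
    have : (0:ℝ) < H := hH
    exact mem_Ioi.2 (by have := Real.add_one_lt_exp this.ne'; linarith)

/-- from the second moment to the increments -/
theorem DI_of_J (hR : RHS) {c : ℝ} (h : Tendsto (fun T : ℝ => JM T / T) atTop (𝓝 c)) :
    AsympP ∧ Tendsto (fun h : ℝ => SS (Real.log (1 + h)) / h) (𝓝[>] 0) (𝓝 (2 * Real.pi * c)) := by
  have hA : AsympP := by
    obtain ⟨T₀, hT₀⟩ := eventually_atTop.1 (h.eventually_lt_const (show c < c + 1 by linarith))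
    refine Asymp_of_JM hR (θ := 1) one_pos (C := max (|c| + 1) (JM (max T₀ 1))) fun T hT => ?_
    have hT0 : 0 < T := by linarith
    have e : T ^ ((2:ℝ) - 1) = T := by norm_num
    rw [e]
    rcases le_or_gt T₀ T with h1 | h1
    · have h2 := hT₀ T h1
      rw [div_lt_iff₀ hT0] at h2
      refine h2.le.trans ?_
      have := le_abs_self c
      have := le_max_left (|c| + 1) (JM (max T₀ 1))
      gcongr
      linarith
    · have h2 : JM T ≤ JM (max T₀ 1) := JM_mono (h1.le.trans (le_max_left _ _))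
      have h3 := le_max_right (|c| + 1) (JM (max T₀ 1))
      have h4 : 0 ≤ max (|c| + 1) (JM (max T₀ 1)) := (JM_nonneg _).trans h3
      calc JM T ≤ max (|c| + 1) (JM (max T₀ 1)) * 1 := by linarith
        _ ≤ _ := by gcongr
  refine ⟨hA, ?_⟩
  have h1 := SS_of_EE hR hA.1 (EE_lim hA.1 (Gz_of_JM hR hA.1 h))
  have h2 := (h1.comp log_tend).mul log_slope
  rw [mul_one] at h2
  refine h2.congr' ?_
  filter_upwards [self_mem_nhdsWithin] with x hx
  have hx' : (0:ℝ) < x := hx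
  simp only [Function.comp]
  have : 0 < Real.log (1 + x) := Real.log_pos (by linarith)
  field_simp

/-- from the increments to the second moment -/
theorem J_of_SS (hR : RHS) (hs : Summable (fun ρ : NT => ‖aa ρ‖ ^ 2)) {c : ℝ} (hc : 0 < c)
    (h : Tendsto (fun h : ℝ => SS (Real.log (1 + h)) / h) (𝓝[>] 0) (𝓝 (2 * Real.pi * c))) :
    Tendsto (fun T : ℝ => JM T / T) atTop (𝓝 c) := by
  have h1 := (h.comp exp_tend).mul exp_slope
  rw [mul_one] at h1
  have h2 : Tendsto (fun x => SS x / x) (𝓝[>] 0) (𝓝 (2 * Real.pi * c)) := by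
    refine h1.congr' ?_
    filter_upwards [self_mem_nhdsWithin] with x hx
    have hx' : (0:ℝ) < x := hx
    simp only [Function.comp]
    have h3 : 0 < Real.exp x - 1 := by have := Real.add_one_lt_exp hx'.ne'; linarith
    rw [add_sub_cancel, Real.log_exp]
    field_simp
  exact JM_of_Gz hR hs (Gz_lim hs hc (EE_of_SS hR hs h2))

end

end Pool.Agent.Helper37.WMH
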