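import Pool.Agent.Helper37.WMH.Planch

/-! From the windows to the Gaussian sums. -/

set_option autoImplicit false

open MeasureTheory Filter Topology Set
open scoped ENNReal

namespace Pool.Agent.Helper37.WMH

open Pool.Agent.H295R2

noncomputable section

open Classical in
/-- the indicator of the window -/
def wd (δ x g : ℝ) : ℂ := if x < g ∧ g ≤ x + δ then 1 else 0

/-- the sum over the zeros in a window -/
def FZ (Z : Finset ℂ) (δ x : ℝ) : ℂ := ∑' ρ : NT, aZ Z ρ * wd δ x (ρ : ℂ).im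

def WE (Z : Finset ℂ) (δ : ℝ) : ℝ≥0∞ := ∫⁻ x : ℝ, ‖FZ Z δ x‖ₑ ^ 2

def GE (Z : Finset ℂ) (δ : ℝ) : ℝ≥0∞ := ∫⁻ x : ℝ, ‖SZ Z δ x‖ₑ ^ 2

lemma wd_norm_le (δ x g : ℝ) : ‖wd δ x g‖ ≤ 1 := by
  unfold wd
  split_ifs <;> simp

/-- partial sums -/
def FN (Z : Finset ℂ) (n : ℕ) (δ x : ℝ) : ℂ := ∑ ρ ∈ ZT n, aZ Z ρ * wd δ x ρ.im

lemma FZ_eq_FN {Z : Finset ℂ} {n : ℕ} {δ x : ℝ} (h : |x| + |δ| ≤ n) : FZ Z δ x = FN Z n δ x := by
  classical
  unfold FZ FN
  rw [tsum_eq_sum (s := (ZT n).subtype (fun s => s ∈ NT)) (by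
    intro ρ hρ
    rw [Finset.mem_subtype, mem_ZT] at hρ
    have h1 : ¬ |(ρ : ℂ).im| ≤ n := fun h2 => hρ ⟨ρ.2, h2⟩
    unfold wd
    rw [if_neg, mul_zero]
    rintro ⟨h2, h3⟩
    apply h1
    rw [abs_le]
    have := neg_abs_le x
    have := le_abs_self x
    have := le_abs_self δ
    have := abs_nonneg δ
    constructor <;> linarith)]
  rw [Finset.sum_subtype_eq_sum_filter (s := ZT n) (p := fun s => s ∈ NT)
    (f := fun s : ℂ => aZ Z s * wd δ x s.im)]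
  rw [Finset.filter_true_of_mem fun ρ hρ => (mem_ZT.1 hρ).1]

lemma wd_meas (g : ℝ) : Measurable (fun p : ℝ × ℝ => wd p.1 p.2 g) := by
  unfold wd
  refine Measurable.ite ?_ measurable_const measurable_const
  apply MeasurableSet.inter
  · exact measurableSet_lt measurable_snd measurable_const
  · exact measurableSet_le measurable_const (measurable_snd.add measurable_fst)

lemma FZ_meas (Z : Finset ℂ) : Measurable (fun p : ℝ × ℝ => FZ Z p.1 p.2) := by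
  have h1 : ∀ n : ℕ, Measurable (fun p : ℝ × ℝ => FN Z n p.1 p.2) := by
    intro n
    unfold FN
    exact Finset.measurable_fun_sum _ fun ρ _ => (wd_meas ρ.im).const_mul _
  refine measurable_of_tendsto_metrizable h1 ?_
  rw [tendsto_pi_nhds]
  intro p
  obtain ⟨N, hN⟩ := exists_nat_ge (|p.2| + |p.1|)
  refine tendsto_const_nhds.congr' ?_
  filter_upwards [eventually_ge_atTop N] with n hn
  refine FZ_eq_FN ?_
  have : (N : ℝ) ≤ n := by exact_mod_cast hn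
  linarith

/-- windows can be subdivided -/
lemma wd_split (δ x g : ℝ) (n : ℕ) (hδ : 0 ≤ δ) :
    wd (n * δ) x g = ∑ j ∈ Finset.range n, wd δ (x + j * δ) g := by
  induction n with
  | zero =>
    simp only [Nat.cast_zero, zero_mul, Finset.range_zero, Finset.sum_empty]
    unfold wd
    rw [if_neg]
    rintro ⟨h1, h2⟩
    linarith
  | succ n ih =>
    rw [Finset.sum_range_succ, ← ih]
    unfold wd
    have hn : 0 ≤ (n : ℝ) * δ := by positivity
    push_cast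
    by_cases h1 : x < g ∧ g ≤ x + n * δ
    · rw [if_pos h1, if_pos ⟨h1.1, by linarith [h1.2]⟩, if_neg (by
        rintro ⟨h2, -⟩; linarith [h1.2]), add_zero]
    · rw [if_neg h1, zero_add]
      by_cases h2 : x + n * δ < g ∧ g ≤ x + n * δ + δ
      · rw [if_pos h2, if_pos ⟨by linarith [h2.1], by linarith [h2.2]⟩]
      · rw [if_neg h2, if_neg]
        rintro ⟨h3, h4⟩
        apply h1
        refine ⟨h3, ?_⟩
        by_contra h5
        push Not at h5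
        exact h2 ⟨h5, by linarith⟩

lemma FZ_summable (Z : Finset ℂ) (δ x : ℝ) : Summable (fun ρ : NT => aZ Z ρ * wd δ x (ρ : ℂ).im) := by
  classical
  obtain ⟨n, hn⟩ := exists_nat_ge (|x| + |δ|)
  apply summable_of_ne_finset_zero (s := (ZT n).subtype (fun s => s ∈ NT))
  intro ρ hρ
  rw [Finset.mem_subtype, mem_ZT] at hρ
  have h1 : ¬ |(ρ : ℂ).im| ≤ n := fun h2 => hρ ⟨ρ.2, h2⟩
  unfold wd
  rw [if_neg, mul_zero]
  rintro ⟨h2, h3⟩
  apply h1
  rw [abs_le]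
  have := neg_abs_le x
  have := le_abs_self x
  have := le_abs_self δ
  have := abs_nonneg δ
  constructor <;> linarith

lemma FZ_split (Z : Finset ℂ) (δ x : ℝ) (n : ℕ) (hδ : 0 ≤ δ) :
    FZ Z (n * δ) x = ∑ j ∈ Finset.range n, FZ Z δ (x + j * δ) := by
  unfold FZ
  rw [← Summable.tsum_finsetSum (f := fun (j : ℕ) (ρ : NT) => aZ Z ρ * wd δ (x + j * δ) (ρ : ℂ).im)
    (s := Finset.range n) fun j _ => FZ_summable Z δ (x + j * δ)]
  refine tsum_congr fun ρ => ?_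
  rw [wd_split _ _ _ _ hδ, Finset.mul_sum]

lemma FZ_meas1 (Z : Finset ℂ) (δ : ℝ) : Measurable (FZ Z δ) :=
  (FZ_meas Z).comp (measurable_const.prodMk measurable_id)

lemma WE_mul (Z : Finset ℂ) {δ : ℝ} (hδ : 0 ≤ δ) (n : ℕ) : WE Z (n * δ) ≤ (n : ℝ≥0∞) ^ 2 * WE Z δ := by
  unfold WE
  have h1 : ∀ x : ℝ, ‖FZ Z (n * δ) x‖ₑ ^ 2 ≤ (n : ℝ≥0∞) * ∑ j ∈ Finset.range n, ‖FZ Z δ (x + j * δ)‖ₑ ^ 2 := by
    intro x
    rw [FZ_split Z δ x n hδ]
    have h2 : ‖∑ j ∈ Finset.range n, FZ Z δ (x + j * δ)‖ ^ 2 ≤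
        n * ∑ j ∈ Finset.range n, ‖FZ Z δ (x + j * δ)‖ ^ 2 := by
      calc ‖∑ j ∈ Finset.range n, FZ Z δ (x + j * δ)‖ ^ 2 ≤ (∑ j ∈ Finset.range n, ‖FZ Z δ (x + j * δ)‖) ^ 2 := by
            gcongr; exact norm_sum_le _ _
        _ ≤ _ := by
            have := sq_sum_le_card_mul_sum_sq (s := Finset.range n) (f := fun j : ℕ => ‖FZ Z δ (x + j * δ)‖)
            rwa [Finset.card_range] at this
    have h3 := ENNReal.ofReal_le_ofReal h2
    rw [ENNReal.ofReal_mul (Nat.cast_nonneg _), ENNReal.ofReal_natCast,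
      ENNReal.ofReal_sum_of_nonneg (fun _ _ => by positivity)] at h3
    simp only [ENNReal.ofReal_pow (norm_nonneg _), ofReal_norm] at h3
    exact h3
  calc ∫⁻ x : ℝ, ‖FZ Z (n * δ) x‖ₑ ^ 2 ≤ ∫⁻ x : ℝ, (n : ℝ≥0∞) * ∑ j ∈ Finset.range n, ‖FZ Z δ (x + j * δ)‖ₑ ^ 2 :=
        lintegral_mono h1
    _ = (n : ℝ≥0∞) * ∑ j ∈ Finset.range n, ∫⁻ x : ℝ, ‖FZ Z δ (x + j * δ)‖ₑ ^ 2 := by
        have hm : ∀ j : ℕ, Measurable (fun x : ℝ => ‖FZ Z δ (x + j * δ)‖ₑ ^ 2) := fun j =>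
          (((FZ_meas1 Z δ).comp (measurable_id.add_const _)).enorm).pow_const 2
        rw [lintegral_const_mul _ (Finset.measurable_fun_sum _ fun j _ => hm j),
          lintegral_finsetSum _ fun j _ => hm j]
    _ = (n : ℝ≥0∞) * ∑ j ∈ Finset.range n, WE Z δ := by
        congr 1
        refine Finset.sum_congr rfl fun j _ => ?_
        exact lintegral_add_right_eq_self (fun x : ℝ => ‖FZ Z δ x‖ₑ ^ 2) _
    _ = (n : ℝ≥0∞) ^ 2 * WE Z δ := by
        rw [Finset.sum_const, Finset.card_range, nsmul_eq_mul]; ring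

lemma WE_all {Z : Finset ℂ} {B δ₀ : ℝ} (hB : 0 ≤ B) (hδ₀ : 0 < δ₀)
    (h : ∀ δ, 0 < δ → δ ≤ δ₀ → WE Z δ ≤ ENNReal.ofReal (B * δ)) {u : ℝ} (hu : 0 < u) :
    WE Z (2 * u) ≤ ENNReal.ofReal (B * (2 * u + 4 / δ₀ * u ^ 2)) := by
  set n : ℕ := ⌈2 * u / δ₀⌉₊ with hn
  have hn1 : 2 * u / δ₀ ≤ n := Nat.le_ceil _
  have hpos : 0 < 2 * u / δ₀ := by positivity
  have hn2 : (n : ℝ) < 2 * u / δ₀ + 1 := Nat.ceil_lt_add_one hpos.le
  have hn0 : (0:ℝ) < n := hpos.trans_le hn1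
  have e : 2 * u = n * (2 * u / n) := by field_simp
  have h1 : 2 * u / n ≤ δ₀ := by
    rw [div_le_iff₀ hn0]
    rw [div_le_iff₀ hδ₀] at hn1
    linarith
  have h2 := WE_mul Z (δ := 2 * u / n) (by positivity) n
  rw [← e] at h2
  refine h2.trans ?_
  have h3 := h (2 * u / n) (by positivity) h1
  calc (n : ℝ≥0∞) ^ 2 * WE Z (2 * u / n) ≤ (n : ℝ≥0∞) ^ 2 * ENNReal.ofReal (B * (2 * u / n)) := by gcongr
    _ = ENNReal.ofReal ((n : ℝ) ^ 2 * (B * (2 * u / n))) := by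
        rw [ENNReal.ofReal_mul (by positivity : 0 ≤ (n : ℝ) ^ 2), ENNReal.ofReal_pow (Nat.cast_nonneg _),
          ENNReal.ofReal_natCast]
    _ ≤ _ := by
        apply ENNReal.ofReal_le_ofReal
        have h4 : (n : ℝ) ^ 2 * (B * (2 * u / n)) = B * (2 * u) * n := by field_simp
        rw [h4]
        have h5 : B * (2 * u) * n ≤ B * (2 * u) * (2 * u / δ₀ + 1) := by
          apply mul_le_mul_of_nonneg_left hn2.le (by positivity)
        refine h5.trans (le_of_eq ?_)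
        field_simp
        ring

/-! ### the Gaussian as a superposition of windows -/

/-- the density -/
def kd (δ u : ℝ) : ℝ := 2 * u / δ ^ 2 * Real.exp (-(u ^ 2 / δ ^ 2))

lemma kd_nonneg {δ u : ℝ} (hu : 0 ≤ u) : 0 ≤ kd δ u := by
  unfold kd; positivity

lemma kd_cont (δ : ℝ) : Continuous (kd δ) := by
  unfold kd; fun_prop

lemma kd_deriv (δ u : ℝ) : HasDerivAt (fun u : ℝ => -Real.exp (-(u ^ 2 / δ ^ 2))) (kd δ u) u := by
  have h1 : HasDerivAt (fun u : ℝ => -(u ^ 2 / δ ^ 2)) (-(2 * u / δ ^ 2)) u := by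
    have := ((hasDerivAt_pow 2 u).div_const (δ ^ 2)).fun_neg
    simpa using this
  have h2 := h1.exp.fun_neg
  refine h2.congr_deriv ?_
  unfold kd
  ring

lemma kd_tendsto {δ : ℝ} (hδ : 0 < δ) : Tendsto (fun u : ℝ => -Real.exp (-(u ^ 2 / δ ^ 2))) atTop (𝓝 0) := by
  have h2 : Tendsto (fun u : ℝ => u ^ 2 / δ ^ 2) atTop atTop :=
    Tendsto.atTop_div_const (by positivity) (tendsto_pow_atTop (by norm_num))
  have h3 := (Real.tendsto_exp_neg_atTop_nhds_zero.comp h2).neg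
  rw [neg_zero] at h3
  exact h3

lemma kd_integrableOn {δ : ℝ} (hδ : 0 < δ) {a : ℝ} (ha : 0 ≤ a) : IntegrableOn (kd δ) (Ioi a) :=
  integrableOn_Ioi_deriv_of_nonneg' (fun u _ => kd_deriv δ u) (fun u hu => kd_nonneg (ha.trans (le_of_lt hu)))
    (kd_tendsto hδ)

lemma kd_integral {δ : ℝ} (hδ : 0 < δ) {a : ℝ} (ha : 0 ≤ a) : ∫ u in Ioi a, kd δ u = gs δ a := by
  rw [integral_Ioi_of_hasDerivAt_of_tendsto' (fun u _ => kd_deriv δ u) (kd_integrableOn hδ ha) (kd_tendsto hδ)]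
  unfold gs
  ring

lemma wd_sym_ae (x g : ℝ) : ∀ᵐ u : ℝ, 0 < u → wd (2 * u) (x - u) g = if |g - x| < u then 1 else 0 := by
  have h1 : ∀ᵐ u : ℝ, u ≠ |g - x| := by rw [ae_iff]; simp
  filter_upwards [h1] with u hu _
  unfold wd
  congr 1
  apply propext
  rw [abs_lt]
  constructor
  · rintro ⟨h2, h3⟩
    have h4 : |g - x| ≤ u := abs_le.2 ⟨by linarith, by linarith⟩
    exact abs_lt.1 (lt_of_le_of_ne h4 (Ne.symm hu))
  · rintro ⟨h2, h3⟩
    exact ⟨by linarith, by linarith⟩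

lemma gs_window {δ : ℝ} (hδ : 0 < δ) (x g : ℝ) :
    IntegrableOn (fun u : ℝ => (kd δ u : ℂ) * wd (2 * u) (x - u) g) (Ioi 0) ∧
    ∫ u in Ioi (0:ℝ), (kd δ u : ℂ) * wd (2 * u) (x - u) g = (gs δ (g - x) : ℂ) := by
  have hae : ∀ᵐ u ∂(volume.restrict (Ioi (0:ℝ))), (Ioi |g - x|).indicator (fun u => (kd δ u : ℂ)) u =
      (kd δ u : ℂ) * wd (2 * u) (x - u) g := by
    have h1 := ae_restrict_of_ae (s := Ioi (0:ℝ)) (wd_sym_ae x g)
    filter_upwards [h1, ae_restrict_mem measurableSet_Ioi] with u hu hu0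
    rw [hu hu0]
    by_cases h2 : |g - x| < u
    · rw [if_pos h2, indicator_of_mem (show u ∈ Ioi |g - x| from h2), mul_one]
    · rw [if_neg h2, indicator_of_notMem (show u ∉ Ioi |g - x| from h2), mul_zero]
  have h0 := abs_nonneg (g - x)
  have hsub : Ioi (0:ℝ) ∩ Ioi |g - x| = Ioi |g - x| := by
    rw [Ioi_inter_Ioi, sup_eq_right.2 h0]
  constructor
  · refine Integrable.congr ?_ hae
    rw [← IntegrableOn, integrableOn_indicator_iff measurableSet_Ioi]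
    refine (IntegrableOn.mono_set ?_ (inter_subset_left : Ioi |g - x| ∩ Ioi 0 ⊆ Ioi |g - x|))
    exact (kd_integrableOn hδ h0).ofReal
  · rw [← integral_congr_ae hae, setIntegral_indicator measurableSet_Ioi, hsub, integral_complex_ofReal,
      kd_integral hδ h0]
    congr 1
    unfold gs
    rw [sq_abs]

lemma SZ_window {A : ℝ} (hA : ∀ ρ ∈ NT, ‖aa ρ‖ ≤ A) (Z : Finset ℂ) {δ : ℝ} (hδ : 0 < δ) (x : ℝ) :
    SZ Z δ x = ∫ u in Ioi (0:ℝ), (kd δ u : ℂ) * FZ Z (2 * u) (x - u) := by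
  have h1 : ∀ ρ : NT, ∫ u in Ioi (0:ℝ), aZ Z ρ * ((kd δ u : ℂ) * wd (2 * u) (x - u) (ρ : ℂ).im) =
      aZ Z ρ * (gs δ ((ρ : ℂ).im - x) : ℂ) := by
    intro ρ
    rw [integral_const_mul, (gs_window hδ x _).2]
  have h2 := hasSum_integral_of_summable_integral_norm (μ := volume.restrict (Ioi (0:ℝ)))
    (F := fun (ρ : NT) (u : ℝ) => aZ Z ρ * ((kd δ u : ℂ) * wd (2 * u) (x - u) (ρ : ℂ).im))
    (fun ρ => (gs_window hδ x _).1.const_mul _) (by
      have h3 : ∀ ρ : NT, ∫ u in Ioi (0:ℝ), ‖aZ Z ρ * ((kd δ u : ℂ) * wd (2 * u) (x - u) (ρ : ℂ).im)‖ =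
          ‖aZ Z ρ‖ * gs δ ((ρ : ℂ).im - x) := by
        intro ρ
        have h4 : ∀ u ∈ Ioi (0:ℝ), ‖aZ Z ρ * ((kd δ u : ℂ) * wd (2 * u) (x - u) (ρ : ℂ).im)‖ =
            ‖aZ Z ρ‖ * ((kd δ u : ℂ) * wd (2 * u) (x - u) (ρ : ℂ).im).re := by
          intro u hu
          rw [norm_mul, norm_mul, Complex.norm_real, Real.norm_of_nonneg (kd_nonneg (le_of_lt hu)),
            Complex.re_ofReal_mul]
          congr 2
          unfold wd
          split_ifs <;> simp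
        rw [setIntegral_congr_fun measurableSet_Ioi h4, integral_const_mul]
        congr 1
        have h5 := integral_re (gs_window hδ x (ρ : ℂ).im).1
        rw [(gs_window hδ x (ρ : ℂ).im).2] at h5
        exact h5.trans (Complex.ofReal_re _)
      simp_rw [h3]
      exact summable_gs hδ x (a := aZ Z) (A := A) fun ρ hρ => (aZ_norm_le Z ρ).trans (hA ρ hρ))
  simp_rw [h1] at h2
  unfold SZ
  rw [h2.tsum_eq]
  refine integral_congr_ae (Eventually.of_forall fun u => ?_)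
  simp only
  unfold FZ
  rw [← tsum_mul_left]
  refine tsum_congr fun ρ => ?_
  ring

lemma sq_lintegral_le {α : Type*} [MeasurableSpace α] {μ : Measure α} (hμ : μ univ ≤ 1) {f : α → ℝ≥0∞}
    (hf : AEMeasurable f μ) : (∫⁻ a, f a ∂μ) ^ 2 ≤ ∫⁻ a, f a ^ 2 ∂μ := by
  have h := ENNReal.lintegral_mul_le_Lp_mul_Lq μ (p := 2) (q := 2) (by
    rw [Real.holderConjugate_iff]; norm_num) hf (aemeasurable_const (b := (1 : ℝ≥0∞)))
  simp only [Pi.mul_apply, mul_one, ENNReal.one_rpow, lintegral_const, one_mul] at h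
  calc (∫⁻ a, f a ∂μ) ^ 2 ≤ ((∫⁻ a, f a ^ (2:ℝ) ∂μ) ^ (1 / (2:ℝ)) * (μ univ) ^ (1 / (2:ℝ))) ^ 2 := by gcongr
    _ ≤ ((∫⁻ a, f a ^ (2:ℝ) ∂μ) ^ (1 / (2:ℝ)) * 1) ^ 2 := by
        gcongr
        exact ENNReal.rpow_le_one hμ (by norm_num)
    _ = ∫⁻ a, f a ^ (2:ℝ) ∂μ := by
        rw [mul_one, ← ENNReal.rpow_natCast, ← ENNReal.rpow_mul]
        norm_num
    _ = _ := by simp only [ENNReal.rpow_ofNat]

/-- moments of the density -/
lemma kd_moment {δ : ℝ} (hδ : 0 < δ) : IntegrableOn (fun u => kd δ u * u ^ 2) (Ioi 0) ∧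
    ∫ u in Ioi (0:ℝ), kd δ u * u ^ 2 = δ ^ 2 := by
  have h1 := integral_rpow_mul_exp_neg_mul_rpow (p := 2) (q := 3) (b := 1 / δ ^ 2) (by norm_num) (by norm_num)
    (by positivity)
  have h2 := integrableOn_rpow_mul_exp_neg_mul_rpow (p := 2) (s := 3) (b := 1 / δ ^ 2) (by norm_num) (by norm_num)
    (by positivity)
  have e : ∀ u ∈ Ioi (0:ℝ), kd δ u * u ^ 2 = 2 / δ ^ 2 * (u ^ (3:ℝ) * Real.exp (-(1 / δ ^ 2) * u ^ (2:ℝ))) := by
    intro u hu
    have e1 : u ^ (3:ℝ) = u ^ 3 := by rw [← Real.rpow_natCast]; norm_num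
    have e2 : u ^ (2:ℝ) = u ^ 2 := by rw [← Real.rpow_natCast]; norm_num
    rw [e1, e2]
    unfold kd
    rw [show -(1 / δ ^ 2) * u ^ 2 = -(u ^ 2 / δ ^ 2) by ring]
    ring
  constructor
  · rw [integrableOn_congr_fun e measurableSet_Ioi]
    exact h2.const_mul _
  · rw [setIntegral_congr_fun measurableSet_Ioi e, integral_const_mul, h1]
    have e3 : (1 / δ ^ 2 : ℝ) ^ (-((3:ℝ) + 1) / 2) = δ ^ 4 := by
      rw [show (-((3:ℝ) + 1) / 2) = ((-2 : ℤ) : ℝ) by norm_num, Real.rpow_intCast]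
      rw [one_div, inv_zpow, zpow_neg, inv_inv]
      norm_cast
      rw [← pow_mul]
    rw [e3, show ((3:ℝ) + 1) / 2 = 2 by norm_num, Real.Gamma_two]
    field_simp

/-- **From windows to Gaussians.** -/
theorem GE_le {A : ℝ} (hA : ∀ ρ ∈ NT, ‖aa ρ‖ ≤ A) {Z : Finset ℂ} {B δ₀ : ℝ} (hB : 0 ≤ B) (hδ₀ : 0 < δ₀)
    (h : ∀ δ, 0 < δ → δ ≤ δ₀ → WE Z δ ≤ ENNReal.ofReal (B * δ)) {δ : ℝ} (hδ : 0 < δ) :
    GE Z δ ≤ ENNReal.ofReal (B * (2 * δ + 4 / δ₀ * δ ^ 2)) := by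
  set μ : Measure ℝ := (volume.restrict (Ioi (0:ℝ))).withDensity (fun u => ENNReal.ofReal (kd δ u)) with hμ
  have hkm : Measurable (fun u => ENNReal.ofReal (kd δ u)) := (kd_cont δ).measurable.ennreal_ofReal
  have hμ1 : μ univ ≤ 1 := by
    rw [hμ, withDensity_apply _ MeasurableSet.univ, Measure.restrict_univ,
      ← ofReal_integral_eq_lintegral_ofReal (kd_integrableOn hδ le_rfl)
        ((ae_restrict_mem measurableSet_Ioi).mono fun u hu => kd_nonneg (le_of_lt hu)), kd_integral hδ le_rfl]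
    unfold gs
    simp
  have hFm : Measurable (fun p : ℝ × ℝ => ‖FZ Z (2 * p.2) (p.1 - p.2)‖ₑ ^ 2) :=
    (((FZ_meas Z).comp ((measurable_snd.const_mul 2).prodMk (measurable_fst.sub measurable_snd))).enorm).pow_const 2
  have hpt : ∀ x : ℝ, ‖SZ Z δ x‖ₑ ^ 2 ≤ ∫⁻ u, ‖FZ Z (2 * u) (x - u)‖ₑ ^ 2 ∂μ := by
    intro x
    rw [SZ_window hA Z hδ x]
    have hm1 : Measurable (fun u : ℝ => ‖FZ Z (2 * u) (x - u)‖ₑ) :=
      ((FZ_meas Z).comp ((measurable_id.const_mul 2).prodMk (measurable_id.const_sub x))).enorm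
    refine le_trans ?_ (sq_lintegral_le hμ1 hm1.aemeasurable)
    gcongr
    rw [hμ, lintegral_withDensity_eq_lintegral_mul _ hkm hm1]
    refine (enorm_integral_le_lintegral_enorm _).trans (le_of_eq ?_)
    refine setLIntegral_congr_fun measurableSet_Ioi fun u hu => ?_
    simp only [Pi.mul_apply]
    rw [enorm_mul]
    congr 1
    rw [← ofReal_norm, Complex.norm_real, Real.norm_of_nonneg (kd_nonneg (le_of_lt hu))]
  unfold GE
  calc ∫⁻ x : ℝ, ‖SZ Z δ x‖ₑ ^ 2 ≤ ∫⁻ x : ℝ, ∫⁻ u, ‖FZ Z (2 * u) (x - u)‖ₑ ^ 2 ∂μ := lintegral_mono hpt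
    _ = ∫⁻ u, (∫⁻ x : ℝ, ‖FZ Z (2 * u) (x - u)‖ₑ ^ 2) ∂μ := by
        rw [hμ]
        exact lintegral_lintegral_swap hFm.aemeasurable
    _ = ∫⁻ u, WE Z (2 * u) ∂μ := by
        refine lintegral_congr fun u => ?_
        exact lintegral_sub_right_eq_self (fun x : ℝ => ‖FZ Z (2 * u) x‖ₑ ^ 2) u
    _ ≤ ∫⁻ u in Ioi (0:ℝ), ENNReal.ofReal (kd δ u) * ENNReal.ofReal (B * (2 * u + 4 / δ₀ * u ^ 2)) := by
        have hWm : Measurable (fun u : ℝ => WE Z (2 * u)) := by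
          unfold WE
          have h1 : Measurable (fun p : ℝ × ℝ => ‖FZ Z (2 * p.1) p.2‖ₑ ^ 2) :=
            (((FZ_meas Z).comp ((measurable_fst.const_mul 2).prodMk measurable_snd)).enorm).pow_const 2
          exact h1.lintegral_prod_right'
        rw [hμ, lintegral_withDensity_eq_lintegral_mul _ hkm hWm]
        refine setLIntegral_mono' measurableSet_Ioi fun u hu => ?_
        simp only [Pi.mul_apply]
        gcongr
        exact WE_all hB hδ₀ h hu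
    _ ≤ ∫⁻ u in Ioi (0:ℝ), ENNReal.ofReal (B * (kd δ u * (δ + (1 / δ + 4 / δ₀) * u ^ 2))) := by
        refine setLIntegral_mono' measurableSet_Ioi fun u hu => ?_
        have hu0 : 0 < u := hu
        rw [← ENNReal.ofReal_mul (kd_nonneg hu0.le)]
        apply ENNReal.ofReal_le_ofReal
        have h1 : 2 * u ≤ δ + 1 / δ * u ^ 2 := by
          have h2 : 0 ≤ (δ - u) ^ 2 / δ := by positivity
          have h3 : (δ - u) ^ 2 / δ = δ - 2 * u + 1 / δ * u ^ 2 := by field_simp; ring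
          linarith
        have h4 := kd_nonneg (δ := δ) hu0.le
        calc kd δ u * (B * (2 * u + 4 / δ₀ * u ^ 2)) = B * (kd δ u * (2 * u + 4 / δ₀ * u ^ 2)) := by ring
          _ ≤ B * (kd δ u * (δ + 1 / δ * u ^ 2 + 4 / δ₀ * u ^ 2)) := by gcongr
          _ = _ := by ring
    _ = ENNReal.ofReal (∫ u in Ioi (0:ℝ), B * (kd δ u * (δ + (1 / δ + 4 / δ₀) * u ^ 2))) := by
        rw [ofReal_integral_eq_lintegral_ofReal]
        · apply Integrable.const_mul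
          have h1 := ((kd_integrableOn hδ le_rfl).mul_const δ).add ((kd_moment hδ).1.mul_const (1 / δ + 4 / δ₀))
          refine h1.congr (Eventually.of_forall fun u => ?_)
          simp only [Pi.add_apply]
          ring
        · filter_upwards [ae_restrict_mem measurableSet_Ioi] with u hu
          have h4 := kd_nonneg (δ := δ) (le_of_lt hu)
          positivity
    _ = _ := by
        congr 1
        rw [integral_const_mul]
        congr 1
        have e : ∀ u : ℝ, kd δ u * (δ + (1 / δ + 4 / δ₀) * u ^ 2) = kd δ u * δ + kd δ u * u ^ 2 * (1 / δ + 4 / δ₀) := by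
          intro u; ring
        simp_rw [e]
        rw [integral_add ((kd_integrableOn hδ le_rfl).mul_const δ) ((kd_moment hδ).1.mul_const _),
          integral_mul_const, integral_mul_const, (kd_moment hδ).2, kd_integral hδ le_rfl]
        unfold gs
        simp
        field_simp
        ring

end

end Pool.Agent.Helper37.WMH
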