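import Pool.Agent.Helper37.WMH.Line

/-! The Gaussian sums bounded by mean squares on lines. -/

set_option autoImplicit false

open MeasureTheory Filter Topology Set
open scoped ENNReal

namespace Pool.Agent.Helper37.WMH

open Pool.Agent.H295R2

noncomputable section

lemma cs_sq {α : Type*} [MeasurableSpace α] {μ : Measure α} {f g : α → ℝ≥0∞} (hf : AEMeasurable f μ)
    (hg : AEMeasurable g μ) : (∫⁻ a, f a * g a ∂μ) ^ 2 ≤ (∫⁻ a, f a ^ 2 ∂μ) * ∫⁻ a, g a ^ 2 ∂μ := by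
  have h := ENNReal.lintegral_mul_le_Lp_mul_Lq μ (p := 2) (q := 2) (by
    rw [Real.holderConjugate_iff]; norm_num) hf hg
  simp only [Pi.mul_apply] at h
  have e : ∀ x : ℝ≥0∞, (x ^ (1 / (2:ℝ))) ^ 2 = x := by
    intro x
    rw [← ENNReal.rpow_natCast, ← ENNReal.rpow_mul]
    norm_num
  have e2 : ∀ x : ℝ≥0∞, x ^ (2:ℝ) = x ^ 2 := by
    intro x
    rw [← ENNReal.rpow_natCast]
    norm_num
  calc (∫⁻ a, f a * g a ∂μ) ^ 2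
      ≤ ((∫⁻ a, f a ^ (2:ℝ) ∂μ) ^ (1 / (2:ℝ)) * (∫⁻ a, g a ^ (2:ℝ) ∂μ) ^ (1 / (2:ℝ))) ^ 2 := by gcongr
    _ = _ := by
      rw [mul_pow, e, e]
      simp only [e2]

lemma gs_integral {δ : ℝ} (hδ : 0 < δ) : ∫ y : ℝ, gs δ y = δ * Real.sqrt Real.pi := by
  have h := integral_gaussian (1 / δ ^ 2)
  have e : ∀ y, gs δ y = Real.exp (-(1 / δ ^ 2) * y ^ 2) := by
    intro y; unfold gs; congr 1; ring
  simp_rw [e]
  rw [h, show Real.pi / (1 / δ ^ 2) = Real.pi * δ ^ 2 by field_simp, Real.sqrt_mul Real.pi_pos.le,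
    Real.sqrt_sq hδ.le, mul_comm]

lemma gs_lintegral {δ : ℝ} (hδ : 0 < δ) (x : ℝ) :
    ∫⁻ t : ℝ, ENNReal.ofReal (gs δ (t - x)) = ENNReal.ofReal (δ * Real.sqrt Real.pi) := by
  rw [← ofReal_integral_eq_lintegral_ofReal (gs_integrable hδ x) (Eventually.of_forall fun t => (gs_pos _ _).le),
    integral_sub_right_eq_self (gs δ) x, gs_integral hδ]

lemma gs_symm (δ y : ℝ) : gs δ (-y) = gs δ y := by
  unfold gs; ring_nf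

/-- Young's inequality for the Gaussian kernel -/
theorem young {h : ℝ → ℂ} (hm : Measurable h) {w : ℝ → ℝ → ℂ} {δ K : ℝ} (hδ : 0 < δ) (hK : 0 ≤ K)
    (hw : ∀ x t, ‖w x t‖ ≤ K * gs δ (t - x)) :
    ∫⁻ x : ℝ, ‖∫ t : ℝ, h t * w x t‖ₑ ^ 2 ≤ ENNReal.ofReal (K ^ 2 * Real.pi * δ ^ 2) * ∫⁻ t : ℝ, ‖h t‖ₑ ^ 2 := by
  set c : ℝ≥0∞ := ENNReal.ofReal (δ * Real.sqrt Real.pi) with hc
  set r : ℝ → ℝ := fun y => Real.exp (-(y ^ 2 / (2 * δ ^ 2))) with hr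
  have hrc : Continuous r := by rw [hr]; fun_prop
  have hr2 : ∀ y, ENNReal.ofReal (r y) ^ 2 = ENNReal.ofReal (gs δ y) := by
    intro y
    rw [← ENNReal.ofReal_pow (Real.exp_pos _).le]
    congr 1
    unfold gs
    change Real.exp (-(y ^ 2 / (2 * δ ^ 2))) ^ 2 = _
    rw [← Real.exp_nat_mul]
    congr 1
    push_cast
    field_simp
  have h1 : ∀ x : ℝ, ‖∫ t : ℝ, h t * w x t‖ₑ ^ 2 ≤ ENNReal.ofReal (K ^ 2) * c *
      ∫⁻ t : ℝ, ‖h t‖ₑ ^ 2 * ENNReal.ofReal (gs δ (t - x)) := by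
    intro x
    have h2 : ‖∫ t : ℝ, h t * w x t‖ₑ ≤ ENNReal.ofReal K *
        ∫⁻ t : ℝ, (‖h t‖ₑ * ENNReal.ofReal (r (t - x))) * ENNReal.ofReal (r (t - x)) := by
      refine (enorm_integral_le_lintegral_enorm _).trans ?_
      rw [← lintegral_const_mul]
      · refine lintegral_mono fun t => ?_
        rw [enorm_mul, mul_assoc ‖h t‖ₑ, ← pow_two, hr2, ← mul_assoc, mul_comm (ENNReal.ofReal K), mul_assoc,
          ← ENNReal.ofReal_mul hK]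
        gcongr
        rw [← ofReal_norm]
        exact ENNReal.ofReal_le_ofReal (hw x t)
      · exact (hm.enorm.mul ((hrc.comp (continuous_sub_right x)).measurable.ennreal_ofReal)).mul
          ((hrc.comp (continuous_sub_right x)).measurable.ennreal_ofReal)
    have h3 := cs_sq (μ := volume) (f := fun t => ‖h t‖ₑ * ENNReal.ofReal (r (t - x)))
      (g := fun t => ENNReal.ofReal (r (t - x)))
      (hm.enorm.mul ((hrc.comp (continuous_sub_right x)).measurable.ennreal_ofReal)).aemeasurable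
      ((hrc.comp (continuous_sub_right x)).measurable.ennreal_ofReal).aemeasurable
    simp only [mul_pow, hr2] at h3
    rw [gs_lintegral hδ x] at h3
    calc ‖∫ t : ℝ, h t * w x t‖ₑ ^ 2 ≤ (ENNReal.ofReal K *
        ∫⁻ t : ℝ, (‖h t‖ₑ * ENNReal.ofReal (r (t - x))) * ENNReal.ofReal (r (t - x))) ^ 2 := by gcongr
      _ ≤ ENNReal.ofReal K ^ 2 * ((∫⁻ t : ℝ, ‖h t‖ₑ ^ 2 * ENNReal.ofReal (gs δ (t - x))) * c) := by
        rw [mul_pow]; gcongr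
      _ = _ := by
        rw [← ENNReal.ofReal_pow hK]; ring
  have hgm : Measurable (fun p : ℝ × ℝ => ENNReal.ofReal (gs δ (p.2 - p.1))) :=
    ((gs_cont δ).comp (continuous_snd.sub continuous_fst)).measurable.ennreal_ofReal
  have hfm : Measurable (fun p : ℝ × ℝ => ‖h p.2‖ₑ ^ 2 * ENNReal.ofReal (gs δ (p.2 - p.1))) :=
    ((hm.comp measurable_snd).enorm.pow_const 2).mul hgm
  calc ∫⁻ x : ℝ, ‖∫ t : ℝ, h t * w x t‖ₑ ^ 2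
      ≤ ∫⁻ x : ℝ, ENNReal.ofReal (K ^ 2) * c * ∫⁻ t : ℝ, ‖h t‖ₑ ^ 2 * ENNReal.ofReal (gs δ (t - x)) :=
        lintegral_mono h1
    _ = ENNReal.ofReal (K ^ 2) * c * ∫⁻ x : ℝ, ∫⁻ t : ℝ, ‖h t‖ₑ ^ 2 * ENNReal.ofReal (gs δ (t - x)) := by
        rw [lintegral_const_mul]
        exact hfm.lintegral_prod_right'
    _ = ENNReal.ofReal (K ^ 2) * c * ∫⁻ t : ℝ, ∫⁻ x : ℝ, ‖h t‖ₑ ^ 2 * ENNReal.ofReal (gs δ (t - x)) := by
        rw [lintegral_lintegral_swap]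
        exact hfm.aemeasurable
    _ = ENNReal.ofReal (K ^ 2) * c * ∫⁻ t : ℝ, ‖h t‖ₑ ^ 2 * c := by
        congr 1
        refine lintegral_congr fun t => ?_
        rw [lintegral_const_mul]
        · congr 1
          have : ∀ x : ℝ, gs δ (t - x) = gs δ (x - t) := by
            intro x; rw [← gs_symm, neg_sub]
          simp_rw [this]
          exact gs_lintegral hδ t
        · exact (((gs_cont δ).comp (continuous_sub_left t)).measurable.ennreal_ofReal)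
    _ = (ENNReal.ofReal (K ^ 2) * c * c) * ∫⁻ t : ℝ, ‖h t‖ₑ ^ 2 := by
        rw [lintegral_mul_const _ (hm.enorm.pow_const 2)]; ring
    _ = _ := by
        congr 1
        rw [hc, ← ENNReal.ofReal_mul (by positivity), ← ENNReal.ofReal_mul (by positivity)]
        congr 1
        have := Real.mul_self_sqrt Real.pi_pos.le
        linear_combination (K ^ 2 * δ ^ 2) * this

/-- products of an `L²` function and a Gaussian -/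
lemma wt_mul_int {h : ℝ → ℂ} (hm : Measurable h) (h2 : Integrable (fun t => ‖h t‖ ^ 2)) {δ : ℝ} (hδ : 0 < δ)
    (x a : ℝ) : Integrable (fun t : ℝ => h t * wt δ x ⟨a, t⟩) := by
  set K : ℝ := Real.exp ((a - 1 / 2) ^ 2 / δ ^ 2) with hK
  have hK0 : 0 < K := Real.exp_pos _
  refine ((h2.add ((gs_integrable hδ x).const_mul (K ^ 2)))).mono'
    (hm.mul (wt_line_cont δ x a).measurable).aestronglyMeasurable (Eventually.of_forall fun t => ?_)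
  rw [norm_mul, wt_norm]
  simp only [Pi.add_apply]
  have h3 := gs_le_one δ (t - x)
  have h4 := gs_pos δ (t - x)
  have h5 : (K * gs δ (t - x)) ^ 2 ≤ K ^ 2 * gs δ (t - x) := by
    rw [mul_pow]
    have : gs δ (t - x) ^ 2 ≤ gs δ (t - x) := by nlinarith
    gcongr
  nlinarith [two_mul_le_add_sq ‖h t‖ (K * gs δ (t - x)), sq_nonneg ‖h t‖, sq_nonneg (K * gs δ (t - x))]

lemma mk_sub_ne {a : ℝ} (ha : a ≠ 1 / 2) {ρ : ℂ} (hρ : ρ.re = 1 / 2) (t : ℝ) :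
    (⟨a, t⟩ : ℂ) - ρ ≠ 0 ∧ |a - 1 / 2| ≤ ‖(⟨a, t⟩ : ℂ) - ρ‖ := by
  have h2 := Complex.abs_re_le_norm ((⟨a, t⟩ : ℂ) - ρ)
  rw [Complex.sub_re, hρ] at h2
  simp only at h2
  have h3 : 0 < |a - 1 / 2| := abs_pos.2 (sub_ne_zero.2 ha)
  exact ⟨norm_pos_iff.1 (h3.trans_le h2), h2⟩

lemma pole_int {a : ℝ} (ha : a ≠ 1 / 2) {ρ : ℂ} (hρ : ρ.re = 1 / 2) {δ : ℝ} (hδ : 0 < δ) (x : ℝ) :
    Integrable (fun t : ℝ => wt δ x ⟨a, t⟩ / ((⟨a, t⟩ : ℂ) - ρ)) := by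
  have h3 : 0 < |a - 1 / 2| := abs_pos.2 (sub_ne_zero.2 ha)
  refine ((gs_integrable hδ x).const_mul (Real.exp ((a - 1 / 2) ^ 2 / δ ^ 2) / |a - 1 / 2|)).mono'
    (Continuous.aestronglyMeasurable ?_) (Eventually.of_forall fun t => ?_)
  · exact (wt_line_cont δ x a).div ((mk_cont a).sub continuous_const) fun t => (mk_sub_ne ha hρ t).1
  · rw [norm_div, wt_norm, div_mul_eq_mul_div]
    exact div_le_div_of_nonneg_left (mul_nonneg (Real.exp_pos _).le (gs_pos _ _).le) h3 (mk_sub_ne ha hρ t).2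

lemma QZ_cont (hR : RHS) {Z : Finset ℂ} (hZ : ∀ ρ ∈ Z, ρ ∈ NT) {a : ℝ} (ha : a ≠ 1 / 2) :
    Continuous (fun t : ℝ => QZ Z ⟨a, t⟩) := by
  unfold QZ
  exact continuous_finsetSum _ fun ρ hρ => continuous_const.div ((mk_cont a).sub continuous_const)
    fun t => (mk_sub_ne ha (hR ρ (hZ ρ hρ)).1 t).1

lemma off_line (hR : RHS) {a : ℝ} (ha : a ≠ 1 / 2) (t : ℝ) : (⟨a, t⟩ : ℂ) ∉ NT := fun h => ha (hR _ h).1

lemma HH_cont' (hR : RHS) {a : ℝ} (ha : a ≠ 1 / 2) (h0 : 0 < a) : Continuous (fun t : ℝ => HH ⟨a, t⟩) :=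
  HH_line_cont (by linarith) h0.ne' (off_line hR ha)

lemma hh_cont (hR : RHS) {Z : Finset ℂ} (hZ : ∀ ρ ∈ Z, ρ ∈ NT) {a : ℝ} (ha : a ≠ 1 / 2) (h0 : 0 < a) :
    Continuous (fun t : ℝ => hh Z ⟨a, t⟩) :=
  (HH_cont' hR ha h0).sub (QZ_cont hR hZ ha)

lemma HH_sq_right (hR : RHS) {σ : ℝ} (h0 : 0 < σ) : Integrable (fun t : ℝ => ‖HH ⟨1 / 2 + σ, t⟩‖ ^ 2) := by
  have h := (line_planch hR (Z := ∅) (by simp) h0).1
  unfold hh QZ at h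
  simpa using h

lemma HH_sq_left (hR : RHS) {σ : ℝ} (h0 : 0 < σ) (h1 : σ ≤ 1 / 4) :
    Integrable (fun t : ℝ => ‖HH ⟨1 / 2 - σ, t⟩‖ ^ 2) := by
  refine ((HH_sq_right hR h0).const_mul (48 ^ 2)).mono'
    ((HH_cont' hR (by linarith) (by linarith)).norm.pow 2).aestronglyMeasurable (Eventually.of_forall fun t => ?_)
  rw [norm_pow, norm_norm, ← mul_pow]
  have := line_compare h0 h1 (t := t) (zeta_ne_of (by simp only; linarith) (off_line hR (by linarith) t))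
  gcongr

theorem SZ_sub {A : ℝ} (hA : ∀ ρ ∈ NT, ‖aa ρ‖ ≤ A) {Z : Finset ℂ} (hZ : ∀ ρ ∈ Z, ρ ∈ NT)
    {δ : ℝ} (hδ : 0 < δ) (x : ℝ) : SZ Z δ x = SZ ∅ δ x - ∑ ρ ∈ Z, aa ρ * (gs δ (ρ.im - x) : ℂ) := by
  classical
  have h0 := aZ_summable hδ x ∅ hA
  unfold SZ
  have h2 : ∑ ρ ∈ Z, aa ρ * (gs δ (ρ.im - x) : ℂ) =
      ∑' ρ : NT, (if (ρ : ℂ) ∈ Z then aa ρ * (gs δ ((ρ : ℂ).im - x) : ℂ) else 0) := by
    rw [tsum_eq_sum (s := Z.subtype (fun s => s ∈ NT)) (by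
      intro ρ hρ
      rw [Finset.mem_subtype] at hρ
      rw [if_neg hρ])]
    rw [Finset.sum_subtype_eq_sum_filter (s := Z) (p := fun s => s ∈ NT)
      (f := fun s : ℂ => if s ∈ Z then aa s * (gs δ (s.im - x) : ℂ) else 0)]
    rw [Finset.filter_true_of_mem hZ]
    refine Finset.sum_congr rfl fun ρ hρ => ?_
    rw [if_pos hρ]
  have h3 : Summable (fun ρ : NT => (if (ρ : ℂ) ∈ Z then aa ρ * (gs δ ((ρ : ℂ).im - x) : ℂ) else 0)) := by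
    apply summable_of_ne_finset_zero (s := Z.subtype (fun s => s ∈ NT))
    intro ρ hρ
    rw [Finset.mem_subtype] at hρ
    rw [if_neg hρ]
  rw [h2, ← h0.tsum_sub h3]
  refine tsum_congr fun ρ => ?_
  unfold aZ
  by_cases h : (ρ : ℂ) ∈ Z
  · simp [h]
  · simp [h]

theorem SZ_line (hR : RHS) {A : ℝ} (hA : ∀ ρ ∈ NT, ‖aa ρ‖ ≤ A) {Z : Finset ℂ} (hZ : ∀ ρ ∈ Z, ρ ∈ NT)
    {δ : ℝ} (hδ : 0 < δ) (x : ℝ) {σ : ℝ} (h0 : 0 < σ) (h1 : σ ≤ 1 / 4) :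
    2 * Real.pi * SZ Z δ x = (∫ t : ℝ, hh Z ⟨1 / 2 + σ, t⟩ * wt δ x ⟨1 / 2 + σ, t⟩) -
      ∫ t : ℝ, hh Z ⟨1 / 2 - σ, t⟩ * wt δ x ⟨1 / 2 - σ, t⟩ := by
  have hsum : HasSum (fun ρ : NT => aa ρ * (gs δ ((ρ : ℂ).im - x) : ℂ)) (SZ ∅ δ x) := by
    have h := (aZ_summable hδ x ∅ hA).hasSum
    have e : ∀ ρ : ℂ, aZ ∅ ρ = aa ρ := fun ρ => by unfold aZ; simp
    simp only [e] at h
    unfold SZ
    simp only [e]
    exact h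
  have n1 : (1:ℝ) / 2 + σ ≠ 1 / 2 := by linarith
  have n2 : (1:ℝ) / 2 - σ ≠ 1 / 2 := by linarith
  have i1 : Integrable (fun t : ℝ => HH ⟨1 / 2 + σ, t⟩ * wt δ x ⟨1 / 2 + σ, t⟩) :=
    wt_mul_int (HH_cont' hR n1 (by linarith)).measurable (HH_sq_right hR h0) hδ x _
  have i2 : Integrable (fun t : ℝ => HH ⟨1 / 2 - σ, t⟩ * wt δ x ⟨1 / 2 - σ, t⟩) :=
    wt_mul_int (HH_cont' hR n2 (by linarith)).measurable (HH_sq_left hR h0 h1) hδ x _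
  have key := contour_near hR hδ x h0 (by linarith) i2 i1 hsum
  have hQ : ∀ a : ℝ, a ≠ 1 / 2 → ∀ t : ℝ, QZ Z ⟨a, t⟩ * wt δ x ⟨a, t⟩ =
      ∑ ρ ∈ Z, aa ρ * (wt δ x ⟨a, t⟩ / ((⟨a, t⟩ : ℂ) - ρ)) := by
    intro a ha t
    unfold QZ
    rw [Finset.sum_mul]
    exact Finset.sum_congr rfl fun ρ _ => by ring
  have hI : ∀ a : ℝ, a ≠ 1 / 2 → Integrable (fun t : ℝ => QZ Z ⟨a, t⟩ * wt δ x ⟨a, t⟩) := by
    intro a ha
    simp_rw [hQ a ha]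
    exact integrable_finsetSum _ fun ρ hρ => (pole_int ha (hR ρ (hZ ρ hρ)).1 hδ x).const_mul _
  have hV : ∀ a : ℝ, a ≠ 1 / 2 → ∫ t : ℝ, QZ Z ⟨a, t⟩ * wt δ x ⟨a, t⟩ =
      ∑ ρ ∈ Z, aa ρ * ∫ t : ℝ, (wt δ x ⟨a, t⟩ / ((⟨a, t⟩ : ℂ) - ρ)) := by
    intro a ha
    simp_rw [hQ a ha]
    rw [integral_finsetSum _ fun ρ hρ => (pole_int ha (hR ρ (hZ ρ hρ)).1 hδ x).const_mul _]
    exact Finset.sum_congr rfl fun ρ _ => integral_const_mul _ _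
  have e1 : ∀ a : ℝ, a ≠ 1 / 2 → Integrable (fun t : ℝ => HH ⟨a, t⟩ * wt δ x ⟨a, t⟩) →
      ∫ t : ℝ, hh Z ⟨a, t⟩ * wt δ x ⟨a, t⟩ = (∫ t : ℝ, HH ⟨a, t⟩ * wt δ x ⟨a, t⟩) -
        ∑ ρ ∈ Z, aa ρ * ∫ t : ℝ, (wt δ x ⟨a, t⟩ / ((⟨a, t⟩ : ℂ) - ρ)) := by
    intro a ha hi
    rw [← hV a ha, ← integral_sub hi (hI a ha)]
    refine integral_congr_ae (Eventually.of_forall fun t => ?_)
    simp only
    unfold hh
    ring
  rw [e1 _ n1 i1, e1 _ n2 i2, SZ_sub hA hZ hδ x]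
  have e2 : ∑ ρ ∈ Z, aa ρ * (∫ t : ℝ, (wt δ x ⟨1 / 2 + σ, t⟩ / ((⟨1 / 2 + σ, t⟩ : ℂ) - ρ))) -
      ∑ ρ ∈ Z, aa ρ * (∫ t : ℝ, (wt δ x ⟨1 / 2 - σ, t⟩ / ((⟨1 / 2 - σ, t⟩ : ℂ) - ρ))) =
      2 * Real.pi * ∑ ρ ∈ Z, aa ρ * (gs δ (ρ.im - x) : ℂ) := by
    rw [← Finset.sum_sub_distrib, Finset.mul_sum]
    refine Finset.sum_congr rfl fun ρ hρ => ?_
    rw [← mul_sub, contour_pole hδ x h0 (by linarith) (hR ρ (hZ ρ hρ)).1]
    ring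
  linear_combination (-1 : ℂ) * key + e2

/-- the Gaussian mean square is bounded by the mean squares on the two lines -/
theorem GE_line (hR : RHS) {A : ℝ} (hA : ∀ ρ ∈ NT, ‖aa ρ‖ ≤ A) {Z : Finset ℂ} (hZ : ∀ ρ ∈ Z, ρ ∈ NT)
    {δ : ℝ} (hδ : 0 < δ) (hδ1 : δ ≤ 1) :
    GE Z δ ≤ ENNReal.ofReal (δ ^ 2 / 4) * ((∫⁻ t : ℝ, ‖hh Z ⟨1 / 2 + δ / 4, t⟩‖ₑ ^ 2) +
      ∫⁻ t : ℝ, ‖hh Z ⟨1 / 2 - δ / 4, t⟩‖ₑ ^ 2) := by
  set K : ℝ := Real.exp (1 / 16) with hK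
  have hK0 : 0 < K := Real.exp_pos _
  have hσ : 0 < δ / 4 := by positivity
  have hw : ∀ a : ℝ, (a - 1 / 2) ^ 2 = (δ / 4) ^ 2 → ∀ x t : ℝ, ‖wt δ x ⟨a, t⟩‖ ≤ K * gs δ (t - x) := by
    intro a ha x t
    rw [wt_norm, ha, hK]
    have : (δ / 4) ^ 2 / δ ^ 2 = 1 / 16 := by field_simp; norm_num
    rw [this]
  have n1 : (1:ℝ) / 2 + δ / 4 ≠ 1 / 2 := by linarith
  have n2 : (1:ℝ) / 2 - δ / 4 ≠ 1 / 2 := by linarith
  have y1 := young (w := fun x t => wt δ x ⟨1 / 2 + δ / 4, t⟩) (hh_cont hR hZ n1 (by linarith)).measurable hδ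
    hK0.le (hw (1 / 2 + δ / 4) (by ring))
  have y2 := young (w := fun x t => wt δ x ⟨1 / 2 - δ / 4, t⟩) (hh_cont hR hZ n2 (by linarith)).measurable hδ
    hK0.le (hw (1 / 2 - δ / 4) (by ring))
  have hpt : ∀ x : ℝ, ‖SZ Z δ x‖ₑ ^ 2 ≤ ENNReal.ofReal (1 / (2 * Real.pi ^ 2)) *
      (‖∫ t : ℝ, hh Z ⟨1 / 2 + δ / 4, t⟩ * wt δ x ⟨1 / 2 + δ / 4, t⟩‖ₑ ^ 2 +
      ‖∫ t : ℝ, hh Z ⟨1 / 2 - δ / 4, t⟩ * wt δ x ⟨1 / 2 - δ / 4, t⟩‖ₑ ^ 2) := by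
    intro x
    have h2 := SZ_line hR hA hZ hδ x hσ (by linarith)
    set X := ∫ t : ℝ, hh Z ⟨1 / 2 + δ / 4, t⟩ * wt δ x ⟨1 / 2 + δ / 4, t⟩
    set Y := ∫ t : ℝ, hh Z ⟨1 / 2 - δ / 4, t⟩ * wt δ x ⟨1 / 2 - δ / 4, t⟩
    have h3 : 2 * Real.pi * ‖SZ Z δ x‖ = ‖X - Y‖ := by
      rw [← h2, norm_mul, norm_mul, Complex.norm_real, Real.norm_of_nonneg Real.pi_pos.le]
      norm_num
    have h4 : ‖SZ Z δ x‖ ^ 2 ≤ 1 / (2 * Real.pi ^ 2) * (‖X‖ ^ 2 + ‖Y‖ ^ 2) := by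
      have h5 := norm_sub_le X Y
      have h6 : (2 * Real.pi * ‖SZ Z δ x‖) ^ 2 ≤ 2 * (‖X‖ ^ 2 + ‖Y‖ ^ 2) := by
        rw [h3]
        nlinarith [sq_nonneg (‖X‖ - ‖Y‖), norm_nonneg (X - Y), norm_nonneg X, norm_nonneg Y]
      have hp : 0 < 2 * Real.pi ^ 2 := by have := Real.pi_pos; positivity
      rw [one_div, ← div_eq_inv_mul, le_div_iff₀ hp]
      nlinarith
    rw [← ofReal_norm, ← ofReal_norm, ← ofReal_norm, ← ENNReal.ofReal_pow (norm_nonneg _),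
      ← ENNReal.ofReal_pow (norm_nonneg _), ← ENNReal.ofReal_pow (norm_nonneg _),
      ← ENNReal.ofReal_add (by positivity) (by positivity), ← ENNReal.ofReal_mul (by positivity)]
    exact ENNReal.ofReal_le_ofReal h4
  have hKb : K ^ 2 ≤ 3 / 2 := by
    rw [hK, ← Real.exp_nat_mul]
    have h1 : Real.exp ((2:ℕ) * (1 / 16)) ≤ 1 / (1 - (2:ℕ) * (1 / 16)) := by
      have := Real.one_sub_le_exp_neg (((2:ℕ):ℝ) * (1 / 16))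
      rw [Real.exp_neg] at this
      rw [le_div_iff₀ (by norm_num)]
      have h2 := Real.exp_pos (((2:ℕ):ℝ) * (1 / 16))
      rw [mul_comm]
      calc (1 - ((2:ℕ):ℝ) * (1 / 16)) * Real.exp ((2:ℕ) * (1 / 16)) ≤
          (Real.exp ((2:ℕ) * (1 / 16)))⁻¹ * Real.exp ((2:ℕ) * (1 / 16)) := by gcongr
        _ = 1 := inv_mul_cancel₀ h2.ne'
    refine h1.trans ?_
    norm_num
  have hconst : 1 / (2 * Real.pi ^ 2) * (K ^ 2 * Real.pi * δ ^ 2) ≤ δ ^ 2 / 4 := by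
    have h3 := Real.pi_gt_three
    have hp := Real.pi_pos
    have : 1 / (2 * Real.pi ^ 2) * (K ^ 2 * Real.pi * δ ^ 2) = (K ^ 2 / (2 * Real.pi)) * δ ^ 2 := by
      field_simp
    rw [this]
    have h4 : K ^ 2 / (2 * Real.pi) ≤ 1 / 4 := by
      rw [div_le_div_iff₀ (by positivity) (by norm_num)]
      nlinarith
    nlinarith [sq_nonneg δ]
  unfold GE
  calc ∫⁻ x : ℝ, ‖SZ Z δ x‖ₑ ^ 2 ≤ ∫⁻ x : ℝ, ENNReal.ofReal (1 / (2 * Real.pi ^ 2)) *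
      (‖∫ t : ℝ, hh Z ⟨1 / 2 + δ / 4, t⟩ * wt δ x ⟨1 / 2 + δ / 4, t⟩‖ₑ ^ 2 +
      ‖∫ t : ℝ, hh Z ⟨1 / 2 - δ / 4, t⟩ * wt δ x ⟨1 / 2 - δ / 4, t⟩‖ₑ ^ 2) := lintegral_mono hpt
    _ = ENNReal.ofReal (1 / (2 * Real.pi ^ 2)) *
      ((∫⁻ x : ℝ, ‖∫ t : ℝ, hh Z ⟨1 / 2 + δ / 4, t⟩ * wt δ x ⟨1 / 2 + δ / 4, t⟩‖ₑ ^ 2) +
      ∫⁻ x : ℝ, ‖∫ t : ℝ, hh Z ⟨1 / 2 - δ / 4, t⟩ * wt δ x ⟨1 / 2 - δ / 4, t⟩‖ₑ ^ 2) := by
        rw [lintegral_const_mul' _ _ ENNReal.ofReal_ne_top, lintegral_add_left]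
        have hm : StronglyMeasurable (fun x : ℝ => ∫ t : ℝ, hh Z ⟨1 / 2 + δ / 4, t⟩ * wt δ x ⟨1 / 2 + δ / 4, t⟩) := by
          apply StronglyMeasurable.integral_prod_right' (f := fun p : ℝ × ℝ =>
            hh Z ⟨1 / 2 + δ / 4, p.2⟩ * wt δ p.1 ⟨1 / 2 + δ / 4, p.2⟩)
          apply Continuous.stronglyMeasurable
          refine ((hh_cont hR hZ n1 (by linarith)).comp continuous_snd).mul ?_
          unfold wt
          have h1 := (mk_cont (1 / 2 + δ / 4)).comp (continuous_snd (X := ℝ) (Y := ℝ))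
          have h2 : Continuous (fun p : ℝ × ℝ => (p.1 : ℂ)) := Complex.continuous_ofReal.comp continuous_fst
          exact Complex.continuous_exp.comp ((((h1.sub continuous_const).sub (h2.mul continuous_const)).pow 2).div_const _)
        exact hm.measurable.enorm.pow_const 2
    _ ≤ ENNReal.ofReal (1 / (2 * Real.pi ^ 2)) *
      (ENNReal.ofReal (K ^ 2 * Real.pi * δ ^ 2) * (∫⁻ t : ℝ, ‖hh Z ⟨1 / 2 + δ / 4, t⟩‖ₑ ^ 2) +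
      ENNReal.ofReal (K ^ 2 * Real.pi * δ ^ 2) * ∫⁻ t : ℝ, ‖hh Z ⟨1 / 2 - δ / 4, t⟩‖ₑ ^ 2) := by gcongr
    _ = ENNReal.ofReal (1 / (2 * Real.pi ^ 2) * (K ^ 2 * Real.pi * δ ^ 2)) *
      ((∫⁻ t : ℝ, ‖hh Z ⟨1 / 2 + δ / 4, t⟩‖ₑ ^ 2) + ∫⁻ t : ℝ, ‖hh Z ⟨1 / 2 - δ / 4, t⟩‖ₑ ^ 2) := by
        rw [ENNReal.ofReal_mul (p := 1 / (2 * Real.pi ^ 2)) (by positivity)]; ring
    _ ≤ _ := by
        gcongr

end

end Pool.Agent.Helper37.WMH
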